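import Pool.Agent.Helper31.EC.Cpy

/-! Exact entropy calculus: conditional independence, families of functions, copies over finite families. -/

set_option autoImplicit false

namespace Pool.Agent.Helper38.NS

open Pool.Agent.Helper31.EC

section PMs

variable {L : Type*} [PM L]

/-- weak union, functions of both sides -/
theorem ind_of {A A' W B C C' : L} (h : I A W C = 0) (h1 : C ≤ C') (h2 : C' ≤ W ⊔ C)
    (hA : A' ≤ A ⊔ C') (hB : B ≤ W ⊔ C') : I A' B C' = 0 := by
  have e1 : I A (C' ⊔ W) C = 0 := I_zero_mono h le_sup_left (by order)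
  have e2 := (I_decomp e1).2
  have e3 : C' ⊔ C = C' := sup_eq_left.mpr h1
  rw [e3] at e2
  exact I_zero_mono e2 hA hB

/-- contraction -/
theorem ind_add {A B D C C' : L} (h1 : I A B C = 0) (h2 : I A D C' = 0) (hC : C' = B ⊔ C) :
    I A (B ⊔ D) C = 0 := I_contract h1 (by rw [← hC]; exact h2)

theorem ind_symm {A B C : L} (h : I A B C = 0) : I B A C = 0 := by rw [I_comm]; exact h

/-- independence does not change the entropy -/
theorem h_of_ind {A B C C' : L} (h : I A B C = 0) (h1 : C ≤ C') (h2 : C' ≤ B ⊔ C) :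
    PM.H (A ⊔ C') - PM.H C' = PM.H (A ⊔ C) - PM.H C := by
  have e1 : I A C' C = 0 := I_zero_mono h le_sup_left h2
  have e2 := I_zero_iff_h.mp e1
  have e3 : C' ⊔ C = C' := sup_eq_left.mpr h1
  rw [e3] at e2
  exact e2

theorem h_of_ind' {A B C C' : L} (h : I A B C = 0) (h1 : C ≤ C') (h2 : C' ≤ B ⊔ C) :
    Pool.Agent.Helper31.EC.h A C' = Pool.Agent.Helper31.EC.h A C := h_of_ind h h1 h2

/-- from entropies to independence -/
theorem ind_of_h {A B C : L} (h1 : Pool.Agent.Helper31.EC.h A C ≤
    Pool.Agent.Helper31.EC.h A (B ⊔ C)) : I A B C = 0 := by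
  rw [I_zero_iff_h]
  exact le_antisymm (h_anti le_sup_right) h1

end PMs

section Vd

open QS

variable {S : Sp}

theorem vd_sum {ι κ : Type} [Fintype ι] [Fintype κ] (f : ι → QS S) (g : κ → QS S) (r : ℝ) :
    vd (Sum.elim f g) r = vd f r ⊔ vd g r := by
  apply le_antisymm
  · rw [vd_le]
    rintro (i | i)
    · exact (dg_le_vd f r i).trans le_sup_left
    · exact (dg_le_vd g r i).trans le_sup_right
  · apply sup_le
    · rw [vd_le]
      exact fun i => dg_le_vd (Sum.elim f g) r (Sum.inl i)
    · rw [vd_le]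
      exact fun i => dg_le_vd (Sum.elim f g) r (Sum.inr i)

theorem vd_unit (z : QS S) (r : ℝ) : vd (fun _ : Unit => z) r = dg z r := by
  apply le_antisymm
  · rw [vd_le]
    exact fun _ => le_rfl
  · exact dg_le_vd (fun _ : Unit => z) r ()

theorem vd_congr {ι : Type} [Fintype ι] {f g : ι → QS S} (h : ∀ i, f i = g i) (r : ℝ) :
    vd f r = vd g r := by
  have h1 : f = g := funext h
  rw [h1]

/-- COPIES over a finite family of functions -/
theorem exists_copyF {W S : Sp} (p : Pj W S) {ι : Type} [Fintype ι] (f : ι → QS S) :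
    ∃ (D : Sp) (p1 : Pj D W) (p2 : Pj D S), (∀ i, p1.qs (p.qs (f i)) = p2.qs (f i)) ∧
      (∀ x y, I (p1.map x) (p2.map y) (p1.map (p.map (vd f 1))) = 0) ∧
      (∀ r, p1.map (p.map (vd f r)) = p2.map (vd f r)) := by
  obtain ⟨D, p1, p2, h1, h2⟩ := p.exists_copy (fun i => f ((Fintype.equivFin ι).symm i))
  have h3 : ∀ r, vd (fun i => f ((Fintype.equivFin ι).symm i)) r = vd f r := by
    intro r
    apply le_antisymm
    · rw [vd_le]
      exact fun i => dg_le_vd f r _
    · rw [vd_le]
      intro i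
      have h4 := dg_le_vd (fun i => f ((Fintype.equivFin ι).symm i)) r (Fintype.equivFin ι i)
      beta_reduce at h4
      rw [Equiv.symm_apply_apply] at h4
      exact h4
  have h5 : ∀ i, p1.qs (p.qs (f i)) = p2.qs (f i) := by
    intro i
    have h6 := h1 (Fintype.equivFin ι i)
    rw [Equiv.symm_apply_apply] at h6
    exact h6
  refine ⟨D, p1, p2, h5, ?_, ?_⟩
  · intro x y
    rw [← h3]
    exact h2 x y
  · intro r
    rw [← p.qs_vd, ← p1.qs_vd, ← p2.qs_vd]
    exact vd_congr h5 r

end Vd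

end Pool.Agent.Helper38.NS
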