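import Pool.Agent.Helper31.EC.Sep
import Pool.Agent.Helper19.SP.MvU
import Pool.Agent.Helper38.NS.Sg

/-! Exact entropy calculus: linear substitutions in polynomials with known coefficients. -/

set_option autoImplicit false

namespace Pool.Agent.Helper38.NS

open Pool.Agent.Helper31.EC QS

noncomputable section

variable {S : Sp}

/-- substitution of polynomials -/
theorem bind_mem {σ τ : Type} {A : S.L} (f : σ → MvPolynomial τ (QS S)) (hf : ∀ i, f i ∈ PK A)
    {P : MvPolynomial σ (QS S)} (hP : P ∈ PK A) : MvPolynomial.bind₁ f P ∈ PK A := by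
  rw [P.as_sum, map_sum]
  apply (PK A).sum_mem
  intro m _
  rw [MvPolynomial.bind₁_monomial]
  apply (PK A).mul_mem (C_mem (hP m))
  exact (PK A).prod_mem fun i _ => (PK A).pow_mem (hf i) _

theorem eval_bind {σ τ : Type} (f : σ → MvPolynomial τ (QS S)) (P : MvPolynomial σ (QS S))
    (x : τ → QS S) : MvPolynomial.eval x (MvPolynomial.bind₁ f P) =
      MvPolynomial.eval (fun i => MvPolynomial.eval x (f i)) P := by
  have h1 := MvPolynomial.eval₂Hom_bind₁ (RingHom.id (QS S)) x f P
  exact h1

theorem totalDegree_bind {σ τ : Type} (f : σ → MvPolynomial τ (QS S))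
    (hf : ∀ i, (f i).totalDegree ≤ 1) (P : MvPolynomial σ (QS S)) :
    (MvPolynomial.bind₁ f P).totalDegree ≤ P.totalDegree := by
  classical
  conv_lhs => rw [P.as_sum, map_sum]
  apply MvPolynomial.totalDegree_finsetSum_le
  intro m hm
  rw [MvPolynomial.bind₁_monomial]
  refine (MvPolynomial.totalDegree_mul _ _).trans ?_
  rw [MvPolynomial.totalDegree_C, zero_add]
  refine (MvPolynomial.totalDegree_finsetProd _ _).trans ?_
  refine le_trans ?_ (MvPolynomial.le_totalDegree hm)
  rw [Finsupp.sum]
  apply Finset.sum_le_sum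
  intro i _
  refine (MvPolynomial.totalDegree_pow _ _).trans ?_
  calc m i * (f i).totalDegree ≤ m i * 1 := Nat.mul_le_mul_left _ (hf i)
    _ = m i := mul_one _

/-- linear forms -/
def lf {n : Type} [Fintype n] (b : n → QS S) : MvPolynomial n (QS S) :=
  ∑ j, MvPolynomial.C (b j) * MvPolynomial.X j

theorem lf_mem {n : Type} [Fintype n] {A : S.L} {b : n → QS S} (hb : ∀ j, dg (b j) 1 ≤ A) :
    lf b ∈ PK A :=
  (PK A).sum_mem fun j _ => (PK A).mul_mem (C_mem (hb j)) (X_mem A j)

theorem eval_lf {n : Type} [Fintype n] (b x : n → QS S) :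
    MvPolynomial.eval x (lf b) = ∑ j, b j * x j := by
  unfold lf
  rw [map_sum]
  apply Finset.sum_congr rfl
  intro j _
  rw [map_mul, MvPolynomial.eval_C, MvPolynomial.eval_X]

theorem totalDegree_lf {n : Type} [Fintype n] (b : n → QS S) : (lf b).totalDegree ≤ 1 := by
  unfold lf
  apply MvPolynomial.totalDegree_finsetSum_le
  intro j _
  refine (MvPolynomial.totalDegree_mul _ _).trans ?_
  rw [MvPolynomial.totalDegree_C, zero_add, MvPolynomial.totalDegree_X]

/-- linear substitution -/
theorem lin_sub {m n : Type} [Fintype n] {A : S.L} (b : m → n → QS S)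
    (hb : ∀ i j, dg (b i j) 1 ≤ A) {P : MvPolynomial m (QS S)} (hP : P ∈ PK A) :
    ∃ R : MvPolynomial n (QS S), R ∈ PK A ∧ R.totalDegree ≤ P.totalDegree ∧
      ∀ x, MvPolynomial.eval x R = MvPolynomial.eval (fun i => ∑ j, b i j * x j) P := by
  refine ⟨MvPolynomial.bind₁ (fun i => lf (b i)) P, bind_mem _ (fun i => lf_mem (hb i)) hP,
    totalDegree_bind _ (fun i => totalDegree_lf (b i)) P, fun x => ?_⟩
  rw [eval_bind]
  exact congrArg (fun g => MvPolynomial.eval g P) (funext fun i => eval_lf (b i) x)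

end

end Pool.Agent.Helper38.NS
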