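import Pool.Agent.Helper38.NS.Bush
import Pool.Agent.Helper31.EC.Uns

/-! Exact entropy calculus: degenerate families on events of positive probability. -/

set_option autoImplicit false

namespace Pool.Agent.Helper38.NS

open Finset Filter Topology Pool.Agent.Helper69.RK
open Pool.Agent.Helper31.EC QS Sp

noncomputable section

variable {S : Sp}

theorem Ag_of_pt {f g : TR S} {r : ℝ}
    (h : ∀ᶠ k in UF, ∀ ω, (S.F k).μ ω ≠ 0 → |TR.ev f k ω - TR.ev g k ω| ≤ S.dl r k) :
    TR.Ag r f g := by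
  refine ⟨fun _ _ => True, fun _ => 1, Typ_true, S.Sub_const zero_le_one, ?_⟩
  filter_upwards [h] with k hk ω a _
  rw [one_mul]
  exact hk ω a

/-- small functions are small on events -/
theorem rest_mem_Id (E : ∀ k, (S.F k).Ω → Prop) (hE : 0 < ul (S.pr E)) {f : QS S} {r : ℝ}
    (hr : r ≤ 1) (h : f ∈ Id S r) : QS.rest E hE f ∈ Id (S.rest E) r := by
  obtain ⟨f, rfl⟩ := mk_surj f
  rw [mk_mem_Id hr] at h
  rw [QS.rest_mk, mk_mem_Id hr]
  have h1 := h.rest E hE
  rw [map_zero] at h1
  exact h1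

theorem isUnit_one_sub {f : QS S} {r : ℝ} (hr : 0 < r) (hf : f ∈ Id S r) : IsUnit (1 - f) := by
  have hr' : 0 < min r 1 := lt_min hr one_pos
  have h0 : f ∈ Id S (min r 1) := Id_anti (min_le_left _ _) hf
  obtain ⟨f, rfl⟩ := mk_surj f
  rw [mk_mem_Id (min_le_right _ _)] at h0
  have h1 := h0.levels (half_pos hr')
  have e : min r 1 - min r 1 / 2 = min r 1 / 2 := by ring
  rw [e] at h1
  have h2 : (1 : QS S) - QS.mk f = QS.mk (1 - f) := by rw [map_sub, map_one]
  rw [h2, isUnit_mk]
  refine ⟨fun _ => 2, S.Sub_const zero_le_two, h1.mono ?_⟩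
  filter_upwards [(S.Sub_const (show (0 : ℝ) ≤ 2 by norm_num)).eventually_le (half_pos hr')] with
    k hk ω _ hω
  rw [TR.ev_zero, sub_zero] at hω
  rw [TR.ev_sub, TR.ev_one]
  have e1 : S.dl (min r 1 / 2) k ≤ 1 / 2 := by
    have e2 : S.dl (min r 1 / 2) k * 2 ^ (min r 1 / 2 * (S.F k).n) = 1 := by
      unfold Sp.dl
      rw [← Real.rpow_add (by norm_num : (0 : ℝ) < 2)]
      simp
    have e3 := mul_le_mul_of_nonneg_left hk (S.dl_pos (min r 1 / 2) k).le
    linarith
  have h3 := abs_sub_abs_le_abs_sub (1 : ℝ) (TR.ev f k ω)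
  rw [abs_one] at h3
  linarith

theorem one_notMem_Id {r : ℝ} (hr : 0 < r) : (1 : QS S) ∉ Id S r := by
  intro h
  have h1 := isUnit_one_sub hr h
  rw [sub_self] at h1
  exact not_isUnit_zero h1

theorem not_unit_mem_Id {r : ℝ} (hr : 0 < r) {f : QS S} (hf : IsUnit f) (h : f ∈ Id S r) : False := by
  obtain ⟨g, hg⟩ := hf.exists_left_inv
  have h1 := (Id S r).mul_mem_left g h
  rw [hg] at h1
  exact one_notMem_Id hr h1

/-- a function which is a unit modulo small functions is a unit -/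
theorem isUnit_of_mod {r : ℝ} (hr : 0 < r) {f g : QS S} (h : g * f - 1 ∈ Id S r) : IsUnit f := by
  have h1 : -(g * f - 1) ∈ Id S r := (Id S r).neg_mem h
  have h2 := isUnit_one_sub hr h1
  have h3 : 1 - -(g * f - 1) = g * f := by ring
  rw [h3] at h2
  exact isUnit_of_mul_isUnit_right h2

theorem typ_false (h : Typ (S := S) (fun _ _ => False)) : False := by
  unfold Typ at h
  have h3 : ∀ k, mass (res (S.F k).μ (fun _ => ¬ False)) = 1 := by
    intro k
    have h4 : res (S.F k).μ (fun _ => ¬ False) = (S.F k).μ := by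
      funext ω
      exact res_pos _ _ ω not_false
    rw [h4, (S.F k).ms]
  simp only [h3] at h
  exact one_ne_zero (tendsto_nhds_unique tendsto_const_nhds h)

theorem rest_pos {E : ∀ k, (S.F k).Ω → Prop} (hE : 0 < ul (S.pr E)) :
    ∀ᶠ k in UF, ∀ ω, ((S.rest E).F k).μ ω ≠ 0 → (S.F k).μ ω ≠ 0 ∧ E k ω := by
  have h0 := ul_tendsto (UB_pr E)
  filter_upwards [h0.eventually (lt_mem_nhds hE)] with k hk ω hω
  have h1 := (S.F k).rest_supp (E k) ω hω
  exact ⟨h1.1, h1.2 hk.ne'⟩

/-- DICHOTOMY: some function of a finite family is a unit on an event of positive probability, or all of them are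
small on an event of positive probability -/
theorem dichotomy {n : ℕ} (ρ : Fin n → QS S) :
    (∃ (i : Fin n) (E : ∀ k, (S.F k).Ω → Prop) (hE : 0 < ul (S.pr E)),
      IsUnit (QS.rest E hE (ρ i))) ∨
    ∃ (δ : ℝ) (E : ∀ k, (S.F k).Ω → Prop) (hE : 0 < ul (S.pr E)), 0 < δ ∧ δ ≤ 1 ∧
      ∀ i, QS.rest E hE (ρ i) ∈ Id (S.rest E) δ := by
  obtain ⟨f, hf⟩ : ∃ f : Fin n → TR S, ∀ i, QS.mk (f i) = ρ i :=
    ⟨fun i => QS.rep (ρ i), fun i => QS.mk_rep (ρ i)⟩
  obtain ⟨E, hE⟩ : ∃ E : ℕ → ∀ k, (S.F k).Ω → Prop, ∀ j k ω,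
      E j k ω = ∀ i, |TR.ev (f i) k ω| ≤ S.dl (1 / ((j : ℝ) + 1)) k := ⟨_, fun _ _ _ => rfl⟩
  by_cases hj : ∃ j, 0 < ul (S.pr (E j))
  · right
    obtain ⟨j, hj⟩ := hj
    have hpos : (0 : ℝ) < 1 / ((j : ℝ) + 1) := by positivity
    have hle : 1 / ((j : ℝ) + 1) ≤ 1 := by
      rw [div_le_one (by positivity)]
      have : (0 : ℝ) ≤ j := Nat.cast_nonneg j
      linarith
    refine ⟨1 / ((j : ℝ) + 1), E j, hj, hpos, hle, fun i => ?_⟩
    rw [← hf i, QS.rest_mk, mk_mem_Id hle]
    apply Ag_of_pt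
    filter_upwards [rest_pos hj] with k hk ω hω
    have h1 := (hk ω hω).2
    rw [hE] at h1
    rw [TR.ev_zero, sub_zero]
    exact h1 i
  · left
    push Not at hj
    have h1 : ∀ j, Typ (fun k ω => ¬ E j k ω) := by
      intro j
      rcases typ_or (fun k ω => ¬ E j k ω) with h | h
      · exact h
      · exfalso
        have e : (fun k ω => ¬ ¬ E j k ω) = E j := by
          funext k ω
          exact propext not_not
        rw [e] at h
        exact absurd h (not_lt.mpr (hj j))
    obtain ⟨J, hJ, hT⟩ := typ_diag (fun j k ω => ¬ E j k ω) h1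
    obtain ⟨A, hA⟩ : ∃ A : Fin n → ∀ k, (S.F k).Ω → Prop, ∀ i k ω,
        A i k ω = (S.dl (1 / ((J k : ℝ) + 1)) k < |TR.ev (f i) k ω|) := ⟨_, fun _ _ _ => rfl⟩
    by_cases hi : ∃ i, 0 < ul (S.pr (A i))
    · obtain ⟨i, hi⟩ := hi
      refine ⟨i, A i, hi, ?_⟩
      rw [← hf i, QS.rest_mk, isUnit_mk]
      refine ⟨fun k => 2 ^ ((1 / ((J k : ℝ) + 1)) * (S.F k).n), (S.rest (A i)).Sub_diag hJ, ?_⟩
      apply (Typ_true (S := S.rest (A i))).mono
      filter_upwards [rest_pos hi] with k hk ω hω _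
      have h2 := (hk ω hω).2
      rw [hA] at h2
      have e2 : 2 ^ ((1 / ((J k : ℝ) + 1)) * (S.F k).n) * S.dl (1 / ((J k : ℝ) + 1)) k = 1 := by
        unfold Sp.dl
        rw [← Real.rpow_add (by norm_num : (0 : ℝ) < 2)]
        simp
      have h3 := mul_le_mul_of_nonneg_left h2.le
        (show (0 : ℝ) ≤ 2 ^ ((1 / ((J k : ℝ) + 1)) * (S.F k).n) by positivity)
      rw [e2] at h3
      exact h3
    · exfalso
      push Not at hi
      have h2 : ∀ i, Typ (fun k ω => ¬ A i k ω) := by
        intro i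
        rcases typ_or (fun k ω => ¬ A i k ω) with h | h
        · exact h
        · exfalso
          have e : (fun k ω => ¬ ¬ A i k ω) = A i := by
            funext k ω
            exact propext not_not
          rw [e] at h
          exact absurd h (not_lt.mpr (hi i))
      have h3 : ∀ s : Finset (Fin n), Typ (fun k ω => ∀ i ∈ s, ¬ A i k ω) := by
        intro s
        classical
        induction s using Finset.induction_on with
        | empty => exact Typ_true.mono (Eventually.of_forall fun k ω _ _ i hi => by simp at hi)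
        | insert a s ha ih =>
          refine ((h2 a).and ih).mono (Eventually.of_forall fun k ω _ h i hi => ?_)
          rcases Finset.mem_insert.mp hi with rfl | hi
          · exact h.1
          · exact h.2 i hi
      apply typ_false (S := S)
      refine ((h3 Finset.univ).and hT).mono (Eventually.of_forall fun k ω _ h => ?_)
      apply h.2
      rw [hE]
      intro i
      have h4 := h.1 i (Finset.mem_univ i)
      rw [hA] at h4
      exact not_lt.mp h4

end

end Pool.Agent.Helper38.NS
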