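import Pool.Agent.Helper38.NS.H1
import Pool.Agent.Helper31.EC.Uns

/-! Exact entropy calculus: statement (H1) from theorem W in the form WEC. -/

set_option autoImplicit false

namespace Pool.Agent.Helper38.NS

open Pool.Agent.Helper31.EC QS

noncomputable section

theorem dg_shift {S : Sp} (z f : QS S) {B : S.L} (hf : dg f 1 ≤ B) {r : ℝ} (hr : r ≤ 1) :
    dg (z + f) r ⊔ B = dg z r ⊔ B := by
  have a0 : dg f r ≤ dg f 1 := dg_mono f hr
  apply le_antisymm
  · have h1 := dg_add_le z f hr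
    order
  · have h1 := dg_sub_le (z + f) f hr
    rw [add_sub_cancel_right] at h1
    order

theorem UnS.shift {S : Sp} {z f : QS S} {B : S.L} {a0 c : ℝ} (hf : dg f 1 ≤ B)
    (h : UnS z B a0 c) : UnS (z + f) B a0 c := by
  intro T p E hE a b h1 h2 h3
  have h4 := h T p E hE a b h1 h2 h3
  have hf' : dg (p.qs f) 1 ≤ p.map B := by
    rw [p.qs_dg]
    exact p.map_mono hf
  have e1 : p.map (dg (z + f) a ⊔ B) = p.map (dg z a ⊔ B) := by
    rw [dg_shift z f hf (h2.trans h3)]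
  have e2 : p.map (dg (z + f) b) ⊔ p.map B = p.map (dg z b) ⊔ p.map B := by
    rw [← p.map_sup, ← p.map_sup, dg_shift z f hf h3]
  rw [e1]
  have e3 : Helper31.EC.h (Sp.restL E hE (p.map (dg (z + f) b))) (Sp.restL E hE (p.map (dg z a ⊔ B))) =
      Helper31.EC.h (Sp.restL E hE (p.map (dg z b))) (Sp.restL E hE (p.map (dg z a ⊔ B))) := by
    have hB : Sp.restL E hE (p.map B) ≤ Sp.restL E hE (p.map (dg z a ⊔ B)) :=
      Sp.restL_mono E hE (p.map_mono le_sup_right)
    have e4 := congrArg (Sp.restL E hE) e2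
    rw [Sp.restL_sup, Sp.restL_sup] at e4
    exact h_congr_left (by order) (by order)
  rw [e3]
  exact h4

/-- the predicate robustly unsaturated -/
def unP (c : ℝ) : UnP where
  un _ z B := UnS z B 0 c
  pull p _ _ h := h.pull p
  mono _ _ _ h1 h2 := h2.mono h1
  shift _ _ _ hf h := UnS.shift hf h

theorem wq_of_wec (hW : WEC) {c : ℝ} (hc : 0 < c) : WQ (unP c) := by
  rintro S B P Q T A T' C z z3 ⟨ι, _, f, rfl⟩ hT hA hT' hC e i1 i2 i3 h1 h2 hu
  have hV : vd ![T, A] 1 ≤ P ⊔ vd f 1 := by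
    rw [vd_le]
    intro i
    fin_cases i
    · exact hT
    · exact hA
  have hV' : vd ![T', C] 1 ≤ Q ⊔ vd f 1 := by
    rw [vd_le]
    intro i
    fin_cases i
    · exact hT'
    · exact hC
  refine hW S ι _ f z z3 ![T, A] ![T', C] c hc e ?_ ?_ ?_ h1 h2 hu
  · exact ind_of i1 le_rfl le_sup_right le_sup_left (by order)
  · exact ind_of i2 le_rfl le_sup_right le_sup_left (by order)
  · exact ind_of i3 le_rfl le_sup_right hV hV'

theorem realInv : RealInv := by
  intro S f hf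
  have h1 : IsUnit f := by
    have h2 : IsUnit (f - 0) := isUnit_sub (by
      have e : dg (0 : QS S) 1 = ⊥ := dg_of_mem_Id (Submodule.zero_mem (Id S 1)) le_rfl le_rfl
      rw [e, h_bot]
      exact hf)
    rwa [sub_zero] at h2
  obtain ⟨g, hg⟩ := h1.exists_left_inv
  exact ⟨g, hg, dg_inv_le hg le_rfl⟩

/-- statement (H1) of helper50 from theorem W -/
theorem FB.H1_of_wec (hW : WEC) {S : Sp} {d : ℕ} (s : FB S d) (hs : s.Hyp) {c : ℝ} (hc : 0 < c)
    (hu : UnS s.z (s.iY ⊔ s.iT) 0 c) (w : s.Star) :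
    ∃ (E : Sp) (p : Pj E w.D) (φ c : QS E),
      p.qs (w.p1.qs s.F) = c + φ * p.qs (w.p1.qs s.t) ∧
      dg φ 1 ≤ p.map (w.p2.map s.iL ⊔ w.p1.map s.iX) ∧
      dg c 1 ≤ p.map (w.p2.map s.iL ⊔ w.p1.map s.iX) :=
  FB.H1 (unP c) (wq_of_wec hW hc) realInv s hs hu w

end

end Pool.Agent.Helper38.NS
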