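import Pool.Agent.Helper38.NS.Noise
import Pool.Agent.Helper38.NS.HW

/-! Exact entropy calculus: theorem W for vectors (statement), common slopes, the end of the argument. -/

set_option autoImplicit false

namespace Pool.Agent.Helper38.NS

open Pool.Agent.Helper31.EC QS

noncomputable section

/-- theorem W for vectors, in the exact calculus: absorbed bilinear noise of a vector with deficit `ρ` at all levels
and full quotients vanishes to depth `θ` -/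
def WVQ (N : ℕ) (ρ θ : ℝ) : Prop :=
  ∀ (S : Sp) (ι : Type) (_ : Fintype ι) (f : ι → QS S) (P Q : S.L) (T T' : QS S)
    (A C z z3 : Fin N → QS S),
    dg T 1 ≤ P ⊔ vd f 1 → vd A 1 ≤ P ⊔ vd f 1 →
    dg T' 1 ≤ Q ⊔ vd f 1 → vd C 1 ≤ Q ⊔ vd f 1 →
    (∀ i, z3 i = z i + (T * C i - A i * T')) →
    I (vd z 1) (P ⊔ Q) (vd f 1) = 0 → I (vd z3 1) (P ⊔ Q) (vd f 1) = 0 → I P Q (vd f 1) = 0 →
    Helper31.EC.h (dg T 1) (vd f 1) = 1 → Helper31.EC.h (dg T' 1) (vd f 1) = 1 →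
    UQ S z (vd f 1) ρ → ∀ i, T * C i - A i * T' ∈ Id S θ

variable {S : Sp}

theorem dQ_le {x : QS S} {A : S.L} (h : dg x 1 ≤ A) (κ : ℝ) (h0 : 0 < κ) (h1 : κ ≤ 1) :
    dg (dQ κ h0 h1 x) 1 ≤ dL κ h0 A := by
  rw [dQ_dg κ h0 h1 _ le_rfl, mul_one]
  exact dL_mono κ h0 ((dg_mono x h1).trans h)

/-- common slopes: `T C = A T'` to depth `θ` gives `A = Φ T`, `C = Φ T'` with `Φ` known to the base -/
theorem exists_phi {ν : Type} [Fintype ν] {B P Q : S.L} {T T' : QS S} {A C : ν → QS S} {θ : ℝ}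
    (θ0 : 0 < θ) (θ1 : θ ≤ 1) (hT : dg T 1 ≤ P ⊔ B) (hA : vd A 1 ≤ P ⊔ B)
    (hT' : dg T' 1 ≤ Q ⊔ B) (hC : vd C 1 ≤ Q ⊔ B) (hPQ : I P Q B = 0)
    (rT : Helper31.EC.h (dg T 1) B = 1) (rT' : Helper31.EC.h (dg T' 1) B = 1)
    (he : ∀ i, T * C i - A i * T' ∈ Id S θ) :
    ∃ Φ : ν → QS (dp S θ θ0), (∀ i, dQ θ θ0 θ1 (A i) = Φ i * dQ θ θ0 θ1 T) ∧
      (∀ i, dQ θ θ0 θ1 (C i) = Φ i * dQ θ θ0 θ1 T') ∧ ∀ i, dg (Φ i) 1 ≤ dL θ θ0 B := by
  have HT : H (dg T 1) = 1 := by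
    apply le_antisymm (H_dg_le T zero_le_one)
    have h1 := h_le_H (dg T 1) B
    rw [rT] at h1
    exact h1
  have HT' : H (dg T' 1) = 1 := by
    apply le_antisymm (H_dg_le T' zero_le_one)
    have h1 := h_le_H (dg T' 1) B
    rw [rT'] at h1
    exact h1
  obtain ⟨G, hG, dG⟩ := realInv S T HT
  obtain ⟨G', hG', dG'⟩ := realInv S T' HT'
  have hg := congrArg (dQ θ θ0 θ1) hG
  have hg' := congrArg (dQ θ θ0 θ1) hG'
  rw [map_mul, map_one] at hg hg'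
  have e1 : ∀ i, dQ θ θ0 θ1 T * dQ θ θ0 θ1 (C i) = dQ θ θ0 θ1 (A i) * dQ θ θ0 θ1 T' := by
    intro i
    rw [← sub_eq_zero, ← map_mul, ← map_mul, ← map_sub, dQ_eq_zero]
    exact he i
  have e2 : ∀ i, dQ θ θ0 θ1 (A i) * dQ θ θ0 θ1 G = dQ θ θ0 θ1 (C i) * dQ θ θ0 θ1 G' := by
    intro i
    have h1 := e1 i
    calc dQ θ θ0 θ1 (A i) * dQ θ θ0 θ1 G =
        (dQ θ θ0 θ1 (A i) * dQ θ θ0 θ1 T') * dQ θ θ0 θ1 G * dQ θ θ0 θ1 G' := by
          linear_combination -(dQ θ θ0 θ1 (A i) * dQ θ θ0 θ1 G) * hg'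
      _ = (dQ θ θ0 θ1 T * dQ θ θ0 θ1 (C i)) * dQ θ θ0 θ1 G * dQ θ θ0 θ1 G' := by rw [h1]
      _ = _ := by linear_combination (dQ θ θ0 θ1 (C i) * dQ θ θ0 θ1 G') * hg
  refine ⟨fun i => dQ θ θ0 θ1 (A i) * dQ θ θ0 θ1 G, fun i => ?_, fun i => ?_, fun i => ?_⟩
  · beta_reduce
    linear_combination -(dQ θ θ0 θ1 (A i)) * hg
  · beta_reduce
    rw [e2]
    linear_combination -(dQ θ θ0 θ1 (C i)) * hg'
  · have a1 : dg (dQ θ θ0 θ1 (A i) * dQ θ θ0 θ1 G) 1 ≤ dL θ θ0 P ⊔ dL θ θ0 B := by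
      rw [← dL_sup]
      apply (Kn (dp S θ θ0) 1 le_rfl _).mul_mem
      · exact dQ_le ((dg_le_vd A 1 i).trans hA) θ θ0 θ1
      · exact dQ_le (dG.trans hT) θ θ0 θ1
    have a2 : dg (dQ θ θ0 θ1 (A i) * dQ θ θ0 θ1 G) 1 ≤ dL θ θ0 Q ⊔ dL θ θ0 B := by
      rw [← dL_sup, e2]
      apply (Kn (dp S θ θ0) 1 le_rfl _).mul_mem
      · exact dQ_le ((dg_le_vd C 1 i).trans hC) θ θ0 θ1
      · exact dQ_le (dG'.trans hT') θ θ0 θ1
    exact le_of_markov a1 a2 (dL_I_zero θ θ0 hPQ)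

/-- THE END: a vector of length at least two with full quotients is not known to its base at any depth -/
theorem UQ.not_known {ν : Type} [Fintype ν] {z : ν → QS S} {B : S.L} {ρ : ℝ} (hu : UQ S z B ρ)
    (hν : 2 ≤ Fintype.card ν) {κ : ℝ} (κ0 : 0 < κ) (κ1 : κ ≤ 1) {W : Sp} (r : Pj W S)
    (hk : vd (fun i => r.qs (z i)) κ ≤ r.map B) : False := by
  classical
  obtain ⟨a⟩ : Nonempty ν := Fintype.card_pos_iff.mp (by omega)
  have h1 := hu.Q W r ⊥ (fun i => if i = a then 1 else 0) a κ κ0.le κ1 (by unfold I; rw [sup_bot_eq, bot_sup_eq]; ring)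
    (fun i => by
      split_ifs
      · exact (Kn W 1 le_rfl _).one_mem
      · exact (Kn W 1 le_rfl _).zero_mem)
    (by
      rw [if_pos rfl]
      exact isUnit_one)
  have h2 : Helper31.EC.h (vd (fun i => r.qs (z i) * (if a = a then 1 else 0) -
      r.qs (z a) * (if i = a then 1 else 0)) κ) (r.map B ⊔ ⊥) = 0 := by
    apply h_zero
    rw [sup_bot_eq, vd_le]
    intro i
    have k1 : ∀ j, dg (r.qs (z j)) κ ≤ r.map B := fun j =>
      (dg_le_vd (fun i => r.qs (z i)) κ j).trans hk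
    rw [if_pos rfl, mul_one]
    apply (Kn W κ κ1 _).sub_mem (k1 i)
    split_ifs
    · rw [mul_one]
      exact k1 a
    · rw [mul_zero]
      exact (Kn W κ κ1 _).zero_mem
  rw [h2] at h1
  have h3 : (2 : ℝ) ≤ Fintype.card ν := by exact_mod_cast hν
  nlinarith

end

end Pool.Agent.Helper38.NS
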