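import Pool.Agent.Helper38.NS.Und

/-! Exact entropy calculus: vectors with a deficit at the finest levels, all quotients by real vectors being full. -/

set_option autoImplicit false

namespace Pool.Agent.Helper38.NS

open Filter Topology Pool.Agent.Helper69.RK
open Pool.Agent.Helper31.EC QS Sp

noncomputable section

/-- the vector `z` over `B`: (U) cumulative deficit `ρ` on all events, (Q) quotients by real vectors are full
(cumulative form; the form with intervals of levels is `UQi`) -/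
structure UQ (S : Sp) {ν : Type} [Fintype ν] (z : ν → QS S) (B : S.L) (ρ : ℝ) : Prop where
  U : ∀ (T : Sp) (p : Pj T S) (E : ∀ k, (T.F k).Ω → Prop) (hE : 0 < ul (T.pr E)) (k : ℝ),
    0 ≤ k → k ≤ 1 → Helper31.EC.h (restL E hE (p.map (vd z k))) (restL E hE (p.map B)) ≤
      (Fintype.card ν - ρ) * k
  Q : ∀ (T : Sp) (p : Pj T S) (X : T.L) (w : ν → QS T) (a : ν) (k : ℝ), 0 ≤ k → k ≤ 1 →
    I (p.map (vd z k)) X (p.map B) = 0 → (∀ i, dg (w i) 1 ≤ p.map B ⊔ X) → IsUnit (w a) →
    Helper31.EC.h (vd (fun i => p.qs (z i) * w a - p.qs (z a) * w i) k) (p.map B ⊔ X) =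
      (Fintype.card ν - 1) * k

variable {S : Sp} {ν : Type} [Fintype ν] {z : ν → QS S} {B : S.L} {ρ : ℝ}

theorem vd_zero_level {ι : Type} [Fintype ι] (f : ι → QS S) : vd f 0 = ⊥ := by
  apply le_antisymm _ bot_le
  rw [vd_le]
  intro i
  rw [dg_nonpos _ le_rfl]

theorem UQ.pull (hu : UQ S z B ρ) {T : Sp} (p : Pj T S) :
    UQ T (fun i => p.qs (z i)) (p.map B) ρ where
  U := by
    intro R q E hE k h0 h1
    have h2 := hu.U R (q.comp p) E hE k h0 h1
    rw [Pj.comp_map, Pj.comp_map] at h2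
    rw [p.qs_vd]
    exact h2
  Q := by
    intro R q X w a k h0 h1 h2 h3 h4
    rw [p.qs_vd, ← Pj.comp_map, ← Pj.comp_map] at h2
    rw [← Pj.comp_map] at h3
    have h5 := hu.Q R (q.comp p) X w a k h0 h1 h2 h3 h4
    rw [← Pj.comp_map]
    rw [← h5]
    congr 2
    funext i
    rw [Pj.comp_qs, Pj.comp_qs]

/-- enlarging the base by independent informations -/
theorem UQ.mono (hu : UQ S z B ρ) {B' : S.L} (hB : B ≤ B') (hi : I (vd z 1) B' B = 0) :
    UQ S z B' ρ where
  U := by
    intro T p E hE k h0 h1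
    exact (h_anti (restL_mono E hE (p.map_mono hB))).trans (hu.U T p E hE k h0 h1)
  Q := by
    intro T p X w a k h0 h1 h2 h3 h4
    have hB' := p.map_mono hB
    have h5 : I (p.map (vd z k)) (p.map B') (p.map B) = 0 := by
      rw [p.I_map]
      exact I_zero_mono hi ((vd_mono z h1).trans le_sup_left) le_sup_left
    have h6 := ind_add h5 h2 (by order)
    have h7 := hu.Q T p (p.map B' ⊔ X) w a k h0 h1 h6 (fun i => (h3 i).trans le_sup_right) h4
    have h8 : p.map B ⊔ (p.map B' ⊔ X) = p.map B' ⊔ X := by order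
    rw [h8] at h7
    exact h7

theorem vd_shift {ι : Type} [Fintype ι] (z f : ι → QS S) {B : S.L} {r : ℝ} (hr : r ≤ 1)
    (hf : ∀ i, dg (f i) 1 ≤ B) : vd (fun i => z i + f i) r ⊔ B = vd z r ⊔ B := by
  have a0 : ∀ i, dg (f i) r ≤ B := fun i => (dg_mono (f i) hr).trans (hf i)
  apply le_antisymm
  · apply sup_le _ le_sup_right
    rw [vd_le]
    intro i
    exact (dg_add_le _ _ hr).trans (sup_le ((dg_le_vd z r i).trans le_sup_left) ((a0 i).trans le_sup_right))
  · apply sup_le _ le_sup_right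
    rw [vd_le]
    intro i
    have h1 := dg_sub_le (z i + f i) (f i) hr
    rw [add_sub_cancel_right] at h1
    exact h1.trans (sup_le ((dg_le_vd (fun i => z i + f i) r i).trans le_sup_left)
      ((a0 i).trans le_sup_right))

/-- shifting by base functions -/
theorem UQ.shift (hu : UQ S z B ρ) {f : ν → QS S} (hf : ∀ i, dg (f i) 1 ≤ B) :
    UQ S (fun i => z i + f i) B ρ where
  U := by
    intro T p E hE k h0 h1
    have h2 := hu.U T p E hE k h0 h1
    refine le_trans (le_of_eq ?_) h2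
    have h3 := congrArg (fun x => restL E hE (p.map x)) (vd_shift z f h1 hf)
    beta_reduce at h3
    rw [p.map_sup, p.map_sup, restL_sup, restL_sup] at h3
    exact h_congr_left (by order) (by order)
  Q := by
    intro T p X w a k h0 h1 h2 h3 h4
    have e1 := congrArg p.map (vd_shift z f h1 hf)
    rw [p.map_sup, p.map_sup] at e1
    have h5 : I (p.map (vd z k)) X (p.map B) = 0 := I_zero_mono h2 (by order) le_sup_left
    have h6 := hu.Q T p X w a k h0 h1 h5 h3 h4
    rw [← h6]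
    have hpf : ∀ i, dg (p.qs (f i)) 1 ≤ p.map B ⊔ X := by
      intro i
      rw [p.qs_dg]
      exact (p.map_mono (hf i)).trans le_sup_left
    have e2 := vd_shift (fun i => p.qs (z i) * w a - p.qs (z a) * w i)
      (fun i => p.qs (f i) * w a - p.qs (f a) * w i) (B := p.map B ⊔ X) h1 (fun i => by
        apply (Kn T 1 le_rfl _).sub_mem
        · exact (Kn T 1 le_rfl _).mul_mem (hpf i) (h3 a)
        · exact (Kn T 1 le_rfl _).mul_mem (hpf a) (h3 i))
    have e3 : (fun i => p.qs (z i) * w a - p.qs (z a) * w i + (p.qs (f i) * w a - p.qs (f a) * w i)) =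
        fun i => p.qs (z i + f i) * w a - p.qs (z a + f a) * w i := by
      funext i
      rw [map_add, map_add]
      ring
    rw [e3] at e2
    exact h_congr_left (by order) (by order)

/-- DEPTH CHANGE -/
theorem UQ.dp (hu : UQ S z B ρ) (κ : ℝ) (h0 : 0 < κ) (h1 : κ ≤ 1) :
    UQ (dp S κ h0) (fun i => dQ κ h0 h1 (z i)) (dL κ h0 B) ρ where
  U := by
    intro T p E hE k k0 k1
    rw [dQ_vd κ h0 h1 z k1, h_undo]
    have hk : κ * k ≤ 1 := by
      calc κ * k ≤ 1 * 1 := mul_le_mul h1 k1 k0 zero_le_one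
        _ = 1 := one_mul 1
    have h2 := hu.U (uS p) (uP p) E hE (κ * k) (mul_nonneg h0.le k0) hk
    rw [div_le_iff₀ h0]
    refine h2.trans (le_of_eq ?_)
    ring
  Q := by
    intro T p X w a k k0 k1 h2 h3 h4
    have hk : κ * k ≤ 1 := by
      calc κ * k ≤ 1 * 1 := mul_le_mul h1 k1 k0 zero_le_one
        _ = 1 := one_mul 1
    obtain ⟨Y, hY⟩ := uI_surj p X
    have hl : ∀ i, ∃ v : QS (uS p), dQ κ h0 h1 v = (uI p).qs (w i) ∧
        dL κ h0 (dg v 1) = (uI p).map (dg (w i) 1) := fun i => uI_lift h1 p (w i)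
    choose v hv hvd using hl
    have a1 : I ((uP p).map (vd z (κ * k))) Y ((uP p).map B) = 0 := by
      have b1 := (uI p).I_map (p.map (vd (fun i => dQ κ h0 h1 (z i)) k)) X (p.map (dL κ h0 B))
      rw [h2, dQ_vd κ h0 h1 z k1, uI_map, uI_map, ← hY, dL_I, div_eq_zero_iff, or_iff_left h0.ne'] at b1
      exact b1
    have a2 : ∀ i, dg (v i) 1 ≤ (uP p).map B ⊔ Y := by
      intro i
      rw [← dL_le κ h0, hvd, dL_sup, ← uI_map, hY, ← (uI p).map_sup]
      exact (uI p).map_mono (h3 i)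
    have a3 : IsUnit (v a) := by
      apply isUnit_dQ h0 h1
      rw [hv]
      exact h4.map _
    have a4 := hu.Q (uS p) (uP p) Y v a (κ * k) (mul_nonneg h0.le k0) hk a1 a2 a3
    have e1 : (uI p).map (vd (fun i => p.qs (dQ κ h0 h1 (z i)) * w a - p.qs (dQ κ h0 h1 (z a)) * w i) k) =
        dL κ h0 (vd (fun i => (uP p).qs (z i) * v a - (uP p).qs (z a) * v i) (κ * k)) := by
      rw [← (uI p).qs_vd, ← dQ_vd κ h0 h1 _ k1]
      congr 1
      funext i
      rw [map_sub, map_mul, map_mul, map_sub, map_mul, map_mul, uI_qs h1, uI_qs h1, hv, hv]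
    have e2 : (uI p).map (p.map (dL κ h0 B) ⊔ X) = dL κ h0 ((uP p).map B ⊔ Y) := by
      rw [(uI p).map_sup, uI_map, dL_sup, hY]
    have a5 := (uI p).h_map (vd (fun i => p.qs (dQ κ h0 h1 (z i)) * w a -
      p.qs (dQ κ h0 h1 (z a)) * w i) k) (p.map (dL κ h0 B) ⊔ X)
    rw [e1, e2, dL_h, a4] at a5
    rw [← a5]
    field_simp

end

end Pool.Agent.Helper38.NS
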