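import Pool.Agent.Helper38.NS.Bush
import Pool.Agent.Helper31.EC.Uns

/-! Exact entropy calculus: potentials are determined by the slopes along a frame. -/

set_option autoImplicit false

namespace Pool.Agent.Helper38.NS

open Pool.Agent.Helper31.EC QS

noncomputable section

theorem map_id_qs {W : Sp} {σ : Type} (f : MvPolynomial σ (QS W)) :
    MvPolynomial.map (Pj.id W).qs f = f := by
  ext m
  rw [MvPolynomial.coeff_map, Pj.id_qs]

/-- potential identities: `f(x + s v) - f(x) = s P(x)` -/
def Pot {W : Sp} {D : ℕ} (f : MvPolynomial (Fin D) (QS W)) (v : Fin D → QS W)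
    (P : MvPolynomial (Fin D) (QS W)) : Prop :=
  ∀ (x : Fin D → QS W) (s : QS W), MvPolynomial.eval (fun j => x j + s * v j) f -
    MvPolynomial.eval x f = s * MvPolynomial.eval x P

theorem Pot.const {W : Sp} {D : ℕ} {f : MvPolynomial (Fin D) (QS W)} {v : Fin D → QS W}
    {P : MvPolynomial (Fin D) (QS W)} (h : Pot f v P) (x : Fin D → QS W) (s : QS W) :
    MvPolynomial.eval (fun j => x j + s * v j) P = MvPolynomial.eval x P := by
  have h1 := h x (s + 1)
  have h2 := h x s
  have h3 := h (fun j => x j + s * v j) 1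
  have e : (fun j => x j + s * v j + 1 * v j) = fun j => x j + (s + 1) * v j := by
    funext j
    ring
  beta_reduce at h3
  rw [e] at h3
  linear_combination h1 - h2 - h3

/-- a potential is known to its slopes along a frame -/
theorem pot_known {W : Sp} {D : ℕ} {A B : W.L} (hAB : A ≤ B) (f : MvPolynomial (Fin D) (QS W))
    (hf : f ∈ PK B) (hf0 : f.coeff 0 = 0) (M : Matrix (Fin D) (Fin D) (QS W))
    (hM : ∀ i j, dg (M i j) 1 ≤ A) (hdet : IsUnit M.det)
    (P : Fin D → MvPolynomial (Fin D) (QS W)) (hP : ∀ i, P i ∈ PK A) (n : ℕ)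
    (hn : ∀ i, (P i).totalDegree ≤ n)
    (hpot : ∀ i, Pot f (M i) (P i)) (q : Fin D → QS W) (hq : Rl q B) :
    f ∈ PK A ∧ f.totalDegree ≤ n + 1 := by
  classical
  have hinv : ∀ i j, dg (M⁻¹ i j) 1 ≤ A := inv_mem M le_rfl _ hM hdet
  obtain ⟨σ, hσ⟩ : ∃ σ : Fin D → QS W, ∀ i, σ i = ∑ j, M⁻¹ j i * q j :=
    ⟨_, fun _ => rfl⟩
  have e1 : ∀ j, q j = ∑ i, σ i * M i j := by
    intro j
    have h1 : ∀ i, σ i * M i j = ∑ l, q l * (M⁻¹ l i * M i j) := by
      intro i
      rw [hσ, Finset.sum_mul]
      exact Finset.sum_congr rfl fun l _ => by ring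
    rw [Finset.sum_congr rfl fun i _ => h1 i, Finset.sum_comm]
    have h2 : ∀ l, ∑ i, q l * (M⁻¹ l i * M i j) = if l = j then q l else 0 := by
      intro l
      rw [← Finset.mul_sum]
      have h3 : ∑ i, M⁻¹ l i * M i j = (M⁻¹ * M) l j := (Matrix.mul_apply).symm
      rw [h3, Matrix.nonsing_inv_mul _ hdet, Matrix.one_apply, mul_ite, mul_one, mul_zero]
    rw [Finset.sum_congr rfl fun l _ => h2 l, Finset.sum_ite_eq', if_pos (Finset.mem_univ _)]
  -- partial points
  obtain ⟨c, hc⟩ : ∃ c : Fin D → ℕ → QS W, ∀ l k, c l k = if (l : ℕ) < k then σ l else 0 :=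
    ⟨_, fun _ _ => rfl⟩
  obtain ⟨pts, hpts⟩ : ∃ pts : ℕ → Fin D → QS W, ∀ k j, pts k j = ∑ l, c l k * M l j :=
    ⟨_, fun _ _ => rfl⟩
  have p0 : pts 0 = fun _ => 0 := by
    funext j
    rw [hpts]
    exact Finset.sum_eq_zero fun l _ => by rw [hc, if_neg (Nat.not_lt_zero _), zero_mul]
  have pD : pts D = q := by
    funext j
    rw [hpts, e1 j]
    exact Finset.sum_congr rfl fun l _ => by rw [hc, if_pos l.isLt]
  have pS : ∀ i : Fin D, pts (i + 1) = fun j => pts i j + σ i * M i j := by
    intro i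
    funext j
    rw [hpts, hpts, ← Finset.add_sum_erase _ _ (Finset.mem_univ i),
      ← Finset.add_sum_erase (Finset.univ : Finset (Fin D)) (fun l => c l i * M l j)
        (Finset.mem_univ i)]
    have h1 : ∀ l ∈ (Finset.univ : Finset (Fin D)).erase i, c l (i + 1) * M l j = c l i * M l j := by
      intro l hl
      have h2 : (l : ℕ) ≠ i := fun h => (Finset.ne_of_mem_erase hl) (Fin.ext h)
      rw [hc, hc]
      by_cases h3 : (l : ℕ) < i
      · rw [if_pos h3, if_pos (by omega)]
      · rw [if_neg h3, if_neg (by omega)]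
    rw [Finset.sum_congr rfl h1, hc, hc, if_pos (Nat.lt_succ_self _), if_neg (lt_irrefl _)]
    ring
  have hsum : MvPolynomial.eval q f = ∑ i : Fin D, σ i * MvPolynomial.eval (pts i) (P i) := by
    have h1 : ∀ i : Fin D, σ i * MvPolynomial.eval (pts i) (P i) =
        MvPolynomial.eval (pts (i + 1)) f - MvPolynomial.eval (pts i) f := by
      intro i
      rw [pS i]
      exact (hpot i (pts i) (σ i)).symm
    rw [Finset.sum_congr rfl fun i _ => h1 i,
      Fin.sum_univ_eq_sum_range (fun k => MvPolynomial.eval (pts (k + 1)) f -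
        MvPolynomial.eval (pts k) f) D,
      Finset.sum_range_sub (fun k => MvPolynomial.eval (pts k) f) D, pD, p0]
    have h2 : MvPolynomial.eval (fun _ => (0 : QS W)) f = 0 := by
      rw [MvPolynomial.eval_zero', MvPolynomial.constantCoeff_eq]
      exact hf0
    rw [h2, sub_zero]
  -- the polynomial in the frame coordinates
  obtain ⟨R, hR⟩ : ∃ R : MvPolynomial (Fin D) (QS W), R = ∑ i : Fin D, MvPolynomial.X i *
      MvPolynomial.bind₁ (fun j => lf (fun l : Fin D => if (l : ℕ) < i then M l j else 0)) (P i) :=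
    ⟨_, rfl⟩
  have hRA : R ∈ PK A := by
    rw [hR]
    apply (PK A).sum_mem
    intro i _
    apply (PK A).mul_mem (X_mem A i)
    apply bind_mem _ _ (hP i)
    intro j
    apply lf_mem
    intro l
    split_ifs
    · exact hM l j
    · exact (Kn W 1 le_rfl A).zero_mem
  have hRd : R.totalDegree ≤ n + 1 := by
    rw [hR]
    apply MvPolynomial.totalDegree_finsetSum_le
    intro i _
    refine (MvPolynomial.totalDegree_mul _ _).trans ?_
    rw [MvPolynomial.totalDegree_X, add_comm]
    apply Nat.add_le_add_right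
    exact (totalDegree_bind _ (fun j => totalDegree_lf _) _).trans (hn i)
  have hRe : MvPolynomial.eval σ R = MvPolynomial.eval q f := by
    rw [hR, hsum, map_sum]
    apply Finset.sum_congr rfl
    intro i _
    rw [map_mul, MvPolynomial.eval_X, eval_bind]
    congr 1
    have h1 : ∀ j, MvPolynomial.eval σ (lf (fun l : Fin D => if (l : ℕ) < i then M l j else 0)) =
        pts i j := by
      intro j
      rw [eval_lf, hpts]
      apply Finset.sum_congr rfl
      intro l _
      rw [hc]
      split_ifs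
      · ring
      · ring
    exact congrArg (fun g => MvPolynomial.eval g (P i)) (funext h1)
  obtain ⟨R', r1, r2, r3⟩ := lin_sub (fun i j => M⁻¹ j i) (A := A) (fun i j => hinv j i) hRA
  have hfR : f = R' := by
    apply mv_unique B q f R' hq hf (PK_mono hAB r1)
    rw [r3, ← hRe]
    exact congrArg (fun g => MvPolynomial.eval g R) (funext hσ)
  rw [hfR]
  exact ⟨r1, r2.trans hRd⟩

end

end Pool.Agent.Helper38.NS
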