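import Pool.Agent.Helper38.NS.Slo
import Pool.Agent.Helper38.NS.LeafA

/-! Exact entropy calculus: LEAF (50b, section 6). A robustly unsaturated top coordinate over a flat real base is a
polynomial in the base point with free coefficients. -/

set_option autoImplicit false

namespace Pool.Agent.Helper38.NS

open Pool.Agent.Helper31.EC QS

noncomputable section

/-- absorption of loops with frozen directions (50b, section 5), statement -/
def LoopQ : Prop :=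
  ∀ (W : Sp) (ι : Type) (_ : Fintype ι) (G : ι → QS W) (d N : ℕ) (q : Fin (d + 1) → QS W)
    (z : QS W) (v : Fin (N + 1) → Fin (d + 1) → QS W)
    (P : Fin (N + 1) → MvPolynomial (Fin (d + 1)) (QS W)) (hN : d ≤ N) (c : ℝ), 0 < c →
    Rl q (vd G 1) → (∀ i j, dg (v i j) 1 ≤ vd G 1) → (∀ i, P i ∈ PK (vd G 1)) →
    (∀ i, v i 0 = 1) →
    IsUnit (Matrix.det (Matrix.of fun i j : Fin (d + 1) =>
      v (Fin.castLE (Nat.succ_le_succ hN) i) j)) →
    (∀ i, Helper31.EC.h (dg (q 0) 1) (vd (fun k => q k - q 0 * v i k) 1 ⊔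
      dg (z - q 0 * MvPolynomial.eval q (P i)) 1 ⊔ vd G 1) = 1) →
    (∀ i, dg (MvPolynomial.eval q (P i)) 1 ≤ vd (fun k => q k - q 0 * v i k) 1 ⊔ vd G 1) →
    UnS z (vd q 1) 0 c →
    ∃ f : MvPolynomial (Fin (d + 1)) (QS W), f ∈ PK (vd G 1) ∧ f.coeff 0 = 0 ∧
      ∀ i, Pot f (v i) (P i)

namespace FB

variable {S : Sp} {d : ℕ}

/-- a line and its point have no common information -/
def Conn (s : FB S d) : Prop :=
  ∀ (W : Sp) (r : Pj W S) (g : QS W), dg g 1 ≤ r.map (s.iT ⊔ (s.iY ⊔ s.iZ)) →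
    dg g 1 ≤ r.map (s.iL ⊔ s.iB) → dg g 1 = ⊥

/-- (T3): the directions of a bush are in general position -/
def T3 (s : FB S d) : Prop := ∀ C : CQ S s.fQ d, IsUnit (Mat C).det

/-- first and second half of the lines of a bush -/
def g1 (d : ℕ) (i : Fin (d + 1)) : Fin (d + 1 + d + 1) := Fin.castAdd (d + 1) i

def g2 (d : ℕ) (i : Fin (d + 1)) : Fin (d + 1 + d + 1) := Fin.natAdd (d + 1) i

theorem g1_inj (d : ℕ) : Function.Injective (g1 d) := Fin.castAdd_injective _ _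

theorem g2_inj (d : ℕ) : Function.Injective (g2 d) := Fin.natAdd_injective _ _

theorem g12 {d : ℕ} (i : Fin (d + 1 + d + 1)) : (∃ j, i = g1 d j) ∨ ∃ j, i = g2 d j := by
  rcases i with ⟨i, hi⟩
  by_cases h : i < d + 1
  · exact Or.inl ⟨⟨i, h⟩, rfl⟩
  · refine Or.inr ⟨⟨i - (d + 1), by omega⟩, ?_⟩
    apply Fin.ext
    show i = d + 1 + (i - (d + 1))
    omega

theorem g1_ne_g2 {d : ℕ} (i j : Fin (d + 1)) : g1 d i ≠ g2 d j := by
  intro h
  have h1 : (i : ℕ) = d + 1 + (j : ℕ) := congrArg Fin.val h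
  omega

section

variable {s : FB S d} {N : ℕ} (C : CQ S s.fQ N)

/-- the directions of different lines are independent -/
theorem dirs_sum (hs : s.Hyp) :
    H (vd (dirs C) 1) = ∑ i : Fin (N + 1), H ((C.p i).map s.iX) := by
  apply le_antisymm
  · rw [vd_dirs]
    exact H_finsup_le _ _
  · have h1 : Helper31.EC.h (vd (dirs C) 1) C.v = ∑ i : Fin (N + 1), H ((C.p i).map s.iX) := by
      rw [vd_dirs, C.h_sup]
      apply Finset.sum_congr rfl
      intro i _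
      rw [Pj.H_map, vd_fQ, ← h_bot s.iX]
      exact h_of_ind' hs.s1 bot_le (by rw [sup_bot_eq])
    rw [← h1]
    exact h_le_H _ _

theorem dirs_sub {e : ℕ} (g : Fin (e + 1) → Fin (N + 1)) (hg : Function.Injective g) :
    vd (dirs (subCQ C g hg)) 1 ≤ vd (dirs C) 1 := by
  rw [vd_le]
  intro a
  exact dg_le_vd (dirs C) 1 (g a.1, a.2)

theorem pt_sub {e : ℕ} (g : Fin (e + 1) → Fin (N + 1)) (hg : Function.Injective g)
    (j : Fin (d + 1)) : pt (subCQ C g hg) j = pt C j := pt_eq C (g 0) j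

end

/-- directions of the first half of the lines -/
def U1 {s : FB S d} (C : CQ S s.fQ (d + 1 + d)) : C.W.L :=
  vd (dirs (subCQ C (g1 d) (g1_inj d))) 1

/-- directions of the second half of the lines -/
def U2 {s : FB S d} (C : CQ S s.fQ (d + 1 + d)) : C.W.L :=
  vd (dirs (subCQ C (g2 d) (g2_inj d))) 1

theorem U_eq {s : FB S d} (C : CQ S s.fQ (d + 1 + d)) : vd (dirs C) 1 = U1 C ⊔ U2 C := by
  apply le_antisymm
  · rw [vd_le]
    rintro ⟨i, k⟩
    rcases g12 i with ⟨j, rfl⟩ | ⟨j, rfl⟩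
    · exact (dg_le_vd (dirs (subCQ C (g1 d) (g1_inj d))) 1 (j, k)).trans le_sup_left
    · exact (dg_le_vd (dirs (subCQ C (g2 d) (g2_inj d))) 1 (j, k)).trans le_sup_right
  · exact sup_le (dirs_sub C _ _) (dirs_sub C _ _)

/-- directions of the two halves are independent -/
theorem halves_ind {s : FB S d} (hs : s.Hyp) (C : CQ S s.fQ (d + 1 + d)) :
    I (U1 C) (U2 C) ⊥ = 0 := by
  have h0 := dirs_sum C hs
  have h3 : ∑ i : Fin (d + 1 + d + 1), H ((C.p i).map s.iX) =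
      ∑ i : Fin (d + 1), H ((C.p (g1 d i)).map s.iX) +
        ∑ i : Fin (d + 1), H ((C.p (g2 d i)).map s.iX) :=
    Fin.sum_univ_add (a := d + 1) (b := d + 1) fun i => H ((C.p i).map s.iX)
  have h4 : H (U1 C) = ∑ i : Fin (d + 1), H ((C.p (g1 d i)).map s.iX) :=
    dirs_sum (subCQ C (g1 d) (g1_inj d)) hs
  have h5 : H (U2 C) = ∑ i : Fin (d + 1), H ((C.p (g2 d i)).map s.iX) :=
    dirs_sum (subCQ C (g2 d) (g2_inj d)) hs
  have h6 : H (U1 C ⊔ U2 C) = H (U1 C) + H (U2 C) := by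
    rw [← U_eq, h0, h3, h4, h5]
  unfold I
  rw [sup_bot_eq, sup_bot_eq, sup_bot_eq, h6, H_bot]
  ring

/-- slopes of all lines of a double bush on one extension -/
theorem slopes2 (s : FB S d) (hW : WEC) (hs : s.Hyp) (hq : Rl s.q ⊥) {c : ℝ} (hc : 0 < c)
    (hu : UnS s.z (s.iY ⊔ s.iT) 0 c) (h3 : s.T3) (C : CQ S s.fQ (d + 1 + d)) :
    ∃ (W : Sp) (p : Pj W C.W) (P : Fin (d + 1 + d + 1) → MvPolynomial (Fin (d + 1)) (QS W)),
      (∀ i, P (g1 d i) ∈ PK (p.map (U1 C))) ∧ (∀ i, P (g2 d i) ∈ PK (p.map (U2 C))) ∧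
      (∀ i, (P i).totalDegree ≤ d + 1) ∧
      ∀ i, p.qs (Fs C i) = MvPolynomial.eval (fun j => p.qs (pt C j)) (P i) := by
  classical
  obtain ⟨W1, q1, k1⟩ := slopes hW hs hq hc hu (subCQ C (g1 d) (g1_inj d)) (h3 _) C.W (Pj.id C.W)
  obtain ⟨W2, q2, k2⟩ := slopes hW hs hq hc hu (subCQ C (g2 d) (g2_inj d)) (h3 _) W1
    (q1.comp (Pj.id C.W))
  obtain ⟨p, hp⟩ : ∃ p : Pj W2 C.W, p = q2.comp (q1.comp (Pj.id C.W)) := ⟨_, rfl⟩
  have a1 : ∀ i : Fin (d + 1), ∃ P : MvPolynomial (Fin (d + 1)) (QS W2),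
      P ∈ PK (p.map (U1 C)) ∧ P.totalDegree ≤ d + 1 ∧
      p.qs (Fs C (g1 d i)) = MvPolynomial.eval (fun j => p.qs (pt C j)) P := by
    intro i
    obtain ⟨P, b1, b2, b3⟩ := (k1 i).up q2
    rw [hp]
    refine ⟨P, b1, b2, ?_⟩
    refine Eq.trans b3 ?_
    exact congrArg (fun g => MvPolynomial.eval g P) (funext fun j => congrArg _
      (pt_sub C (g1 d) (g1_inj d) j))
  have a2 : ∀ i : Fin (d + 1), ∃ P : MvPolynomial (Fin (d + 1)) (QS W2),
      P ∈ PK (p.map (U2 C)) ∧ P.totalDegree ≤ d + 1 ∧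
      p.qs (Fs C (g2 d i)) = MvPolynomial.eval (fun j => p.qs (pt C j)) P := by
    intro i
    obtain ⟨P, b1, b2, b3⟩ := k2 i
    rw [hp]
    refine ⟨P, b1, b2, ?_⟩
    refine Eq.trans b3 ?_
    exact congrArg (fun g => MvPolynomial.eval g P) (funext fun j => congrArg _
      (pt_sub C (g2 d) (g2_inj d) j))
  have a3 : ∀ i : Fin (d + 1 + d + 1), ∃ P : MvPolynomial (Fin (d + 1)) (QS W2),
      (∀ j, i = g1 d j → P ∈ PK (p.map (U1 C))) ∧ (∀ j, i = g2 d j → P ∈ PK (p.map (U2 C))) ∧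
      P.totalDegree ≤ d + 1 ∧
      p.qs (Fs C i) = MvPolynomial.eval (fun j => p.qs (pt C j)) P := by
    intro i
    rcases g12 i with ⟨j, rfl⟩ | ⟨j, rfl⟩
    · obtain ⟨P, b1, b2, b3⟩ := a1 j
      exact ⟨P, fun _ _ => b1, fun j' h => absurd h (g1_ne_g2 j j'), b2, b3⟩
    · obtain ⟨P, b1, b2, b3⟩ := a2 j
      exact ⟨P, fun j' h => absurd h.symm (g1_ne_g2 j' j), fun _ _ => b1, b2, b3⟩
  choose P b1 b2 b3 b4 using a3
  exact ⟨W2, p, P, fun i => b1 _ i rfl, fun i => b2 _ i rfl, b3, b4⟩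

end FB

end

end Pool.Agent.Helper38.NS
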