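import Pool.Agent.Helper38.NS.AbsV
import Pool.Agent.Helper19.SP.Loop

/-! LOOP for vectors: slopes of lines in frozen directions come from a potential, coordinate by coordinate, if linear
real noises of the vector vanish. -/

set_option autoImplicit false

namespace Pool.Agent.Helper38.NS

open Pool.Agent.Helper31.EC QS Pool.Agent.Helper19.SP

noncomputable section

/-- the entropy counts of a loop -/
theorem loop_countsV {W : Sp} {n : ℕ} {X Q Q' G T Z Z' V : W.L}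
    (hQ : ∀ B, Helper31.EC.h Q' B ≤ n) (hT : ∀ B, Helper31.EC.h T B ≤ 1)
    (hV : Helper31.EC.h V (Q ⊔ G ⊔ Z) = n + 1) (hV' : V ≤ (T ⊔ Q') ⊔ (Q ⊔ G))
    (hX : X = Q' ⊔ (Q ⊔ G)) (hZ : Z' ≤ Z ⊔ T ⊔ X) (hZ' : Z ≤ Z' ⊔ T ⊔ X)
    (hZZ : Helper31.EC.h Z' (Q' ⊔ G) ≤ Helper31.EC.h Z (Q ⊔ G)) (hG : I Z' G Q' = 0) :
    Helper31.EC.h (T ⊔ Q') (Q ⊔ G) = n + 1 ∧ Helper31.EC.h T (Z ⊔ X) = 1 ∧
      I Z' (X ⊔ T) Q' = 0 := by
  obtain ⟨C, hC⟩ : ∃ C, C = Q ⊔ G := ⟨_, rfl⟩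
  rw [← hC] at hV hV' hX hZZ ⊢
  have a1 : Helper31.EC.h (T ⊔ Q') (C ⊔ Z) = n + 1 := by
    apply le_antisymm
    · refine (h_sup_le _ _ _).trans ?_
      linarith [hQ (C ⊔ Z), hT (C ⊔ Z)]
    · rw [← hV]
      have h1 : Helper31.EC.h V (C ⊔ Z) ≤ Helper31.EC.h ((T ⊔ Q') ⊔ (C ⊔ Z)) (C ⊔ Z) := by
        apply h_mono
        exact hV'.trans (sup_le_sup_left le_sup_left _)
      rw [h_sup_right_of_le le_rfl] at h1
      exact h1
  have a3 : Helper31.EC.h (T ⊔ Q') C = n + 1 := by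
    apply le_antisymm
    · refine (h_sup_le _ _ _).trans ?_
      linarith [hQ C, hT C]
    · rw [← a1]
      exact h_anti le_sup_left
  have a4 : Helper31.EC.h Q' (C ⊔ Z) + Helper31.EC.h T (Q' ⊔ (C ⊔ Z)) = n + 1 := by
    rw [← a1, sup_comm T Q', h_chain]
  have a5 := hQ (C ⊔ Z)
  have a6 := hT (Q' ⊔ (C ⊔ Z))
  have a8 : Helper31.EC.h T (Q' ⊔ (C ⊔ Z)) = 1 := by linarith
  have e1 : Q' ⊔ (C ⊔ Z) = Z ⊔ X := by rw [hX]; order
  rw [e1] at a8
  -- `Z` is independent of everything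
  have b1 : I Z (T ⊔ Q') C = 0 := by
    rw [I_comm, I_zero_iff_h, sup_comm Z C, a1, a3]
  have b2 : Helper31.EC.h Z (T ⊔ X) = Helper31.EC.h Z C := by
    have h1 := I_zero_iff_h.mp b1
    have h2 : T ⊔ Q' ⊔ C = T ⊔ X := by rw [hX]; order
    rw [h2] at h1
    exact h1
  have b3 : Helper31.EC.h Z' (T ⊔ X) = Helper31.EC.h Z (T ⊔ X) := by
    apply h_congr_left
    · order
    · order
  have b4 : I Z' (T ⊔ X) (Q' ⊔ G) = 0 := by
    rw [I_zero_iff_h]
    apply le_antisymm (h_anti le_sup_right)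
    have h1 : T ⊔ X ⊔ (Q' ⊔ G) = T ⊔ X := by rw [hX, hC]; order
    rw [h1, b3, b2]
    exact hZZ
  refine ⟨a3, a8, ?_⟩
  have hGX : G ≤ X := by rw [hX, hC]; order
  have b5 := ind_add hG (C' := Q' ⊔ G) b4 (by order)
  have e2 : G ⊔ (T ⊔ X) = X ⊔ T := by order
  rw [e2] at b5
  exact b5

/-- the core of the loop argument for vectors -/
theorem loop_coreV {W : Sp} {ι ν : Type} [Fintype ι] [Fintype ν] (G : ι → QS W) {n : ℕ}
    (q : Fin n → QS W) (z : ν → QS W) (hq : Rl q (vd G 1)) (hzG : I (vd z 1) (vd G 1) (vd q 1) = 0)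
    (R : Sp) (p p' : Pj R W) (τ : Fin (n + 1) → QS R)
    (L L0 : ν → MvPolynomial (Fin n ⊕ (Unit ⊕ Fin n)) (QS W)) (hL : ∀ i, L i ∈ PK (vd G 1))
    (hL0 : ∀ i, L0 i ∈ PK (vd G 1)) (hG : ∀ a, p'.qs (G a) = p.qs (G a))
    (hrl : ∀ x : W.L, Rl τ (p.map x))
    (hτ : ∀ j : Fin n, dg (τ j.succ) 1 ≤
      (dg (τ 0) 1 ⊔ p'.map (vd q 1)) ⊔ (p.map (vd q 1) ⊔ p.map (vd G 1)))
    (hz : ∀ i, p'.qs (z i) = p.qs (z i) + MvPolynomial.eval
      (pnt (fun m => p.qs (q m)) (τ 0) (fun m => p'.qs (q m))) (MvPolynomial.map p.qs (L i)))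
    (h0 : ∀ i (x y : Fin n → QS R) (s : QS R),
      MvPolynomial.eval (pnt x 0 y) (MvPolynomial.map p.qs (L i)) =
      MvPolynomial.eval (pnt x s y) (MvPolynomial.map p.qs (L0 i)))
    (hN : NRw W q z) (i : ν) : L i = L0 i := by
  classical
  obtain ⟨Gm, hGm⟩ : ∃ Gm, Gm = p.map (vd G 1) := ⟨_, rfl⟩
  obtain ⟨x, hx⟩ : ∃ x : Fin n → QS R, x = fun m => p.qs (q m) := ⟨_, rfl⟩
  obtain ⟨y, hy⟩ : ∃ y : Fin n → QS R, y = fun m => p'.qs (q m) := ⟨_, rfl⟩
  rw [← hx, ← hy] at hz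
  have hxv : vd x 1 = p.map (vd q 1) := by rw [← Pj.qs_vd, hx]
  have hyv : vd y 1 = p'.map (vd q 1) := by rw [← Pj.qs_vd, hy]
  rw [← hxv, ← hyv, ← hGm] at hτ
  have hGm' : p'.map (vd G 1) = Gm := by
    rw [hGm, ← p.qs_vd, ← p'.qs_vd]
    exact vd_congr hG 1
  obtain ⟨L', hL'⟩ : ∃ L' : ν → MvPolynomial (Fin n ⊕ (Unit ⊕ Fin n)) (QS R),
    ∀ i, L' i = MvPolynomial.map p.qs (L i) := ⟨_, fun _ => rfl⟩
  obtain ⟨L0', hL0'⟩ : ∃ L0' : ν → MvPolynomial (Fin n ⊕ (Unit ⊕ Fin n)) (QS R),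
    ∀ i, L0' i = MvPolynomial.map p.qs (L0 i) := ⟨_, fun _ => rfl⟩
  have hz' : ∀ i, p'.qs (z i) = p.qs (z i) + MvPolynomial.eval (pnt x (τ 0) y) (L' i) := by
    intro i
    rw [hL']
    exact hz i
  have h0' : ∀ i (x y : Fin n → QS R) (s : QS R), MvPolynomial.eval (pnt x 0 y) (L' i) =
      MvPolynomial.eval (pnt x s y) (L0' i) := by
    intro i a b s
    rw [hL', hL0']
    exact h0 i a b s
  have mL : ∀ i, L' i ∈ PK Gm := by intro i; rw [hL', hGm]; exact map_PK p (hL i)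
  have mL0 : ∀ i, L0' i ∈ PK Gm := by intro i; rw [hL0', hGm]; exact map_PK p (hL0 i)
  obtain ⟨X, hX⟩ : ∃ X, X = vd y 1 ⊔ (vd x 1 ⊔ Gm) := ⟨_, rfl⟩
  have hxX : ∀ m, dg (x m) 1 ≤ X := by
    intro m
    rw [hX]
    exact (dg_le_vd x 1 m).trans (le_sup_left.trans le_sup_right)
  have hyX : ∀ m, dg (y m) 1 ≤ X := by
    intro m
    rw [hX]
    exact (dg_le_vd y 1 m).trans le_sup_left
  have hGX : Gm ≤ X := by
    rw [hX]
    exact le_sup_right.trans le_sup_right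
  have hnX : ∀ i, dg (MvPolynomial.eval (pnt x (τ 0) y) (L' i)) 1 ≤ dg (τ 0) 1 ⊔ X := by
    intro i
    apply eval_mem (mL i) _ (hGX.trans le_sup_right)
    rintro (m | m | m)
    · exact (hxX m).trans le_sup_right
    · exact le_sup_left
    · exact (hyX m).trans le_sup_right
  have zle1 : p'.map (vd z 1) ≤ p.map (vd z 1) ⊔ dg (τ 0) 1 ⊔ X := by
    rw [← p'.qs_vd, ← p.qs_vd, vd_le]
    intro i
    beta_reduce
    rw [hz' i]
    apply (Kn R 1 le_rfl _).add_mem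
    · exact (dg_le_vd (fun i => p.qs (z i)) 1 i).trans (le_sup_left.trans le_sup_left)
    · exact (hnX i).trans (by order)
  have zle2 : p.map (vd z 1) ≤ p'.map (vd z 1) ⊔ dg (τ 0) 1 ⊔ X := by
    rw [← p'.qs_vd, ← p.qs_vd, vd_le]
    intro i
    beta_reduce
    have e1 : p.qs (z i) = p'.qs (z i) - MvPolynomial.eval (pnt x (τ 0) y) (L' i) := by
      rw [hz' i]; ring
    rw [e1]
    apply (Kn R 1 le_rfl _).sub_mem
    · exact (dg_le_vd (fun i => p'.qs (z i)) 1 i).trans (le_sup_left.trans le_sup_left)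
    · exact (hnX i).trans (by order)
  -- counts
  have cnt := loop_countsV (n := n) (X := X) (Q := vd x 1) (Q' := vd y 1) (G := Gm)
    (T := dg (τ 0) 1) (Z := p.map (vd z 1)) (Z' := p'.map (vd z 1)) (V := vd τ 1)
    (by
      intro B
      have := h_sd_le y Finset.univ B
      rwa [sd_univ, Finset.card_univ, Fintype.card_fin] at this)
    (fun B => h_dg_le_one _ B)
    (by
      have := hrl (vd q 1 ⊔ vd G 1 ⊔ vd z 1)
      unfold Rl at this
      rw [Fintype.card_fin] at this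
      push_cast at this
      rw [← this, Pj.map_sup, Pj.map_sup, hxv, hGm])
    (by
      rw [vd_le]
      intro k
      induction k using Fin.cases with
      | zero => exact le_sup_left.trans le_sup_left
      | succ j => exact hτ j)
    hX zle1 zle2
    (by
      rw [hyv, hxv, ← hGm', ← Pj.map_sup, Pj.h_map, hGm', hGm, ← Pj.map_sup, Pj.h_map])
    (by
      rw [hyv, ← hGm', Pj.I_map]
      exact hzG)
  obtain ⟨cnt1, cnt2, cnt3⟩ := cnt
  -- absorption
  have habs : MvPolynomial.eval (pnt x (τ 0) y) (L' i) = MvPolynomial.eval (pnt x (τ 0) y) (L0' i) := by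
    obtain ⟨Φ, hΦ⟩ : ∃ Φ : ν → Polynomial (QS R), ∀ i, Φ i = pev x y (L' i) := ⟨_, fun _ => rfl⟩
    obtain ⟨m, hm⟩ : ∃ m : ℕ, ∀ i, (Φ i).natDegree < m + 1 + 1 :=
      ⟨Finset.univ.sup fun i => (Φ i).natDegree, fun i => by
        have h1 := Finset.le_sup (f := fun i => (Φ i).natDegree) (Finset.mem_univ i)
        omega⟩
    have hΦe : ∀ i s, (Φ i).coeff 0 + s * pe (fun a : Fin (m + 1) => (Φ i).coeff (a + 1)) s =
        MvPolynomial.eval (pnt x s y) (L' i) := by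
      intro i s
      rw [← pev_eval, ← hΦ, ← pe_eval (Φ i) s (m + 1) (hm i)]
      unfold pe
      refine Eq.trans ?_ (Fin.sum_univ_succ _).symm
      rw [Finset.mul_sum]
      congr 1
      · show (Φ i).coeff 0 = (Φ i).coeff 0 * s ^ 0
        rw [pow_zero, mul_one]
      · apply Finset.sum_congr rfl
        intro a _
        show s * ((Φ i).coeff (a + 1) * s ^ (a : ℕ)) = (Φ i).coeff (a + 1) * s ^ ((a : ℕ) + 1)
        ring
    have mΦ : ∀ i a, dg ((Φ i).coeff a) 1 ≤ X := by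
      intro i a
      rw [hΦ]
      exact pev_coeff _ _ _ (mL i) hGX hxX hyX _
    obtain ⟨g, hg⟩ : ∃ g : (Fin n ⊕ (Fin n ⊕ ι)) → QS R, g = Sum.elim y (Sum.elim x (fun a => p.qs (G a))) :=
      ⟨_, rfl⟩
    have hgX : vd g 1 = X := by
      rw [hg, vd_sum, vd_sum, p.qs_vd, ← hGm, hX]
    have key := absV q z hN p' g (fun i (a : Fin (m + 1)) => (Φ i).coeff (a + 1))
      (fun i => p.qs (z i) + (Φ i).coeff 0) (τ 0)
      (by rw [hgX, ← hyv, hX]; exact le_sup_left)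
      (fun i a => by rw [hgX]; exact mΦ i _)
      (fun i => by rw [hz' i, ← hΦe]; ring)
      (by rw [hgX, ← hyv]; exact cnt3)
      (by
        rw [hgX]
        apply le_antisymm (h_dg_le_one _ _)
        refine cnt2.ge.trans (h_anti ?_)
        apply sup_le _ le_sup_right
        rw [vd_le]
        intro i
        apply (Kn R 1 le_rfl _).add_mem
        · show dg (p.qs (z i)) 1 ≤ _
          rw [p.qs_dg]
          exact (p.map_mono (dg_le_vd z 1 i)).trans le_sup_left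
        · exact (mΦ i 0).trans le_sup_right)
    rw [← h0' i x y (τ 0), ← hΦe, ← hΦe, zero_mul, add_zero]
    have h1 : pe (fun a : Fin (m + 1) => (Φ i).coeff (a + 1)) (τ 0) = 0 := by
      unfold pe
      apply Finset.sum_eq_zero
      intro a _
      have h2 := key i a
      beta_reduce at h2 ⊢
      rw [h2, zero_mul]
    rw [h1, mul_zero, add_zero]
  -- the polynomials agree
  have hfin : L' i = L0' i := by
    apply mv_unique Gm (pnt x (τ 0) y) _ _ _ (mL i) (mL0 i) habs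
    apply Rl.of_ge
    have e1 : vd (pnt x (τ 0) y) 1 = vd x 1 ⊔ (dg (τ 0) 1 ⊔ vd y 1) := by
      apply le_antisymm
      · rw [vd_le]
        rintro (m | m | m)
        · exact (dg_le_vd x 1 m).trans le_sup_left
        · exact le_sup_left.trans le_sup_right
        · exact (dg_le_vd y 1 m).trans (le_sup_right.trans le_sup_right)
      · refine sup_le ?_ (sup_le ?_ ?_)
        · rw [vd_le]
          intro m
          exact dg_le_vd (pnt x (τ 0) y) 1 (Sum.inl m)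
        · exact dg_le_vd (pnt x (τ 0) y) 1 (Sum.inr (Sum.inl ()))
        · rw [vd_le]
          intro m
          exact dg_le_vd (pnt x (τ 0) y) 1 (Sum.inr (Sum.inr m))
    rw [e1, h_chain, cnt1]
    have e2 : Helper31.EC.h (vd x 1) Gm = n := by
      rw [hxv, hGm, Pj.h_map]
      have := hq
      unfold Rl at this
      rw [Fintype.card_fin] at this
      exact this
    rw [e2]
    simp only [Fintype.card_sum, Fintype.card_fin, Fintype.card_unit]
    push_cast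
    linarith
  rw [hL', hL0'] at hfin
  exact MvPolynomial.map_injective _ p.qs_injective hfin

/-- the transport along loops is trivial, vectors -/
theorem loop_LPV {W : Sp} {ι ν : Type} [Fintype ι] [Fintype ν] (G : ι → QS W) {n : ℕ} (t : QS W)
    (q : Fin n → QS W) (z : ν → QS W)
    (Mi u : Fin n → Fin n → QS W) (hM : ∀ j l, ∑ m, Mi j m * u l m = if j = l then 1 else 0)
    (P : ν → Fin n → MvPolynomial (Fin n) (QS W)) (vi : Fin n → QS W)
    (Pi : ν → MvPolynomial (Fin n) (QS W))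
    (hq : Rl q (vd G 1)) (hMi : ∀ j l, dg (Mi j l) 1 ≤ vd G 1) (hu : ∀ j l, dg (u j l) 1 ≤ vd G 1)
    (hvi : ∀ l, dg (vi l) 1 ≤ vd G 1) (hP : ∀ a j, P a j ∈ PK (vd G 1))
    (hPi : ∀ a, Pi a ∈ PK (vd G 1))
    (h1 : Helper31.EC.h (dg t 1) (vd (fun k => q k - t * vi k) 1 ⊔
      vd (fun a => z a - t * MvPolynomial.eval q (Pi a)) 1 ⊔ vd G 1) = 1)
    (h1' : ∀ j, Helper31.EC.h (dg t 1) (vd (fun k => q k - t * u j k) 1 ⊔
      vd (fun a => z a - t * MvPolynomial.eval q (P a j)) 1 ⊔ vd G 1) = 1)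
    (h2 : ∀ a, dg (MvPolynomial.eval q (Pi a)) 1 ≤ vd (fun k => q k - t * vi k) 1 ⊔ vd G 1)
    (h2' : ∀ a j, dg (MvPolynomial.eval q (P a j)) 1 ≤ vd (fun k => q k - t * u j k) 1 ⊔ vd G 1)
    (hN : NRw W q z) (hzG : I (vd z 1) (vd G 1) (vd q 1) = 0) (b : ν) :
    LP Mi u (P b) vi (Pi b) = LP0 Mi u (P b) := by
  classical
  -- directions and slopes by types
  obtain ⟨vs, hvn, hvs⟩ : ∃ vs : Option (Fin n) → Fin n → QS W, vs none = vi ∧
      ∀ j, vs (some j) = u j := ⟨fun o => o.elim vi u, rfl, fun _ => rfl⟩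
  obtain ⟨Ps, hPn, hPs⟩ : ∃ Ps : ν → Option (Fin n) → MvPolynomial (Fin n) (QS W),
      (∀ a, Ps a none = Pi a) ∧ ∀ a j, Ps a (some j) = P a j :=
    ⟨fun a o => o.elim (Pi a) (P a), fun _ => rfl, fun _ _ => rfl⟩
  have kv : ∀ o l, dg (vs o l) 1 ≤ vd G 1 := by
    rintro (_ | j) l
    · rw [hvn]; exact hvi l
    · rw [hvs]; exact hu j l
  have kP : ∀ a o, Ps a o ∈ PK (vd G 1) := by
    rintro a (_ | j)
    · rw [hPn]; exact hPi a
    · rw [hPs]; exact hP a j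
  have kt : ∀ o, Helper31.EC.h (dg t 1) (vd (fun k => q k - t * vs o k) 1 ⊔
      vd (fun a => z a - t * MvPolynomial.eval q (Ps a o)) 1 ⊔ vd G 1) = 1 := by
    rintro (_ | j)
    · simp only [hvn, hPn]; exact h1
    · simp only [hvs, hPs]; exact h1' j
  have ke : ∀ a o, dg (MvPolynomial.eval q (Ps a o)) 1 ≤
      vd (fun k => q k - t * vs o k) 1 ⊔ vd G 1 := by
    rintro a (_ | j)
    · rw [hvn, hPn]; exact h2 a
    · rw [hvs, hPs]; exact h2' a j
  -- the labels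
  obtain ⟨PP, hPP⟩ : ∃ PP : ν × Option (Fin n) → MvPolynomial (Fin n) (QS W),
    ∀ a o, PP (a, o) = Ps a o := ⟨fun x => Ps x.1 x.2, fun _ _ => rfl⟩
  obtain ⟨G', g1, g2, g4⟩ : ∃ G' : ι ⊕ ((Option (Fin n) × Fin n) ⊕
      (Σ x : ν × Option (Fin n), (PP x).support)) → QS W,
      (∀ a, G' (Sum.inl a) = G a) ∧ (∀ o m, G' (Sum.inr (Sum.inl (o, m))) = vs o m) ∧
      (∀ (x : ν × Option (Fin n)) (m : (PP x).support),
        G' (Sum.inr (Sum.inr ⟨x, m⟩)) = (PP x).coeff m.1) :=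
    ⟨Sum.elim G (Sum.elim (fun x => vs x.1 x.2) (fun x => (PP x.1).coeff x.2.1)),
      fun _ => rfl, fun _ _ => rfl, fun _ _ => rfl⟩
  have hGG : vd G' 1 = vd G 1 := by
    apply le_antisymm
    · rw [vd_le]
      rintro (a | ⟨a, b⟩ | ⟨a, b⟩)
      · rw [g1]
        exact dg_le_vd G 1 a
      · rw [g2]
        exact kv _ _
      · rw [g4]
        have h3 := kP a.1 a.2
        rw [← hPP] at h3
        exact h3 _
    · rw [vd_le]
      intro a
      rw [← g1 a]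
      exact dg_le_vd G' 1 (Sum.inl a)
  -- the walk
  obtain ⟨c, hc1, hc2⟩ : ∃ c : Fin n ⊕ ν → QS W, (∀ m, c (Sum.inl m) = q m) ∧
      ∀ a, c (Sum.inr a) = z a := ⟨Sum.elim q z, fun _ => rfl, fun _ => rfl⟩
  obtain ⟨s, hs1, hs2⟩ : ∃ s : Option (Fin n) → Fin n ⊕ ν → QS W,
      (∀ o m, s o (Sum.inl m) = vs o m) ∧
      ∀ o a, s o (Sum.inr a) = MvPolynomial.eval q (Ps a o) :=
    ⟨fun o => Sum.elim (vs o) (fun a => MvPolynomial.eval q (Ps a o)), fun _ _ => rfl,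
      fun _ _ => rfl⟩
  have hline : ∀ o, Helper31.EC.h (dg t 1) (vd (lnf G' t c (s o)) 1) = 1 := by
    intro o
    apply le_antisymm (h_dg_le_one _ _)
    refine (kt o).ge.trans (h_anti ?_)
    rw [vd_lnf, hGG]
    refine sup_le le_sup_right (sup_le ?_ ?_)
    · rw [vd_le]
      rintro (m | m)
      · rw [hs1]
        exact (kv o m).trans le_sup_right
      · rw [hs2]
        refine (ke m o).trans (sup_le (le_sup_left.trans le_sup_left) le_sup_right)
    · rw [vd_le]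
      rintro (m | m)
      · rw [hs1, hc1]
        exact (dg_le_vd (fun k => q k - t * vs o k) 1 m).trans (le_sup_left.trans le_sup_left)
      · rw [hs2, hc2]
        exact (dg_le_vd (fun a => z a - t * MvPolynomial.eval q (Ps a o)) 1 m).trans
          (le_sup_right.trans le_sup_left)
  obtain ⟨w⟩ := exists_walk G' t c s hline (n + 1) (Fin.cases none some)
  -- literally common data
  have cV : ∀ a o m, (w.p a).qs (vs o m) = (w.p 0).qs (vs o m) := by
    intro a o m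
    have := w.com a 0 (Sum.inr (Sum.inl (o, m)))
    rw [g2] at this
    exact this
  have cP : ∀ a b o, MvPolynomial.map (w.p a).qs (Ps b o) = MvPolynomial.map (w.p 0).qs (Ps b o) := by
    intro a b o
    apply map_eq_of_coeff
    intro m hm
    have hm' : m ∈ (PP (b, o)).support := by rw [hPP]; exact hm
    have h3 := w.com a 0 (Sum.inr (Sum.inr ⟨(b, o), ⟨m, hm'⟩⟩))
    rw [g4] at h3
    rw [← hPP b o]
    exact h3
  have cG : ∀ a i, (w.p a).qs (G i) = (w.p 0).qs (G i) := by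
    intro a i
    have := w.com a 0 (Sum.inl i)
    rw [g1] at this
    exact this
  -- the points
  obtain ⟨x, hx⟩ : ∃ x : Fin (n + 1 + 1) → Fin n → QS w.R, ∀ a, x a = fun m => (w.p a).qs (q m) :=
    ⟨_, fun _ => rfl⟩
  obtain ⟨zz, hzz⟩ : ∃ zz : ν → Fin (n + 1 + 1) → QS w.R, ∀ b a, zz b a = (w.p a).qs (z b) :=
    ⟨_, fun _ _ => rfl⟩
  have stx : ∀ k m, x k.succ m = x k.castSucc m + w.τ k * (w.p 0).qs (vs (Fin.cases none some k) m) := by
    intro k m
    have := w.hc k (Sum.inl m)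
    rw [hc1, hs1, cV k.castSucc] at this
    rw [hx, hx]
    exact this
  have stz : ∀ b k, zz b k.succ = zz b k.castSucc + w.τ k *
      MvPolynomial.eval (x k.castSucc) (MvPolynomial.map (w.p 0).qs (Ps b (Fin.cases none some k))) := by
    intro b k
    have := w.hc k (Sum.inr b)
    rw [hc2, hs2, qs_eval, cP k.castSucc] at this
    rw [hzz, hzz, hx]
    exact this
  obtain ⟨Mi', hMi'⟩ : ∃ Mi' : Fin n → Fin n → QS w.R, Mi' = fun a b => (w.p 0).qs (Mi a b) := ⟨_, rfl⟩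
  obtain ⟨u', hu'⟩ : ∃ u' : Fin n → Fin n → QS w.R, u' = fun a b => (w.p 0).qs (u a b) := ⟨_, rfl⟩
  obtain ⟨vi', hvi'⟩ : ∃ vi' : Fin n → QS w.R, vi' = fun a => (w.p 0).qs (vi a) := ⟨_, rfl⟩
  obtain ⟨P', hP'⟩ : ∃ P' : ν → Fin n → MvPolynomial (Fin n) (QS w.R),
    ∀ b, P' b = fun j => MvPolynomial.map (w.p 0).qs (P b j) := ⟨_, fun _ => rfl⟩
  obtain ⟨Pi', hPi'⟩ : ∃ Pi' : ν → MvPolynomial (Fin n) (QS w.R),
    ∀ b, Pi' b = MvPolynomial.map (w.p 0).qs (Pi b) := ⟨_, fun _ => rfl⟩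
  have hM' : ∀ j l, ∑ m, Mi' j m * u' l m = if j = l then 1 else 0 := by
    intro j l
    have := congrArg (w.p 0).qs (hM j l)
    rw [map_sum] at this
    rw [hMi', hu']
    simp only [map_mul] at this
    rw [this]
    split_ifs
    · exact map_one _
    · exact map_zero _
  have hloop : ∀ b, (∀ j, sol Mi' (fun m => x 0 m + w.τ 0 * vi' m) (x (Fin.last (n + 1))) j =
      w.τ j.succ) ∧ zz b (Fin.last (n + 1)) = zz b 0 + MvPolynomial.eval
      (pnt (x 0) (w.τ 0) (x (Fin.last (n + 1)))) (LP Mi' u' (P' b) vi' (Pi' b)) := by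
    intro b
    refine loop_eq Mi' u' hM' (P' b) vi' (Pi' b) x (zz b) w.τ ?_ ?_ ?_ ?_
    · intro m
      have := stx 0 m
      rw [Fin.cases_zero, hvn] at this
      rw [hvi']
      exact this
    · intro j m
      have := stx j.succ m
      rw [Fin.cases_succ, hvs] at this
      rw [hu']
      exact this
    · have := stz b 0
      rw [Fin.cases_zero, hPn] at this
      rw [hPi']
      exact this
    · intro j
      have := stz b j.succ
      rw [Fin.cases_succ, hPs] at this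
      rw [hP']
      exact this
  have hLP0 : ∀ b, LP Mi' u' (P' b) vi' (Pi' b) =
      MvPolynomial.map (w.p 0).qs (LP Mi u (P b) vi (Pi b)) := by
    intro b
    rw [map_LP, hMi', hu', hP', hvi', hPi']
  have hLP00 : ∀ b, LP0 Mi' u' (P' b) = MvPolynomial.map (w.p 0).qs (LP0 Mi u (P b)) := by
    intro b
    rw [map_LP0, hMi', hu', hP']
  apply loop_coreV G q z hq hzG w.R (w.p 0) (w.p (Fin.last (n + 1))) w.τ
    (fun b => LP Mi u (P b) vi (Pi b)) (fun b => LP0 Mi u (P b))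
    (fun b => LP_mem hMi hu (hP b) hvi (hPi b)) (fun b => LP0_mem hMi hu (hP b)) (cG _) w.rl _ _ _ hN b
  · intro j
    rw [← (hloop b).1 j]
    unfold sol
    apply (Kn w.R 1 le_rfl _).sum_mem
    intro l _
    apply (Kn w.R 1 le_rfl _).mul_mem
    · show dg (Mi' j l) 1 ≤ _
      rw [hMi', Pj.qs_dg]
      exact ((w.p 0).map_mono (hMi j l)).trans (le_sup_right.trans le_sup_right)
    · apply (Kn w.R 1 le_rfl _).sub_mem
      · show dg (x (Fin.last (n + 1)) l) 1 ≤ _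
        rw [hx, Pj.qs_dg]
        exact ((w.p _).map_mono (dg_le_vd q 1 l)).trans (le_sup_right.trans le_sup_left)
      · apply (Kn w.R 1 le_rfl _).add_mem
        · show dg (x 0 l) 1 ≤ _
          rw [hx, Pj.qs_dg]
          exact ((w.p _).map_mono (dg_le_vd q 1 l)).trans (le_sup_left.trans le_sup_right)
        · apply (Kn w.R 1 le_rfl _).mul_mem
          · show dg (w.τ 0) 1 ≤ _
            exact le_sup_left.trans le_sup_left
          · show dg (vi' l) 1 ≤ _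
            rw [hvi', Pj.qs_dg]
            exact ((w.p _).map_mono (hvi l)).trans (le_sup_right.trans le_sup_right)
  · intro b
    rw [← hLP0, ← hx, ← hx, ← hzz, ← hzz]
    exact (hloop b).2
  · intro b x' y' s'
    rw [← hLP0, ← hLP00, eval_LP, eval_LP0, zero_mul, zero_add]
    congr 1
    funext m
    rw [zero_mul, add_zero]

/-- LOOP for vectors -/
theorem loopV (W : Sp) {ι ν : Type} [Fintype ι] [Fintype ν] (G : ι → QS W) (d N : ℕ)
    (q : Fin (d + 1) → QS W) (z : ν → QS W) (v : Fin (N + 1) → Fin (d + 1) → QS W)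
    (P : ν → Fin (N + 1) → MvPolynomial (Fin (d + 1)) (QS W)) (hN : d ≤ N)
    (hq : Rl q (vd G 1)) (hv : ∀ i j, dg (v i j) 1 ≤ vd G 1) (hP : ∀ a i, P a i ∈ PK (vd G 1))
    (hdet : IsUnit (Matrix.det (Matrix.of fun i j : Fin (d + 1) =>
      v (Fin.castLE (Nat.succ_le_succ hN) i) j)))
    (h1 : ∀ i, Helper31.EC.h (dg (q 0) 1) (vd (fun k => q k - q 0 * v i k) 1 ⊔
      vd (fun a => z a - q 0 * MvPolynomial.eval q (P a i)) 1 ⊔ vd G 1) = 1)
    (h2 : ∀ a i, dg (MvPolynomial.eval q (P a i)) 1 ≤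
      vd (fun k => q k - q 0 * v i k) 1 ⊔ vd G 1)
    (hNR : NRw W q z) (hzG : I (vd z 1) (vd G 1) (vd q 1) = 0) (a : ν) :
    ∃ f : MvPolynomial (Fin (d + 1)) (QS W), f ∈ PK (vd G 1) ∧ f.coeff 0 = 0 ∧
      ∀ i, Pot f (v i) (P a i) := by
  classical
  obtain ⟨e, he⟩ : ∃ e : Fin (d + 1) → Fin (N + 1), e = Fin.castLE (Nat.succ_le_succ hN) :=
    ⟨_, rfl⟩
  obtain ⟨M, hM⟩ : ∃ M : Matrix (Fin (d + 1)) (Fin (d + 1)) (QS W),
    M = Matrix.of fun i j => v (e i) j := ⟨_, rfl⟩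
  have hMd : IsUnit M.det := by rw [hM, he]; exact hdet
  have hMe : ∀ i j, M i j = v (e i) j := fun i j => by rw [hM]; rfl
  have hinv : ∀ i j, dg (M⁻¹ i j) 1 ≤ vd G 1 :=
    inv_mem M le_rfl _ (fun i j => by rw [hMe]; exact hv _ _) hMd
  obtain ⟨Mi, hMi⟩ : ∃ Mi : Fin (d + 1) → Fin (d + 1) → QS W, ∀ j m, Mi j m = M⁻¹ m j :=
    ⟨fun j m => M⁻¹ m j, fun _ _ => rfl⟩
  obtain ⟨u, hu⟩ : ∃ u : Fin (d + 1) → Fin (d + 1) → QS W, ∀ j m, u j m = v (e j) m :=
    ⟨_, fun _ _ => rfl⟩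
  have huf : ∀ j, u j = v (e j) := fun j => funext fun m => hu j m
  have hMu : ∀ j l, ∑ m, Mi j m * u l m = if j = l then 1 else 0 := by
    intro j l
    have e1 : ∑ m, Mi j m * u l m = (M * M⁻¹) l j := by
      rw [Matrix.mul_apply]
      apply Finset.sum_congr rfl
      intro m _
      rw [hMi, hu, hMe]
      ring
    rw [e1, Matrix.mul_nonsing_inv _ hMd, Matrix.one_apply]
    by_cases h : j = l
    · rw [if_pos h, if_pos h.symm]
    · rw [if_neg h, if_neg (fun hc => h hc.symm)]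
  have mMi : ∀ j l, dg (Mi j l) 1 ≤ vd G 1 := fun j l => by rw [hMi]; exact hinv _ _
  have mu : ∀ j l, dg (u j l) 1 ≤ vd G 1 := fun j l => by rw [hu]; exact hv _ _
  refine ⟨PF Mi u (fun j => P a (e j)), PF_mem mMi mu (fun j => hP a _), PF_coeff_zero _ _ _,
    fun i => ?_⟩
  have key := loop_LPV G (q 0) q z Mi u hMu (fun b j => P b (e j)) (v i) (fun b => P b i) hq mMi mu
    (hv i) (fun b j => hP b _) (fun b => hP b i) (h1 i) (fun j => by rw [huf]; exact h1 (e j))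
    (fun b => h2 b i) (fun b j => by rw [huf]; exact h2 b (e j)) hNR hzG a
  intro x s
  exact PF_eq Mi u (fun j => P a (e j)) (v i) (P a i) key x s

end

end Pool.Agent.Helper38.NS
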