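import Pool.Agent.Helper38.NS.AbsU
import Pool.Agent.Helper38.NS.LoopV
import Pool.Agent.Helper19.SP.LoopH

/-! LOOP for vectors, form with primitives, if real noises of the vector are small: the potential exists at a smaller
depth. -/

set_option autoImplicit false

namespace Pool.Agent.Helper38.NS

open Pool.Agent.Helper31.EC QS Pool.Agent.Helper19.SP

noncomputable section

/-- real families are real at every depth -/
theorem rl_dp {S : Sp} {ι : Type} [Fintype ι] {f : ι → QS S} {A : S.L} (hf : Rl f A) (κ : ℝ)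
    (h0 : 0 < κ) (h1 : κ ≤ 1) : Rl (fun i => dQ κ h0 h1 (f i)) (dL κ h0 A) := by
  apply Rl.of_ge
  rw [dQ_vd κ h0 h1 f le_rfl, dL_h, mul_one, le_div_iff₀ h0]
  have a1 := h_chain (vd f κ) (vd f 1) A
  have a2 : vd f κ ⊔ vd f 1 = vd f 1 := by
    have := vd_mono f h1
    order
  rw [a2, hf] at a1
  have a3 : Helper31.EC.h (vd f 1) (vd f κ ⊔ A) ≤ ∑ i : ι, (1 - κ) := by
    unfold vd
    refine (h_finsup_le _ _ _).trans ?_
    apply Finset.sum_le_sum
    intro i _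
    refine (h_anti ?_).trans (h_dg_dg (f i) h1)
    exact (dg_le_vd f κ i).trans le_sup_left
  rw [Finset.sum_const, Finset.card_univ, nsmul_eq_mul] at a3
  linarith

theorem map_eval' {A B : Type*} [CommRing A] [CommRing B] (φ : A →+* B) {σ : Type*} (x : σ → A)
    (P : MvPolynomial σ A) : φ (MvPolynomial.eval x P) =
      MvPolynomial.eval (fun i => φ (x i)) (MvPolynomial.map φ P) := by
  rw [MvPolynomial.eval_map]
  exact MvPolynomial.hom_eval₂ P (RingHom.id A) φ x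

theorem map_dQ_PK {S : Sp} {σ : Type} {A : S.L} {P : MvPolynomial σ (QS S)} (hP : P ∈ PK A) (κ : ℝ)
    (h0 : 0 < κ) (h1 : κ ≤ 1) : MvPolynomial.map (dQ κ h0 h1) P ∈ PK (dL κ h0 A) := by
  intro m
  rw [MvPolynomial.coeff_map, dQ_dg κ h0 h1 _ le_rfl]
  apply dL_mono
  rw [mul_one]
  exact (dg_mono _ h1).trans (hP m)

/-- the core of the loop argument for vectors, with a loss of depth -/
theorem loop_coreU {W : Sp} {ν : Type} [Fintype ν] (A : W.L) {n : ℕ}
    (q : Fin n → QS W) (z : ν → QS W) (hq : Rl q A) (hzG : I (vd z 1) A (vd q 1) = 0)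
    (fA : ∃ (ι : Type) (_ : Fintype ι) (g : ι → QS W), A = vd g 1)
    (R : Sp) (p p' : Pj R W) (τ : Fin (n + 1) → QS R)
    (L L0 : ν → MvPolynomial (Fin n ⊕ (Unit ⊕ Fin n)) (QS W)) (hL : ∀ i, L i ∈ PK A)
    (hL0 : ∀ i, L0 i ∈ PK A) (hG : p'.map A = p.map A)
    (hrl : ∀ x : W.L, Rl τ (p.map x))
    (hτ : ∀ j : Fin n, dg (τ j.succ) 1 ≤
      (dg (τ 0) 1 ⊔ p'.map (vd q 1)) ⊔ (p.map (vd q 1) ⊔ p.map A))
    (hz : ∀ i, p'.qs (z i) = p.qs (z i) + MvPolynomial.eval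
      (pnt (fun m => p.qs (q m)) (τ 0) (fun m => p'.qs (q m))) (MvPolynomial.map p.qs (L i)))
    (h0 : ∀ i (x y : Fin n → QS R) (s : QS R),
      MvPolynomial.eval (pnt x 0 y) (MvPolynomial.map p.qs (L i)) =
      MvPolynomial.eval (pnt x s y) (MvPolynomial.map p.qs (L0 i)))
    {ρ : ℝ} (ρ0 : 0 < ρ) (ρ1 : ρ ≤ 1) (hN : NRu W z (vd q 1) ρ) (i : ν) :
    MvPolynomial.map (dQ ρ ρ0 ρ1) (L i) = MvPolynomial.map (dQ ρ ρ0 ρ1) (L0 i) := by
  classical
  obtain ⟨Gm, hGm⟩ : ∃ Gm, Gm = p.map A := ⟨_, rfl⟩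
  obtain ⟨x, hx⟩ : ∃ x : Fin n → QS R, x = fun m => p.qs (q m) := ⟨_, rfl⟩
  obtain ⟨y, hy⟩ : ∃ y : Fin n → QS R, y = fun m => p'.qs (q m) := ⟨_, rfl⟩
  rw [← hx, ← hy] at hz
  have hxv : vd x 1 = p.map (vd q 1) := by rw [← Pj.qs_vd, hx]
  have hyv : vd y 1 = p'.map (vd q 1) := by rw [← Pj.qs_vd, hy]
  rw [← hxv, ← hyv, ← hGm] at hτ
  have hGm' : p'.map A = Gm := by rw [hGm, hG]
  obtain ⟨L', hL'⟩ : ∃ L' : ν → MvPolynomial (Fin n ⊕ (Unit ⊕ Fin n)) (QS R),
    ∀ i, L' i = MvPolynomial.map p.qs (L i) := ⟨_, fun _ => rfl⟩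
  obtain ⟨L0', hL0'⟩ : ∃ L0' : ν → MvPolynomial (Fin n ⊕ (Unit ⊕ Fin n)) (QS R),
    ∀ i, L0' i = MvPolynomial.map p.qs (L0 i) := ⟨_, fun _ => rfl⟩
  have hz' : ∀ i, p'.qs (z i) = p.qs (z i) + MvPolynomial.eval (pnt x (τ 0) y) (L' i) := by
    intro i
    rw [hL']
    exact hz i
  have h0' : ∀ i (x y : Fin n → QS R) (s : QS R), MvPolynomial.eval (pnt x 0 y) (L' i) =
      MvPolynomial.eval (pnt x s y) (L0' i) := by
    intro i a b s
    rw [hL', hL0']
    exact h0 i a b s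
  have mL : ∀ i, L' i ∈ PK Gm := by intro i; rw [hL', hGm]; exact map_PK p (hL i)
  have mL0 : ∀ i, L0' i ∈ PK Gm := by intro i; rw [hL0', hGm]; exact map_PK p (hL0 i)
  obtain ⟨X, hX⟩ : ∃ X, X = vd y 1 ⊔ (vd x 1 ⊔ Gm) := ⟨_, rfl⟩
  have hxX : ∀ m, dg (x m) 1 ≤ X := by
    intro m
    rw [hX]
    exact (dg_le_vd x 1 m).trans (le_sup_left.trans le_sup_right)
  have hyX : ∀ m, dg (y m) 1 ≤ X := by
    intro m
    rw [hX]
    exact (dg_le_vd y 1 m).trans le_sup_left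
  have hGX : Gm ≤ X := by
    rw [hX]
    exact le_sup_right.trans le_sup_right
  have hnX : ∀ i, dg (MvPolynomial.eval (pnt x (τ 0) y) (L' i)) 1 ≤ dg (τ 0) 1 ⊔ X := by
    intro i
    apply eval_mem (mL i) _ (hGX.trans le_sup_right)
    rintro (m | m | m)
    · exact (hxX m).trans le_sup_right
    · exact le_sup_left
    · exact (hyX m).trans le_sup_right
  have zle1 : p'.map (vd z 1) ≤ p.map (vd z 1) ⊔ dg (τ 0) 1 ⊔ X := by
    rw [← p'.qs_vd, ← p.qs_vd, vd_le]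
    intro i
    beta_reduce
    rw [hz' i]
    apply (Kn R 1 le_rfl _).add_mem
    · exact (dg_le_vd (fun i => p.qs (z i)) 1 i).trans (le_sup_left.trans le_sup_left)
    · exact (hnX i).trans (by order)
  have zle2 : p.map (vd z 1) ≤ p'.map (vd z 1) ⊔ dg (τ 0) 1 ⊔ X := by
    rw [← p'.qs_vd, ← p.qs_vd, vd_le]
    intro i
    beta_reduce
    have e1 : p.qs (z i) = p'.qs (z i) - MvPolynomial.eval (pnt x (τ 0) y) (L' i) := by
      rw [hz' i]; ring
    rw [e1]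
    apply (Kn R 1 le_rfl _).sub_mem
    · exact (dg_le_vd (fun i => p'.qs (z i)) 1 i).trans (le_sup_left.trans le_sup_left)
    · exact (hnX i).trans (by order)
  -- counts
  have cnt := loop_countsV (n := n) (X := X) (Q := vd x 1) (Q' := vd y 1) (G := Gm)
    (T := dg (τ 0) 1) (Z := p.map (vd z 1)) (Z' := p'.map (vd z 1)) (V := vd τ 1)
    (by
      intro B
      have := h_sd_le y Finset.univ B
      rwa [sd_univ, Finset.card_univ, Fintype.card_fin] at this)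
    (fun B => h_dg_le_one _ B)
    (by
      have := hrl (vd q 1 ⊔ A ⊔ vd z 1)
      unfold Rl at this
      rw [Fintype.card_fin] at this
      push_cast at this
      rw [← this, Pj.map_sup, Pj.map_sup, hxv, hGm])
    (by
      rw [vd_le]
      intro k
      induction k using Fin.cases with
      | zero => exact le_sup_left.trans le_sup_left
      | succ j => exact hτ j)
    hX zle1 zle2
    (by
      rw [hyv, hxv, ← hGm', ← Pj.map_sup, Pj.h_map, hGm', hGm, ← Pj.map_sup, Pj.h_map])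
    (by
      rw [hyv, ← hGm', Pj.I_map]
      exact hzG)
  obtain ⟨cnt1, cnt2, cnt3⟩ := cnt
  -- absorption
  have habs : dQ ρ ρ0 ρ1 (MvPolynomial.eval (pnt x (τ 0) y) (L' i)) =
      dQ ρ ρ0 ρ1 (MvPolynomial.eval (pnt x (τ 0) y) (L0' i)) := by
    obtain ⟨Φ, hΦ⟩ : ∃ Φ : ν → Polynomial (QS R), ∀ i, Φ i = pev x y (L' i) := ⟨_, fun _ => rfl⟩
    obtain ⟨m, hm⟩ : ∃ m : ℕ, ∀ i, (Φ i).natDegree < m + 1 :=
      ⟨Finset.univ.sup fun i => (Φ i).natDegree, fun i => by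
        have h1 := Finset.le_sup (f := fun i => (Φ i).natDegree) (Finset.mem_univ i)
        omega⟩
    have hΦe : ∀ i s, (Φ i).coeff 0 + ∑ a : Fin m, (Φ i).coeff (a + 1) * s ^ ((a : ℕ) + 1) =
        MvPolynomial.eval (pnt x s y) (L' i) := by
      intro i s
      rw [← pev_eval, ← hΦ, ← pe_eval (Φ i) s m (hm i)]
      unfold pe
      refine Eq.trans ?_ (Fin.sum_univ_succ _).symm
      congr 1
      show (Φ i).coeff 0 = (Φ i).coeff 0 * s ^ 0
      rw [pow_zero, mul_one]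
    have mΦ : ∀ i a, dg ((Φ i).coeff a) 1 ≤ X := by
      intro i a
      rw [hΦ]
      exact pev_coeff _ _ _ (mL i) hGX hxX hyX _
    obtain ⟨ι, _, gA, hgA⟩ := fA
    obtain ⟨g, hg⟩ : ∃ g : (Fin n ⊕ (Fin n ⊕ ι)) → QS R,
      g = Sum.elim y (Sum.elim x (fun a => p.qs (gA a))) := ⟨_, rfl⟩
    have hgX : vd g 1 = X := by
      rw [hg, vd_sum, vd_sum, p.qs_vd, ← hgA, ← hGm, hX]
    have key := absU (q := q) (z := z) (g := g) (c := fun i (a : Fin m) => (Φ i).coeff (a + 1))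
      ρ1 hN p' (fun i => p.qs (z i) + (Φ i).coeff 0) (τ 0)
      (by rw [hgX, ← hyv, hX]; exact le_sup_left)
      (fun i a => by rw [hgX]; exact mΦ i _)
      (fun i => by
        rw [hz' i, ← hΦe]
        ring)
      (by rw [hgX, ← hyv]; exact cnt3)
      (by
        rw [hgX]
        apply le_antisymm (h_dg_le_one _ _)
        refine cnt2.ge.trans (h_anti ?_)
        apply sup_le _ le_sup_right
        rw [vd_le]
        intro i
        apply (Kn R 1 le_rfl _).add_mem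
        · show dg (p.qs (z i)) 1 ≤ _
          rw [p.qs_dg]
          exact (p.map_mono (dg_le_vd z 1 i)).trans le_sup_left
        · exact (mΦ i 0).trans le_sup_right)
    rw [← h0' i x y (τ 0), ← sub_eq_zero, ← map_sub, dQ_eq_zero, ← hΦe, ← hΦe]
    have h1 : (Φ i).coeff 0 + ∑ a : Fin m, (Φ i).coeff (a + 1) * (τ 0) ^ ((a : ℕ) + 1) -
        ((Φ i).coeff 0 + ∑ a : Fin m, (Φ i).coeff (a + 1) * (0 : QS R) ^ ((a : ℕ) + 1)) =
        ∑ a : Fin m, (Φ i).coeff (a + 1) * (τ 0) ^ ((a : ℕ) + 1) := by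
      have h2 : ∑ a : Fin m, (Φ i).coeff (a + 1) * (0 : QS R) ^ ((a : ℕ) + 1) = 0 := by
        apply Finset.sum_eq_zero
        intro a _
        rw [zero_pow (Nat.succ_ne_zero _), mul_zero]
      rw [h2]
      ring
    rw [h1]
    exact (Id R ρ).sum_mem fun a _ => (Id R ρ).mul_mem_right _ (key i a)
  -- the polynomials agree
  have hfin : MvPolynomial.map (dQ ρ ρ0 ρ1) (L' i) = MvPolynomial.map (dQ ρ ρ0 ρ1) (L0' i) := by
    rw [map_eval', map_eval'] at habs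
    apply mv_unique (dL ρ ρ0 Gm) (fun a => dQ ρ ρ0 ρ1 (pnt x (τ 0) y a)) _ _ ?_
      (map_dQ_PK (mL i) ρ ρ0 ρ1) (map_dQ_PK (mL0 i) ρ ρ0 ρ1) habs
    apply rl_dp
    apply Rl.of_ge
    have e1 : vd (pnt x (τ 0) y) 1 = vd x 1 ⊔ (dg (τ 0) 1 ⊔ vd y 1) := by
      apply le_antisymm
      · rw [vd_le]
        rintro (m | m | m)
        · exact (dg_le_vd x 1 m).trans le_sup_left
        · exact le_sup_left.trans le_sup_right
        · exact (dg_le_vd y 1 m).trans (le_sup_right.trans le_sup_right)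
      · refine sup_le ?_ (sup_le ?_ ?_)
        · rw [vd_le]
          intro m
          exact dg_le_vd (pnt x (τ 0) y) 1 (Sum.inl m)
        · exact dg_le_vd (pnt x (τ 0) y) 1 (Sum.inr (Sum.inl ()))
        · rw [vd_le]
          intro m
          exact dg_le_vd (pnt x (τ 0) y) 1 (Sum.inr (Sum.inr m))
    rw [e1, h_chain, cnt1]
    have e2 : Helper31.EC.h (vd x 1) Gm = n := by
      rw [hxv, hGm, Pj.h_map]
      have := hq
      unfold Rl at this
      rw [Fintype.card_fin] at this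
      exact this
    rw [e2]
    simp only [Fintype.card_sum, Fintype.card_fin, Fintype.card_unit]
    push_cast
    linarith
  rw [hL', hL0'] at hfin
  apply MvPolynomial.map_injective _ (dP ρ ρ0 p).qs_injective
  have e3 : ∀ P : MvPolynomial (Fin n ⊕ (Unit ⊕ Fin n)) (QS W),
      MvPolynomial.map (dP ρ ρ0 p).qs (MvPolynomial.map (dQ ρ ρ0 ρ1) P) =
        MvPolynomial.map (dQ ρ ρ0 ρ1) (MvPolynomial.map p.qs P) := by
    intro P
    ext m
    rw [MvPolynomial.coeff_map, MvPolynomial.coeff_map, MvPolynomial.coeff_map,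
      MvPolynomial.coeff_map, dP_qs]
  rw [e3, e3]
  exact hfin

/-- the transport along loops is trivial, form with primitives, vectors -/
theorem loop_LHU {W : Sp} {ι ν : Type} [Fintype ι] [Fintype ν] (G : ι → QS W) {n : ℕ} (t : QS W)
    (q : Fin n → QS W) (z : ν → QS W)
    (Mi u : Fin n → Fin n → QS W) (hM : ∀ j l, ∑ m, Mi j m * u l m = if j = l then 1 else 0)
    (H : ν → Fin n → MvPolynomial (Fin n) (QS W)) (vi : Fin n → QS W)
    (Hi : ν → MvPolynomial (Fin n) (QS W))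
    (hq : Rl q (vd G 1)) (hMi : ∀ j l, dg (Mi j l) 1 ≤ vd G 1) (hu : ∀ j l, dg (u j l) 1 ≤ vd G 1)
    (hvi : ∀ l, dg (vi l) 1 ≤ vd G 1) (hH : ∀ a j, H a j ∈ PK (vd G 1))
    (hHi : ∀ a, Hi a ∈ PK (vd G 1))
    (h1 : Helper31.EC.h (dg t 1) (vd (fun k => q k - t * vi k) 1 ⊔
      vd (fun a => z a - MvPolynomial.eval q (Hi a)) 1 ⊔ vd G 1) = 1)
    (h1' : ∀ j, Helper31.EC.h (dg t 1) (vd (fun k => q k - t * u j k) 1 ⊔
      vd (fun a => z a - MvPolynomial.eval q (H a j)) 1 ⊔ vd G 1) = 1)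
    {ρ : ℝ} (ρ0 : 0 < ρ) (ρ1 : ρ ≤ 1) (hN : NRu W z (vd q 1) ρ)
    (hzG : I (vd z 1) (vd G 1) (vd q 1) = 0) (b : ν) :
    MvPolynomial.map (dQ ρ ρ0 ρ1) (LH Mi u (H b) vi (Hi b)) =
      MvPolynomial.map (dQ ρ ρ0 ρ1) (LH0 Mi u (H b)) := by
  classical
  -- directions and primitives by types
  obtain ⟨vs, hvn, hvs⟩ : ∃ vs : Option (Fin n) → Fin n → QS W, vs none = vi ∧ ∀ j, vs (some j) = u j :=
    ⟨fun o => o.elim vi u, rfl, fun _ => rfl⟩
  obtain ⟨Hs, hHn, hHs⟩ : ∃ Hs : ν → Option (Fin n) → MvPolynomial (Fin n) (QS W),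
      (∀ a, Hs a none = Hi a) ∧ ∀ a j, Hs a (some j) = H a j :=
    ⟨fun a o => o.elim (Hi a) (H a), fun _ => rfl, fun _ _ => rfl⟩
  have kv : ∀ o l, dg (vs o l) 1 ≤ vd G 1 := by
    rintro (_ | j) l
    · rw [hvn]; exact hvi l
    · rw [hvs]; exact hu j l
  have kH : ∀ a o, Hs a o ∈ PK (vd G 1) := by
    rintro a (_ | j)
    · rw [hHn]; exact hHi a
    · rw [hHs]; exact hH a j
  have kt : ∀ o, Helper31.EC.h (dg t 1) (vd (fun k => q k - t * vs o k) 1 ⊔
      vd (fun a => z a - MvPolynomial.eval q (Hs a o)) 1 ⊔ vd G 1) = 1 := by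
    rintro (_ | j)
    · simp only [hvn, hHn]; exact h1
    · simp only [hvs, hHs]; exact h1' j
  -- the labels
  obtain ⟨HH, hHH⟩ : ∃ HH : ν × Option (Fin n) → MvPolynomial (Fin n) (QS W),
    ∀ a o, HH (a, o) = Hs a o := ⟨fun x => Hs x.1 x.2, fun _ _ => rfl⟩
  obtain ⟨G', g1, g2, g4⟩ : ∃ G' : ι ⊕ ((Option (Fin n) × Fin n) ⊕
      (Σ x : ν × Option (Fin n), (HH x).support)) → QS W,
      (∀ a, G' (Sum.inl a) = G a) ∧ (∀ o m, G' (Sum.inr (Sum.inl (o, m))) = vs o m) ∧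
      (∀ (x : ν × Option (Fin n)) (m : (HH x).support),
        G' (Sum.inr (Sum.inr ⟨x, m⟩)) = (HH x).coeff m.1) :=
    ⟨Sum.elim G (Sum.elim (fun x => vs x.1 x.2) (fun x => (HH x.1).coeff x.2.1)),
      fun _ => rfl, fun _ _ => rfl, fun _ _ => rfl⟩
  have hGG : vd G' 1 = vd G 1 := by
    apply le_antisymm
    · rw [vd_le]
      rintro (a | ⟨a, b⟩ | ⟨a, b⟩)
      · rw [g1]
        exact dg_le_vd G 1 a
      · rw [g2]
        exact kv _ _
      · rw [g4]
        have h3 := kH a.1 a.2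
        rw [← hHH] at h3
        exact h3 _
    · rw [vd_le]
      intro a
      rw [← g1 a]
      exact dg_le_vd G' 1 (Sum.inl a)
  -- frozen functions
  obtain ⟨F, f1, f2, f3⟩ : ∃ F : Option (Fin n) → ((ι ⊕ ((Option (Fin n) × Fin n) ⊕
      (Σ x : ν × Option (Fin n), (HH x).support))) ⊕ (Fin n ⊕ ν)) → QS W,
        (∀ o a, F o (Sum.inl a) = G' a) ∧
        (∀ o m, F o (Sum.inr (Sum.inl m)) = q m - t * vs o m) ∧
        (∀ o a, F o (Sum.inr (Sum.inr a)) = z a - MvPolynomial.eval q (Hs a o)) :=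
    ⟨fun o => Sum.elim G' (Sum.elim (fun m => q m - t * vs o m)
      (fun a => z a - MvPolynomial.eval q (Hs a o))), fun _ _ => rfl, fun _ _ => rfl, fun _ _ => rfl⟩
  have hline : ∀ o, Helper31.EC.h (dg t 1) (vd (F o) 1) = 1 := by
    intro o
    apply le_antisymm (h_dg_le_one _ _)
    refine (kt o).ge.trans (h_anti ?_)
    rw [vd_le]
    rintro (a | m | m)
    · rw [f1]
      refine (dg_le_vd G' 1 a).trans ?_
      rw [hGG]
      exact le_sup_right
    · rw [f2]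
      exact (dg_le_vd (fun k => q k - t * vs o k) 1 m).trans (le_sup_left.trans le_sup_left)
    · rw [f3]
      exact (dg_le_vd (fun a => z a - MvPolynomial.eval q (Hs a o)) 1 m).trans
        (le_sup_right.trans le_sup_left)
  obtain ⟨w⟩ := exists_walkF F t hline (n + 1) (Fin.cases none some)
  -- literally common data
  have cV : ∀ a o m, (w.p a).qs (vs o m) = (w.p 0).qs (vs o m) := by
    intro a o m
    exact w.com _ (fun _ => Sum.inl (Sum.inr (Sum.inl (o, m)))) (fun k => by rw [f1, g2]) a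
  have cH : ∀ a b o, MvPolynomial.map (w.p a).qs (Hs b o) = MvPolynomial.map (w.p 0).qs (Hs b o) := by
    intro a b o
    apply map_eq_of_coeff
    intro m hm
    have hm' : m ∈ (HH (b, o)).support := by rw [hHH]; exact hm
    rw [← hHH b o]
    exact w.com _ (fun _ => Sum.inl (Sum.inr (Sum.inr ⟨(b, o), ⟨m, hm'⟩⟩))) (fun k => by rw [f1, g4]) a
  have cG : ∀ a, (w.p a).map (vd G 1) = (w.p 0).map (vd G 1) := by
    intro a
    rw [← hGG, ← Pj.qs_vd, ← Pj.qs_vd]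
    congr 1
    funext i
    exact w.com _ (fun _ => Sum.inl i) (fun k => by rw [f1]) a
  -- the points
  obtain ⟨x, hx⟩ : ∃ x : Fin (n + 1 + 1) → Fin n → QS w.R, ∀ a, x a = fun m => (w.p a).qs (q m) :=
    ⟨_, fun _ => rfl⟩
  obtain ⟨zz, hzz⟩ : ∃ zz : ν → Fin (n + 1 + 1) → QS w.R, ∀ b a, zz b a = (w.p a).qs (z b) :=
    ⟨_, fun _ _ => rfl⟩
  have stx : ∀ k m, x k.succ m = x k.castSucc m + w.τ k * (w.p 0).qs (vs (Fin.cases none some k) m) := by
    intro k m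
    have := w.hF k (Sum.inr (Sum.inl m))
    rw [f2, map_sub, map_mul, map_sub, map_mul, cV k.castSucc, cV k.succ] at this
    rw [hx, hx, w.ht k]
    linear_combination this
  have stz : ∀ b k, zz b k.succ = zz b k.castSucc +
      (MvPolynomial.eval (x k.succ) (MvPolynomial.map (w.p 0).qs (Hs b (Fin.cases none some k))) -
      MvPolynomial.eval (x k.castSucc) (MvPolynomial.map (w.p 0).qs (Hs b (Fin.cases none some k)))) := by
    intro b k
    have := w.hF k (Sum.inr (Sum.inr b))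
    rw [f3, map_sub, map_sub, qs_eval, qs_eval, cH k.castSucc, cH k.succ] at this
    rw [hzz, hzz, hx, hx]
    linear_combination this
  obtain ⟨Mi', hMi'⟩ : ∃ Mi' : Fin n → Fin n → QS w.R, Mi' = fun a b => (w.p 0).qs (Mi a b) := ⟨_, rfl⟩
  obtain ⟨u', hu'⟩ : ∃ u' : Fin n → Fin n → QS w.R, u' = fun a b => (w.p 0).qs (u a b) := ⟨_, rfl⟩
  obtain ⟨vi', hvi'⟩ : ∃ vi' : Fin n → QS w.R, vi' = fun a => (w.p 0).qs (vi a) := ⟨_, rfl⟩
  obtain ⟨H', hH'⟩ : ∃ H' : ν → Fin n → MvPolynomial (Fin n) (QS w.R),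
    ∀ b, H' b = fun j => MvPolynomial.map (w.p 0).qs (H b j) := ⟨_, fun _ => rfl⟩
  obtain ⟨Hi', hHi'⟩ : ∃ Hi' : ν → MvPolynomial (Fin n) (QS w.R),
    ∀ b, Hi' b = MvPolynomial.map (w.p 0).qs (Hi b) := ⟨_, fun _ => rfl⟩
  have hM' : ∀ j l, ∑ m, Mi' j m * u' l m = if j = l then 1 else 0 := by
    intro j l
    have := congrArg (w.p 0).qs (hM j l)
    rw [map_sum] at this
    rw [hMi', hu']
    simp only [map_mul] at this
    rw [this]
    split_ifs
    · exact map_one _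
    · exact map_zero _
  have hloop : ∀ b, (∀ j, sol Mi' (fun m => x 0 m + w.τ 0 * vi' m) (x (Fin.last (n + 1))) j =
      w.τ j.succ) ∧ zz b (Fin.last (n + 1)) = zz b 0 + MvPolynomial.eval
      (pnt (x 0) (w.τ 0) (x (Fin.last (n + 1)))) (LH Mi' u' (H' b) vi' (Hi' b)) := by
    intro b
    refine loop_eqH Mi' u' hM' (H' b) vi' (Hi' b) x (zz b) w.τ ?_ ?_ ?_ ?_
    · intro m
      have := stx 0 m
      rw [Fin.cases_zero, hvn] at this
      rw [hvi']
      exact this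
    · intro j m
      have := stx j.succ m
      rw [Fin.cases_succ, hvs] at this
      rw [hu']
      exact this
    · have := stz b 0
      rw [Fin.cases_zero, hHn] at this
      rw [hHi']
      exact this
    · intro j
      have := stz b j.succ
      rw [Fin.cases_succ, hHs] at this
      rw [hH']
      exact this
  have hLP0 : ∀ b, LH Mi' u' (H' b) vi' (Hi' b) =
      MvPolynomial.map (w.p 0).qs (LH Mi u (H b) vi (Hi b)) := by
    intro b
    rw [map_LH, hMi', hu', hH', hvi', hHi']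
  have hLP00 : ∀ b, LH0 Mi' u' (H' b) = MvPolynomial.map (w.p 0).qs (LH0 Mi u (H b)) := by
    intro b
    rw [map_LH0, hMi', hu', hH']
  apply loop_coreU (vd G 1) q z hq hzG ⟨ι, inferInstance, G, rfl⟩ w.R (w.p 0)
    (w.p (Fin.last (n + 1))) w.τ (fun b => LH Mi u (H b) vi (Hi b)) (fun b => LH0 Mi u (H b))
    (fun b => LH_mem hMi hu (hH b) hvi (hHi b)) (fun b => LH0_mem hMi hu (hH b)) (cG _) w.rl
    _ _ _ ρ0 ρ1 hN b
  · intro j
    rw [← (hloop b).1 j]
    unfold sol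
    apply (Kn w.R 1 le_rfl _).sum_mem
    intro l _
    apply (Kn w.R 1 le_rfl _).mul_mem
    · show dg (Mi' j l) 1 ≤ _
      rw [hMi', Pj.qs_dg]
      exact ((w.p 0).map_mono (hMi j l)).trans (le_sup_right.trans le_sup_right)
    · apply (Kn w.R 1 le_rfl _).sub_mem
      · show dg (x (Fin.last (n + 1)) l) 1 ≤ _
        rw [hx, Pj.qs_dg]
        exact ((w.p _).map_mono (dg_le_vd q 1 l)).trans (le_sup_right.trans le_sup_left)
      · apply (Kn w.R 1 le_rfl _).add_mem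
        · show dg (x 0 l) 1 ≤ _
          rw [hx, Pj.qs_dg]
          exact ((w.p _).map_mono (dg_le_vd q 1 l)).trans (le_sup_left.trans le_sup_right)
        · apply (Kn w.R 1 le_rfl _).mul_mem
          · show dg (w.τ 0) 1 ≤ _
            exact le_sup_left.trans le_sup_left
          · show dg (vi' l) 1 ≤ _
            rw [hvi', Pj.qs_dg]
            exact ((w.p _).map_mono (hvi l)).trans (le_sup_right.trans le_sup_right)
  · intro b
    rw [← hLP0, ← hx, ← hx, ← hzz, ← hzz]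
    exact (hloop b).2
  · intro b x' y' s'
    rw [← hLP0, ← hLP00]
    exact eval_LH_zero Mi' u' (H' b) vi' (Hi' b) x' y' s'

/-- LOOP for vectors, form with primitives, with a loss of depth -/
theorem loopHU {W : Sp} {ι ν : Type} [Fintype ι] [Fintype ν] (G : ι → QS W) {n N : ℕ} (t : QS W)
    (q : Fin n → QS W) (z : ν → QS W) (v : Fin N → Fin n → QS W)
    (H : ν → Fin N → MvPolynomial (Fin n) (QS W)) (hN : n ≤ N)
    (hq : Rl q (vd G 1)) (hv : ∀ i j, dg (v i j) 1 ≤ vd G 1) (hH : ∀ a i, H a i ∈ PK (vd G 1))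
    (hdet : IsUnit (Matrix.det (Matrix.of fun i j : Fin n => v (Fin.castLE hN i) j)))
    (h1 : ∀ i, Helper31.EC.h (dg t 1) (vd (fun k => q k - t * v i k) 1 ⊔
      vd (fun a => z a - MvPolynomial.eval q (H a i)) 1 ⊔ vd G 1) = 1)
    {ρ : ℝ} (ρ0 : 0 < ρ) (ρ1 : ρ ≤ 1) (hNR : NRu W z (vd q 1) ρ)
    (hzG : I (vd z 1) (vd G 1) (vd q 1) = 0) (a : ν) :
    ∃ f : MvPolynomial (Fin n) (QS (dp W ρ ρ0)), f ∈ PK (dL ρ ρ0 (vd G 1)) ∧ f.coeff 0 = 0 ∧
      ∀ i (x : Fin n → QS (dp W ρ ρ0)) (s : QS (dp W ρ ρ0)),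
        MvPolynomial.eval (fun j => x j + s * dQ ρ ρ0 ρ1 (v i j)) f - MvPolynomial.eval x f =
          MvPolynomial.eval (fun j => x j + s * dQ ρ ρ0 ρ1 (v i j))
            (MvPolynomial.map (dQ ρ ρ0 ρ1) (H a i)) -
          MvPolynomial.eval x (MvPolynomial.map (dQ ρ ρ0 ρ1) (H a i)) := by
  classical
  obtain ⟨e, he⟩ : ∃ e : Fin n → Fin N, e = Fin.castLE hN := ⟨_, rfl⟩
  obtain ⟨M, hM⟩ : ∃ M : Matrix (Fin n) (Fin n) (QS W), M = Matrix.of fun i j => v (e i) j :=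
    ⟨_, rfl⟩
  have hMd : IsUnit M.det := by rw [hM, he]; exact hdet
  have hMe : ∀ i j, M i j = v (e i) j := fun i j => by rw [hM]; rfl
  have hinv : ∀ i j, dg (M⁻¹ i j) 1 ≤ vd G 1 :=
    inv_mem M le_rfl _ (fun i j => by rw [hMe]; exact hv _ _) hMd
  obtain ⟨Mi, hMi⟩ : ∃ Mi : Fin n → Fin n → QS W, ∀ j m, Mi j m = M⁻¹ m j :=
    ⟨fun j m => M⁻¹ m j, fun _ _ => rfl⟩
  obtain ⟨u, hu⟩ : ∃ u : Fin n → Fin n → QS W, ∀ j m, u j m = v (e j) m := ⟨_, fun _ _ => rfl⟩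
  have huf : ∀ j, u j = v (e j) := fun j => funext fun m => hu j m
  have hMu : ∀ j l, ∑ m, Mi j m * u l m = if j = l then 1 else 0 := by
    intro j l
    have e1 : ∑ m, Mi j m * u l m = (M * M⁻¹) l j := by
      rw [Matrix.mul_apply]
      apply Finset.sum_congr rfl
      intro m _
      rw [hMi, hu, hMe]
      ring
    rw [e1, Matrix.mul_nonsing_inv _ hMd, Matrix.one_apply]
    by_cases h : j = l
    · rw [if_pos h, if_pos h.symm]
    · rw [if_neg h, if_neg (fun hc => h hc.symm)]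
  have mMi : ∀ j l, dg (Mi j l) 1 ≤ vd G 1 := fun j l => by rw [hMi]; exact hinv _ _
  have mu : ∀ j l, dg (u j l) 1 ≤ vd G 1 := fun j l => by rw [hu]; exact hv _ _
  refine ⟨MvPolynomial.map (dQ ρ ρ0 ρ1) (PFH Mi u (fun j => H a (e j))),
    map_dQ_PK (PFH_mem mMi mu (fun j => hH a _)) ρ ρ0 ρ1, ?_, fun i => ?_⟩
  · rw [MvPolynomial.coeff_map, PFH_coeff_zero, map_zero]
  have key := loop_LHU G t q z Mi u hMu (fun b j => H b (e j)) (v i) (fun b => H b i) hq mMi mu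
    (hv i) (fun b j => hH b _) (fun b => hH b i) (h1 i) (fun j => by rw [huf]; exact h1 (e j))
    ρ0 ρ1 hNR hzG a
  rw [map_LH, map_LH0] at key
  intro x s
  rw [map_PFH]
  exact PFH_eq _ _ _ (fun m => dQ ρ ρ0 ρ1 (v i m)) (MvPolynomial.map (dQ ρ ρ0 ρ1) (H a i)) key x s

end

end Pool.Agent.Helper38.NS
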