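import Pool.Agent.Helper38.NS.Rect
import Pool.Agent.Helper38.NS.Lin

/-! Exact entropy calculus: many lines through one point (bushes), independence of the directions, real times. -/

set_option autoImplicit false

namespace Pool.Agent.Helper38.NS

open Pool.Agent.Helper31.EC QS

noncomputable section

theorem vd_cons {S : Sp} {n : ℕ} (a : QS S) (f : Fin n → QS S) (r : ℝ) :
    vd (Fin.cons a f : Fin (n + 1) → QS S) r = dg a r ⊔ vd f r := by
  apply le_antisymm
  · rw [vd_le]
    intro i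
    induction i using Fin.cases with
    | zero => exact le_sup_left
    | succ i => exact (dg_le_vd f r i).trans le_sup_right
  · apply sup_le
    · exact dg_le_vd (Fin.cons a f : Fin (n + 1) → QS S) r 0
    · rw [vd_le]
      exact fun i => dg_le_vd (Fin.cons a f : Fin (n + 1) → QS S) r i.succ

theorem H_finsup_le {S : Sp} {ι : Type} (A : Finset ι) (f : ι → S.L) :
    H (A.sup f) ≤ ∑ i ∈ A, H (f i) := by
  classical
  induction A using Finset.induction_on with
  | empty => simp [H_bot]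
  | insert a A ha ih =>
    rw [Finset.sup_insert, Finset.sum_insert ha]
    have := H_sup_le (f a) (A.sup f)
    linarith

/-- copies on an extension -/
def pullCQ {S : Sp} {ι : Type} [Fintype ι] {f : ι → QS S} {d : ℕ} (C : CQ S f d) {W : Sp}
    (q : Pj W C.W) : CQ S f d where
  W := W
  p i := q.comp (C.p i)
  com i j a := by rw [Pj.comp_qs, Pj.comp_qs, C.com i j a]
  ind A := by
    rw [Pj.comp_map]
    have e : (Finset.univ.sup fun i => (q.comp (C.p i)).map (A i)) =
        q.map (Finset.univ.sup fun i => (C.p i).map (A i)) := by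
      rw [Pj.map_finsup]
      congr 1
      funext i
      exact Pj.comp_map _ _ _
    rw [e, Pj.h_map]
    exact C.ind A

/-- sub-families of copies -/
def subCQ {S : Sp} {ι : Type} [Fintype ι] {f : ι → QS S} {d e : ℕ} (C : CQ S f d)
    (g : Fin (e + 1) → Fin (d + 1)) (hg : Function.Injective g) : CQ S f e where
  W := C.W
  p i := C.p (g i)
  com i j a := C.com (g i) (g j) a
  ind A := by
    classical
    have h1 : ∃ A' : Fin (d + 1) → S.L, ∀ i, A' (g i) = A i :=
      ⟨fun j => if h : ∃ i, g i = j then A h.choose else ⊥, fun i => by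
        have h : ∃ i', g i' = g i := ⟨i, rfl⟩
        beta_reduce
        rw [dif_pos h, hg h.choose_spec]⟩
    obtain ⟨A', hA'⟩ := h1
    have h2 := C.h_sup (Finset.univ.image g) A'
    rw [Finset.sup_image, Finset.sum_image (fun i _ j _ h => hg h)] at h2
    rw [C.p_v (g 0)]
    have h3 : (Finset.univ.sup fun i => (C.p (g i)).map (A i)) =
        Finset.univ.sup ((fun i => (C.p i).map (A' i)) ∘ g) := by
      congr 1
      funext i
      show _ = (C.p (g i)).map (A' (g i))
      rw [hA']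
    rw [h3, h2]
    apply Finset.sum_congr rfl
    intro i _
    rw [hA']

namespace FB

variable {S : Sp} {d : ℕ}

/-- the base point of a line -/
def q (s : FB S d) : Fin (d + 1) → QS S := Fin.cons s.t s.y

/-- the direction of the base line -/
def v (s : FB S d) : Fin (d + 1) → QS S := Fin.cons 1 s.x

def fQ (s : FB S d) : Fin (d + 1) ⊕ Unit → QS S := Sum.elim s.q fun _ => s.z

theorem vd_q (s : FB S d) : vd s.q 1 = s.iT ⊔ s.iY := vd_cons _ _ _

theorem vd_fQ (s : FB S d) : vd s.fQ 1 = s.iT ⊔ (s.iY ⊔ s.iZ) := by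
  unfold fQ
  rw [vd_sum, vd_unit, vd_q, sup_assoc]
  rfl

theorem q_zero (s : FB S d) : s.q 0 = s.t := rfl

theorem q_succ (s : FB S d) (i : Fin d) : s.q i.succ = s.y i := rfl

theorem v_zero (s : FB S d) : s.v 0 = 1 := rfl

theorem v_succ (s : FB S d) (i : Fin d) : s.v i.succ = s.x i := rfl

theorem Hyp.HT {s : FB S d} (hs : s.Hyp) : H s.iT = 1 :=
  le_antisymm (H_dg1 _) (by
    have h1 := h_le_H s.iT (s.iL ⊔ s.iB)
    rw [hs.ht] at h1
    exact h1)

section bush

variable {s : FB S d} {N : ℕ} (C : CQ S s.fQ N)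

/-- all directions -/
def dirs (a : Fin (N + 1) × Fin d) : QS C.W := (C.p a.1).qs (s.x a.2)

theorem vd_dirs : vd (dirs C) 1 = Finset.univ.sup fun i => (C.p i).map s.iX := by
  apply le_antisymm
  · rw [vd_le]
    intro a
    refine le_trans ?_ (Finset.le_sup (f := fun i => (C.p i).map s.iX) (Finset.mem_univ a.1))
    unfold dirs iX
    rw [← (C.p a.1).qs_vd]
    exact dg_le_vd (fun i => (C.p a.1).qs (s.x i)) 1 a.2
  · apply Finset.sup_le
    intro i _
    unfold iX
    rw [← (C.p i).qs_vd, vd_le]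
    intro b
    exact dg_le_vd (dirs C) 1 (i, b)

theorem iX_le_dirs (i : Fin (N + 1)) : (C.p i).map s.iX ≤ vd (dirs C) 1 := by
  rw [vd_dirs]
  exact Finset.le_sup (f := fun i => (C.p i).map s.iX) (Finset.mem_univ i)

/-- the directions are independent of the point -/
theorem dirs_ind (hs : s.Hyp) : I (vd (dirs C) 1) C.v ⊥ = 0 := by
  refine ind_of_h ?_
  rw [sup_bot_eq, h_bot]
  have h1 : Helper31.EC.h (vd (dirs C) 1) C.v = ∑ i : Fin (N + 1), H ((C.p i).map s.iX) := by
    rw [vd_dirs, C.h_sup]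
    apply Finset.sum_congr rfl
    intro i _
    rw [Pj.H_map, vd_fQ, ← h_bot s.iX]
    exact h_of_ind' hs.s1 bot_le (by rw [sup_bot_eq])
  rw [h1, vd_dirs]
  exact H_finsup_le _ _

theorem v_eq (i : Fin (N + 1)) : C.v = (C.p i).map (s.iT ⊔ (s.iY ⊔ s.iZ)) := by
  rw [← vd_fQ, C.p_v i]

/-- the height is real over one line and all directions -/
theorem time_real (hs : s.Hyp) (i : Fin (N + 1)) :
    Helper31.EC.h ((C.p i).map s.iT) ((C.p i).map (s.iL ⊔ s.iB) ⊔ vd (dirs C) 1) = 1 := by
  classical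
  obtain ⟨U', hU'⟩ : ∃ U', U' = (Finset.univ.erase i).sup fun j => (C.p j).map s.iX := ⟨_, rfl⟩
  have e1 : vd (dirs C) 1 = (C.p i).map s.iX ⊔ U' := by
    rw [vd_dirs, hU', ← Finset.insert_erase (Finset.mem_univ i), Finset.sup_insert,
      Finset.erase_insert (Finset.notMem_erase i _)]
  have k1 : I U' ((C.p i).map (s.iL ⊔ s.iB ⊔ s.iT)) C.v = 0 := by
    have h1 := C.I_sup (s := Finset.univ.erase i) (t := {i})
      (by simp) (fun j => if j = i then s.iL ⊔ s.iB ⊔ s.iT else s.iX)
    rw [Finset.sup_singleton, if_pos rfl] at h1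
    have h2 : ((Finset.univ.erase i).sup fun j => (C.p j).map
        (if j = i then s.iL ⊔ s.iB ⊔ s.iT else s.iX)) = U' := by
      rw [hU']
      apply Finset.sup_congr rfl
      intro j hj
      rw [if_neg (Finset.ne_of_mem_erase hj)]
    rw [h2] at h1
    exact h1
  have k2 : I U' C.v ⊥ = 0 := I_zero_mono (dirs_ind C hs) (by rw [e1]; order) le_sup_left
  have k3 := ind_add k2 k1 (by rw [sup_bot_eq])
  have k4 : I ((C.p i).map s.iT) ((C.p i).map (s.iL ⊔ s.iB)) ⊥ = 0 := by
    have h1 := (C.p i).I_map s.iT (s.iL ⊔ s.iB) ⊥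
    rw [hs.s0, (C.p i).map_bot] at h1
    exact h1
  rw [(C.p i).map_sup (s.iL ⊔ s.iB)] at k3
  have k5 := ind_add k4 (ind_symm (ind_of k3 (A' := U') (B := (C.p i).map s.iT)
    (C' := (C.p i).map (s.iL ⊔ s.iB)) bot_le (by order) le_sup_left (by order)))
    (by rw [sup_bot_eq])
  have k6 := I_zero_iff_h.mp k5
  rw [sup_bot_eq, h_bot, Pj.H_map, hs.HT] at k6
  have k7 : (C.p i).map s.iX ≤ (C.p i).map (s.iL ⊔ s.iB) :=
    (C.p i).map_mono (by unfold iX iL; order)
  have e2 : (C.p i).map (s.iL ⊔ s.iB) ⊔ vd (dirs C) 1 = (C.p i).map (s.iL ⊔ s.iB) ⊔ U' := by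
    rw [e1]
    order
  rw [e2]
  exact k6

/-- the point is real over all directions -/
theorem q_real (hs : s.Hyp) (hq : Rl s.q ⊥) :
    Rl (fun j => (C.p 0).qs (s.q j)) (vd (dirs C) 1) := by
  unfold Rl at hq ⊢
  rw [h_bot] at hq
  have h1 : vd (fun j => (C.p 0).qs (s.q j)) 1 ≤ C.v := by
    rw [(C.p 0).qs_vd, vd_q, v_eq C 0]
    exact (C.p 0).map_mono (by order)
  have h2 : I (vd (fun j => (C.p 0).qs (s.q j)) 1) (vd (dirs C) 1) ⊥ = 0 :=
    ind_symm (I_zero_mono (dirs_ind C hs) le_sup_left (h1.trans le_sup_left))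
  have h3 := I_zero_iff_h.mp h2
  rw [sup_bot_eq, h_bot] at h3
  rw [h3, (C.p 0).qs_vd, (C.p 0).H_map]
  exact hq

/-- two lines of a bush -/
def star2 {i j : Fin (N + 1)} (hij : i ≠ j) : s.Star where
  D := C.W
  p1 := C.p i
  p2 := C.p j
  cy k := C.com i j (Sum.inl k.succ)
  cz := C.com i j (Sum.inr ())
  ct := C.com i j (Sum.inl 0)
  ci x y := by
    rw [← v_eq C i]
    exact C.I_two hij x y

end bush

end FB

end

end Pool.Agent.Helper38.NS
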