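import Pool.Agent.Helper38.NS.Dep
import Pool.Agent.Helper38.NS.Bush
import Pool.Agent.Helper57.TA.Sc
import Pool.Agent.Helper96.FLT.Rd

/-! Exact entropy calculus: at a smaller depth, informations of full depth are informations of finite families
(blocks of digits); lifting of functions of small depth. -/

set_option autoImplicit false

namespace Pool.Agent.Helper38.NS

open Pool.Agent.Helper31.EC QS

noncomputable section

variable {S : Sp}

theorem vd_fin_zero (g : Fin 0 → QS S) (r : ℝ) : vd g r = ⊥ := by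
  apply le_antisymm _ bot_le
  rw [vd_le]
  exact fun i => i.elim0

/-- blocks of digits of one function -/
theorem exists_fam1 {κ : ℝ} (h0 : 0 < κ) (h1 : κ ≤ 1) (m : ℕ) :
    ∀ u : ℝ, 0 ≤ u → 1 - m * κ ≤ u → ∀ f : QS S, f ∈ Id S u →
      ∃ (l : ℕ) (g : Fin l → QS S), vd g κ = dg f 1 := by
  have hbase : ∀ u : ℝ, 1 ≤ u → ∀ f : QS S, f ∈ Id S u →
      ∃ (l : ℕ) (g : Fin l → QS S), vd g κ = dg f 1 := by
    intro u hu f hf
    have h2 : f = 0 := mem_Id_one.mp (Id_anti hu hf)
    refine ⟨0, fun i => i.elim0, ?_⟩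
    rw [vd_fin_zero, h2]
    exact le_antisymm bot_le (Kn S 1 le_rfl ⊥).zero_mem
  induction m with
  | zero =>
    intro u _ hu f hf
    refine hbase u ?_ f hf
    have h2 : (1 : ℝ) - ((0 : ℕ) : ℝ) * κ = 1 := by push_cast; ring
    rw [h2] at hu
    exact hu
  | succ m ih =>
    intro u u0 hu f hf
    rcases le_or_gt 1 u with hu1 | hu1
    · exact hbase u hu1 f hf
    · obtain ⟨e, he⟩ : ∃ e, e = min κ (1 - u) := ⟨_, rfl⟩
      have e0 : 0 ≤ e := by
        rw [he]
        exact le_min h0.le (by linarith)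
      have e1 : e ≤ κ := by rw [he]; exact min_le_left _ _
      have e2 : e ≤ 1 - u := by rw [he]; exact min_le_right _ _
      have e3 : e ≤ 1 := e1.trans h1
      obtain ⟨g, g1, g2⟩ := Pool.Agent.Helper57.TA.exists_div u0 hu1.le hf
      obtain ⟨g0, g3, g4⟩ := Pool.Agent.Helper96.FLT.exists_rd g e0 e3
      have k1 : dg g0 1 ≤ dg f 1 := by
        rw [g4]
        have h2 := g2 (u + e) (by linarith)
        rw [add_sub_cancel_left] at h2
        exact h2.trans (dg_mono f (by linarith))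
      have k2 : dg g0 1 ≤ dg g0 κ := by
        rw [g4]
        have h2 : dg g e = dg g0 e := dg_eq_of_sub_mem g3 le_rfl e3
        rw [h2]
        exact dg_mono g0 e1
      obtain ⟨f', hf'⟩ : ∃ f', f' = f - Pool.Agent.Helper57.TA.sc S u * g0 := ⟨_, rfl⟩
      have hf1 : f' ∈ Id S (u + e) := by
        have h2 : f' = Pool.Agent.Helper57.TA.sc S u * (g - g0) := by
          rw [hf', g1]
          ring
        rw [h2]
        exact Pool.Agent.Helper57.TA.sc_mul_mem u0 g3
      have k3 : dg (Pool.Agent.Helper57.TA.sc S u * g0) 1 ≤ dg g0 1 := by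
        have h2 := dg_mul_le (Pool.Agent.Helper57.TA.sc S u) g0 (r := 1) le_rfl
        rw [Pool.Agent.Helper57.TA.dg_sc, bot_sup_eq] at h2
        exact h2
      obtain ⟨l, g', hg'⟩ := ih (u + e) (by linarith) (by
        push_cast at hu
        rcases le_total κ (1 - u) with h2 | h2
        · rw [he, min_eq_left h2]
          linarith
        · rw [he, min_eq_right h2]
          have h3 : 0 ≤ (m : ℝ) * κ := mul_nonneg (Nat.cast_nonneg m) h0.le
          linarith) f' hf1
      refine ⟨l + 1, Fin.cons g0 g', ?_⟩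
      rw [vd_cons, hg']
      apply le_antisymm
      · apply sup_le
        · exact (dg_mono g0 h1).trans k1
        · rw [hf']
          refine (dg_sub_le _ _ le_rfl).trans (sup_le le_rfl (k3.trans k1))
      · have h2 : f = f' + Pool.Agent.Helper57.TA.sc S u * g0 := by
          rw [hf']
          ring
        conv_lhs => rw [h2]
        refine (dg_add_le _ _ le_rfl).trans (sup_le le_sup_right ?_)
        exact k3.trans (k2.trans le_sup_left)

/-- informations of full depth at a smaller depth -/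
theorem exists_fam {ι : Type} [Fintype ι] (f : ι → QS S) (κ : ℝ) (h0 : 0 < κ) (h1 : κ ≤ 1) :
    ∃ (ι' : Type) (_ : Fintype ι') (g : ι' → QS (dp S κ h0)), vd g 1 = dL κ h0 (vd f 1) := by
  classical
  obtain ⟨m, hm⟩ := exists_nat_gt (1 / κ)
  have hm1 : 1 - (m : ℝ) * κ ≤ 0 := by
    rw [div_lt_iff₀ h0] at hm
    linarith
  have h2 : ∀ i, ∃ (l : ℕ) (g : Fin l → QS S), vd g κ = dg (f i) 1 := fun i =>
    exists_fam1 h0 h1 m 0 le_rfl hm1 (f i) (mem_Id_nonpos le_rfl)
  choose l g hg using h2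
  refine ⟨Σ i, Fin (l i), inferInstance, fun x => dQ κ h0 h1 (g x.1 x.2), ?_⟩
  rw [dQ_vd κ h0 h1 (fun x : Σ i, Fin (l i) => g x.1 x.2) le_rfl, mul_one]
  congr 1
  apply le_antisymm
  · rw [vd_le]
    intro x
    refine (dg_le_vd (g x.1) κ x.2).trans ?_
    rw [hg]
    exact dg_le_vd f 1 x.1
  · rw [vd_le]
    intro i
    rw [← hg, vd_le]
    intro j
    exact dg_le_vd (fun x : Σ i, Fin (l i) => g x.1 x.2) κ ⟨i, j⟩

/-- functions of small depth lift without gaining information -/
theorem exists_lift {κ : ℝ} {h0 : 0 < κ} (h1 : κ ≤ 1) (c : QS (dp S κ h0)) {A : S.L}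
    (hc : dg c 1 ≤ dL κ h0 A) : ∃ c' : QS S, dQ κ h0 h1 c' = c ∧ dg c' 1 ≤ A := by
  obtain ⟨c0, rfl⟩ := dQ_surj κ h0 h1 c
  rw [dQ_dg κ h0 h1 _ le_rfl, mul_one, dL_le] at hc
  obtain ⟨g, g1, g2⟩ := Pool.Agent.Helper96.FLT.exists_rd c0 h0.le h1
  refine ⟨g, ?_, ?_⟩
  · rw [← sub_eq_zero, ← map_sub, dQ_eq_zero]
    have h2 : g - c0 = -(c0 - g) := by ring
    rw [h2]
    exact (Id S κ).neg_mem g1
  · rw [g2]
    exact hc

end

end Pool.Agent.Helper38.NS
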