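import Pool.Agent.Helper59.PWA.Steps
import Pool.Agent.Helper86.LP.CauchyBinet

/-! # Volume of the set where polynomials are small and their Gram determinant is large -/

set_option autoImplicit false

namespace Pool.Agent.Helper38.NS

open MvPolynomial MeasureTheory Set
open Pool.Agent.Helper59.PWA (mclm mclm_det polyD polyD_apply poly_hasFDerivAt multiplicity
  area_mult)
open scoped ENNReal

/-- matrix of the partial derivatives of a family of polynomials -/
noncomputable def jacM {ι : Type*} {m : ℕ} (f : ι → MvPolynomial (Fin m) ℝ) (P : Fin m → ℝ) :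
    Matrix ι (Fin m) ℝ := Matrix.of fun r a => eval P (pderiv a (f r))

/-- sum of the squares of the gradients -/
noncomputable def gramM {ι : Type*} [Fintype ι] {m : ℕ} (f : ι → MvPolynomial (Fin m) ℝ)
    (P : Fin m → ℝ) : Matrix (Fin m) (Fin m) ℝ :=
  Matrix.of fun a b => ∑ r, eval P (pderiv a (f r)) * eval P (pderiv b (f r))

theorem jacM_hasFDerivAt {m : ℕ} (F : Fin m → MvPolynomial (Fin m) ℝ) (P : Fin m → ℝ) :
    HasFDerivAt (fun (Q : Fin m → ℝ) (i : Fin m) => eval Q (F i)) (mclm (jacM F P)) P := by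
  rw [hasFDerivAt_pi']
  intro i
  have h2 : (ContinuousLinearMap.proj (R := ℝ) (φ := fun _ : Fin m => ℝ) i).comp
      (mclm (jacM F P)) = polyD (F i) P := by
    ext1 y
    rw [polyD_apply]
    rfl
  rw [h2]
  exact poly_hasFDerivAt (F i) P

theorem continuous_jacM {ι : Type*} {m : ℕ} (f : ι → MvPolynomial (Fin m) ℝ) :
    Continuous (jacM f) :=
  continuous_matrix fun _ _ => MvPolynomial.continuous_eval _

theorem continuous_gramM {ι : Type*} [Fintype ι] {m : ℕ} (f : ι → MvPolynomial (Fin m) ℝ) :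
    Continuous (gramM f) :=
  continuous_matrix fun _ _ => continuous_finsetSum _ fun _ _ =>
    (MvPolynomial.continuous_eval _).mul (MvPolynomial.continuous_eval _)

/-- one map -/
theorem area_one {m : ℕ} (D : ℕ) (F : Fin m → MvPolynomial (Fin m) ℝ)
    (hF : ∀ i, (F i).totalDegree ≤ D + 1) (ρ c : ℝ) (hρ : 0 ≤ ρ) (S : Set (Fin m → ℝ))
    (hS : MeasurableSet S) (h1 : ∀ P ∈ S, ∀ i, |eval P (F i)| ≤ ρ)
    (h2 : ∀ P ∈ S, c ≤ |(jacM F P).det|) :
    ENNReal.ofReal c * volume S ≤
      ((((m + 1) * (D + 1)) ^ m : ℕ) : ℝ≥0∞) * ENNReal.ofReal ((2 * ρ) ^ m) := by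
  have h3 := area_mult (fun (Q : Fin m → ℝ) (i : Fin m) => eval Q (F i))
    (fun P => mclm (jacM F P)) (jacM_hasFDerivAt F) ?_ (((m + 1) * (D + 1)) ^ m) ?_ S hS
    (Metric.closedBall 0 ρ) Metric.isClosed_closedBall.measurableSet ?_
  · rw [Real.volume_pi_closedBall 0 hρ, Fintype.card_fin] at h3
    refine le_trans ?_ h3
    rw [← setLIntegral_const]
    refine setLIntegral_mono' hS fun P hP => ?_
    rw [mclm_det]
    exact ENNReal.ofReal_le_ofReal (h2 P hP)
  · simp only [mclm_det]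
    exact (continuous_jacM F).matrix_det.measurable
  · filter_upwards [multiplicity (Nat.succ_le_succ (Nat.zero_le D)) F hF] with α hα T hT
    exact hα T fun x hx i => congrFun (hT x hx) i
  · intro P hP
    rw [mem_closedBall_zero_iff, pi_norm_le_iff_of_nonneg hρ]
    intro i
    exact h1 P hP i

/-- Cauchy-Binet for an arbitrary finite index type -/
theorem gram_cb {n m : ℕ} (f : Fin n → MvPolynomial (Fin m) ℝ) (P : Fin m → ℝ) :
    (Nat.factorial m : ℝ) * (gramM f P).det =
      ∑ φ : Fin m → Fin n, (jacM (fun i => f (φ i)) P).det ^ 2 := by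
  have h1 := Pool.Agent.Helper86.LP.cauchy_binet (jacM f P) (fun _ => 1)
  have h2 : (jacM f P).transpose * (Matrix.diagonal (fun _ => (1 : ℝ)) :
      Matrix (Fin n) (Fin n) ℝ) * jacM f P = gramM f P := by
    ext a b
    rw [Matrix.diagonal_one, Matrix.mul_one, Matrix.mul_apply]
    rfl
  rw [h2] at h1
  rw [h1]
  refine Finset.sum_congr rfl fun φ _ => ?_
  rw [Finset.prod_const_one, one_mul]
  rfl

/-- the constant -/
noncomputable def areaC (n m D : ℕ) : ℝ :=
  ((n : ℝ) ^ m) * ((n : ℝ) ^ m) * ((((m + 1) * (D + 1)) ^ m : ℕ) : ℝ) * 2 ^ m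

theorem areaC_nonneg (n m D : ℕ) : 0 ≤ areaC n m D := by
  unfold areaC
  positivity

theorem area_fin {n m : ℕ} (D : ℕ) (f : Fin n → MvPolynomial (Fin m) ℝ)
    (hf : ∀ r, (f r).totalDegree ≤ D + 1) (ρ g : ℝ) (hρ : 0 ≤ ρ) (hg : 0 < g) :
    volume {P : Fin m → ℝ | (∀ r, |eval P (f r)| ≤ ρ) ∧ g ^ 2 ≤ (gramM f P).det} ≤
      ENNReal.ofReal (areaC n m D * ρ ^ m / g) := by
  classical
  obtain ⟨S, hSd⟩ : ∃ S : (Fin m → Fin n) → Set (Fin m → ℝ), S = fun φ =>
      {P | (∀ r, |eval P (f r)| ≤ ρ) ∧ g / (n : ℝ) ^ m ≤ |(jacM (fun i => f (φ i)) P).det|} :=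
    ⟨_, rfl⟩
  have hSm : ∀ φ, MeasurableSet (S φ) := by
    intro φ
    rw [hSd]
    have h1 : MeasurableSet {P : Fin m → ℝ | ∀ r, |eval P (f r)| ≤ ρ} := by
      rw [Set.ofPred_forall]
      exact MeasurableSet.iInter fun r =>
        measurableSet_le (MvPolynomial.continuous_eval (f r)).abs.measurable measurable_const
    exact h1.inter (measurableSet_le measurable_const
      (continuous_jacM (fun i => f (φ i))).matrix_det.abs.measurable)
  -- the union
  have hsub : {P : Fin m → ℝ | (∀ r, |eval P (f r)| ≤ ρ) ∧ g ^ 2 ≤ (gramM f P).det} ⊆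
      ⋃ φ, S φ := by
    rintro P ⟨hP1, hP2⟩
    rw [mem_iUnion]
    by_contra hno
    push Not at hno
    have h1 : ∀ φ : Fin m → Fin n, |(jacM (fun i => f (φ i)) P).det| < g / (n : ℝ) ^ m := by
      intro φ
      by_contra h
      push Not at h
      apply hno φ
      rw [hSd]
      exact ⟨hP1, h⟩
    have h2 := gram_cb f P
    have h3 : (1 : ℝ) ≤ (Nat.factorial m : ℝ) := by
      exact_mod_cast Nat.factorial_pos m
    have h4 : g ^ 2 ≤ (Nat.factorial m : ℝ) * (gramM f P).det := by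
      have h5 : 0 < (gramM f P).det := lt_of_lt_of_le (pow_pos hg 2) hP2
      nlinarith [mul_le_mul_of_nonneg_right h3 h5.le]
    rw [h2] at h4
    have hcard : (Fintype.card (Fin m → Fin n) : ℝ) = (n : ℝ) ^ m := by
      rw [Fintype.card_fun, Fintype.card_fin, Fintype.card_fin]
      push_cast
      rfl
    rcases Nat.eq_zero_or_pos (n ^ m) with h0 | h0
    · have h5 : IsEmpty (Fin m → Fin n) := by
        rw [← Fintype.card_eq_zero_iff, Fintype.card_fun, Fintype.card_fin, Fintype.card_fin, h0]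
      rw [Finset.univ_eq_empty, Finset.sum_empty] at h4
      have := pow_pos hg 2
      linarith
    · have h0' : (1 : ℝ) ≤ (n : ℝ) ^ m := by exact_mod_cast h0
      have hne : Nonempty (Fin m → Fin n) := by
        rw [← Fintype.card_pos_iff, Fintype.card_fun, Fintype.card_fin, Fintype.card_fin]
        exact h0
      have h5 : ∑ φ : Fin m → Fin n, (jacM (fun i => f (φ i)) P).det ^ 2 <
          ∑ _φ : Fin m → Fin n, (g / (n : ℝ) ^ m) ^ 2 := by
        refine Finset.sum_lt_sum_of_nonempty Finset.univ_nonempty fun φ _ => ?_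
        rw [← sq_abs]
        exact pow_lt_pow_left₀ (h1 φ) (abs_nonneg _) two_ne_zero
      rw [Finset.sum_const, Finset.card_univ, nsmul_eq_mul, hcard] at h5
      have h6 : (n : ℝ) ^ m * (g / (n : ℝ) ^ m) ^ 2 ≤ g ^ 2 := by
        have h7 : (n : ℝ) ^ m * (g / (n : ℝ) ^ m) ^ 2 = g ^ 2 / (n : ℝ) ^ m := by
          field_simp
        rw [h7]
        exact div_le_self (sq_nonneg g) h0'
      linarith
  -- one set
  have hone : ∀ φ, volume (S φ) ≤ ENNReal.ofReal
      ((n : ℝ) ^ m * ((((m + 1) * (D + 1)) ^ m : ℕ) : ℝ) * 2 ^ m * ρ ^ m / g) := by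
    intro φ
    rcases Nat.eq_zero_or_pos (n ^ m) with h0 | h0
    · have h5 : IsEmpty (Fin m → Fin n) := by
        rw [← Fintype.card_eq_zero_iff, Fintype.card_fun, Fintype.card_fin, Fintype.card_fin, h0]
      exact h5.elim φ
    · have h0' : (0 : ℝ) < (n : ℝ) ^ m := by exact_mod_cast h0
      have hc : 0 < g / (n : ℝ) ^ m := div_pos hg h0'
      have h1 := area_one D (fun i => f (φ i)) (fun i => hf (φ i)) ρ (g / (n : ℝ) ^ m) hρ (S φ)
        (hSm φ) (fun P hP i => by
          rw [hSd] at hP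
          exact hP.1 (φ i)) (fun P hP => by
          rw [hSd] at hP
          exact hP.2)
      have h2 : ENNReal.ofReal (g / (n : ℝ) ^ m) ≠ 0 := by
        rw [Ne, ENNReal.ofReal_eq_zero, not_le]
        exact hc
      have h3 : volume (S φ) ≤ ((((m + 1) * (D + 1)) ^ m : ℕ) : ℝ≥0∞) *
          ENNReal.ofReal ((2 * ρ) ^ m) / ENNReal.ofReal (g / (n : ℝ) ^ m) := by
        rw [ENNReal.le_div_iff_mul_le (Or.inl h2) (Or.inl ENNReal.ofReal_ne_top), mul_comm]
        exact h1
      refine h3.trans (le_of_eq ?_)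
      rw [← ENNReal.ofReal_natCast, ← ENNReal.ofReal_mul (Nat.cast_nonneg _),
        ← ENNReal.ofReal_div_of_pos hc]
      congr 1
      field_simp
      ring
  refine (measure_mono hsub).trans ((measure_iUnion_le S).trans ?_)
  rw [tsum_fintype]
  refine (Finset.sum_le_sum fun φ _ => hone φ).trans (le_of_eq ?_)
  rw [Finset.sum_const, Finset.card_univ, Fintype.card_fun, Fintype.card_fin, Fintype.card_fin,
    nsmul_eq_mul, ← ENNReal.ofReal_natCast, ← ENNReal.ofReal_mul (Nat.cast_nonneg _)]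
  congr 1
  unfold areaC
  push_cast
  ring

/-- **AREA** (V1): the volume of the set where the polynomials `f r` of degree at most `D` are
bounded by `ρ` and the Gram determinant of their gradients is at least `g ^ 2`. -/
theorem area {ι : Type*} [Fintype ι] {m : ℕ} (D : ℕ) (f : ι → MvPolynomial (Fin m) ℝ)
    (hf : ∀ r, (f r).totalDegree ≤ D) (ρ g : ℝ) (hρ : 0 ≤ ρ) (hg : 0 < g) :
    volume {P : Fin m → ℝ | (∀ r, |eval P (f r)| ≤ ρ) ∧ g ^ 2 ≤ (gramM f P).det} ≤
      ENNReal.ofReal (areaC (Fintype.card ι) m D * ρ ^ m / g) := by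
  classical
  obtain ⟨e⟩ : Nonempty (ι ≃ Fin (Fintype.card ι)) := ⟨Fintype.equivFin ι⟩
  have h1 := area_fin D (fun r => f (e.symm r)) (fun r => (hf _).trans (Nat.le_succ D)) ρ g hρ hg
  refine (measure_mono ?_).trans h1
  rintro P ⟨hP1, hP2⟩
  refine ⟨fun r => hP1 _, ?_⟩
  have h2 : gramM (fun r => f (e.symm r)) P = gramM f P := by
    ext a b
    exact Equiv.sum_comp e.symm fun r => eval P (pderiv a (f r)) * eval P (pderiv b (f r))
  rw [h2]
  exact hP2

/-- (V1) in existential form -/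
theorem area_exists (ι : Type) [Fintype ι] (m D : ℕ) : ∃ C : ℝ, 0 < C ∧
    ∀ f : ι → MvPolynomial (Fin m) ℝ, (∀ r, (f r).totalDegree ≤ D) → ∀ ρ g : ℝ, 0 < ρ → 0 < g →
      volume {P : Fin m → ℝ | (∀ r, |eval P (f r)| ≤ ρ) ∧ g ^ 2 ≤ Matrix.det (Matrix.of
        fun a b => ∑ r, eval P (pderiv a (f r)) * eval P (pderiv b (f r)))} ≤
      ENNReal.ofReal (C * ρ ^ m / g) := by
  refine ⟨areaC (Fintype.card ι) m D + 1, by linarith [areaC_nonneg (Fintype.card ι) m D], ?_⟩
  intro f hf ρ g hρ hg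
  refine (area D f hf ρ g hρ.le hg).trans (ENNReal.ofReal_le_ofReal ?_)
  refine div_le_div_of_nonneg_right ?_ hg.le
  refine mul_le_mul_of_nonneg_right ?_ (pow_nonneg hρ.le m)
  linarith

end Pool.Agent.Helper38.NS
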