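import Pool.Agent.Helper38.NS.Sg

/-! Exact entropy calculus: blocks of absorbed noise and their four-fold differences. -/

set_option autoImplicit false

namespace Pool.Agent.Helper38.NS

open Pool.Agent.Helper31.EC QS

/-- two copies of a space over a finite family of functions -/
theorem exists_copyS {S : Sp} {ι : Type} [Fintype ι] (f : ι → QS S) :
    ∃ (D : Sp) (p1 p2 : Pj D S), (∀ i, p1.qs (f i) = p2.qs (f i)) ∧
      (∀ x y, I (p1.map x) (p2.map y) (p1.map (vd f 1)) = 0) ∧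
      (∀ r, p1.map (vd f r) = p2.map (vd f r)) := by
  obtain ⟨D, p1, p2, h1, h2, h3⟩ := exists_copyF (Pj.id S) f
  refine ⟨D, p1, p2, ?_, ?_, ?_⟩
  · intro i
    have h4 := h1 i
    rw [Pj.id_qs] at h4
    exact h4
  · intro x y
    have h4 := h2 x y
    rw [Pj.id_map] at h4
    exact h4
  · intro r
    have h4 := h3 r
    rw [Pj.id_map] at h4
    exact h4

/-- a block: `z3 = z + (T C - A T') + a(p) + b(q)` over a base -/
structure Blk (S : Sp) (ι : Type) [Fintype ι] where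
  fB : ι → QS S
  fP : Fin 3 → QS S
  fQ : Fin 3 → QS S
  z : QS S
  z3 : QS S
  eq : z3 = z + (fP 0 * fQ 1 - fP 1 * fQ 0) + fP 2 + fQ 2
  iz : I (dg z 1) (vd fP 1 ⊔ vd fQ 1) (vd fB 1) = 0
  iz3 : I (dg z3 1) (vd fP 1 ⊔ vd fQ 1) (vd fB 1) = 0
  ipq : I (vd fP 1) (vd fQ 1) (vd fB 1) = 0

/-- the four-fold configuration of a block -/
structure Four (S : Sp) (ι : Type) [Fintype ι] (b : Blk S ι) where
  E : Sp
  r : Pj E S
  rP : Pj E S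
  rQ : Pj E S
  cPB : ∀ i, rP.qs (b.fB i) = r.qs (b.fB i)
  cQB : ∀ i, rQ.qs (b.fB i) = r.qs (b.fB i)
  cPQ : ∀ i, rP.qs (b.fQ i) = r.qs (b.fQ i)
  cQP : ∀ i, rQ.qs (b.fP i) = r.qs (b.fP i)
  eq : rP.qs b.z = r.qs b.z +
    ((r.qs (b.fP 0) - rP.qs (b.fP 0)) * (r.qs (b.fQ 1) - rQ.qs (b.fQ 1)) -
      (r.qs (b.fP 1) - rP.qs (b.fP 1)) * (r.qs (b.fQ 0) - rQ.qs (b.fQ 0)))
  iz : I (r.map (dg b.z 1)) (r.map (vd b.fP 1) ⊔ r.map (vd b.fQ 1) ⊔ rP.map (vd b.fP 1) ⊔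
    rQ.map (vd b.fQ 1)) (r.map (vd b.fB 1)) = 0
  iz' : I (rP.map (dg b.z 1)) (r.map (vd b.fP 1) ⊔ r.map (vd b.fQ 1) ⊔ rP.map (vd b.fP 1) ⊔
    rQ.map (vd b.fQ 1)) (r.map (vd b.fB 1)) = 0
  ipq : I (r.map (vd b.fP 1) ⊔ rP.map (vd b.fP 1)) (r.map (vd b.fQ 1) ⊔ rQ.map (vd b.fQ 1))
    (r.map (vd b.fB 1)) = 0
  ipp : I (r.map (vd b.fP 1)) (rP.map (vd b.fP 1)) (r.map (vd b.fB 1)) = 0
  iqq : I (r.map (vd b.fQ 1)) (rQ.map (vd b.fQ 1)) (r.map (vd b.fB 1)) = 0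

theorem Blk.four {S : Sp} {ι : Type} [Fintype ι] (b : Blk S ι) : Nonempty (Four S ι b) := by
  obtain ⟨D, p1, p2, c4, i4, m4⟩ := exists_copyS
    (Sum.elim b.fB (Sum.elim b.fP (fun _ : Unit => b.z3)))
  have cB : ∀ i, p1.qs (b.fB i) = p2.qs (b.fB i) := fun i => c4 (Sum.inl i)
  have cP : ∀ i, p1.qs (b.fP i) = p2.qs (b.fP i) := fun i => c4 (Sum.inr (Sum.inl i))
  have cz : p1.qs b.z3 = p2.qs b.z3 := c4 (Sum.inr (Sum.inr ()))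
  obtain ⟨E, r1, r2, c5, i5, m5⟩ := exists_copyS
    (Sum.elim (fun i => p1.qs (b.fB i)) (Sum.elim (fun i => p1.qs (b.fQ i))
      (Sum.elim (fun i => p2.qs (b.fQ i)) (fun _ : Unit => p2.qs b.z))))
  have dB : ∀ i, r1.qs (p1.qs (b.fB i)) = r2.qs (p1.qs (b.fB i)) := fun i => c5 (Sum.inl i)
  have dQ : ∀ i, r1.qs (p1.qs (b.fQ i)) = r2.qs (p1.qs (b.fQ i)) :=
    fun i => c5 (Sum.inr (Sum.inl i))
  have dQ2 : ∀ i, r1.qs (p2.qs (b.fQ i)) = r2.qs (p2.qs (b.fQ i)) :=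
    fun i => c5 (Sum.inr (Sum.inr (Sum.inl i)))
  have dz : r1.qs (p2.qs b.z) = r2.qs (p2.qs b.z) := c5 (Sum.inr (Sum.inr (Sum.inr ())))
  rw [vd_sum, vd_sum, vd_unit] at i4
  rw [vd_sum, vd_sum, vd_sum, vd_unit] at i5
  -- informations in `S`
  have aQ : I (vd b.fQ 1) (vd b.fP 1 ⊔ dg b.z3 1) (vd b.fB 1) = 0 := by
    refine ind_add (ind_symm b.ipq) (C' := vd b.fP 1 ⊔ vd b.fB 1) (ind_symm ?_) rfl
    exact ind_of b.iz3 le_sup_right (by order) le_sup_left (by order)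
  -- informations in `D`
  have eB : p2.map (vd b.fB 1) = p1.map (vd b.fB 1) := by
    rw [← p1.qs_vd, ← p2.qs_vd]
    exact (vd_congr cB 1).symm
  have eP : p2.map (vd b.fP 1) = p1.map (vd b.fP 1) := by
    rw [← p1.qs_vd, ← p2.qs_vd]
    exact (vd_congr cP 1).symm
  have ez : p2.map (dg b.z3 1) = p1.map (dg b.z3 1) := by
    rw [← p1.qs_dg, ← p2.qs_dg, cz]
  have ja : ∀ x y z w, I (p1.map x) (p1.map y ⊔ p1.map w) (p1.map z) = I x (y ⊔ w) z := by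
    intro x y z w
    rw [← p1.map_sup, p1.I_map]
  have jb : ∀ x y z w, I (p2.map x) (p2.map y ⊔ p2.map w) (p2.map z) = I x (y ⊔ w) z := by
    intro x y z w
    rw [← p2.map_sup, p2.I_map]
  have a1 := ja (dg b.z 1) (vd b.fP 1) (vd b.fB 1) (vd b.fQ 1)
  rw [b.iz] at a1
  have a2 := jb (dg b.z 1) (vd b.fP 1) (vd b.fB 1) (vd b.fQ 1)
  rw [b.iz, eB, eP] at a2
  have a3 := ja (vd b.fQ 1) (vd b.fP 1) (vd b.fB 1) (dg b.z3 1)
  rw [aQ] at a3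
  have a4 := jb (vd b.fQ 1) (vd b.fP 1) (vd b.fB 1) (dg b.z3 1)
  rw [aQ, eB, eP, ez] at a4
  have a5 := p1.I_map (vd b.fP 1) (vd b.fQ 1) (vd b.fB 1)
  rw [b.ipq] at a5
  rw [p1.map_sup, p1.map_sup] at i4
  obtain ⟨B, hB⟩ : ∃ B, B = p1.map (vd b.fB 1) := ⟨_, rfl⟩
  obtain ⟨P, hP⟩ : ∃ P, P = p1.map (vd b.fP 1) := ⟨_, rfl⟩
  obtain ⟨Q, hQ⟩ : ∃ Q, Q = p1.map (vd b.fQ 1) := ⟨_, rfl⟩
  obtain ⟨Q2, hQ2⟩ : ∃ Q2, Q2 = p2.map (vd b.fQ 1) := ⟨_, rfl⟩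
  obtain ⟨Z, hZ⟩ : ∃ Z, Z = p1.map (dg b.z 1) := ⟨_, rfl⟩
  obtain ⟨Z2, hZ2⟩ : ∃ Z2, Z2 = p2.map (dg b.z 1) := ⟨_, rfl⟩
  obtain ⟨Z3, hZ3⟩ : ∃ Z3, Z3 = p1.map (dg b.z3 1) := ⟨_, rfl⟩
  rw [← hB, ← hP, ← hZ3] at i4
  rw [← hB, ← hP, ← hQ, ← hZ] at a1
  rw [← hB, ← hP, ← hQ2, ← hZ2] at a2
  rw [← hB, ← hP, ← hQ, ← hZ3] at a3
  rw [← hB, ← hP, ← hQ2, ← hZ3] at a4
  rw [← hB, ← hP, ← hQ] at a5
  -- `Q` is independent of the second configuration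
  have s2 : ∀ y, I Q ((P ⊔ Z3) ⊔ p2.map y) B = 0 := by
    intro y
    refine ind_add a3 (C' := B ⊔ (P ⊔ Z3)) ?_ (by order)
    rw [hQ]
    exact i4 _ _
  have s3 : ∀ x, I Q2 ((P ⊔ Z3) ⊔ p1.map x) B = 0 := by
    intro x
    refine ind_add a4 (C' := B ⊔ (P ⊔ Z3)) ?_ (by order)
    rw [hQ2]
    exact ind_symm (i4 _ _)
  have s3' : I Q2 ((P ⊔ Z3) ⊔ (Z ⊔ Q)) B = 0 := by
    have h := s3 (dg b.z 1 ⊔ vd b.fQ 1)
    rw [p1.map_sup, ← hZ, ← hQ] at h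
    exact h
  have s2' : I Q ((P ⊔ Z3) ⊔ (Z2 ⊔ Q2)) B = 0 := by
    have h := s2 (dg b.z 1 ⊔ vd b.fQ 1)
    rw [p2.map_sup, ← hZ2, ← hQ2] at h
    exact h
  have s4 : I Z ((P ⊔ Q) ⊔ Q2) B = 0 := by
    refine ind_add a1 (C' := (P ⊔ Q) ⊔ B) (ind_symm ?_) rfl
    exact ind_of s3' (by order) (by order) (by order) (by order)
  have s5 : I Z2 ((P ⊔ Q2) ⊔ Q) B = 0 := by
    refine ind_add a2 (C' := (P ⊔ Q2) ⊔ B) (ind_symm ?_) rfl
    exact ind_of s2' (by order) (by order) (by order) (by order)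
  have s6 : I P (Q ⊔ Q2) B = 0 := by
    refine ind_add a5 (C' := Q ⊔ B) (ind_symm ?_) rfl
    exact ind_of s3' (by order) (by order) (by order) (by order)
  have s7 : I P ((Q ⊔ Q2) ⊔ Z2) B = 0 := by
    refine ind_add s6 (C' := (Q ⊔ Q2) ⊔ B) (ind_symm ?_) rfl
    exact ind_of s5 (by order) (by order) (by order) (by order)
  have s8 : I Q Q2 B = 0 := ind_of s2' (by order) (by order) (by order) (by order)
  -- informations in `E`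
  have fB' : r2.map B = r1.map B := by
    rw [hB, ← p1.qs_vd, ← r1.qs_vd, ← r2.qs_vd]
    exact (vd_congr dB 1).symm
  have fQ' : r2.map Q = r1.map Q := by
    rw [hQ, ← p1.qs_vd, ← r1.qs_vd, ← r2.qs_vd]
    exact (vd_congr dQ 1).symm
  have fQ2' : r2.map Q2 = r1.map Q2 := by
    rw [hQ2, ← p2.qs_vd, ← r1.qs_vd, ← r2.qs_vd]
    exact (vd_congr dQ2 1).symm
  have fz' : r2.map Z2 = r1.map Z2 := by
    rw [hZ2, ← p2.qs_dg, ← r1.qs_dg, ← r2.qs_dg, dz]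
  rw [p1.qs_vd, p1.qs_vd, p2.qs_vd, p2.qs_dg, ← hB, ← hQ, ← hQ2, ← hZ2, r1.map_sup, r1.map_sup,
    r1.map_sup] at i5
  have t7 := r1.I_map P ((Q ⊔ Q2) ⊔ Z2) B
  rw [s7, r1.map_sup, r1.map_sup] at t7
  have t7' := r2.I_map P ((Q ⊔ Q2) ⊔ Z2) B
  rw [s7, r2.map_sup, r2.map_sup, fQ', fQ2', fz', fB'] at t7'
  have t4 := r1.I_map Z ((P ⊔ Q) ⊔ Q2) B
  rw [s4, r1.map_sup, r1.map_sup] at t4
  have t4' := r2.I_map Z ((P ⊔ Q) ⊔ Q2) B
  rw [s4, r2.map_sup, r2.map_sup, fQ', fQ2', fB'] at t4'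
  have t6' := r2.I_map P (Q ⊔ Q2) B
  rw [s6, r2.map_sup, fQ', fQ2', fB'] at t6'
  have t8 := r1.I_map Q Q2 B
  rw [s8] at t8
  -- `P` and the second configuration
  have u1 : ∀ y, I (r1.map P) ((r1.map Q ⊔ r1.map Q2 ⊔ r1.map Z2) ⊔ r2.map y) (r1.map B) = 0 := by
    intro y
    exact ind_add t7 (i5 _ _) (by order)
  have u2 : ∀ x, I (r2.map P) ((r1.map Q ⊔ r1.map Q2 ⊔ r1.map Z2) ⊔ r1.map x) (r1.map B) = 0 := by
    intro x
    exact ind_add t7' (ind_symm (i5 _ _)) (by order)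
  have u1' := u1 (Z ⊔ P)
  rw [r2.map_sup] at u1'
  have u2' := u2 (Z ⊔ P)
  rw [r1.map_sup] at u2'
  have g1 : I (r1.map Z) ((r1.map P ⊔ r1.map Q ⊔ r1.map Q2) ⊔ r2.map P) (r1.map B) = 0 := by
    refine ind_add t4 (C' := (r1.map P ⊔ r1.map Q ⊔ r1.map Q2) ⊔ r1.map B) (ind_symm ?_) rfl
    exact ind_of u2' (by order) (by order) (by order) (by order)
  have g2 : I (r2.map Z) ((r2.map P ⊔ r1.map Q ⊔ r1.map Q2) ⊔ r1.map P) (r1.map B) = 0 := by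
    refine ind_add t4' (C' := (r2.map P ⊔ r1.map Q ⊔ r1.map Q2) ⊔ r1.map B) (ind_symm ?_) rfl
    exact ind_of u1' (by order) (by order) (by order) (by order)
  have g3 : I (r1.map Q ⊔ r1.map Q2) (r2.map P ⊔ r1.map P) (r1.map B) = 0 := by
    refine ind_add (ind_symm t6') (C' := r2.map P ⊔ r1.map B) (ind_symm ?_) rfl
    exact ind_of u1' (by order) (by order) (by order) (by order)
  have g4 : I (r1.map P) (r2.map P) (r1.map B) = 0 :=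
    ind_of u1' (by order) (by order) (by order) (by order)
  refine ⟨⟨E, r1.comp p1, r2.comp p1, r1.comp p2, ?_, ?_, ?_, ?_, ?_, ?_, ?_, ?_, ?_, ?_⟩⟩
  · intro i
    rw [Pj.comp_qs, Pj.comp_qs]
    exact (dB i).symm
  · intro i
    rw [Pj.comp_qs, Pj.comp_qs, cB i]
  · intro i
    rw [Pj.comp_qs, Pj.comp_qs]
    exact (dQ i).symm
  · intro i
    rw [Pj.comp_qs, Pj.comp_qs, cP i]
  · have e0 := b.eq
    have e1 := congrArg (fun f => r1.qs (p1.qs f)) e0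
    have e2 := congrArg (fun f => r1.qs (p2.qs f)) e0
    have e3 := congrArg (fun f => r2.qs (p1.qs f)) e0
    have e4 := congrArg (fun f => r2.qs (p2.qs f)) e0
    simp only [map_add, map_sub, map_mul] at e1 e2 e3 e4
    have v1 := congrArg r1.qs cz
    have v2 := congrArg r2.qs cz
    have w1 := congrArg r1.qs (cP 0)
    have w2 := congrArg r1.qs (cP 1)
    have w3 := congrArg r1.qs (cP 2)
    have w4 := congrArg r2.qs (cP 0)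
    have w5 := congrArg r2.qs (cP 1)
    have w6 := congrArg r2.qs (cP 2)
    rw [← v1, ← w1, ← w2, ← w3, e1] at e2
    rw [← v2, ← w4, ← w5, ← w6, e3] at e4
    rw [← dQ 0, ← dQ 1, ← dQ 2, ← dQ2 0, ← dQ2 1, ← dQ2 2, ← dz] at e4
    rw [Pj.comp_qs, Pj.comp_qs, Pj.comp_qs, Pj.comp_qs, Pj.comp_qs, Pj.comp_qs, Pj.comp_qs,
      Pj.comp_qs, Pj.comp_qs, Pj.comp_qs]
    linear_combination e4 - e2
  · rw [Pj.comp_map, Pj.comp_map, Pj.comp_map, Pj.comp_map, Pj.comp_map, Pj.comp_map, ← hB, ← hP,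
      ← hQ, ← hQ2, ← hZ]
    exact ind_of g1 le_rfl (by order) (by order) (by order)
  · rw [Pj.comp_map, Pj.comp_map, Pj.comp_map, Pj.comp_map, Pj.comp_map, Pj.comp_map, ← hB, ← hP,
      ← hQ, ← hQ2, ← hZ]
    exact ind_of g2 le_rfl (by order) (by order) (by order)
  · rw [Pj.comp_map, Pj.comp_map, Pj.comp_map, Pj.comp_map, Pj.comp_map, ← hB, ← hP,
      ← hQ, ← hQ2]
    exact ind_symm (ind_of g3 le_rfl (by order) (by order) (by order))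
  · rw [Pj.comp_map, Pj.comp_map, Pj.comp_map, ← hB, ← hP]
    exact g4
  · rw [Pj.comp_map, Pj.comp_map, Pj.comp_map, ← hB, ← hQ, ← hQ2]
    exact t8

end Pool.Agent.Helper38.NS
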