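import Pool.Agent.Helper38.NS.Dep
import Pool.Agent.Helper80.MX.Span
import Pool.Agent.Helper50.CV.Power

/-! Exact entropy calculus: if linear real noises of a vector vanish, then polynomial real noises vanish. -/

set_option autoImplicit false

namespace Pool.Agent.Helper38.NS

open Pool.Agent.Helper31.EC QS Pool.Agent.Helper80.MX

noncomputable section

theorem dg_qfl {S : Sp} (f : QS S) {r : ℝ} (hr : 0 ≤ r) (h1 : r ≤ 1) :
    dg (qfl f r hr) 1 = dg f r := by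
  apply le_antisymm (qfl_dg_le f hr h1 1)
  rw [dg_eq_of_sub_mem (sub_qfl_mem f hr h1) le_rfl h1]
  exact dg_mono _ h1

/-- real noises vanish, for the vector `z` over the point `q` -/
def NRw (W : Sp) {ι ν : Type} [Fintype ι] [Fintype ν] (q : ι → QS W) (z : ν → QS W) : Prop :=
  ∀ (D : Sp) (P0 P1 : Pj D W) (τ : QS D) (s : ν → QS D) (y : ℝ), 0 ≤ y → y < 1 →
    (∀ i, P0.qs (q i) = P1.qs (q i)) → (∀ i, P1.qs (z i) = P0.qs (z i) + τ * s i) →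
    I (P0.map (vd z 1)) (dg τ 1 ⊔ vd s 1) (P0.map (vd q 1)) = 0 →
    I (P1.map (vd z 1)) (dg τ 1 ⊔ vd s 1) (P0.map (vd q 1)) = 0 →
    τ ∈ Id D y → Helper31.EC.h (dg τ 1) (vd s 1 ⊔ P0.map (vd q 1)) = 1 - y →
    ∀ i, s i ∈ Id D (1 - y)

theorem NRw.pull {S W : Sp} {ι ν : Type} [Fintype ι] [Fintype ν] {q : ι → QS S} {z : ν → QS S}
    (hN : NRw S q z) (p : Pj W S) : NRw W (fun i => p.qs (q i)) (fun i => p.qs (z i)) := by
  intro D P0 P1 τ s y hy0 hy1 h1 h2 h3 h4 h5 h6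
  have e1 : ∀ P : Pj D W, P.map (vd (fun i => p.qs (z i)) 1) = (P.comp p).map (vd z 1) := by
    intro P
    rw [p.qs_vd, Pj.comp_map]
  have e2 : P0.map (vd (fun i => p.qs (q i)) 1) = (P0.comp p).map (vd q 1) := by
    rw [p.qs_vd, Pj.comp_map]
  rw [e1, e2] at h3
  rw [e1, e2] at h4
  rw [e2] at h6
  exact hN D (P0.comp p) (P1.comp p) τ s y hy0 hy1 (fun i => by rw [Pj.comp_qs, Pj.comp_qs]; exact h1 i)
    (fun i => by rw [Pj.comp_qs, Pj.comp_qs]; exact h2 i) h3 h4 h5 h6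

/-- one step of the absorption of polynomial noises -/
theorem absV_step {W R : Sp} {ι ι' ν : Type} [Fintype ι] [Fintype ι'] [Fintype ν] {m : ℕ}
    (q : ι → QS W) (z : ν → QS W) (hN : NRw W q z) (pK : Pj R W) (g : ι' → QS R)
    (c : ν → Fin (m + 1) → QS R) (z0 : ν → QS R) (τ : QS R)
    (hX : pK.map (vd q 1) ≤ vd g 1) (hc : ∀ i j, dg (c i j) 1 ≤ vd g 1)
    (e : ∀ i, pK.qs (z i) = z0 i + τ * pe (c i) τ)
    (i1 : I (pK.map (vd z 1)) (vd g 1 ⊔ dg τ 1) (pK.map (vd q 1)) = 0)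
    (r0 : Helper31.EC.h (dg τ 1) (vd z0 1 ⊔ vd g 1) = 1) {r : ℝ} (hr0 : 0 ≤ r) (hr1 : r < 1)
    (hcr : ∀ i j, c i j ∈ Id R r) : ∀ i j, c i j ∈ Id R ((1 + r) / 2) := by
  classical
  obtain ⟨θ, hθ⟩ : ∃ θ, θ = (1 - r) / 2 := ⟨_, rfl⟩
  have hθ0 : 0 ≤ θ := by rw [hθ]; linarith
  have hθ1 : θ < 1 := by rw [hθ]; linarith
  obtain ⟨D, p1, p2, c1, c2, c3⟩ := exists_copyS (Sum.elim z0 (Sum.elim g
    (Sum.elim (fun a : ν × Fin (m + 1) => c a.1 a.2) (Sum.elim (fun i => pK.qs (q i))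
      (fun _ : Unit => qfl τ θ hθ0)))))
  have cz : ∀ i, p1.qs (z0 i) = p2.qs (z0 i) := fun i => c1 (Sum.inl i)
  have cg : ∀ i, p1.qs (g i) = p2.qs (g i) := fun i => c1 (Sum.inr (Sum.inl i))
  have cc : ∀ i j, p1.qs (c i j) = p2.qs (c i j) := fun i j =>
    c1 (Sum.inr (Sum.inr (Sum.inl (i, j))))
  have cq : ∀ i, p1.qs (pK.qs (q i)) = p2.qs (pK.qs (q i)) := fun i =>
    c1 (Sum.inr (Sum.inr (Sum.inr (Sum.inl i))))
  have cf : p1.qs (qfl τ θ hθ0) = p2.qs (qfl τ θ hθ0) := c1 (Sum.inr (Sum.inr (Sum.inr (Sum.inr ()))))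
  rw [vd_sum, vd_sum, vd_sum, vd_sum, vd_unit, dg_qfl τ hθ0 hθ1.le, pK.qs_vd] at c2
  have hcc : vd (fun a : ν × Fin (m + 1) => c a.1 a.2) 1 ≤ vd g 1 := by
    rw [vd_le]
    exact fun a => hc a.1 a.2
  -- common informations
  obtain ⟨X, hXd⟩ : ∃ X, X = p1.map (vd g 1) := ⟨_, rfl⟩
  obtain ⟨B, hB⟩ : ∃ B, B = p1.map (vd z0 1) := ⟨_, rfl⟩
  obtain ⟨Q, hQ⟩ : ∃ Q, Q = p1.map (pK.map (vd q 1)) := ⟨_, rfl⟩
  obtain ⟨T, hT⟩ : ∃ T, T = p1.map (dg τ θ) := ⟨_, rfl⟩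
  have eX : p2.map (vd g 1) = X := by
    rw [hXd, ← p1.qs_vd, ← p2.qs_vd]
    exact (vd_congr cg 1).symm
  have eB : p2.map (vd z0 1) = B := by
    rw [hB, ← p1.qs_vd, ← p2.qs_vd]
    exact (vd_congr cz 1).symm
  have eQ : p2.map (pK.map (vd q 1)) = Q := by
    rw [hQ, ← pK.qs_vd, ← p1.qs_vd, ← p2.qs_vd]
    exact (vd_congr cq 1).symm
  have eT : p2.map (dg τ θ) = T := by
    rw [hT, ← dg_qfl τ hθ0 hθ1.le, ← p1.qs_dg, ← p2.qs_dg, cf]
  obtain ⟨T1, hT1⟩ : ∃ T1, T1 = p1.map (dg τ 1) := ⟨_, rfl⟩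
  obtain ⟨T2, hT2⟩ : ∃ T2, T2 = p2.map (dg τ 1) := ⟨_, rfl⟩
  obtain ⟨Z1, hZ1⟩ : ∃ Z1, Z1 = p1.map (pK.map (vd z 1)) := ⟨_, rfl⟩
  obtain ⟨Z2, hZ2⟩ : ∃ Z2, Z2 = p2.map (pK.map (vd z 1)) := ⟨_, rfl⟩
  have TT1 : T ≤ T1 := by rw [hT, hT1]; exact p1.map_mono (dg_mono _ hθ1.le)
  have TT2 : T ≤ T2 := by rw [← eT, hT2]; exact p2.map_mono (dg_mono _ hθ1.le)
  have QX : Q ≤ X := by rw [hQ, hXd]; exact p1.map_mono hX
  have i2 : ∀ x y, I (p1.map x) (p2.map y) (B ⊔ X ⊔ T) = 0 := by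
    intro x y
    have h1 := c2 x y
    have h2 : p1.map (vd z0 1 ⊔ (vd g 1 ⊔ (vd (fun a : ν × Fin (m + 1) => c a.1 a.2) 1 ⊔
        (pK.map (vd q 1) ⊔ dg τ θ)))) = B ⊔ X ⊔ T := by
      have h3 : vd z0 1 ⊔ (vd g 1 ⊔ (vd (fun a : ν × Fin (m + 1) => c a.1 a.2) 1 ⊔
        (pK.map (vd q 1) ⊔ dg τ θ))) = vd z0 1 ⊔ vd g 1 ⊔ dg τ θ := by order
      rw [h3, p1.map_sup, p1.map_sup, hB, hXd, hT]
    rw [h2] at h1
    exact h1
  have i3 : I T1 T2 (B ⊔ X ⊔ T) = 0 := by rw [hT1, hT2]; exact i2 _ _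
  -- realness
  have r1 : Helper31.EC.h T1 (B ⊔ X) = 1 := by
    rw [hT1, hB, hXd, ← p1.map_sup, p1.h_map]
    exact r0
  have r2 : Helper31.EC.h T2 (B ⊔ X) = 1 := by
    rw [hT2, ← eB, ← eX, ← p2.map_sup, p2.h_map]
    exact r0
  have hTθ : H T ≤ θ := by rw [hT, p1.H_map]; exact H_dg_le τ hθ0
  have u1 : Helper31.EC.h T1 T ≤ 1 - θ := by
    rw [hT1, hT, p1.h_map]
    exact h_dg_dg τ hθ1.le
  have u2 : Helper31.EC.h T2 T ≤ 1 - θ := by
    rw [hT2, ← eT, p2.h_map]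
    exact h_dg_dg τ hθ1.le
  have l1 : 1 - θ ≤ Helper31.EC.h T1 (B ⊔ X ⊔ T) := by
    have h1 := h_chain T T1 (B ⊔ X)
    have h2 : T ⊔ T1 = T1 := by order
    rw [h2, r1] at h1
    have h3 := h_le_H T (B ⊔ X)
    have h4 : T ⊔ (B ⊔ X) = B ⊔ X ⊔ T := by order
    rw [h4] at h1
    linarith
  have l2 : 1 - θ ≤ Helper31.EC.h T2 (B ⊔ X ⊔ T) := by
    have h1 := h_chain T T2 (B ⊔ X)
    have h2 : T ⊔ T2 = T2 := by order
    rw [h2, r2] at h1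
    have h3 := h_le_H T (B ⊔ X)
    have h4 : T ⊔ (B ⊔ X) = B ⊔ X ⊔ T := by order
    rw [h4] at h1
    linarith
  have l1' : 1 - θ ≤ Helper31.EC.h T1 (B ⊔ X ⊔ T2) := by
    have h1 := I_zero_iff_h.mp i3
    have h2 : T2 ⊔ (B ⊔ X ⊔ T) = B ⊔ X ⊔ T2 := by order
    rw [h2] at h1
    rw [h1]
    exact l1
  have l2' : 1 - θ ≤ Helper31.EC.h T2 (B ⊔ X ⊔ T1) := by
    have h1 := I_zero_iff_h.mp (ind_symm i3)
    have h2 : T1 ⊔ (B ⊔ X ⊔ T) = B ⊔ X ⊔ T1 := by order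
    rw [h2] at h1
    rw [h1]
    exact l2
  -- the new values are known to the old values and the noise
  have zle : pK.map (vd z 1) ≤ vd z0 1 ⊔ vd g 1 ⊔ dg τ 1 := by
    rw [← pK.qs_vd, vd_le]
    intro i
    have e1 := e i
    beta_reduce
    rw [e1]
    apply (Kn R 1 le_rfl _).add_mem
    · exact (dg_le_vd z0 1 i).trans (le_sup_left.trans le_sup_left)
    · apply (Kn R 1 le_rfl _).mul_mem (le_sup_right : dg τ 1 ≤ _)
      unfold pe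
      apply (Kn R 1 le_rfl _).sum_mem
      intro j _
      apply (Kn R 1 le_rfl _).mul_mem
      · exact (hc i j).trans (le_sup_right.trans le_sup_left)
      · exact (Kn R 1 le_rfl _).pow_mem (le_sup_right : dg τ 1 ≤ _) _
  have zle1 : Z1 ≤ B ⊔ X ⊔ T1 := by
    rw [hZ1, hB, hXd, hT1, ← p1.map_sup, ← p1.map_sup]
    exact p1.map_mono zle
  have zle2 : Z2 ≤ B ⊔ X ⊔ T2 := by
    rw [hZ2, ← eB, ← eX, hT2, ← p2.map_sup, ← p2.map_sup]
    exact p2.map_mono zle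
  have j1 : I Z1 (X ⊔ T1) Q = 0 := by
    rw [hZ1, hXd, hT1, hQ, ← p1.map_sup, p1.I_map]
    exact i1
  have j2 : I Z2 (X ⊔ T2) Q = 0 := by
    rw [hZ2, ← eX, hT2, ← eQ, ← p2.map_sup, p2.I_map]
    exact i1
  have k1 : I Z1 (X ⊔ T1 ⊔ T2) Q = 0 := by
    refine ind_add j1 (C' := X ⊔ T1) ?_ (by order)
    rw [I_comm, I_zero_iff_h]
    apply le_antisymm
    · exact h_anti le_sup_right
    · have h1 : Helper31.EC.h T2 (X ⊔ T1) ≤ 1 - θ := (h_anti (TT1.trans le_sup_right)).trans u2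
      have h2 : Helper31.EC.h T2 (B ⊔ X ⊔ T1) ≤ Helper31.EC.h T2 (Z1 ⊔ (X ⊔ T1)) :=
        h_anti (by order)
      linarith
  have k2 : I Z2 (X ⊔ T2 ⊔ T1) Q = 0 := by
    refine ind_add j2 (C' := X ⊔ T2) ?_ (by order)
    rw [I_comm, I_zero_iff_h]
    apply le_antisymm
    · exact h_anti le_sup_right
    · have h1 : Helper31.EC.h T1 (X ⊔ T2) ≤ 1 - θ := (h_anti (TT2.trans le_sup_right)).trans u1
      have h2 : Helper31.EC.h T1 (B ⊔ X ⊔ T2) ≤ Helper31.EC.h T1 (Z2 ⊔ (X ⊔ T2)) :=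
        h_anti (by order)
      linarith
  -- the difference of the times
  obtain ⟨δ, hδ⟩ : ∃ δ, δ = p1.qs τ - p2.qs τ := ⟨_, rfl⟩
  have hδI : δ ∈ Id D θ := by
    have h1 : δ = p1.qs (τ - qfl τ θ hθ0) - p2.qs (τ - qfl τ θ hθ0) := by
      rw [hδ, map_sub, map_sub, cf]
      ring
    rw [h1]
    apply (Id D θ).sub_mem
    · exact (p1.qs_mem_Id hθ1.le).mpr (sub_qfl_mem τ hθ0 hθ1.le)
    · exact (p2.qs_mem_Id hθ1.le).mpr (sub_qfl_mem τ hθ0 hθ1.le)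
  have hδT : dg δ 1 ≤ T1 ⊔ T2 := by
    have h1 := dg_sub_le (p1.qs τ) (p2.qs τ) (r := 1) le_rfl
    rw [← hδ, p1.qs_dg, p2.qs_dg, ← hT1, ← hT2] at h1
    exact h1
  have hTδ : T1 ≤ dg δ 1 ⊔ T2 := by
    have h2 : p1.qs τ = δ + p2.qs τ := by rw [hδ]; ring
    have h1 := dg_add_le δ (p2.qs τ) (r := 1) le_rfl
    rw [← h2, p1.qs_dg, p2.qs_dg, ← hT1, ← hT2] at h1
    exact h1
  -- the velocity
  obtain ⟨s, hs⟩ : ∃ s : ν → QS D, ∀ i, s i =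
      pe (fun j : Fin (m + 1) => (((j : ℕ) + 1 : ℕ) : QS D) * p2.qs (c i j)) (p2.qs τ) :=
    ⟨_, fun _ => rfl⟩
  have hcX : ∀ i (j : Fin (m + 1)), dg ((((j : ℕ) + 1 : ℕ) : QS D) * p2.qs (c i j)) 1 ≤ X := by
    intro i j
    apply (Kn D 1 le_rfl _).mul_mem
    · exact natCast_mem (Kn D 1 le_rfl X) _
    · show dg (p2.qs (c i j)) 1 ≤ X
      rw [p2.qs_dg, ← eX]
      exact p2.map_mono (hc i j)
  have hsX : vd s 1 ≤ X ⊔ T2 := by
    rw [vd_le]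
    intro i
    rw [hs]
    unfold pe
    apply (Kn D 1 le_rfl _).sum_mem
    intro j _
    apply (Kn D 1 le_rfl _).mul_mem
    · exact (hcX i j).trans le_sup_left
    · apply (Kn D 1 le_rfl _).pow_mem
      show dg (p2.qs τ) 1 ≤ _
      rw [p2.qs_dg, ← hT2]
      exact le_sup_right
  have heq : ∀ i, (p1.comp pK).qs (z i) = (p2.comp pK).qs (z i) + δ * s i := by
    intro i
    rw [Pj.comp_qs, Pj.comp_qs, e i, map_add, map_add, map_mul, map_mul, pe_map, pe_map, cz, hs]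
    have h1 : (fun a => p1.qs (c i a)) = fun a => p2.qs (c i a) := funext fun a => cc i a
    rw [h1]
    have h2 : p1.qs τ = p2.qs τ + δ := by rw [hδ]; ring
    have h3 : ∀ j : Fin (m + 1), p2.qs (c i j) * ((p2.qs τ + δ) ^ ((j : ℕ) + 1) -
        (p2.qs τ) ^ ((j : ℕ) + 1)) = δ * ((((j : ℕ) + 1 : ℕ) : QS D) * p2.qs (c i j) * (p2.qs τ) ^ (j : ℕ)) := by
      intro j
      obtain ⟨k, hk⟩ := Polynomial.powAddExpansion (p2.qs τ) δ ((j : ℕ) + 1)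
      have h4 : p2.qs (c i j) * k * δ ^ 2 = 0 := by
        rw [← mem_Id_one]
        have h5 : δ ^ 2 ∈ Id D (θ + θ) := by
          rw [sq]
          exact Id_mul hθ1.le hθ1.le hδI hδI
        have h6 : p2.qs (c i j) * k ∈ Id D r :=
          (Id D r).mul_mem_right k ((p2.qs_mem_Id hr1.le).mpr (hcr i j))
        have h7 := Id_mul hr1.le (by rw [hθ]; linarith) h6 h5
        have h8 : r + (θ + θ) = 1 := by rw [hθ]; ring
        rw [h8] at h7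
        exact h7
      rw [hk, Nat.add_sub_cancel]
      linear_combination h4
    unfold pe
    rw [h2, Finset.mul_sum, Finset.mul_sum, Finset.mul_sum]
    have h9 : ∑ j : Fin (m + 1), (p2.qs τ + δ) * (p2.qs (c i j) * (p2.qs τ + δ) ^ (j : ℕ)) =
        ∑ j : Fin (m + 1), p2.qs τ * (p2.qs (c i j) * (p2.qs τ) ^ (j : ℕ)) +
          ∑ j : Fin (m + 1), δ * ((((j : ℕ) + 1 : ℕ) : QS D) * p2.qs (c i j) * (p2.qs τ) ^ (j : ℕ)) := by
      rw [← Finset.sum_add_distrib]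
      apply Finset.sum_congr rfl
      intro j _
      rw [← h3 j]
      ring
    rw [h9]
    ring
  have key := hN D (p2.comp pK) (p1.comp pK) δ s θ hθ0 hθ1
    (fun i => by rw [Pj.comp_qs, Pj.comp_qs]; exact (cq i).symm) heq
    (by
      rw [Pj.comp_map, Pj.comp_map, eQ, ← hZ2]
      exact I_zero_mono k2 le_sup_left (by order))
    (by
      rw [Pj.comp_map, Pj.comp_map, eQ, ← hZ1]
      exact I_zero_mono k1 le_sup_left (by order))
    hδI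
    (by
      rw [Pj.comp_map, eQ]
      apply le_antisymm
      · have h1 := h_dg_dg δ hθ1.le
        rw [dg_of_mem_Id hδI le_rfl hθ1.le] at h1
        exact (h_anti bot_le).trans h1
      · have h1 : Helper31.EC.h (dg δ 1) (X ⊔ T2) ≤ Helper31.EC.h (dg δ 1) (vd s 1 ⊔ Q) :=
          h_anti (by order)
        have h2 := h_mono (B := X ⊔ T2) hTδ
        have h3 := h_sup_le (dg δ 1) T2 (X ⊔ T2)
        have h4 : Helper31.EC.h T2 (X ⊔ T2) = 0 := h_zero le_sup_right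
        have h5 : Helper31.EC.h T1 (B ⊔ X ⊔ T2) ≤ Helper31.EC.h T1 (X ⊔ T2) := h_anti (by order)
        linarith)
  intro i j
  have h1 := key i
  rw [hs] at h1
  have h2 := real_zero (fun j : Fin (m + 1) => (((j : ℕ) + 1 : ℕ) : QS D) * p2.qs (c i j)) (p2.qs τ)
    (by
      apply le_antisymm (h_dg_le_one _ _)
      refine r2.ge.trans ?_
      rw [p2.qs_dg, ← hT2]
      apply h_anti
      rw [vd_le]
      intro j
      exact (hcX i j).trans le_sup_right) (by linarith : 1 - θ ≤ 1) h1 j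
  have h3 := mem_Id_of_unit_mul (Pool.Agent.Helper50.CV.isUnit_nat ((j : ℕ) + 1) (Nat.succ_pos _)) h2
  have h4 : 1 - θ = (1 + r) / 2 := by rw [hθ]; ring
  rw [h4] at h3
  exact (p2.qs_mem_Id (by linarith)).mp h3

/-- ABSORPTION of polynomial real noises of a vector -/
theorem absV {W R : Sp} {ι ι' ν : Type} [Fintype ι] [Fintype ι'] [Fintype ν] {m : ℕ}
    (q : ι → QS W) (z : ν → QS W) (hN : NRw W q z) (pK : Pj R W) (g : ι' → QS R)
    (c : ν → Fin (m + 1) → QS R) (z0 : ν → QS R) (τ : QS R)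
    (hX : pK.map (vd q 1) ≤ vd g 1) (hc : ∀ i j, dg (c i j) 1 ≤ vd g 1)
    (e : ∀ i, pK.qs (z i) = z0 i + τ * pe (c i) τ)
    (i1 : I (pK.map (vd z 1)) (vd g 1 ⊔ dg τ 1) (pK.map (vd q 1)) = 0)
    (r0 : Helper31.EC.h (dg τ 1) (vd z0 1 ⊔ vd g 1) = 1) : ∀ i j, c i j = 0 := by
  have h1 : ∀ k : ℕ, ∀ i j, c i j ∈ Id R (1 - (1 / 2) ^ k) := by
    intro k
    induction k with
    | zero =>
      intro i j
      exact mem_Id_nonpos (by norm_num)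
    | succ k ih =>
      have h2 : (0 : ℝ) ≤ 1 - (1 / 2) ^ k := by
        have := pow_le_one₀ (n := k) (by norm_num : (0 : ℝ) ≤ 1 / 2) (by norm_num)
        linarith
      have h3 : 1 - (1 / 2 : ℝ) ^ k < 1 := by
        have : (0 : ℝ) < (1 / 2) ^ k := by positivity
        linarith
      have h4 := absV_step q z hN pK g c z0 τ hX hc e i1 r0 h2 h3 ih
      have h5 : (1 + (1 - (1 / 2 : ℝ) ^ k)) / 2 = 1 - (1 / 2) ^ (k + 1) := by
        rw [pow_succ]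
        ring
      rw [h5] at h4
      exact h4
  intro i j
  rw [← mem_Id_one]
  apply mem_Id_of_lt le_rfl
  intro s hs
  obtain ⟨k, hk⟩ := exists_pow_lt_of_lt_one (by linarith : (0 : ℝ) < 1 - s) (by norm_num : (1 / 2 : ℝ) < 1)
  exact Id_anti (by linarith) (h1 k i j)

end

end Pool.Agent.Helper38.NS
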