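import Pool.Agent.Helper38.NS.LeafB

/-! Exact entropy calculus: LEAF theorem over a flat real base in codimension one. -/

set_option autoImplicit false

namespace Pool.Agent.Helper38.NS

open Pool.Agent.Helper31.EC QS

noncomputable section

theorem det_map {T W : Sp} (p : Pj T W) {n : ℕ} (M : Matrix (Fin n) (Fin n) (QS W))
    (h : IsUnit M.det) : IsUnit (Matrix.det (Matrix.of fun i j => p.qs (M i j))) := by
  have h1 := h.map p.qs
  rw [RingHom.map_det] at h1
  exact h1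

namespace FB

variable {S : Sp} {d : ℕ}

section

variable {s : FB S d} {N : ℕ} (C : CQ S s.fQ N)

theorem a_eq (i : Fin (N + 1)) (k : Fin d) :
    (C.p i).qs (s.a k) = pt C k.succ - pt C 0 * (C.p i).qs (s.x k) := by
  rw [← pt_eq C i, ← pt_eq C i, q_succ, q_zero]
  unfold y
  rw [map_add, map_mul]
  ring

theorem z_eq (i : Fin (N + 1)) : (C.p i).qs s.z = (C.p 0).qs s.z := C.com i 0 (Sum.inr ())

theorem b_eq (i : Fin (N + 1)) : (C.p i).qs s.b = (C.p 0).qs s.z - pt C 0 * Fs C i := by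
  rw [← z_eq C i, ← pt_eq C i, q_zero]
  unfold z Fs
  rw [map_add, map_mul]
  ring

end

/-- LEAF -/
theorem leaf (s : FB S d) (hW : WEC) (hL : LoopQ) (hs : s.Hyp) (hq : Rl s.q ⊥) {c : ℝ}
    (hc : 0 < c) (hu : UnS s.z (s.iT ⊔ s.iY) 0 c) (h3 : s.T3) (hconn : s.Conn) :
    ∃ (W : Sp) (r : Pj W S) (f : MvPolynomial (Fin (d + 1)) (QS W)), f ∈ PK ⊥ ∧
      f.totalDegree ≤ d + 2 ∧ r.qs s.z = MvPolynomial.eval (fun j => r.qs (s.q j)) f := by
  classical
  obtain ⟨C⟩ := exists_CQ s.fQ (d + 1 + d)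
  obtain ⟨W, p, P, hP1, hP2, hPd, hPF⟩ := slopes2 s hW hs hq hc (by rw [sup_comm]; exact hu) h3 C
  obtain ⟨G, hG⟩ : ∃ G : Fin (d + 1 + d + 1) × Fin d → QS W, G = fun a => p.qs (dirs C a) :=
    ⟨_, rfl⟩
  obtain ⟨v, hv⟩ : ∃ v : Fin (d + 1 + d + 1) → Fin (d + 1) → QS W,
      v = fun i j => p.qs ((C.p i).qs (s.v j)) := ⟨_, rfl⟩
  obtain ⟨q', hq'⟩ : ∃ q' : Fin (d + 1) → QS W, q' = fun j => p.qs (pt C j) := ⟨_, rfl⟩
  obtain ⟨z', hz'⟩ : ∃ z', z' = p.qs ((C.p 0).qs s.z) := ⟨_, rfl⟩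
  have hGd : vd G 1 = p.map (vd (dirs C) 1) := by rw [hG, p.qs_vd]
  have hGu : vd G 1 = p.map (U1 C) ⊔ p.map (U2 C) := by rw [hGd, U_eq, p.map_sup]
  have hv0 : ∀ i, v i 0 = 1 := by
    intro i
    rw [hv]
    show p.qs ((C.p i).qs (s.v 0)) = 1
    rw [v_zero, map_one, map_one]
  have hvs : ∀ i (k : Fin d), v i k.succ = p.qs (dirs C (i, k)) := by
    intro i k
    rw [hv]
    rfl
  have hvk : ∀ i j, dg (v i j) 1 ≤ vd G 1 := by
    intro i j
    induction j using Fin.cases with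
    | zero =>
      rw [hv0]
      exact (Kn W 1 le_rfl _).one_mem
    | succ k =>
      rw [hvs, hG]
      exact dg_le_vd (fun a => p.qs (dirs C a)) 1 (i, k)
  have hqR : Rl q' (vd G 1) := by
    rw [hGd, hq']
    exact (q_real C hs hq).pull p
  have hPG : ∀ i, P i ∈ PK (vd G 1) := by
    intro i
    rw [hGu]
    rcases g12 i with ⟨j, rfl⟩ | ⟨j, rfl⟩
    · exact PK_mono le_sup_left (hP1 j)
    · exact PK_mono le_sup_right (hP2 j)
  have hFe : ∀ i, p.qs (Fs C i) = MvPolynomial.eval q' (P i) := by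
    intro i
    rw [hPF i, hq']
  -- base lines
  have hak : ∀ i, q' 0 - q' 0 * v i 0 = 0 := by
    intro i
    rw [hv0, mul_one, sub_self]
  have has : ∀ i (k : Fin d), q' k.succ - q' 0 * v i k.succ = p.qs ((C.p i).qs (s.a k)) := by
    intro i k
    rw [a_eq, map_sub, map_mul, hvs, hq']
    rfl
  have hLle : ∀ i, vd (fun k => q' k - q' 0 * v i k) 1 ≤ p.map ((C.p i).map s.iL) := by
    intro i
    rw [vd_le]
    intro k
    induction k using Fin.cases with
    | zero =>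
      rw [hak]
      exact (Kn W 1 le_rfl _).zero_mem
    | succ k =>
      rw [has, p.qs_dg, (C.p i).qs_dg]
      exact p.map_mono ((C.p i).map_mono ((dg_le_vd s.a 1 k).trans le_sup_left))
  have hLge : ∀ i, p.map ((C.p i).map s.iL) ≤ vd (fun k => q' k - q' 0 * v i k) 1 ⊔ vd G 1 := by
    intro i
    unfold iL
    rw [(C.p i).map_sup, p.map_sup]
    apply sup_le
    · refine le_trans ?_ le_sup_left
      rw [← (C.p i).qs_vd, ← p.qs_vd, vd_le]
      intro k
      rw [← has]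
      exact dg_le_vd (fun k => q' k - q' 0 * v i k) 1 k.succ
    · refine le_trans ?_ le_sup_right
      rw [hGd]
      exact p.map_mono (iX_le_dirs C i)
  have hb : ∀ i, z' - q' 0 * MvPolynomial.eval q' (P i) = p.qs ((C.p i).qs s.b) := by
    intro i
    rw [b_eq, map_sub, map_mul, hFe, hz', hq']
  have hFk : ∀ i, dg (p.qs (Fs C i)) 1 ≤ p.map ((C.p i).map s.iL) := by
    intro i
    unfold Fs
    rw [p.qs_dg, (C.p i).qs_dg]
    exact p.map_mono ((C.p i).map_mono hs.hF)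
  have htime : ∀ i, Helper31.EC.h (dg (q' 0) 1) (vd (fun k => q' k - q' 0 * v i k) 1 ⊔
      dg (z' - q' 0 * MvPolynomial.eval q' (P i)) 1 ⊔ vd G 1) = 1 := by
    intro i
    apply le_antisymm (h_dg1 _ _)
    have h1 := p.h_map ((C.p i).map s.iT) ((C.p i).map (s.iL ⊔ s.iB) ⊔ vd (dirs C) 1)
    rw [time_real C hs i, p.map_sup, ← hGd] at h1
    have h2 : dg (q' 0) 1 = p.map ((C.p i).map s.iT) := by
      rw [hq']
      show dg (p.qs (pt C 0)) 1 = _
      rw [← pt_eq C i, p.qs_dg, (C.p i).qs_dg]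
      rfl
    rw [h2]
    refine h1.ge.trans ?_
    apply h_anti
    rw [(C.p i).map_sup, p.map_sup, hb i, p.qs_dg, (C.p i).qs_dg]
    exact sup_le_sup_right (sup_le_sup_right (hLle i) _) _
  have hun : UnS z' (vd q' 1) 0 c := by
    have h1 := hu.pull (p.comp (C.p 0))
    rw [Pj.comp_qs, Pj.comp_map, ← vd_q, ← (C.p 0).qs_vd, ← p.qs_vd, ← hz'] at h1
    rw [hq']
    exact h1
  have hdet1 : IsUnit (Matrix.det (Matrix.of fun i j : Fin (d + 1) => v (g1 d i) j)) := by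
    rw [hv]
    exact det_map p (Matrix.of fun i j => (C.p (g1 d i)).qs (s.v j))
      (h3 (subCQ C (g1 d) (g1_inj d)))
  have hdet2 : IsUnit (Matrix.det (Matrix.of fun i j : Fin (d + 1) => v (g2 d i) j)) := by
    rw [hv]
    exact det_map p (Matrix.of fun i j => (C.p (g2 d i)).qs (s.v j))
      (h3 (subCQ C (g2 d) (g2_inj d)))
  obtain ⟨f, hf, hf0, hpot⟩ := hL W _ inferInstance G d (d + 1 + d) q' z' v P (by omega) c hc hqR
    hvk hPG hv0 hdet1 htime (fun i => by rw [← hFe]; exact (hFk i).trans (hLge i)) hun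
  have hMk1 : ∀ i j : Fin (d + 1), dg (v (g1 d i) j) 1 ≤ p.map (U1 C) := by
    intro i j
    rw [hv]
    show dg (p.qs ((C.p (g1 d i)).qs (s.v j))) 1 ≤ _
    rw [p.qs_dg]
    exact p.map_mono (Mat_le (subCQ C (g1 d) (g1_inj d)) i j)
  have hMk2 : ∀ i j : Fin (d + 1), dg (v (g2 d i) j) 1 ≤ p.map (U2 C) := by
    intro i j
    rw [hv]
    show dg (p.qs ((C.p (g2 d i)).qs (s.v j))) 1 ≤ _
    rw [p.qs_dg]
    exact p.map_mono (Mat_le (subCQ C (g2 d) (g2_inj d)) i j)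
  obtain ⟨m1, m1d⟩ := pot_known (A := p.map (U1 C)) (B := vd G 1) (by rw [hGu]; exact le_sup_left)
    f hf hf0 (Matrix.of fun i j : Fin (d + 1) => v (g1 d i) j) hMk1 hdet1 (fun i => P (g1 d i))
    hP1 (d + 1) (fun i => hPd _) (fun i => hpot (g1 d i)) q' hqR
  obtain ⟨m2, -⟩ := pot_known (A := p.map (U2 C)) (B := vd G 1) (by rw [hGu]; exact le_sup_right)
    f hf hf0 (Matrix.of fun i j : Fin (d + 1) => v (g2 d i) j) hMk2 hdet2 (fun i => P (g2 d i))
    hP2 (d + 1) (fun i => hPd _) (fun i => hpot (g2 d i)) q' hqR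
  have hfree : f ∈ PK (⊥ : W.L) := by
    intro m
    have h1 : I (p.map (U1 C)) (p.map (U2 C)) ⊥ = 0 := by
      have h2 := p.I_map (U1 C) (U2 C) ⊥
      rw [halves_ind hs C, p.map_bot] at h2
      exact h2
    exact le_of_markov ((m1 m).trans le_sup_left) ((m2 m).trans le_sup_left) h1
  obtain ⟨r, hr⟩ : ∃ r : Pj W S, r = p.comp (C.p 0) := ⟨_, rfl⟩
  have hrq : ∀ j, r.qs (s.q j) = q' j := by
    intro j
    rw [hr, Pj.comp_qs, hq']
    rfl
  have hrz : r.qs s.z = z' := by rw [hr, Pj.comp_qs, hz']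
  obtain ⟨g, hg⟩ : ∃ g, g = z' - MvPolynomial.eval q' f := ⟨_, rfl⟩
  have g1' : dg g 1 ≤ r.map (s.iT ⊔ (s.iY ⊔ s.iZ)) := by
    rw [hg]
    apply (Kn W 1 le_rfl _).sub_mem
    · rw [← hrz, mem_Kn, r.qs_dg]
      exact r.map_mono (le_sup_right.trans le_sup_right)
    · apply eval_mem hfree q' bot_le
      intro j
      rw [← hrq, r.qs_dg]
      refine r.map_mono ?_
      have h1 := dg_le_vd s.q 1 j
      rw [vd_q] at h1
      exact h1.trans (sup_le_sup_left le_sup_left _)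
  have g2' : dg g 1 ≤ r.map (s.iL ⊔ s.iB) := by
    have e0 : (fun j => (fun k => q' k - q' 0 * v 0 k) j + q' 0 * v 0 j) = q' := by
      funext j
      ring
    have h1 := hpot 0 (fun k => q' k - q' 0 * v 0 k) (q' 0)
    have h2 := (hpot 0).const (fun k => q' k - q' 0 * v 0 k) (q' 0)
    rw [e0] at h1 h2
    have h4 := hb 0
    have h5 : g = p.qs ((C.p 0).qs s.b) -
        MvPolynomial.eval (fun k => q' k - q' 0 * v 0 k) f := by
      rw [hg, ← h4, h2]
      linear_combination -h1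
    rw [h5]
    apply (Kn W 1 le_rfl _).sub_mem
    · rw [mem_Kn, p.qs_dg, (C.p 0).qs_dg, hr, Pj.comp_map]
      exact p.map_mono ((C.p 0).map_mono le_sup_right)
    · apply eval_mem hfree _ bot_le
      intro k
      refine (dg_le_vd (fun k => q' k - q' 0 * v 0 k) 1 k).trans ((hLle 0).trans ?_)
      rw [hr, Pj.comp_map]
      exact p.map_mono ((C.p 0).map_mono le_sup_left)
  have hg0 := hconn W r g g1' g2'
  refine ⟨W, r, f + MvPolynomial.C g, ?_, ?_, ?_⟩
  · exact (PK (⊥ : W.L)).add_mem hfree (C_mem hg0.le)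
  · refine (MvPolynomial.totalDegree_add _ _).trans ?_
    rw [MvPolynomial.totalDegree_C]
    exact max_le m1d (Nat.zero_le _)
  · rw [hrz, map_add, MvPolynomial.eval_C]
    have e : (fun j => r.qs (s.q j)) = q' := funext hrq
    rw [e, hg]
    ring

end FB

end

end Pool.Agent.Helper38.NS
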