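import Pool.Agent.Helper38.NS.T3B
import Pool.Agent.Helper38.NS.LeafC

/-! Exact entropy calculus: general position of the directions of a bush, (T3). -/

set_option autoImplicit false

namespace Pool.Agent.Helper38.NS

open Filter Topology Pool.Agent.Helper69.RK
open Pool.Agent.Helper31.EC QS Sp

noncomputable section

/-- a function which is not a unit is small on an event of positive probability -/
theorem small_of_not_unit {S : Sp} {f : QS S} (hf : ¬ IsUnit f) :
    ∃ (δ : ℝ) (E : ∀ k, (S.F k).Ω → Prop) (hE : 0 < ul (S.pr E)), 0 < δ ∧ δ ≤ 1 ∧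
      QS.rest E hE f ∈ Id (S.rest E) δ := by
  obtain ⟨f, rfl⟩ := mk_surj f
  rw [isUnit_mk] at hf
  have h1 : ∃ δ : ℝ, 0 < δ ∧ ¬ Typ (fun k ω => S.dl δ k ≤ |TR.ev f k ω|) := by
    by_contra hcon
    push Not at hcon
    exact hf (nd_of_levels hcon)
  obtain ⟨δ, hδ, hT⟩ := h1
  rcases typ_or (fun k ω => S.dl δ k ≤ |TR.ev f k ω|) with h | h
  · exact absurd h hT
  · refine ⟨min δ 1, _, h, lt_min hδ one_pos, min_le_right _ _, ?_⟩
    rw [QS.rest_mk, mk_mem_Id (min_le_right _ _)]
    apply Ag_of_pt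
    filter_upwards [rest_pos h] with k hk ω hω
    have h2 := (hk ω hω).2
    rw [not_le] at h2
    rw [TR.ev_zero, sub_zero]
    exact h2.le.trans (S.dl_anti (min_le_left δ 1) k)

theorem ofNat_val {k j : ℕ} (hj : j ≤ k) : ((Fin.ofNat (k + 1) j : Fin (k + 1)) : ℕ) = j :=
  Nat.mod_eq_of_lt (by omega)

/-- copies of a line whose direction is independent of the common information -/
theorem cq_ind {S : Sp} {d : ℕ} {ι : Type} [Fintype ι] {f : ι → QS S} {k : ℕ} (C : CQ S f k)
    (s : FB S d) (hX : I s.iX (vd f 1) ⊥ = 0) (n : ℕ) (hn : n ≤ k + 1) :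
    Ind (fun j => s.map (C.p (Fin.ofNat (k + 1) j)).qs) n := by
  classical
  have hX3 : ∀ j : ℕ, (s.map (C.p (Fin.ofNat (k + 1) j)).qs).iX =
      (C.p (Fin.ofNat (k + 1) j)).map s.iX := by
    intro j
    exact (C.p (Fin.ofNat (k + 1) j)).qs_vd _ _
  intro i hi
  have hXv : I ((C.p (Fin.ofNat (k + 1) i)).map s.iX) C.v ⊥ = 0 := by
    have h1 := (C.p (Fin.ofNat (k + 1) i)).I_map s.iX (vd f 1) ⊥
    rw [hX, C.p_v, (C.p (Fin.ofNat (k + 1) i)).map_bot] at h1
    exact h1
  have hsup : ((Finset.range i).sup fun j => (s.map (C.p (Fin.ofNat (k + 1) j)).qs).iX) =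
      ((Finset.range i).image fun j => (Fin.ofNat (k + 1) j : Fin (k + 1))).sup
        fun j => (C.p j).map s.iX := by
    rw [Finset.sup_image]
    congr 1
    funext j
    exact hX3 j
  rw [hX3 i, hsup]
  have h1 := C.I_sup (s := {(Fin.ofNat (k + 1) i : Fin (k + 1))})
    (t := (Finset.range i).image fun j => (Fin.ofNat (k + 1) j : Fin (k + 1)))
    (by
      rw [Finset.disjoint_singleton_left, Finset.mem_image]
      rintro ⟨j, hj, hji⟩
      have hj' := Finset.mem_range.mp hj
      have h2 := congrArg Fin.val hji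
      rw [ofNat_val (show j ≤ k by omega), ofNat_val (show i ≤ k by omega)] at h2
      omega) (fun _ => s.iX)
  rw [Finset.sup_singleton] at h1
  have h3 := ind_add hXv h1 (by rw [sup_bot_eq])
  exact I_zero_mono h3 le_sup_left (le_sup_right.trans le_sup_left)

theorem ndeg_zero {d : ℕ} (κ : Cls d) : NDeg κ 0 := by
  intro T w _ _
  refine ⟨T, Hm.pull (Pj.id T), fun i => i.elim0, fun i => i.elim0, ?_⟩
  rw [Matrix.det_isEmpty]
  exact isUnit_one

theorem ndeg_succ {d : ℕ} (κ : Cls d) {k : ℕ} (hk : k < d + 1) (ih : NDeg κ k) :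
    NDeg κ (k + 1) := by
  classical
  intro T w hK hI
  obtain ⟨T1, a, e, he, hdet⟩ := ih T w (fun i hi => hK i (by omega)) (fun i hi => hI i (by omega))
  obtain ⟨w1, hw1⟩ : ∃ w1 : ℕ → FB T1 d, w1 = fun i => (w i).map a.φ := ⟨_, rfl⟩
  have hv1 : ∀ i m, (w1 i).v m = a.φ ((w i).v m) := by
    intro i m
    rw [hw1]
    exact FB.map_v _ _ _
  obtain ⟨N, hNd⟩ : ∃ N : Matrix (Fin k) (Fin k) (QS T1), N = Matrix.of fun i j : Fin k =>
    (w1 i).v (e j) := ⟨_, rfl⟩
  have hN : IsUnit N.det := by
    have e1 : N = Matrix.of fun i j : Fin k => a.φ ((w i).v (e j)) := by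
      rw [hNd]
      ext i j
      exact hv1 i (e j)
    rw [e1]
    exact hdet
  obtain ⟨l, hld⟩ : ∃ l : Fin (d + 1) → Fin k → QS T1, ∀ m j, l m j = ∑ i, N⁻¹ j i * (w1 i).v m :=
    ⟨_, fun _ _ => rfl⟩
  have hl : ∀ (i : Fin k) m, ∑ j, (w1 i).v (e j) * l m j = (w1 i).v m := by
    intro i m
    have h4 : ∀ j, (w1 i).v (e j) * l m j = ∑ n : Fin k, (N i j * N⁻¹ j n) * (w1 n).v m := by
      intro j
      rw [hld, Finset.mul_sum]
      apply Finset.sum_congr rfl
      intro n _
      have h5 : N i j = (w1 i).v (e j) := by rw [hNd]; rfl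
      rw [h5]
      ring
    rw [Finset.sum_congr rfl fun j _ => h4 j, Finset.sum_comm]
    have h5 : ∀ n : Fin k, ∑ j, (N i j * N⁻¹ j n) * (w1 n).v m = if i = n then (w1 n).v m else 0 := by
      intro n
      rw [← Finset.sum_mul]
      have h6 : ∑ j, N i j * N⁻¹ j n = (N * N⁻¹) i n := (Matrix.mul_apply).symm
      rw [h6, Matrix.mul_nonsing_inv _ hN, Matrix.one_apply, ite_mul, one_mul, zero_mul]
    rw [Finset.sum_congr rfl fun n _ => h5 n, Finset.sum_ite_eq, if_pos (Finset.mem_univ _)]
  have hle : ∀ n j, l (e n) j = if j = n then 1 else 0 := by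
    intro n j
    rw [hld]
    have h5 : ∀ i : Fin k, (w1 i).v (e n) = N i n := by
      intro i
      rw [hNd]
      rfl
    rw [Finset.sum_congr rfl fun i _ => by rw [h5 i]]
    have h6 : ∑ i, N⁻¹ j i * N i n = (N⁻¹ * N) j n := (Matrix.mul_apply).symm
    rw [h6, Matrix.nonsing_inv_mul _ hN, Matrix.one_apply]
  obtain ⟨ρ, hρd⟩ : ∃ ρ : Fin (d + 1) → QS T1, ∀ m, ρ m = (w1 k).v m -
    ∑ j, l m j * (w1 k).v (e j) := ⟨_, fun _ => rfl⟩
  rcases dichotomy ρ with ⟨m, E, hE, hu⟩ | ⟨δ, E, hE, h1, h2, h3⟩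
  · have hm : ∀ n, e n ≠ m := by
      intro n hn
      subst hn
      have h4 : ρ (e n) = 0 := by
        rw [hρd]
        have h5 : ∀ j, l (e n) j * (w1 k).v (e j) = if j = n then (w1 k).v (e j) else 0 := by
          intro j
          rw [hle, ite_mul, one_mul, zero_mul]
        rw [Finset.sum_congr rfl fun j _ => h5 j, Finset.sum_ite_eq', if_pos (Finset.mem_univ _),
          sub_self]
      rw [h4, map_zero] at hu
      exact not_isUnit_zero hu
    refine ⟨T1.rest E, (Hm.rest T1 E hE).comp a, Fin.snoc e m, ?_, ?_⟩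
    · intro i j hij
      induction i using Fin.lastCases with
      | last =>
        induction j using Fin.lastCases with
        | last => rfl
        | cast j =>
          rw [Fin.snoc_last, Fin.snoc_castSucc] at hij
          exact absurd hij.symm (hm j)
      | cast i =>
        induction j using Fin.lastCases with
        | last =>
          rw [Fin.snoc_last, Fin.snoc_castSucc] at hij
          exact absurd hij (hm i)
        | cast j =>
          rw [Fin.snoc_castSucc, Fin.snoc_castSucc] at hij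
          rw [he hij]
    · have hN' : IsUnit (Matrix.det (Matrix.of fun i j : Fin k => QS.rest E hE (N i j))) := by
        have h4 := hN.map (QS.rest E hE)
        rw [RingHom.map_det] at h4
        exact h4
      have hval : ∀ i : Fin (k + 1), ∀ n, ((Hm.rest (κ := κ) T1 E hE).comp a).φ ((w i).v n) =
          QS.rest E hE ((w1 i).v n) := by
        intro i n
        rw [hv1]
        rfl
      refine schur _ hN' (fun i => QS.rest E hE ((w1 i).v m))
        (fun j => QS.rest E hE ((w1 k).v (e j))) (QS.rest E hE ((w1 k).v m))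
        (fun j => QS.rest E hE (l m j)) ?_ ?_ _ ?_ ?_ ?_ ?_
      · intro i
        rw [← hl i m, map_sum]
        apply Finset.sum_congr rfl
        intro j _
        have h5 : N i j = (w1 i).v (e j) := by rw [hNd]; rfl
        rw [Matrix.of_apply, h5, map_mul]
      · have h4 : QS.rest E hE ((w1 k).v m) -
            ∑ j, QS.rest E hE (l m j) * QS.rest E hE ((w1 k).v (e j)) = QS.rest E hE (ρ m) := by
          rw [hρd, map_sub, map_sum]
          congr 1
          exact Finset.sum_congr rfl fun j _ => by rw [map_mul]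
        rw [h4]
        exact hu
      · intro i j
        rw [Matrix.of_apply, Fin.snoc_castSucc, hval, Matrix.of_apply, hNd]
        rfl
      · intro i
        rw [Matrix.of_apply, Fin.snoc_last, hval]
        rfl
      · intro j
        rw [Matrix.of_apply, Fin.snoc_castSucc, hval, Fin.val_last]
      · rw [Matrix.of_apply, Fin.snoc_last, hval, Fin.val_last]
  · exfalso
    have hmv : ∀ i m, ((w1 i).map (QS.rest E hE)).v m = QS.rest E hE ((w1 i).v m) :=
      fun i m => FB.map_v _ _ _
    refine copies_contra κ hk ih (T := T1.rest E) (fun i => (w1 i).map (QS.rest E hE)) ?_ ?_ e ?_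
      (fun m j => QS.rest E hE (l m j)) ?_ h1 h2 ?_
    · have h4 := a.cls (w k) (hK k (Nat.lt_succ_self k))
      have h5 := κ.rest _ E hE h4
      rw [hw1]
      exact h5
    · have h4 := hI.map a
      have h5 := h4.map (Hm.rest (κ := κ) T1 E hE)
      rw [hw1]
      exact h5
    · have h4 := hN.map (QS.rest E hE)
      rw [RingHom.map_det, hNd] at h4
      have h5 : (Matrix.of fun i j : Fin k => ((w1 i).map (QS.rest E hE)).v (e j)) =
          (QS.rest E hE).mapMatrix (Matrix.of fun i j : Fin k => (w1 i).v (e j)) := by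
        ext i j
        exact hmv i (e j)
      rw [h5]
      exact h4
    · intro i m
      rw [hmv, ← hl i m, map_sum]
      exact Finset.sum_congr rfl fun j _ => by rw [hmv, map_mul]
    · intro m
      have h4 := h3 m
      rw [hρd, map_sub, map_sum] at h4
      rw [hmv]
      have h5 : ∀ j, QS.rest E hE (l m j * (w1 k).v (e j)) =
          QS.rest E hE (l m j) * ((w1 k).map (QS.rest E hE)).v (e j) := by
        intro j
        rw [map_mul, hmv]
      rw [Finset.sum_congr rfl fun j _ => h5 j] at h4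
      exact h4

theorem ndeg {d : ℕ} (κ : Cls d) (k : ℕ) (hk : k ≤ d + 1) : NDeg κ k := by
  induction k with
  | zero => exact ndeg_zero κ
  | succ k ih => exact ndeg_succ κ (by omega) (ih (by omega))

/-- (T3): the directions of a bush are in general position -/
theorem FB.t3_of_cls {d : ℕ} (κ : Cls d) {S : Sp} (s : FB S d) (hs : s.Hyp) (hK : κ.K S s) :
    s.T3 := by
  classical
  intro C
  by_contra hnu
  obtain ⟨δ, E, hE, hδ, hδ1, hm⟩ := small_of_not_unit hnu
  have hX : I s.iX (vd s.fQ 1) ⊥ = 0 := by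
    rw [vd_fQ]
    exact hs.s1
  obtain ⟨w, hw⟩ : ∃ w : ℕ → FB (C.W.rest E) d, w = fun j =>
    (s.map (C.p (Fin.ofNat (d + 1) j)).qs).map (QS.rest E hE) := ⟨_, rfl⟩
  obtain ⟨T', a, e, he, hu⟩ := ndeg κ (d + 1) le_rfl (C.W.rest E) w
    (fun i _ => by
      rw [hw]
      exact κ.rest _ E hE (κ.pull _ _ hK))
    (by
      rw [hw]
      exact (cq_ind C s hX (d + 1) le_rfl).map (Hm.rest (κ := κ) C.W E hE))
  have hwv : ∀ (i : Fin (d + 1)) m, (w i).v m = QS.rest E hE (Mat C i m) := by
    intro i m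
    have h1 : (Fin.ofNat (d + 1) (i : ℕ) : Fin (d + 1)) = i :=
      Fin.ext (ofNat_val (show (i : ℕ) ≤ d by omega))
    rw [hw]
    beta_reduce
    rw [map_v, map_v, h1, Mat_app]
  obtain ⟨M, hM⟩ : ∃ M : Matrix (Fin (d + 1)) (Fin (d + 1)) (QS T'), M = Matrix.of fun i j =>
    a.φ (QS.rest E hE (Mat C i j)) := ⟨_, rfl⟩
  have hMd : M.det = a.φ (QS.rest E hE (Mat C).det) := by
    rw [RingHom.map_det, RingHom.map_det, hM]
    rfl
  have hbij : Function.Bijective e := Finite.injective_iff_bijective.mp he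
  have h1 : (Matrix.of fun i j : Fin (d + 1) => a.φ ((w i).v (e j))) =
      M.submatrix id (Equiv.ofBijective e hbij) := by
    ext i j
    rw [Matrix.submatrix_apply, hM, Matrix.of_apply, Matrix.of_apply, hwv]
    rfl
  rw [h1, Matrix.det_permute'] at hu
  have h2 : IsUnit M.det := isUnit_of_mul_isUnit_right hu
  rw [hMd] at h2
  exact not_unit_mem_Id hδ h2 (a.idl δ hδ1 _ hm)

end

end Pool.Agent.Helper38.NS
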