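import Pool.Agent.Helper38.NS.UQ

/-! Exact entropy calculus: vectors with a deficit at all levels, quotients by real vectors being full at all levels. -/

set_option autoImplicit false

namespace Pool.Agent.Helper38.NS

open Filter Topology Pool.Agent.Helper69.RK
open Pool.Agent.Helper31.EC QS Sp

noncomputable section

/-- the vector `z` over `B`: (U) deficit `ρ` at all levels and on all events, (Q) quotients by real vectors are full at
all levels -/
structure UQi (S : Sp) {ν : Type} [Fintype ν] (z : ν → QS S) (B : S.L) (ρ : ℝ) : Prop where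
  Ui : ∀ (T : Sp) (p : Pj T S) (E : ∀ k, (T.F k).Ω → Prop) (hE : 0 < ul (T.pr E)) (j k : ℝ),
    0 ≤ j → j ≤ k → k ≤ 1 →
      Helper31.EC.h (restL E hE (p.map (vd z k))) (restL E hE (p.map (B ⊔ vd z j))) ≤
        (Fintype.card ν - ρ) * (k - j)
  Qi : ∀ (T : Sp) (p : Pj T S) (X : T.L) (w : ν → QS T) (a : ν) (j k : ℝ), 0 ≤ j → j ≤ k → k ≤ 1 →
    I (p.map (vd z k)) X (p.map B) = 0 → (∀ i, dg (w i) 1 ≤ p.map B ⊔ X) → IsUnit (w a) →
    Helper31.EC.h (vd (fun i => p.qs (z i) * w a - p.qs (z a) * w i) k) (p.map B ⊔ X ⊔ p.map (vd z j)) =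
      (Fintype.card ν - 1) * (k - j)

variable {S : Sp} {ν : Type} [Fintype ν] {z : ν → QS S} {B : S.L} {ρ : ℝ}

theorem UQi.toUQ (hu : UQi S z B ρ) : UQ S z B ρ where
  U := by
    intro T p E hE k h0 h1
    have h2 := hu.Ui T p E hE 0 k le_rfl h0 h1
    rw [vd_zero_level, sup_bot_eq, sub_zero] at h2
    exact h2
  Q := by
    intro T p X w a k h0 h1 h2 h3 h4
    have h5 := hu.Qi T p X w a 0 k le_rfl h0 h1 h2 h3 h4
    rw [vd_zero_level, p.map_bot, sup_bot_eq, sub_zero] at h5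
    exact h5

theorem UQi.pull (hu : UQi S z B ρ) {T : Sp} (p : Pj T S) :
    UQi T (fun i => p.qs (z i)) (p.map B) ρ where
  Ui := by
    intro R q E hE j k h0 hj h1
    have h2 := hu.Ui R (q.comp p) E hE j k h0 hj h1
    rw [Pj.comp_map, Pj.comp_map, p.map_sup] at h2
    rw [p.qs_vd, p.qs_vd]
    exact h2
  Qi := by
    intro R q X w a j k h0 hj h1 h2 h3 h4
    rw [p.qs_vd, ← Pj.comp_map, ← Pj.comp_map] at h2
    rw [← Pj.comp_map] at h3
    have h5 := hu.Qi R (q.comp p) X w a j k h0 hj h1 h2 h3 h4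
    rw [← Pj.comp_map, p.qs_vd, ← Pj.comp_map]
    rw [← h5]
    congr 2
    funext i
    rw [Pj.comp_qs, Pj.comp_qs]

/-- enlarging the base by independent informations -/
theorem UQi.mono (hu : UQi S z B ρ) {B' : S.L} (hB : B ≤ B') (hi : I (vd z 1) B' B = 0) :
    UQi S z B' ρ where
  Ui := by
    intro T p E hE j k h0 hj h1
    exact (h_anti (restL_mono E hE (p.map_mono (sup_le_sup_right hB _)))).trans
      (hu.Ui T p E hE j k h0 hj h1)
  Qi := by
    intro T p X w a j k h0 hj h1 h2 h3 h4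
    have hB' := p.map_mono hB
    have h5 : I (p.map (vd z k)) (p.map B') (p.map B) = 0 := by
      rw [p.I_map]
      exact I_zero_mono hi ((vd_mono z h1).trans le_sup_left) le_sup_left
    have h6 := ind_add h5 h2 (by order)
    have h7 := hu.Qi T p (p.map B' ⊔ X) w a j k h0 hj h1 h6 (fun i => (h3 i).trans le_sup_right) h4
    have h8 : p.map B ⊔ (p.map B' ⊔ X) = p.map B' ⊔ X := by order
    rw [h8] at h7
    exact h7

/-- shifting by base functions -/
theorem UQi.shift (hu : UQi S z B ρ) {f : ν → QS S} (hf : ∀ i, dg (f i) 1 ≤ B) :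
    UQi S (fun i => z i + f i) B ρ where
  Ui := by
    intro T p E hE j k h0 hj h1
    have h2 := hu.Ui T p E hE j k h0 hj h1
    refine le_trans (le_of_eq ?_) h2
    have h3 := congrArg (fun x => restL E hE (p.map x)) (vd_shift z f h1 hf)
    have h4 := congrArg (fun x => restL E hE (p.map x)) (vd_shift z f (hj.trans h1) hf)
    beta_reduce at h3 h4
    rw [p.map_sup, p.map_sup, restL_sup, restL_sup] at h3 h4
    rw [p.map_sup, p.map_sup, restL_sup, restL_sup, sup_comm (restL E hE (p.map B)), h4,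
      sup_comm _ (restL E hE (p.map B))]
    exact h_congr_left (by order) (by order)
  Qi := by
    intro T p X w a j k h0 hj h1 h2 h3 h4
    have e1 := congrArg p.map (vd_shift z f h1 hf)
    have e1' := congrArg p.map (vd_shift z f (hj.trans h1) hf)
    rw [p.map_sup, p.map_sup] at e1 e1'
    have h5 : I (p.map (vd z k)) X (p.map B) = 0 := I_zero_mono h2 (by order) le_sup_left
    have h6 := hu.Qi T p X w a j k h0 hj h1 h5 h3 h4
    rw [← h6]
    have hpf : ∀ i, dg (p.qs (f i)) 1 ≤ p.map B ⊔ X ⊔ p.map (vd z j) := by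
      intro i
      rw [p.qs_dg]
      exact (p.map_mono (hf i)).trans (le_sup_left.trans le_sup_left)
    have h3' : ∀ i, dg (w i) 1 ≤ p.map B ⊔ X ⊔ p.map (vd z j) := fun i => (h3 i).trans le_sup_left
    have e2 := vd_shift (fun i => p.qs (z i) * w a - p.qs (z a) * w i)
      (fun i => p.qs (f i) * w a - p.qs (f a) * w i) (B := p.map B ⊔ X ⊔ p.map (vd z j)) h1 (fun i => by
        apply (Kn T 1 le_rfl _).sub_mem
        · exact (Kn T 1 le_rfl _).mul_mem (hpf i) (h3' a)
        · exact (Kn T 1 le_rfl _).mul_mem (hpf a) (h3' i))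
    have e3 : (fun i => p.qs (z i) * w a - p.qs (z a) * w i + (p.qs (f i) * w a - p.qs (f a) * w i)) =
        fun i => p.qs (z i + f i) * w a - p.qs (z a + f a) * w i := by
      funext i
      rw [map_add, map_add]
      ring
    rw [e3] at e2
    have e4 : p.map B ⊔ X ⊔ p.map (vd (fun i => z i + f i) j) = p.map B ⊔ X ⊔ p.map (vd z j) := by order
    rw [e4]
    exact h_congr_left (by order) (by order)

/-- DEPTH CHANGE -/
theorem UQi.dp (hu : UQi S z B ρ) (κ : ℝ) (h0 : 0 < κ) (h1 : κ ≤ 1) :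
    UQi (dp S κ h0) (fun i => dQ κ h0 h1 (z i)) (dL κ h0 B) ρ where
  Ui := by
    intro T p E hE j k k0 kj k1
    have kk : ∀ r : ℝ, 0 ≤ r → r ≤ 1 → κ * r ≤ 1 := fun r r0 r1 => by
      calc κ * r ≤ 1 * 1 := mul_le_mul h1 r1 r0 zero_le_one
        _ = 1 := one_mul 1
    rw [dQ_vd κ h0 h1 z k1, dQ_vd κ h0 h1 z (kj.trans k1), ← dL_sup, h_undo]
    have h2 := hu.Ui (uS p) (uP p) E hE (κ * j) (κ * k) (mul_nonneg h0.le k0)
      (mul_le_mul_of_nonneg_left kj h0.le) (kk k (k0.trans kj) k1)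
    rw [div_le_iff₀ h0]
    refine h2.trans (le_of_eq ?_)
    ring
  Qi := by
    intro T p X w a j k k0 kj k1 h2 h3 h4
    have hk : κ * k ≤ 1 := by
      calc κ * k ≤ 1 * 1 := mul_le_mul h1 k1 (k0.trans kj) zero_le_one
        _ = 1 := one_mul 1
    obtain ⟨Y, hY⟩ := uI_surj p X
    have hl : ∀ i, ∃ v : QS (uS p), dQ κ h0 h1 v = (uI p).qs (w i) ∧
        dL κ h0 (dg v 1) = (uI p).map (dg (w i) 1) := fun i => uI_lift h1 p (w i)
    choose v hv hvd using hl
    have a1 : I ((uP p).map (vd z (κ * k))) Y ((uP p).map B) = 0 := by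
      have b1 := (uI p).I_map (p.map (vd (fun i => dQ κ h0 h1 (z i)) k)) X (p.map (dL κ h0 B))
      rw [h2, dQ_vd κ h0 h1 z k1, uI_map, uI_map, ← hY, dL_I, div_eq_zero_iff, or_iff_left h0.ne'] at b1
      exact b1
    have a2 : ∀ i, dg (v i) 1 ≤ (uP p).map B ⊔ Y := by
      intro i
      rw [← dL_le κ h0, hvd, dL_sup, ← uI_map, hY, ← (uI p).map_sup]
      exact (uI p).map_mono (h3 i)
    have a3 : IsUnit (v a) := by
      apply isUnit_dQ h0 h1
      rw [hv]
      exact h4.map _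
    have a4 := hu.Qi (uS p) (uP p) Y v a (κ * j) (κ * k) (mul_nonneg h0.le k0)
      (mul_le_mul_of_nonneg_left kj h0.le) hk a1 a2 a3
    have e1 : (uI p).map (vd (fun i => p.qs (dQ κ h0 h1 (z i)) * w a - p.qs (dQ κ h0 h1 (z a)) * w i) k) =
        dL κ h0 (vd (fun i => (uP p).qs (z i) * v a - (uP p).qs (z a) * v i) (κ * k)) := by
      rw [← (uI p).qs_vd, ← dQ_vd κ h0 h1 _ k1]
      congr 1
      funext i
      rw [map_sub, map_mul, map_mul, map_sub, map_mul, map_mul, uI_qs h1, uI_qs h1, hv, hv]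
    have e2 : (uI p).map (p.map (dL κ h0 B) ⊔ X ⊔ p.map (vd (fun i => dQ κ h0 h1 (z i)) j)) =
        dL κ h0 ((uP p).map B ⊔ Y ⊔ (uP p).map (vd z (κ * j))) := by
      rw [(uI p).map_sup, (uI p).map_sup, uI_map, dQ_vd κ h0 h1 z (kj.trans k1), uI_map, dL_sup, dL_sup, hY]
    have a5 := (uI p).h_map (vd (fun i => p.qs (dQ κ h0 h1 (z i)) * w a -
      p.qs (dQ κ h0 h1 (z a)) * w i) k) (p.map (dL κ h0 B) ⊔ X ⊔ p.map (vd (fun i => dQ κ h0 h1 (z i)) j))
    rw [e1, e2, dL_h, a4] at a5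
    rw [← a5]
    field_simp

end

end Pool.Agent.Helper38.NS
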