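import Pool.Agent.Helper38.NS.UQ
import Pool.Agent.Helper38.NS.AbsV
import Pool.Agent.Helper50.CV.Rig

/-! Exact entropy calculus: if linear real noises of a vector are small, then polynomial real noises are small
(signed power sums of many copies of the noise variable are real). -/

set_option autoImplicit false

namespace Pool.Agent.Helper38.NS

open Filter Topology Pool.Agent.Helper69.RK
open Pool.Agent.Helper31.EC QS

noncomputable section

/-- linear real noises of the vector `z` over `B` have size at most `2 ^ (-ρ n)` -/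
def NRu (W : Sp) {ν : Type} [Fintype ν] (z : ν → QS W) (B : W.L) (ρ : ℝ) : Prop :=
  ∀ (D : Sp) (P : Pj D W) (z0 : ν → QS D) (τ : QS D) (s : ν → QS D),
    (∀ i, P.qs (z i) = z0 i + τ * s i) → I (P.map (vd z 1)) (vd s 1) (P.map B) = 0 →
    Helper31.EC.h (dg τ 1) (vd z0 1 ⊔ vd s 1 ⊔ P.map B) = 1 → ∀ i, s i ∈ Id D ρ

theorem NRu.pull {S W : Sp} {ν : Type} [Fintype ν] {z : ν → QS S} {B : S.L} {ρ : ℝ}
    (hN : NRu S z B ρ) (p : Pj W S) : NRu W (fun i => p.qs (z i)) (p.map B) ρ := by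
  intro D P z0 τ s h1 h2 h3
  rw [p.qs_vd, ← Pj.comp_map, ← Pj.comp_map] at h2
  rw [← Pj.comp_map] at h3
  exact hN D (P.comp p) z0 τ s (fun i => by rw [Pj.comp_qs]; exact h1 i) h2 h3

/-- configurations of many noise variables -/
structure NCf {W R : Sp} {ι ι' ν : Type} [Fintype ι] [Fintype ι'] [Fintype ν] {m : ℕ}
    (q : ι → QS W) (z : ν → QS W) (g : ι' → QS R) (c : ν → Fin m → QS R) (a b : ℕ) where
  D : Sp
  r : Pj D R
  Λ : Type
  ft : Fintype Λ
  de : DecidableEq Λ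
  ε : Λ → ℤ
  τ : Λ → QS D
  P : Pj D W
  z0 : ν → QS D
  hq : P.map (vd q 1) ≤ r.map (vd g 1)
  e : ∀ i, P.qs (z i) = z0 i + ∑ j : Fin m, r.qs (c i j) * ∑ l, ((ε l : ℤ) : QS D) * τ l ^ ((j : ℕ) + 1)
  ra : Rl τ (vd z0 1 ⊔ r.map (vd g 1))
  rb : Rl τ (P.map (vd z 1) ⊔ r.map (vd g 1))
  ic : I (P.map (vd z 1)) (r.map (vd g 1)) (P.map (vd q 1)) = 0
  f : Fin a ↪ Λ
  hf : ∀ l, ε (f l) = 1
  f' : Fin b ↪ Λ
  hf' : ∀ l, ε (f' l) = -1

attribute [instance] NCf.ft NCf.de

section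

variable {W R : Sp} {ι ι' ν : Type} [Fintype ι] [Fintype ι'] [Fintype ν] {m : ℕ}
  {q : ι → QS W} {z : ν → QS W} {g : ι' → QS R} {c : ν → Fin m → QS R}

theorem vd_sumElim_comp {S : Sp} {α β : Type} [Fintype α] [Fintype β] (x : α → QS S) (y : β → QS S)
    (r : ℝ) : vd (Sum.elim x y) r = vd x r ⊔ vd y r := vd_sum x y r

/-- the union of two real families -/
theorem rl_union {S : Sp} {α β : Type} [Fintype α] [Fintype β] {x : α → QS S} {y : β → QS S}
    {A : S.L} (h1 : Rl x A) (h2 : Rl y (vd x 1 ⊔ A)) : Rl (Sum.elim x y) A := by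
  apply Rl.of_ge
  rw [vd_sum, h_chain, h1, h2, Fintype.card_sum]
  push_cast
  exact le_rfl

theorem rl_union' {S : Sp} {α β : Type} [Fintype α] [Fintype β] {x : α → QS S} {y : β → QS S}
    {A : S.L} (h1 : Rl y A) (h2 : Rl x (vd y 1 ⊔ A)) : Rl (Sum.elim x y) A := by
  apply Rl.of_ge
  rw [vd_sum, sup_comm, h_chain, h1, h2, Fintype.card_sum]
  push_cast
  rw [add_comm]

/-- doubling -/
theorem NCf.step (hc : ∀ i j, dg (c i j) 1 ≤ vd g 1) {a b : ℕ} (k : NCf q z g c a b) :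
    Nonempty (NCf q z g c (a + b) (a + b)) := by
  classical
  obtain ⟨D, p1, p2, c1, c2, c3⟩ := exists_copyS (Sum.elim k.z0 (Sum.elim (fun i => k.r.qs (g i))
    (Sum.elim (fun x : ν × Fin m => k.r.qs (c x.1 x.2)) (fun i => k.P.qs (q i)))))
  have cz : ∀ i, p1.qs (k.z0 i) = p2.qs (k.z0 i) := fun i => c1 (Sum.inl i)
  have cg : ∀ i, p1.qs (k.r.qs (g i)) = p2.qs (k.r.qs (g i)) := fun i => c1 (Sum.inr (Sum.inl i))
  have cc : ∀ i j, p1.qs (k.r.qs (c i j)) = p2.qs (k.r.qs (c i j)) := fun i j =>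
    c1 (Sum.inr (Sum.inr (Sum.inl (i, j))))
  have cq : ∀ i, p1.qs (k.P.qs (q i)) = p2.qs (k.P.qs (q i)) := fun i =>
    c1 (Sum.inr (Sum.inr (Sum.inr i)))
  rw [vd_sum, vd_sum, vd_sum, k.r.qs_vd, k.P.qs_vd] at c2
  have hcc : vd (fun x : ν × Fin m => k.r.qs (c x.1 x.2)) 1 ≤ k.r.map (vd g 1) := by
    rw [vd_le]
    intro x
    beta_reduce
    rw [k.r.qs_dg]
    exact k.r.map_mono (hc x.1 x.2)
  obtain ⟨G, hG⟩ : ∃ G, G = p1.map (k.r.map (vd g 1)) := ⟨_, rfl⟩
  obtain ⟨B, hB⟩ : ∃ B, B = p1.map (vd k.z0 1) := ⟨_, rfl⟩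
  have eG : p2.map (k.r.map (vd g 1)) = G := by
    rw [hG, ← k.r.qs_vd, ← p1.qs_vd, ← p2.qs_vd]
    exact (vd_congr cg 1).symm
  have eB : p2.map (vd k.z0 1) = B := by
    rw [hB, ← p1.qs_vd, ← p2.qs_vd]
    exact (vd_congr cz 1).symm
  have i2 : ∀ x y, I (p1.map x) (p2.map y) (B ⊔ G) = 0 := by
    intro x y
    have h1 := c2 x y
    have h3 := k.hq
    have h2 : vd k.z0 1 ⊔ (k.r.map (vd g 1) ⊔ (vd (fun x : ν × Fin m => k.r.qs (c x.1 x.2)) 1 ⊔
        k.P.map (vd q 1))) = vd k.z0 1 ⊔ k.r.map (vd g 1) := by order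
    rw [h2, p1.map_sup, ← hB, ← hG] at h1
    exact h1
  -- realness
  have r1 : ∀ y, Rl (fun l => p1.qs (k.τ l)) (p2.map y ⊔ (B ⊔ G)) := by
    intro y
    have h1 := i2 (vd k.τ 1) y
    rw [I_zero_iff_h, ← p1.qs_vd] at h1
    have h2 := k.ra.pull p1
    rw [p1.map_sup, ← hB, ← hG] at h2
    unfold Rl at h2 ⊢
    rw [h1, h2]
  have r2 : ∀ y, Rl (fun l => p2.qs (k.τ l)) (p1.map y ⊔ (B ⊔ G)) := by
    intro y
    have h1 := ind_symm (i2 y (vd k.τ 1))
    rw [I_zero_iff_h, ← p2.qs_vd] at h1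
    have h2 := k.ra.pull p2
    rw [p2.map_sup, eB, eG] at h2
    unfold Rl at h2 ⊢
    rw [h1, h2]
  have r3 : Rl (fun l => p1.qs (k.τ l)) (p1.map (k.P.map (vd z 1)) ⊔ G) := by
    have h2 := k.rb.pull p1
    rw [p1.map_sup, ← hG] at h2
    exact h2
  have r4 : Rl (fun l => p2.qs (k.τ l)) (p2.map (k.P.map (vd z 1)) ⊔ G) := by
    have h2 := k.rb.pull p2
    rw [p2.map_sup, eG] at h2
    exact h2
  refine ⟨{
    D := D
    r := p1.comp k.r
    Λ := k.Λ ⊕ k.Λ
    ft := inferInstance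
    de := inferInstance
    ε := Sum.elim k.ε (fun l => - k.ε l)
    τ := Sum.elim (fun l => p1.qs (k.τ l)) (fun l => p2.qs (k.τ l))
    P := p1.comp k.P
    z0 := fun i => p2.qs (k.P.qs (z i))
    hq := ?_
    e := ?_
    ra := ?_
    rb := ?_
    ic := ?_
    f := finSumFinEquiv.symm.toEmbedding.trans (Function.Embedding.sumMap k.f k.f')
    hf := ?_
    f' := (finSumFinEquiv.symm.toEmbedding.trans (Equiv.sumComm _ _).toEmbedding).trans
      (Function.Embedding.sumMap k.f' k.f)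
    hf' := ?_ }⟩
  · rw [Pj.comp_map, Pj.comp_map]
    exact p1.map_mono k.hq
  · intro i
    rw [Pj.comp_qs]
    have h1 := congrArg p1.qs (k.e i)
    have h2 := congrArg p2.qs (k.e i)
    rw [map_add, map_sum] at h1 h2
    rw [h1, h2, cz, add_assoc, ← Finset.sum_add_distrib]
    congr 1
    apply Finset.sum_congr rfl
    intro j _
    rw [Pj.comp_qs, map_mul, map_mul, ← cc, ← mul_add, map_sum, map_sum, Fintype.sum_sum_type,
      add_left_comm, ← Finset.sum_add_distrib]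
    congr 1
    have h3 : ∑ l : k.Λ, (p2.qs (((k.ε l : ℤ) : QS k.D) * k.τ l ^ ((j : ℕ) + 1)) +
        (((Sum.elim k.ε (fun l => - k.ε l) (Sum.inr l) : ℤ) : QS D) *
          Sum.elim (fun l => p1.qs (k.τ l)) (fun l => p2.qs (k.τ l)) (Sum.inr l) ^ ((j : ℕ) + 1))) = 0 := by
      apply Finset.sum_eq_zero
      intro l _
      rw [Sum.elim_inr, Sum.elim_inr, map_mul, map_intCast, map_pow]
      push_cast
      ring
    rw [h3, add_zero]
    apply Finset.sum_congr rfl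
    intro l _
    rw [Sum.elim_inl, Sum.elim_inl, map_mul, map_intCast, map_pow]
  · have e1 : vd (fun i => p2.qs (k.P.qs (z i))) 1 = p2.map (k.P.map (vd z 1)) := by
      rw [p2.qs_vd, k.P.qs_vd]
    rw [Pj.comp_map, ← hG, e1]
    apply rl_union' r4
    refine (r1 (vd k.τ 1 ⊔ k.P.map (vd z 1))).anti ?_
    rw [p2.map_sup, p2.qs_vd]
    order
  · rw [Pj.comp_map, Pj.comp_map, ← hG]
    apply rl_union r3
    refine (r2 (vd k.τ 1 ⊔ k.P.map (vd z 1))).anti ?_
    rw [p1.map_sup, p1.qs_vd]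
    order
  · rw [Pj.comp_map, Pj.comp_map, Pj.comp_map, p1.I_map]
    exact k.ic
  · intro l
    obtain ⟨x, rfl⟩ := finSumFinEquiv.surjective l
    rcases x with x | x
    · show Sum.elim k.ε (fun l => - k.ε l) (Sum.map k.f k.f' (finSumFinEquiv.symm (finSumFinEquiv (Sum.inl x)))) = 1
      rw [Equiv.symm_apply_apply]
      exact k.hf x
    · show Sum.elim k.ε (fun l => - k.ε l) (Sum.map k.f k.f' (finSumFinEquiv.symm (finSumFinEquiv (Sum.inr x)))) = 1
      rw [Equiv.symm_apply_apply]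
      show - k.ε (k.f' x) = 1
      rw [k.hf', neg_neg]
  · intro l
    obtain ⟨x, rfl⟩ := finSumFinEquiv.surjective l
    rcases x with x | x
    · show Sum.elim k.ε (fun l => - k.ε l) (Sum.map k.f' k.f (Equiv.sumComm _ _
        (finSumFinEquiv.symm (finSumFinEquiv (Sum.inl x))))) = -1
      rw [Equiv.symm_apply_apply]
      show - k.ε (k.f x) = -1
      rw [k.hf]
    · show Sum.elim k.ε (fun l => - k.ε l) (Sum.map k.f' k.f (Equiv.sumComm _ _
        (finSumFinEquiv.symm (finSumFinEquiv (Sum.inr x))))) = -1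
      rw [Equiv.symm_apply_apply]
      exact k.hf' x

theorem NCf.exists_many (hc : ∀ i j, dg (c i j) 1 ≤ vd g 1) (k : NCf q z g c 1 0) (n : ℕ) :
    Nonempty (NCf q z g c (n + 1) (n + 1)) := by
  induction n with
  | zero => exact k.step hc
  | succ n ih =>
    obtain ⟨k'⟩ := ih
    obtain ⟨w⟩ := k'.step hc
    have h1 : n + 1 + 1 ≤ n + 1 + (n + 1) := by omega
    exact ⟨{ w with
      f := (Fin.castLEEmb h1).trans w.f
      hf := fun l => w.hf _
      f' := (Fin.castLEEmb h1).trans w.f'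
      hf' := fun l => w.hf' _ }⟩

/-- ABSORPTION of polynomial real noises, with a loss of depth -/
theorem absU {ρ : ℝ} (hρ : ρ ≤ 1) (hN : NRu W z (vd q 1) ρ) (pK : Pj R W) (z0 : ν → QS R)
    (τ : QS R) (hX : pK.map (vd q 1) ≤ vd g 1) (hc : ∀ i j, dg (c i j) 1 ≤ vd g 1)
    (e : ∀ i, pK.qs (z i) = z0 i + ∑ j : Fin m, c i j * τ ^ ((j : ℕ) + 1))
    (i1 : I (pK.map (vd z 1)) (vd g 1 ⊔ dg τ 1) (pK.map (vd q 1)) = 0)
    (r0 : Helper31.EC.h (dg τ 1) (vd z0 1 ⊔ vd g 1) = 1) : ∀ i j, c i j ∈ Id R ρ := by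
  classical
  intro i l
  have r1 : Helper31.EC.h (dg τ 1) (pK.map (vd z 1) ⊔ vd g 1) = 1 := by
    have h1 : I (pK.map (vd z 1)) (dg τ 1) (vd g 1) = 0 :=
      ind_of i1 hX (by order) (by order) (by order)
    have h2 := I_zero_iff_h.mp (ind_symm h1)
    rw [h2]
    apply le_antisymm (h_dg_le_one _ _)
    exact r0.ge.trans (h_anti le_sup_right)
  have hu : ∀ A : R.L, Helper31.EC.h (dg τ 1) A = 1 → Rl (fun _ : Unit => τ) A := by
    intro A h1
    unfold Rl
    rw [vd_unit, h1, Fintype.card_unit]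
    norm_num
  have k0 : NCf q z g c 1 0 := {
    D := R
    r := Pj.id R
    Λ := Unit
    ft := inferInstance
    de := inferInstance
    ε := fun _ => 1
    τ := fun _ => τ
    P := pK
    z0 := z0
    hq := by rw [Pj.id_map]; exact hX
    e := by
      intro i
      rw [e i]
      congr 1
      apply Finset.sum_congr rfl
      intro j _
      rw [Pj.id_qs, Fintype.sum_unique, Int.cast_one, one_mul]
    ra := by rw [Pj.id_map]; exact hu _ r0
    rb := by rw [Pj.id_map]; exact hu _ r1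
    ic := by
      rw [Pj.id_map]
      exact I_zero_mono i1 le_sup_left (by order)
    f := ⟨fun _ => (), fun a b _ => Subsingleton.elim a b⟩
    hf := fun _ => rfl
    f' := ⟨fun l => l.elim0, fun a => a.elim0⟩
    hf' := fun l => l.elim0 }
  obtain ⟨k⟩ := k0.exists_many hc m
  have h1 := Pool.Agent.Helper50.CV.rl_spsum k.ra (fun l => ((k.ε l : ℤ) : QS k.D))
    (fun l => Pool.Agent.Helper50.CV.dg_int _) ((Fin.castLEEmb (Nat.le_succ m)).trans k.f)
    (fun x => by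
      have h2 : k.ε (((Fin.castLEEmb (Nat.le_succ m)).trans k.f) x) = 1 := k.hf _
      rw [h2, Int.cast_one])
  obtain ⟨ps, hps⟩ : ∃ ps : Fin m → QS k.D, ∀ j, ps j = ∑ l, ((k.ε l : ℤ) : QS k.D) * k.τ l ^ ((j : ℕ) + 1) :=
    ⟨_, fun _ => rfl⟩
  have h2 : Rl ps (vd k.z0 1 ⊔ k.r.map (vd g 1)) := by
    have h3 : ps = fun j : Fin m => ∑ l, ((k.ε l : ℤ) : QS k.D) * k.τ l ^ ((j : ℕ) + 1) := funext hps
    rw [h3]
    exact h1
  have h4 := h2.sub (s := {l}) (t := Finset.univ.erase l) (by simp)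
  rw [Finset.card_singleton, Nat.cast_one] at h4
  have h5 : sd ps {l} = dg (ps l) 1 := by
    unfold sd
    rw [Finset.sup_singleton]
  rw [h5] at h4
  have hcG : ∀ i j, dg (k.r.qs (c i j)) 1 ≤ k.r.map (vd g 1) := by
    intro i j
    rw [k.r.qs_dg]
    exact k.r.map_mono (hc i j)
  have h6 := hN k.D k.P (fun i => k.z0 i + ∑ j ∈ Finset.univ.erase l, k.r.qs (c i j) * ps j) (ps l)
    (fun i => k.r.qs (c i l))
    (fun i => by
      rw [k.e i, add_assoc]
      congr 1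
      have h7 : ∀ j : Fin m, ∑ l, ((k.ε l : ℤ) : QS k.D) * k.τ l ^ ((j : ℕ) + 1) = ps j := fun j => (hps j).symm
      simp only [h7]
      rw [← Finset.sum_erase_add _ _ (Finset.mem_univ l)]
      ring)
    (by
      refine I_zero_mono k.ic le_sup_left ?_
      apply le_sup_of_le_left
      rw [vd_le]
      exact fun i => hcG i l)
    (by
      apply le_antisymm (h_dg_le_one _ _)
      refine h4.ge.trans (h_anti ?_)
      refine sup_le (sup_le ?_ ?_) (k.hq.trans (by order))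
      · rw [vd_le]
        intro i
        apply (Kn k.D 1 le_rfl _).add_mem
        · exact (dg_le_vd k.z0 1 i).trans (by order)
        · apply (Kn k.D 1 le_rfl _).sum_mem
          intro j hj
          apply (Kn k.D 1 le_rfl _).mul_mem
          · exact (hcG i j).trans (by order)
          · exact (dg_le_sd ps hj).trans le_sup_left
      · rw [vd_le]
        intro i
        exact (hcG i l).trans (by order))
    i
  exact (k.r.qs_mem_Id hρ).mp h6

end

end

end Pool.Agent.Helper38.NS
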