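import Pool.Agent.Helper38.NS.HW
import Pool.Agent.Helper38.NS.Bush

/-! Exact entropy calculus: the slopes of a bush are polynomials in the base point, with coefficients which are
functions of the directions. -/

set_option autoImplicit false

namespace Pool.Agent.Helper38.NS

open Pool.Agent.Helper31.EC QS

noncomputable section

/-- a function which is weakly affine along all lines of a frame is a polynomial -/
theorem poly_slope {W : Sp} {d : ℕ} {ι : Type} [Fintype ι] (U : ι → QS W)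
    (M : Matrix (Fin (d + 1)) (Fin (d + 1)) (QS W)) (hM : ∀ i j, dg (M i j) 1 ≤ vd U 1)
    (h0 : ∀ i, M i 0 = 1) (hdet : IsUnit M.det) (q : Fin (d + 1) → QS W) (hq : Rl q (vd U 1))
    (F : QS W) (hF : ∀ j, ∃ φ c, F = c + φ * q 0 ∧
      dg φ 1 ≤ vd (fun k => q k - q 0 * M j k) 1 ⊔ vd U 1 ∧
      dg c 1 ≤ vd (fun k => q k - q 0 * M j k) 1 ⊔ vd U 1) :
    ∃ (E : Sp) (p : Pj E W) (P : MvPolynomial (Fin (d + 1)) (QS E)), P ∈ PK (p.map (vd U 1)) ∧
      P.totalDegree ≤ d + 1 ∧ p.qs F = MvPolynomial.eval (fun j => p.qs (q j)) P := by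
  classical
  have hinv : ∀ i j, dg (M⁻¹ i j) 1 ≤ vd U 1 := inv_mem M le_rfl _ hM hdet
  obtain ⟨σ, hσ⟩ : ∃ σ : Fin (d + 1) → QS W, ∀ i, σ i = ∑ j, M⁻¹ j i * q j :=
    ⟨_, fun _ => rfl⟩
  have e1 : ∀ j, q j = ∑ i, σ i * M i j := by
    intro j
    have h1 : ∀ i, σ i * M i j = ∑ l, q l * (M⁻¹ l i * M i j) := by
      intro i
      rw [hσ, Finset.sum_mul]
      exact Finset.sum_congr rfl fun l _ => by ring
    rw [Finset.sum_congr rfl fun i _ => h1 i, Finset.sum_comm]
    have h2 : ∀ l, ∑ i, q l * (M⁻¹ l i * M i j) = if l = j then q l else 0 := by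
      intro l
      rw [← Finset.mul_sum]
      have h3 : ∑ i, M⁻¹ l i * M i j = (M⁻¹ * M) l j := (Matrix.mul_apply).symm
      rw [h3, Matrix.nonsing_inv_mul _ hdet, Matrix.one_apply, mul_ite, mul_one, mul_zero]
    rw [Finset.sum_congr rfl fun l _ => h2 l, Finset.sum_ite_eq', if_pos (Finset.mem_univ _)]
  have e0 : ∀ j, q 0 = σ j + ∑ i ∈ Finset.univ.erase j, σ i := by
    intro j
    rw [Finset.add_sum_erase _ _ (Finset.mem_univ j), e1 0]
    exact Finset.sum_congr rfl fun i _ => by rw [h0, mul_one]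
  -- the base line
  have eL : ∀ j, vd (fun k => q k - q 0 * M j k) 1 ≤ sd σ (Finset.univ.erase j) ⊔ vd U 1 := by
    intro j
    rw [vd_le]
    intro k
    have h1 : q k - q 0 * M j k = ∑ i ∈ Finset.univ.erase j, σ i * (M i k - M j k) := by
      have h2 : q k - q 0 * M j k = ∑ i, σ i * (M i k - M j k) := by
        have h3 : q 0 * M j k = ∑ i, σ i * M j k := by
          rw [e1 0, Finset.sum_mul]
          exact Finset.sum_congr rfl fun i _ => by rw [h0, mul_one]
        rw [h3, e1 k, ← Finset.sum_sub_distrib]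
        exact Finset.sum_congr rfl fun i _ => by ring
      rw [h2, ← Finset.add_sum_erase _ _ (Finset.mem_univ j), sub_self, mul_zero, zero_add]
    beta_reduce
    rw [h1]
    apply (Kn W 1 le_rfl _).sum_mem
    intro i hi
    apply (Kn W 1 le_rfl _).mul_mem
    · exact (dg_le_sd σ hi).trans le_sup_left
    · exact (Kn W 1 le_rfl _).sub_mem ((hM i k).trans le_sup_right) ((hM j k).trans le_sup_right)
  have a1 : vd σ 1 ≤ vd q 1 ⊔ vd U 1 := by
    rw [vd_le]
    intro i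
    rw [hσ]
    apply (Kn W 1 le_rfl _).sum_mem
    intro j _
    apply (Kn W 1 le_rfl _).mul_mem
    · exact (hinv j i).trans le_sup_right
    · exact (dg_le_vd q 1 j).trans le_sup_left
  have a2 : vd q 1 ≤ vd σ 1 ⊔ vd U 1 := by
    rw [vd_le]
    intro j
    rw [e1 j]
    apply (Kn W 1 le_rfl _).sum_mem
    intro i _
    apply (Kn W 1 le_rfl _).mul_mem
    · exact (dg_le_vd σ 1 i).trans le_sup_left
    · exact (hM i j).trans le_sup_right
  have hσr : Rl σ (vd U 1) := by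
    unfold Rl at hq ⊢
    rw [← hq]
    exact h_congr_left a1 a2
  have sdle : ∀ j, sd σ (Finset.univ.erase j) ≤ vd σ 1 := fun j => sd_mono σ (Finset.erase_subset _ _)
  have hG : ∀ j, ∃ G : Fin (1 + 1) → QS W, vd G 1 ≤ sd σ (Finset.univ.erase j) ⊔ vd U 1 ∧
      F = pe G (σ j) := by
    intro j
    obtain ⟨φ, c, h1, h2, h3⟩ := hF j
    have h4 : vd (fun k => q k - q 0 * M j k) 1 ⊔ vd U 1 ≤
        sd σ (Finset.univ.erase j) ⊔ vd U 1 := sup_le (eL j) le_sup_right
    refine ⟨![c + φ * ∑ i ∈ Finset.univ.erase j, σ i, φ], ?_, ?_⟩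
    · rw [vd_le]
      intro i
      fin_cases i
      · apply (Kn W 1 le_rfl _).add_mem (h3.trans h4)
        apply (Kn W 1 le_rfl _).mul_mem (h2.trans h4)
        apply (Kn W 1 le_rfl _).sum_mem
        intro i hi
        exact (dg_le_sd σ hi).trans le_sup_left
      · exact h2.trans h4
    · unfold pe
      rw [Fin.sum_univ_two]
      show F = (c + φ * ∑ i ∈ Finset.univ.erase j, σ i) * σ j ^ 0 + φ * σ j ^ 1
      rw [h1, e0 j]
      ring
  have hg : dg F 1 ≤ vd σ 1 ⊔ vd U 1 := by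
    obtain ⟨G, h1, h2⟩ := hG 0
    rw [h2]
    unfold pe
    apply (Kn W 1 le_rfl _).sum_mem
    intro i _
    apply (Kn W 1 le_rfl _).mul_mem
    · exact ((dg_le_vd G 1 i).trans h1).trans (sup_le_sup_right (sdle 0) _)
    · exact (Kn W 1 le_rfl _).pow_mem ((dg_le_vd σ 1 0).trans le_sup_left) _
  obtain ⟨E, p, P, h1, h2, h3⟩ := sep (k := 1) (d + 1) U σ F hσr hg hG
  obtain ⟨R, r1, r2, r3⟩ := lin_sub (fun i j => p.qs (M⁻¹ j i)) (A := p.map (vd U 1))
    (fun i j => by rw [p.qs_dg]; exact p.map_mono (hinv j i)) h1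
  refine ⟨E, p, R, r1, r2.trans (h2.trans (by rw [one_mul])), ?_⟩
  rw [r3, h3]
  congr 1
  have h4 : ∀ i, p.qs (σ i) = ∑ j, p.qs (M⁻¹ j i) * p.qs (q j) := by
    intro i
    rw [hσ, map_sum]
    exact Finset.sum_congr rfl fun j _ => by rw [map_mul]
  exact congrArg (fun g => MvPolynomial.eval g) (funext h4)

namespace FB

variable {S : Sp} {d : ℕ} {s : FB S d} {N : ℕ} (C : CQ S s.fQ N)

/-- the slope of one line is affine in the height along another one -/
def PairQ (i j : Fin (N + 1)) (W : Sp) (p : Pj W C.W) : Prop :=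
  ∃ φ c : QS W, p.qs ((C.p i).qs s.F) = c + φ * p.qs ((C.p i).qs s.t) ∧
    dg φ 1 ≤ p.map ((C.p j).map s.iL ⊔ (C.p i).map s.iX) ∧
    dg c 1 ≤ p.map ((C.p j).map s.iL ⊔ (C.p i).map s.iX)

theorem PairQ.up {i j : Fin (N + 1)} {W W' : Sp} {p : Pj W C.W} (q : Pj W' W)
    (h : PairQ C i j W p) : PairQ C i j W' (q.comp p) := by
  obtain ⟨φ, c, h1, h2, h3⟩ := h
  refine ⟨q.qs φ, q.qs c, ?_, ?_, ?_⟩
  · rw [Pj.comp_qs, Pj.comp_qs, h1, map_add, map_mul]
  · rw [Pj.comp_map, q.qs_dg]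
    exact q.map_mono h2
  · rw [Pj.comp_map, q.qs_dg]
    exact q.map_mono h3

theorem exists_pairQ (hW : WEC) (hs : s.Hyp) {c : ℝ} (hc : 0 < c)
    (hu : UnS s.z (s.iY ⊔ s.iT) 0 c) {i j : Fin (N + 1)} (hij : i ≠ j) (W : Sp) (p : Pj W C.W) :
    ∃ (W' : Sp) (q : Pj W' W), PairQ C i j W' (q.comp p) := by
  obtain ⟨E, r, φ, c, h1, h2, h3⟩ := H1_of_wec hW s hs hc hu (star2 (pullCQ C p) hij)
  have e1 : (star2 (pullCQ C p) hij).p1.qs s.F = p.qs ((C.p i).qs s.F) := Pj.comp_qs _ _ _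
  have e2 : (star2 (pullCQ C p) hij).p1.qs s.t = p.qs ((C.p i).qs s.t) := Pj.comp_qs _ _ _
  rw [e1, e2] at h1
  refine ⟨E, r, φ, c, ?_, ?_, ?_⟩
  · rw [Pj.comp_qs, Pj.comp_qs]
    exact h1
  · rw [Pj.comp_map, p.map_sup, ← Pj.comp_map, ← Pj.comp_map]
    exact h2
  · rw [Pj.comp_map, p.map_sup, ← Pj.comp_map, ← Pj.comp_map]
    exact h3

theorem comp_assoc {A B D E : Sp} (r : Pj A B) (q : Pj B D) (p : Pj D E) :
    (r.comp q).comp p = r.comp (q.comp p) := rfl

/-- the frame of the first directions -/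
def Mat (C : CQ S s.fQ d) : Matrix (Fin (d + 1)) (Fin (d + 1)) (QS C.W) :=
  Matrix.of fun i j => (C.p i).qs (s.v j)

theorem Mat_app (C : CQ S s.fQ d) (i j : Fin (d + 1)) : Mat C i j = (C.p i).qs (s.v j) := rfl

theorem Mat_zero (C : CQ S s.fQ d) (i : Fin (d + 1)) : Mat C i 0 = 1 := by
  rw [Mat_app, v_zero, map_one]

theorem Mat_le (C : CQ S s.fQ d) (i j : Fin (d + 1)) : dg (Mat C i j) 1 ≤ vd (dirs C) 1 := by
  induction j using Fin.cases with
  | zero =>
    rw [Mat_zero]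
    exact (Kn C.W 1 le_rfl _).one_mem
  | succ j => exact dg_le_vd (dirs C) 1 (i, j)

/-- the base point -/
def pt (j : Fin (d + 1)) : QS C.W := (C.p 0).qs (s.q j)

theorem pt_eq (i : Fin (N + 1)) (j : Fin (d + 1)) : (C.p i).qs (s.q j) = pt C j :=
  C.com i 0 (Sum.inl j)

theorem line_eq (C : CQ S s.fQ d) (j : Fin (d + 1)) :
    (C.p j).map s.iL ≤ vd (fun k => pt C k - pt C 0 * Mat C j k) 1 ⊔ vd (dirs C) 1 := by
  unfold iL
  rw [(C.p j).map_sup]
  apply sup_le
  · refine le_trans ?_ le_sup_left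
    rw [← (C.p j).qs_vd, vd_le]
    intro k
    have h1 : (C.p j).qs (s.a k) = pt C k.succ - pt C 0 * Mat C j k.succ := by
      rw [← pt_eq C j, ← pt_eq C j, Mat_app, q_succ, v_succ, q_zero]
      unfold y
      rw [map_add, map_mul]
      ring
    rw [h1]
    exact dg_le_vd (fun k => pt C k - pt C 0 * Mat C j k) 1 k.succ
  · exact (iX_le_dirs C j).trans le_sup_right

theorem line_le (C : CQ S s.fQ d) (j : Fin (d + 1)) :
    vd (fun k => pt C k - pt C 0 * Mat C j k) 1 ≤ (C.p j).map s.iL := by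
  rw [vd_le]
  intro k
  induction k using Fin.cases with
  | zero =>
    rw [Mat_zero, mul_one, sub_self]
    exact (Kn C.W 1 le_rfl _).zero_mem
  | succ k =>
    have h1 : (C.p j).qs (s.a k) = pt C k.succ - pt C 0 * Mat C j k.succ := by
      rw [← pt_eq C j, ← pt_eq C j, Mat_app, q_succ, v_succ, q_zero]
      unfold y
      rw [map_add, map_mul]
      ring
    beta_reduce
    rw [← h1, (C.p j).qs_dg]
    exact (C.p j).map_mono ((dg_le_vd s.a 1 k).trans le_sup_left)

/-- the slope of line `i` -/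
def Fs (i : Fin (N + 1)) : QS C.W := (C.p i).qs s.F

/-- SLOPES ARE POLYNOMIALS: statement for one line on an extension -/
def SloQ (C : CQ S s.fQ d) (i : Fin (d + 1)) (W : Sp) (p : Pj W C.W) : Prop :=
  ∃ P : MvPolynomial (Fin (d + 1)) (QS W), P ∈ PK (p.map (vd (dirs C) 1)) ∧
    P.totalDegree ≤ d + 1 ∧ p.qs (Fs C i) = MvPolynomial.eval (fun j => p.qs (pt C j)) P

theorem SloQ.up {C : CQ S s.fQ d} {i : Fin (d + 1)} {W W' : Sp} {p : Pj W C.W} (q : Pj W' W)
    (h : SloQ C i W p) : SloQ C i W' (q.comp p) := by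
  obtain ⟨P, h1, h2, h3⟩ := h
  refine ⟨MvPolynomial.map q.qs P, ?_, (totalDegree_map_le _ _).trans h2, ?_⟩
  · rw [Pj.comp_map]
    exact map_PK q h1
  · rw [Pj.comp_qs, h3, qs_eval]
    exact congrArg (fun g => MvPolynomial.eval g _) (funext fun j => (Pj.comp_qs _ _ _).symm)

theorem exists_sloQ (C : CQ S s.fQ d) (hs : s.Hyp) (hq : Rl s.q ⊥) (hdet : IsUnit (Mat C).det)
    (i : Fin (d + 1)) (W : Sp) (p : Pj W C.W) (hp : ∀ j, i ≠ j → PairQ C i j W p) :
    ∃ (W' : Sp) (q : Pj W' W), SloQ C i W' (q.comp p) := by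
  have hU : vd (fun a => p.qs (dirs C a)) 1 = p.map (vd (dirs C) 1) := p.qs_vd _ _
  have hF : dg (Fs C i) 1 ≤ (C.p i).map s.iL := by
    unfold Fs
    rw [(C.p i).qs_dg]
    exact (C.p i).map_mono hs.hF
  have hl : ∀ j, p.map (vd (fun k => pt C k - pt C 0 * Mat C j k) 1) =
      vd (fun k => p.qs (pt C k) - p.qs (pt C 0) * (Mat C).map p.qs j k) 1 := by
    intro j
    rw [← p.qs_vd]
    congr 1
    funext k
    rw [map_sub, map_mul]
    rfl
  obtain ⟨E, r, P, h1, h2, h3⟩ := poly_slope (fun a => p.qs (dirs C a)) ((Mat C).map p.qs)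
    (fun i j => by
      rw [Matrix.map_apply, p.qs_dg, hU]
      exact p.map_mono (Mat_le C i j))
    (fun i => by rw [Matrix.map_apply, Mat_zero, map_one])
    (by
      have h := hdet.map p.qs
      rw [RingHom.map_det] at h
      exact h)
    (fun j => p.qs (pt C j))
    (by
      rw [hU]
      exact (q_real C hs hq).pull p)
    (p.qs (Fs C i))
    (fun j => by
      have e := p.map_mono (line_eq C j)
      rw [p.map_sup, hl j, ← hU] at e
      by_cases hij : i = j
      · subst hij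
        have e1 : dg (p.qs (Fs C i)) 1 ≤
            vd (fun k => p.qs (pt C k) - p.qs (pt C 0) * (Mat C).map p.qs i k) 1 ⊔
              vd (fun a => p.qs (dirs C a)) 1 := by
          rw [p.qs_dg]
          exact (p.map_mono hF).trans e
        exact ⟨0, p.qs (Fs C i), by ring, (Kn W 1 le_rfl _).zero_mem, e1⟩
      · obtain ⟨φ, c, a1, a2, a3⟩ := hp j hij
        have e1 : p.map ((C.p j).map s.iL ⊔ (C.p i).map s.iX) ≤
            vd (fun k => p.qs (pt C k) - p.qs (pt C 0) * (Mat C).map p.qs j k) 1 ⊔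
              vd (fun a => p.qs (dirs C a)) 1 := by
          rw [p.map_sup]
          apply sup_le e
          refine le_trans ?_ le_sup_right
          rw [hU]
          exact p.map_mono (iX_le_dirs C i)
        refine ⟨φ, c, ?_, a2.trans e1, a3.trans e1⟩
        rw [← pt_eq C i 0, q_zero]
        exact a1)
  refine ⟨E, r, P, ?_, h2, ?_⟩
  · rw [Pj.comp_map, ← hU]
    exact h1
  · rw [Pj.comp_qs, h3]
    exact congrArg (fun g => MvPolynomial.eval g _) (funext fun j => (Pj.comp_qs _ _ _).symm)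

/-- SLOPES ARE POLYNOMIALS (50b, section 4) -/
theorem slopes (hW : WEC) (hs : s.Hyp) (hq : Rl s.q ⊥) {c : ℝ} (hc : 0 < c)
    (hu : UnS s.z (s.iY ⊔ s.iT) 0 c) (C : CQ S s.fQ d) (hdet : IsUnit (Mat C).det) (W : Sp)
    (p : Pj W C.W) : ∃ (W' : Sp) (q : Pj W' W), ∀ i, SloQ C i W' (q.comp p) := by
  classical
  obtain ⟨W1, q1, h1⟩ := ext_all (Finset.univ : Finset (Fin (d + 1) × Fin (d + 1)))
    (fun a V r => a.1 ≠ a.2 → PairQ C a.1 a.2 V (r.comp p))
    (fun a V r V' t h hij => by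
      rw [comp_assoc]
      exact (h hij).up C t)
    (fun a V r => by
      by_cases hij : a.1 = a.2
      · exact ⟨V, Pj.id V, fun h => absurd hij h⟩
      · obtain ⟨V', t, h⟩ := exists_pairQ C hW hs hc hu hij V (r.comp p)
        exact ⟨V', t, fun _ => h⟩)
  obtain ⟨W2, q2, h2⟩ := ext_all (Finset.univ : Finset (Fin (d + 1)))
    (fun i V r => SloQ C i V (r.comp (q1.comp p)))
    (fun i V r V' t h => by
      rw [comp_assoc]
      exact h.up t)
    (fun i V r => by
      obtain ⟨V', t, h⟩ := exists_sloQ C hs hq hdet i V (r.comp (q1.comp p))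
        (fun j hij => (h1 (i, j) (Finset.mem_univ _) hij).up C r)
      exact ⟨V', t, h⟩)
  exact ⟨W2, q2.comp q1, fun i => h2 i (Finset.mem_univ _)⟩

end FB

end

end Pool.Agent.Helper38.NS
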