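import Pool.Agent.Helper38.NS.H1V
import Pool.Agent.Helper38.NS.Slo

/-! Exact entropy calculus: many lines through one point (bushes) for vector valued top coordinates. -/

set_option autoImplicit false

namespace Pool.Agent.Helper38.NS.BV

open Pool.Agent.Helper31.EC QS Pool.Agent.Helper96.FLT Pool.Agent.Helper38.NS

noncomputable section

variable {S : Sp} {d N : ℕ}

/-- the base point of a line -/
def q (s : FV S d N) : Fin (d + 1) → QS S := Fin.cons s.t s.y

/-- the direction of the base line -/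
def v (s : FV S d N) : Fin (d + 1) → QS S := Fin.cons 1 s.x

def fQ (s : FV S d N) : Fin (d + 1) ⊕ Fin N → QS S := Sum.elim (q s) s.z

theorem vd_q (s : FV S d N) : vd (q s) 1 = s.iT ⊔ s.iY := vd_cons _ _ _

theorem vd_fQ (s : FV S d N) : vd (fQ s) 1 = s.iT ⊔ (s.iY ⊔ s.iZ) := by
  unfold fQ
  rw [vd_sum, vd_q, sup_assoc]
  rfl

theorem q_zero (s : FV S d N) : q s 0 = s.t := rfl

theorem q_succ (s : FV S d N) (i : Fin d) : q s i.succ = s.y i := rfl

theorem v_zero (s : FV S d N) : v s 0 = 1 := rfl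

theorem v_succ (s : FV S d N) (i : Fin d) : v s i.succ = s.x i := rfl

section bush

variable {s : FV S d N} {n : ℕ} (C : CQ S (fQ s) n)

/-- all directions -/
def dirs (a : Fin (n + 1) × Fin d) : QS C.W := (C.p a.1).qs (s.x a.2)

theorem vd_dirs : vd (dirs C) 1 = Finset.univ.sup fun i => (C.p i).map s.iX := by
  apply le_antisymm
  · rw [vd_le]
    intro a
    refine le_trans ?_ (Finset.le_sup (f := fun i => (C.p i).map s.iX) (Finset.mem_univ a.1))
    unfold dirs FV.iX
    rw [← (C.p a.1).qs_vd]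
    exact dg_le_vd (fun i => (C.p a.1).qs (s.x i)) 1 a.2
  · apply Finset.sup_le
    intro i _
    unfold FV.iX
    rw [← (C.p i).qs_vd, vd_le]
    intro b
    exact dg_le_vd (dirs C) 1 (i, b)

theorem iX_le_dirs (i : Fin (n + 1)) : (C.p i).map s.iX ≤ vd (dirs C) 1 := by
  rw [vd_dirs]
  exact Finset.le_sup (f := fun i => (C.p i).map s.iX) (Finset.mem_univ i)

/-- the directions are independent of the point -/
theorem dirs_ind (hs : s.Hyp) : I (vd (dirs C) 1) C.v ⊥ = 0 := by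
  refine ind_of_h ?_
  rw [sup_bot_eq, h_bot]
  have h1 : Helper31.EC.h (vd (dirs C) 1) C.v = ∑ i : Fin (n + 1), H ((C.p i).map s.iX) := by
    rw [vd_dirs, C.h_sup]
    apply Finset.sum_congr rfl
    intro i _
    rw [Pj.H_map, vd_fQ, ← h_bot s.iX]
    exact h_of_ind' hs.s1 bot_le (by rw [sup_bot_eq])
  rw [h1, vd_dirs]
  exact H_finsup_le _ _

theorem v_eq (i : Fin (n + 1)) : C.v = (C.p i).map (s.iT ⊔ (s.iY ⊔ s.iZ)) := by
  rw [← vd_fQ, C.p_v i]

/-- the height is real over one line and all directions -/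
theorem time_real (hs : s.Hyp) (i : Fin (n + 1)) :
    Helper31.EC.h ((C.p i).map s.iT) ((C.p i).map (s.iL ⊔ s.iB) ⊔ vd (dirs C) 1) = 1 := by
  classical
  obtain ⟨U', hU'⟩ : ∃ U', U' = (Finset.univ.erase i).sup fun j => (C.p j).map s.iX := ⟨_, rfl⟩
  have e1 : vd (dirs C) 1 = (C.p i).map s.iX ⊔ U' := by
    rw [vd_dirs, hU', ← Finset.insert_erase (Finset.mem_univ i), Finset.sup_insert,
      Finset.erase_insert (Finset.notMem_erase i _)]
  have k1 : I U' ((C.p i).map (s.iL ⊔ s.iB ⊔ s.iT)) C.v = 0 := by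
    have h1 := C.I_sup (s := Finset.univ.erase i) (t := {i})
      (by simp) (fun j => if j = i then s.iL ⊔ s.iB ⊔ s.iT else s.iX)
    rw [Finset.sup_singleton, if_pos rfl] at h1
    have h2 : ((Finset.univ.erase i).sup fun j => (C.p j).map
        (if j = i then s.iL ⊔ s.iB ⊔ s.iT else s.iX)) = U' := by
      rw [hU']
      apply Finset.sup_congr rfl
      intro j hj
      rw [if_neg (Finset.ne_of_mem_erase hj)]
    rw [h2] at h1
    exact h1
  have k2 : I U' C.v ⊥ = 0 := I_zero_mono (dirs_ind C hs) (by rw [e1]; order) le_sup_left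
  have k3 := ind_add k2 k1 (by rw [sup_bot_eq])
  have k4 : I ((C.p i).map s.iT) ((C.p i).map (s.iL ⊔ s.iB)) ⊥ = 0 := by
    have h1 := (C.p i).I_map s.iT (s.iL ⊔ s.iB) ⊥
    rw [hs.s0, (C.p i).map_bot] at h1
    exact h1
  rw [(C.p i).map_sup (s.iL ⊔ s.iB)] at k3
  have k5 := ind_add k4 (ind_symm (ind_of k3 (A' := U') (B := (C.p i).map s.iT)
    (C' := (C.p i).map (s.iL ⊔ s.iB)) bot_le (by order) le_sup_left (by order)))
    (by rw [sup_bot_eq])
  have k6 := I_zero_iff_h.mp k5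
  rw [sup_bot_eq, h_bot, Pj.H_map, FV.HT hs] at k6
  have k7 : (C.p i).map s.iX ≤ (C.p i).map (s.iL ⊔ s.iB) :=
    (C.p i).map_mono (by unfold FV.iX FV.iL; order)
  have e2 : (C.p i).map (s.iL ⊔ s.iB) ⊔ vd (dirs C) 1 = (C.p i).map (s.iL ⊔ s.iB) ⊔ U' := by
    rw [e1]
    order
  rw [e2]
  exact k6

/-- the point is real over all directions -/
theorem q_real (hs : s.Hyp) (hq : Rl (q s) ⊥) :
    Rl (fun j => (C.p 0).qs (q s j)) (vd (dirs C) 1) := by
  unfold Rl at hq ⊢
  rw [h_bot] at hq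
  have h1 : vd (fun j => (C.p 0).qs (q s j)) 1 ≤ C.v := by
    rw [(C.p 0).qs_vd, vd_q, v_eq C 0]
    exact (C.p 0).map_mono (by order)
  have h2 : I (vd (fun j => (C.p 0).qs (q s j)) 1) (vd (dirs C) 1) ⊥ = 0 :=
    ind_symm (I_zero_mono (dirs_ind C hs) le_sup_left (h1.trans le_sup_left))
  have h3 := I_zero_iff_h.mp h2
  rw [sup_bot_eq, h_bot] at h3
  rw [h3, (C.p 0).qs_vd, (C.p 0).H_map]
  exact hq

/-- two lines of a bush -/
def star2 {i j : Fin (n + 1)} (hij : i ≠ j) : s.Star where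
  D := C.W
  p1 := C.p i
  p2 := C.p j
  cy k := C.com i j (Sum.inl k.succ)
  cz k := C.com i j (Sum.inr k)
  ct := C.com i j (Sum.inl 0)
  ci x y := by
    rw [← v_eq C i]
    exact C.I_two hij x y

/-- the directions of different lines are independent -/
theorem dirs_sum (hs : s.Hyp) :
    H (vd (dirs C) 1) = ∑ i : Fin (n + 1), H ((C.p i).map s.iX) := by
  apply le_antisymm
  · rw [vd_dirs]
    exact H_finsup_le _ _
  · have h1 : Helper31.EC.h (vd (dirs C) 1) C.v = ∑ i : Fin (n + 1), H ((C.p i).map s.iX) := by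
      rw [vd_dirs, C.h_sup]
      apply Finset.sum_congr rfl
      intro i _
      rw [Pj.H_map, vd_fQ, ← h_bot s.iX]
      exact h_of_ind' hs.s1 bot_le (by rw [sup_bot_eq])
    rw [← h1]
    exact h_le_H _ _

theorem dirs_sub {e : ℕ} (g : Fin (e + 1) → Fin (n + 1)) (hg : Function.Injective g) :
    vd (dirs (subCQ C g hg)) 1 ≤ vd (dirs C) 1 := by
  rw [vd_le]
  intro a
  exact dg_le_vd (dirs C) 1 (g a.1, a.2)

/-- the base point -/
def pt (j : Fin (d + 1)) : QS C.W := (C.p 0).qs (q s j)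

theorem pt_eq (i : Fin (n + 1)) (j : Fin (d + 1)) : (C.p i).qs (q s j) = pt C j :=
  C.com i 0 (Sum.inl j)

theorem pt_sub {e : ℕ} (g : Fin (e + 1) → Fin (n + 1)) (hg : Function.Injective g)
    (j : Fin (d + 1)) : pt (subCQ C g hg) j = pt C j := pt_eq C (g 0) j

/-- the frame of directions -/
def Mat (C : CQ S (fQ s) d) : Matrix (Fin (d + 1)) (Fin (d + 1)) (QS C.W) :=
  Matrix.of fun i j => (C.p i).qs (v s j)

theorem Mat_app (C : CQ S (fQ s) d) (i j : Fin (d + 1)) : Mat C i j = (C.p i).qs (v s j) := rfl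

theorem Mat_zero (C : CQ S (fQ s) d) (i : Fin (d + 1)) : Mat C i 0 = 1 := by
  rw [Mat_app, v_zero, map_one]

theorem Mat_le (C : CQ S (fQ s) d) (i j : Fin (d + 1)) : dg (Mat C i j) 1 ≤ vd (dirs C) 1 := by
  induction j using Fin.cases with
  | zero =>
    rw [Mat_zero]
    exact (Kn C.W 1 le_rfl _).one_mem
  | succ j => exact dg_le_vd (dirs C) 1 (i, j)

/-- the base line from the point and the directions -/
theorem line_eq (C : CQ S (fQ s) d) (j : Fin (d + 1)) :
    (C.p j).map s.iL ≤ vd (fun k => pt C k - pt C 0 * Mat C j k) 1 ⊔ vd (dirs C) 1 := by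
  unfold FV.iL
  rw [(C.p j).map_sup]
  apply sup_le
  · refine le_trans ?_ le_sup_left
    rw [← (C.p j).qs_vd, vd_le]
    intro k
    have h1 : (C.p j).qs (s.a k) = pt C k.succ - pt C 0 * Mat C j k.succ := by
      rw [← pt_eq C j, ← pt_eq C j, Mat_app, q_succ, v_succ, q_zero]
      unfold FV.y
      rw [map_add, map_mul]
      ring
    rw [h1]
    exact dg_le_vd (fun k => pt C k - pt C 0 * Mat C j k) 1 k.succ
  · exact (iX_le_dirs C j).trans le_sup_right

theorem a_eq (i : Fin (n + 1)) (k : Fin d) :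
    (C.p i).qs (s.a k) = pt C k.succ - pt C 0 * (C.p i).qs (s.x k) := by
  rw [← pt_eq C i, ← pt_eq C i, q_succ, q_zero]
  unfold FV.y
  rw [map_add, map_mul]
  ring

/-- the slope of line `i` -/
def Fs (i : Fin (n + 1)) (a : Fin N) : QS C.W := (C.p i).qs (s.F a)

theorem z_eq (i : Fin (n + 1)) (a : Fin N) : (C.p i).qs (s.z a) = (C.p 0).qs (s.z a) :=
  C.com i 0 (Sum.inr a)

theorem b_eq (i : Fin (n + 1)) (a : Fin N) :
    (C.p i).qs (s.b a) = (C.p 0).qs (s.z a) - pt C 0 * Fs C i a := by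
  rw [← z_eq C i, ← pt_eq C i, q_zero]
  unfold FV.z Fs
  rw [map_add, map_mul]
  ring

/-- the values of the point are independent of the directions over the base point -/
theorem z_ind (hs : s.Hyp) :
    I (vd (fun a => (C.p 0).qs (s.z a)) 1) (vd (dirs C) 1) (vd (pt C) 1) = 0 := by
  have h1 := dirs_ind C hs
  have e1 : C.v = vd (pt C) 1 ⊔ vd (fun a => (C.p 0).qs (s.z a)) 1 := by
    rw [v_eq C 0, (C.p 0).qs_vd]
    have e2 : vd (pt C) 1 = (C.p 0).map (vd (q s) 1) := (C.p 0).qs_vd _ _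
    have e3 : vd s.z 1 = s.iZ := rfl
    rw [e2, vd_q, e3, ← (C.p 0).map_sup]
    congr 1
    order
  rw [e1] at h1
  exact ind_symm (ind_of h1 bot_le (by order) le_sup_left (by order))

end bush

end

end Pool.Agent.Helper38.NS.BV
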