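import Pool.Agent.Helper38.NS.Deg
import Pool.Agent.Helper42.NS.Fnl

/-! Exact entropy calculus: change of depth as a functor (spaces, informations, functions, extensions). -/

set_option autoImplicit false

namespace Pool.Agent.Helper38.NS

open Filter Topology Pool.Agent.Helper69.RK
open Pool.Agent.Helper31.EC QS Sp

noncomputable section

/-- the space with depth `κ` -/
abbrev dp (S : Sp) (κ : ℝ) (h0 : 0 < κ) : Sp := S.chg S.tr κ h0

section

variable {S : Sp} (κ : ℝ) (h0 : 0 < κ)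

def dL (x : S.L) : (dp S κ h0).L := chgL S.tr κ h0 x

theorem dL_sup (x y : S.L) : dL κ h0 (x ⊔ y) = dL κ h0 x ⊔ dL κ h0 y := chgL_sup S.tr κ h0 x y

theorem dL_bot : dL κ h0 (⊥ : S.L) = ⊥ := rfl

theorem dL_H (x : S.L) : H (dL κ h0 x) = H x / κ := by
  unfold dL
  rw [H_chgL]
  congr 1
  induction x using cl_ind
  rw [hZ_cl, H_cl]

theorem dL_h (x y : S.L) : Helper31.EC.h (dL κ h0 x) (dL κ h0 y) = Helper31.EC.h x y / κ := by
  unfold Helper31.EC.h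
  rw [← dL_sup, dL_H, dL_H]
  ring

theorem dL_I (x y z : S.L) : I (dL κ h0 x) (dL κ h0 y) (dL κ h0 z) = I x y z / κ := by
  unfold I
  rw [← dL_sup, ← dL_sup, ← dL_sup, ← dL_sup, dL_H, dL_H, dL_H, dL_H]
  ring

theorem dL_le {x y : S.L} : dL κ h0 x ≤ dL κ h0 y ↔ x ≤ y := by
  rw [← h_eq_zero_iff, dL_h, div_eq_zero_iff, or_iff_left h0.ne', h_eq_zero_iff]

theorem dL_mono {x y : S.L} (h : x ≤ y) : dL κ h0 x ≤ dL κ h0 y := (dL_le κ h0).mpr h

theorem dL_inj {x y : S.L} (h : dL κ h0 x = dL κ h0 y) : x = y :=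
  le_antisymm ((dL_le κ h0).mp h.le) ((dL_le κ h0).mp h.ge)

theorem dL_I_zero {x y z : S.L} (h : I x y z = 0) : I (dL κ h0 x) (dL κ h0 y) (dL κ h0 z) = 0 := by
  rw [dL_I, h, zero_div]

theorem dL_finsup {ι : Type*} (s : Finset ι) (f : ι → S.L) :
    dL κ h0 (s.sup f) = s.sup fun i => dL κ h0 (f i) := by
  classical
  induction s using Finset.induction_on with
  | empty => rfl
  | insert a s ha ih => rw [Finset.sup_insert, Finset.sup_insert, dL_sup, ih]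

theorem dp_sub {K : ℕ → ℝ} (hK : S.Sub K) : (dp S κ h0).Sub K := chg_sub S.tr κ h0 hK

theorem dp_sub' {K : ℕ → ℝ} (hK : (dp S κ h0).Sub K) : S.Sub K := by
  refine ⟨hK.1, ?_⟩
  have h1 := hK.2.const_mul κ
  rw [mul_zero] at h1
  refine h1.congr fun k => ?_
  show κ * (Real.logb 2 (K k + 2) / (κ * (S.F k).n)) = Real.logb 2 (K k + 2) / (S.F k).n
  have := (S.F k).pos
  field_simp

theorem dp_dl (r : ℝ) (k : ℕ) : (dp S κ h0).dl r k = S.dl (κ * r) k := chg_dl S.tr κ h0 r k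

theorem dp_typ {E : ∀ k, (S.F k).Ω → Prop} : Typ (S := dp S κ h0) E ↔ Typ (S := S) E := Iff.rfl

/-- tame functions -/
def tdp : TR S →+* TR (dp S κ h0) where
  toFun f := ⟨f.1, by
    obtain ⟨K, hK, h⟩ := f.2
    exact ⟨K, dp_sub κ h0 hK, h⟩⟩
  map_one' := rfl
  map_mul' _ _ := rfl
  map_zero' := rfl
  map_add' _ _ := rfl

theorem tdp_surj (f : TR (dp S κ h0)) : ∃ g : TR S, tdp κ h0 g = f := by
  obtain ⟨K, hK, h⟩ := f.2
  exact ⟨⟨f.1, K, dp_sub' κ h0 hK, h⟩, rfl⟩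

theorem tdp_ag {f g : TR S} {r : ℝ} : TR.Ag r (tdp κ h0 f) (tdp κ h0 g) ↔ TR.Ag (κ * r) f g := by
  constructor
  · rintro ⟨E, K, hE, hK, hh⟩
    refine ⟨E, K, hE, dp_sub' κ h0 hK, ?_⟩
    filter_upwards [hh] with k hk ω a b
    have h1 := hk ω a b
    rw [dp_dl] at h1
    exact h1
  · rintro ⟨E, K, hE, hK, hh⟩
    refine ⟨E, K, hE, dp_sub κ h0 hK, ?_⟩
    filter_upwards [hh] with k hk ω a b
    rw [dp_dl]
    exact hk ω a b

theorem tdp_dg (f : TR S) (r : ℝ) : TR.dg (tdp κ h0 f) r = dL κ h0 (TR.dg f (κ * r)) := by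
  unfold TR.dg
  have h1 : TR.vec (fun _ : Fin 1 => tdp κ h0 f) = (TR.vec (fun _ : Fin 1 => f)).chg S.tr κ h0 := rfl
  have h2 := (TR.vec (fun _ : Fin 1 => f)).chg_dg S.tr κ h0 r
  exact (congrArg (fun y : (dp S κ h0).VV 1 => y.dg r) h1).trans h2

variable (h1 : κ ≤ 1)

/-- functions to full precision at depth `κ` -/
def dQ : QS S →+* QS (dp S κ h0) :=
  Ideal.Quotient.lift (TR.Idl S) (QS.mk.comp (tdp κ h0)) (by
    intro f hf
    have h2 : TR.Ag 1 f 0 := hf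
    have h3 : TR.Ag 1 (tdp κ h0 f) (tdp κ h0 0) := by
      rw [tdp_ag, mul_one]
      exact h2.anti h1
    rw [map_zero] at h3
    show QS.mk (tdp κ h0 f) = 0
    rw [← map_zero QS.mk]
    exact QS.mk_eq.mpr h3)

theorem dQ_mk (f : TR S) : dQ κ h0 h1 (QS.mk f) = QS.mk (tdp κ h0 f) := rfl

theorem dQ_dg (f : QS S) {r : ℝ} (hr : r ≤ 1) : dg (dQ κ h0 h1 f) r = dL κ h0 (dg f (κ * r)) := by
  obtain ⟨f, rfl⟩ := mk_surj f
  have h2 : κ * r ≤ 1 := by
    rcases le_total r 0 with h | h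
    · exact (mul_nonpos_of_nonneg_of_nonpos h0.le h).trans zero_le_one
    · calc κ * r ≤ 1 * 1 := mul_le_mul h1 hr h zero_le_one
        _ = 1 := one_mul 1
  rw [dQ_mk, dg_mk _ hr, dg_mk _ h2, tdp_dg]

theorem dQ_vd {ι : Type} [Fintype ι] (f : ι → QS S) {r : ℝ} (hr : r ≤ 1) :
    vd (fun i => dQ κ h0 h1 (f i)) r = dL κ h0 (vd f (κ * r)) := by
  unfold vd
  rw [dL_finsup]
  congr 1
  funext i
  exact dQ_dg κ h0 h1 (f i) hr

theorem dQ_mem {f : QS S} {r : ℝ} (hr : r ≤ 1) :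
    dQ κ h0 h1 f ∈ Id (dp S κ h0) r ↔ f ∈ Id S (κ * r) := by
  obtain ⟨f, rfl⟩ := mk_surj f
  have h2 : κ * r ≤ 1 := by
    rcases le_total r 0 with h | h
    · exact (mul_nonpos_of_nonneg_of_nonpos h0.le h).trans zero_le_one
    · calc κ * r ≤ 1 * 1 := mul_le_mul h1 hr h zero_le_one
        _ = 1 := one_mul 1
  rw [dQ_mk, mk_mem_Id hr, mk_mem_Id h2, ← tdp_ag κ h0, map_zero]

theorem dQ_eq_zero {f : QS S} : dQ κ h0 h1 f = 0 ↔ f ∈ Id S κ := by
  rw [← mem_Id_one, dQ_mem κ h0 h1 le_rfl, mul_one]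

theorem dQ_surj (f : QS (dp S κ h0)) : ∃ g : QS S, dQ κ h0 h1 g = f := by
  obtain ⟨f, rfl⟩ := mk_surj f
  obtain ⟨g, rfl⟩ := tdp_surj κ h0 f
  exact ⟨QS.mk g, rfl⟩

end

section

variable {S T : Sp} (κ : ℝ) (h0 : 0 < κ)

/-- extensions at depth `κ` -/
def dP (p : Pj T S) : Pj (dp T κ h0) (dp S κ h0) := Pool.Agent.Helper42.NS.ptr p κ h0

theorem dP_map (p : Pj T S) (x : S.L) : (dP κ h0 p).map (dL κ h0 x) = dL κ h0 (p.map x) := by
  induction x using cl_ind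
  rfl

theorem dP_qs (h1 : κ ≤ 1) (p : Pj T S) (f : QS S) :
    (dP κ h0 p).qs (dQ κ h0 h1 f) = dQ κ h0 h1 (p.qs f) := by
  obtain ⟨f, rfl⟩ := mk_surj f
  rfl

end

section

variable {S T' : Sp} {κ : ℝ} {h0 : 0 < κ}

theorem push_idf {Ω : Type} [Fintype Ω] (μ : Ω → ℝ) : push (fun ω : Ω => ω) μ = μ := by
  funext ω
  classical
  unfold push
  rw [Finset.sum_eq_single ω]
  · exact if_pos rfl
  · intro b _ hb
    exact if_neg hb
  · intro h
    exact absurd (Finset.mem_univ _) h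

/-- an extension of the space of depth `κ` comes from an extension of the space -/
def uS (p : Pj T' (dp S κ h0)) : Sp := Pool.Agent.Helper42.NS.unt p

def uP (p : Pj T' (dp S κ h0)) : Pj (uS p) S := Pool.Agent.Helper42.NS.ptu p

def uI (p : Pj T' (dp S κ h0)) : Pj (dp (uS p) κ h0) T' where
  π := fun _ ω => ω
  law := fun k => push_idf (T'.F k).μ
  hZ := fun k ω ω' _ _ => ⟨fun g => g.2, fun g => ⟨trivial, g⟩⟩
  hn := fun k => by
    show κ * ((T'.F k).n / κ) = (T'.F k).n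
    field_simp

end

end

end Pool.Agent.Helper38.NS
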