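import Pool.Agent.Helper38.NS.RectB

/-! Exact entropy calculus: from the rigidity of absorbed noise (theorem W, as a hypothesis) to the affinity of the
slopes along lines (statement (H1)). -/

set_option autoImplicit false

namespace Pool.Agent.Helper38.NS

open Pool.Agent.Helper31.EC QS

noncomputable section

/-- predicates of the kind robustly unsaturated -/
structure UnP where
  un : ∀ S : Sp, QS S → S.L → Prop
  pull : ∀ {T S : Sp} (p : Pj T S) (z : QS S) (B : S.L), un S z B → un T (p.qs z) (p.map B)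
  mono : ∀ {S : Sp} (z : QS S) {B B' : S.L}, B ≤ B' → un S z B → un S z B'
  shift : ∀ {S : Sp} (z f : QS S) {B : S.L}, dg f 1 ≤ B → un S z B → un S (z + f) B

/-- theorem W in the exact calculus -/
def WQ (u : UnP) : Prop :=
  ∀ (S : Sp) (B P Q : S.L) (T A T' C z z3 : QS S),
    (∃ (ι : Type) (_ : Fintype ι) (f : ι → QS S), B = vd f 1) →
    dg T 1 ≤ P ⊔ B → dg A 1 ≤ P ⊔ B →
    dg T' 1 ≤ Q ⊔ B → dg C 1 ≤ Q ⊔ B → z3 = z + (T * C - A * T') →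
    I (dg z 1) (P ⊔ Q) B = 0 → I (dg z3 1) (P ⊔ Q) B = 0 → I P Q B = 0 →
    h (dg T 1) B = 1 → h (dg T' 1) B = 1 → u.un S z B → T * C - A * T' = 0

/-- real functions are invertible -/
def RealInv : Prop := ∀ (S : Sp) (f : QS S), H (dg f 1) = 1 → ∃ g : QS S, g * f = 1 ∧
  dg g 1 ≤ dg f 1

namespace FB

variable {S : Sp} {d : ℕ}

theorem iY_le (s : FB S d) : s.iY ≤ s.iL ⊔ s.iT := by
  unfold iY iL iT
  rw [vd_le]
  intro i
  unfold y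
  have a1 := dg_add_le (s.a i) (s.t * s.x i) (r := 1) le_rfl
  have a2 := dg_mul_le s.t (s.x i) (r := 1) le_rfl
  have a3 := dg_le_vd s.a 1 i
  have a4 := dg_le_vd s.x 1 i
  order

namespace Rct

variable {s : FB S d} {w : s.Star} {v : Zed w} (g : Rct v)

theorem un_b0 (u : UnP) (hs : s.Hyp) (hu : u.un S s.z (s.iY ⊔ s.iT)) : u.un g.D g.b0 g.B := by
  have h1 := u.pull g.s1 _ _ (u.pull v.q1 _ _ (u.pull w.p2 _ _ hu))
  have e1 : g.s1.map (v.q1.map (w.p2.map (s.iY ⊔ s.iT))) ≤ g.B := by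
    have h2 : g.s1.map (v.q1.map (w.p2.map (s.iY ⊔ s.iT))) ≤
        g.s1.map (v.q1.map (w.p2.map (s.iL ⊔ s.iT))) :=
      g.s1.map_mono (v.q1.map_mono (w.p2.map_mono (sup_le s.iY_le le_sup_right)))
    refine h2.trans ?_
    rw [w.p2.map_sup, v.q1.map_sup, g.s1.map_sup, w.eT]
    have hB : g.B = g.L ⊔ g.U ⊔ g.T0 := rfl
    have h3 : g.s1.map (v.q1.map (w.p2.map s.iL)) = g.L := rfl
    have h4 : g.s1.map (v.q1.map (w.p1.map s.iT)) = g.T0 := rfl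
    rw [h3, h4]
    order
  have h5 := u.mono _ e1 h1
  have e2 : g.b0 = g.s1.qs (v.q1.qs (w.p2.qs s.z)) + -(g.t0 * g.Fx0) := by
    unfold b0 t0 Fx0 z
    have h6 := w.ct
    rw [h6]
    simp only [map_add, map_mul]
    ring
  rw [e2]
  refine u.shift _ _ ?_ h5
  have hB : g.B = g.L ⊔ g.U ⊔ g.T0 := rfl
  have a0 := g.T0_eq
  have a2 := g.lFx0 hs
  have a3 := dg_neg_le (g.t0 * g.Fx0)
  have a4 := dg_mul_le g.t0 g.Fx0 (r := 1) le_rfl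
  order

end Rct

theorem H1 (u : UnP) (hW : WQ u) (hR : RealInv) (s : FB S d) (hs : s.Hyp)
    (hu : u.un S s.z (s.iY ⊔ s.iT)) (w : s.Star) :
    ∃ (E : Sp) (p : Pj E w.D) (φ c : QS E),
      p.qs (w.p1.qs s.F) = c + φ * p.qs (w.p1.qs s.t) ∧
      dg φ 1 ≤ p.map (w.p2.map s.iL ⊔ w.p1.map s.iX) ∧
      dg c 1 ≤ p.map (w.p2.map s.iL ⊔ w.p1.map s.iX) := by
  obtain ⟨v⟩ := exists_zed hs w
  obtain ⟨g⟩ := exists_rct hs v
  obtain ⟨k⟩ := (g.blk hs).four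
  have hfB : vd (g.blk hs).fB 1 = g.B := g.vd_fB hs
  have hBd : g.B = g.L ⊔ g.U ⊔ g.T0 := rfl
  have cPB : ∀ i, k.rP.qs (g.fB i) = k.r.qs (g.fB i) := k.cPB
  have cQB : ∀ i, k.rQ.qs (g.fB i) = k.r.qs (g.fB i) := k.cQB
  have cPQ : ∀ i, k.rP.qs (g.fQ i) = k.r.qs (g.fQ i) := k.cPQ
  have cQP : ∀ i, k.rQ.qs (g.fP i) = k.r.qs (g.fP i) := k.cQP
  have keq : k.rP.qs g.b0 = k.r.qs g.b0 +
    ((k.r.qs g.t1 - k.rP.qs g.t1) * (k.r.qs g.Fz - k.rQ.qs g.Fz) -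
      (k.r.qs g.Fr1 - k.rP.qs g.Fr1) * (k.r.qs g.tau - k.rQ.qs g.tau)) := k.eq
  have kiz := k.iz
  have kiz' := k.iz'
  have kipq := k.ipq
  have kipp := k.ipp
  have kiqq := k.iqq
  rw [hfB] at kiz kiz' kipq kipp kiqq
  have hz : (g.blk hs).z = g.b0 := rfl
  have hP : (g.blk hs).fP = g.fP := rfl
  have hQ : (g.blk hs).fQ = g.fQ := rfl
  rw [hz, hP, hQ] at kiz kiz'
  rw [hP, hQ] at kipq
  rw [hP] at kipp
  rw [hQ] at kiqq
  -- informations of the base agree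
  have gL : g.L = vd (fun i => g.fB (Sum.inl i)) 1 ⊔ vd (fun i => g.fB (Sum.inr (Sum.inl i))) 1 := by
    unfold Rct.L iL Rct.fB
    rw [w.p2.map_sup, v.q1.map_sup, g.s1.map_sup, ← w.p2.qs_vd, ← w.p2.qs_vd, ← v.q1.qs_vd,
      ← v.q1.qs_vd, ← g.s1.qs_vd, ← g.s1.qs_vd]
    rfl
  have gU : g.U = vd (fun i => g.fB (Sum.inr (Sum.inr (Sum.inl i)))) 1 := by
    unfold Rct.U Zed.U iX Rct.fB
    rw [← w.p1.qs_vd, ← v.q1.qs_vd, ← g.s1.qs_vd]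
    rfl
  have gT : g.T0 = dg (g.fB (Sum.inr (Sum.inr (Sum.inr 0)))) 1 := g.T0_eq
  have rPL : k.rP.map g.L = k.r.map g.L := by
    rw [gL, k.rP.map_sup, k.r.map_sup, ← k.rP.qs_vd, ← k.rP.qs_vd, ← k.r.qs_vd, ← k.r.qs_vd,
      vd_congr (fun i => cPB (Sum.inl i)) 1, vd_congr (fun i => cPB (Sum.inr (Sum.inl i))) 1]
  have rQL : k.rQ.map g.L = k.r.map g.L := by
    rw [gL, k.rQ.map_sup, k.r.map_sup, ← k.rQ.qs_vd, ← k.rQ.qs_vd, ← k.r.qs_vd, ← k.r.qs_vd,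
      vd_congr (fun i => cQB (Sum.inl i)) 1, vd_congr (fun i => cQB (Sum.inr (Sum.inl i))) 1]
  have rPU : k.rP.map g.U = k.r.map g.U := by
    rw [gU, ← k.rP.qs_vd, ← k.r.qs_vd,
      vd_congr (fun i => cPB (Sum.inr (Sum.inr (Sum.inl i)))) 1]
  have rQU : k.rQ.map g.U = k.r.map g.U := by
    rw [gU, ← k.rQ.qs_vd, ← k.r.qs_vd,
      vd_congr (fun i => cQB (Sum.inr (Sum.inr (Sum.inl i)))) 1]
  have rPT : k.rP.map g.T0 = k.r.map g.T0 := by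
    rw [gT, ← k.rP.qs_dg, ← k.r.qs_dg, cPB]
  have rQT : k.rQ.map g.T0 = k.r.map g.T0 := by
    rw [gT, ← k.rQ.qs_dg, ← k.r.qs_dg, cQB]
  have rPB : k.rP.map g.B = k.r.map g.B := by
    rw [hBd, k.rP.map_sup, k.rP.map_sup, k.r.map_sup, k.r.map_sup, rPL, rPU, rPT]
  have rQB : k.rQ.map g.B = k.r.map g.B := by
    rw [hBd, k.rQ.map_sup, k.rQ.map_sup, k.r.map_sup, k.r.map_sup, rQL, rQU, rQT]
  have rBd : k.r.map g.B = k.r.map g.L ⊔ k.r.map g.U ⊔ k.r.map g.T0 := by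
    rw [hBd, k.r.map_sup, k.r.map_sup]
  -- inclusions
  have pT := k.r.map_mono g.vd_fP1
  have pT2 := k.rP.map_mono g.vd_fP1
  have pt := k.r.map_mono g.vd_fQ1
  have pt2 := k.rQ.map_mono g.vd_fQ1
  have pP := k.r.map_mono (g.vd_fP2 hs)
  have pP2 := k.rP.map_mono (g.vd_fP2 hs)
  have pQ := k.r.map_mono (g.vd_fQ2 hs)
  have pQ2 := k.rQ.map_mono (g.vd_fQ2 hs)
  rw [k.r.map_sup] at pP pQ
  rw [k.rP.map_sup, rPB] at pP2
  rw [k.rQ.map_sup, rQB] at pQ2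
  have lA := k.r.map_mono (g.lFr1 hs)
  have lA2 := k.rP.map_mono (g.lFr1 hs)
  have lC := k.r.map_mono (g.lFz hs)
  have lC2 := k.rQ.map_mono (g.lFz hs)
  rw [k.r.map_sup, k.r.map_sup] at lA lC
  rw [k.rP.map_sup, k.rP.map_sup, rPL, rPU] at lA2
  rw [k.rQ.map_sup, k.rQ.map_sup, rQL, rQU] at lC2
  have c4 := k.r.I_map g.T1 g.B ⊥
  rw [g.c4 hs, k.r.map_bot] at c4
  have c4' := k.rP.I_map g.T1 g.B ⊥
  rw [g.c4 hs, k.rP.map_bot, rPB] at c4'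
  have c5 := k.r.I_map (dg g.tau 1) g.B ⊥
  rw [g.c5 hs, k.r.map_bot] at c5
  have HT : H (k.r.map g.T1) = 1 := by rw [k.r.H_map, g.HT1 hs]
  have Ht : H (k.r.map (dg g.tau 1)) = 1 := by
    rw [k.r.H_map]
    unfold Rct.tau
    rw [g.s1.qs_dg, g.s1.H_map]
    apply le_antisymm (H_dg1 v.tau)
    have h1 := v.T0'_le
    have h2 := H_mono h1
    have h3 := v.e1' hs (w.p1.map s.iT)
    have h4 : I v.T0' v.T0 ⊥ = 0 := ind_of h3 le_rfl bot_le le_sup_left (by unfold Zed.T0; order)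
    have h5 := I_zero_iff_h.mp h4
    rw [sup_bot_eq, h_bot, v.HT0' hs] at h5
    have h6 := H_chain v.T0 v.T0'
    have h7 := H_sup_le v.T0 (dg v.tau 1)
    have h8 : H (v.T0 ⊔ v.T0') ≤ H (v.T0 ⊔ dg v.tau 1) := H_mono (sup_le le_sup_left h1)
    linarith [v.HT0 hs]
  have hfam : ∃ (ι : Type) (_ : Fintype ι) (f : ι → QS k.E),
      k.r.map g.B ⊔ k.rP.map (vd g.fP 1) ⊔ k.rQ.map (vd g.fQ 1) = vd f 1 := by
    refine ⟨_, inferInstance, Sum.elim (Sum.elim (fun i => k.r.qs (g.fB i))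
      (fun i => k.rP.qs (g.fP i))) (fun i => k.rQ.qs (g.fQ i)), ?_⟩
    rw [vd_sum, vd_sum, k.r.qs_vd, k.rP.qs_vd, k.rQ.qs_vd]
    have e : vd g.fB 1 = g.B := g.vd_fB hs
    rw [e]
  have un0 : u.un k.E (k.r.qs g.b0) (k.r.map g.B) := u.pull k.r _ _ (g.un_b0 u hs hu)
  have un1 : u.un k.E (k.r.qs g.b0) (k.r.map g.B ⊔ k.rP.map (vd g.fP 1) ⊔
      k.rQ.map (vd g.fQ 1)) := u.mono _ (le_sup_left.trans le_sup_left) un0
  have eT1a : dg (k.r.qs g.t1) 1 = k.r.map g.T1 := by rw [k.r.qs_dg, ← g.T1_eq]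
  have eT1b : dg (k.rP.qs g.t1) 1 = k.rP.map g.T1 := by rw [k.rP.qs_dg, ← g.T1_eq]
  have eta : dg (k.r.qs g.tau) 1 = k.r.map (dg g.tau 1) := k.r.qs_dg _ _
  have etb : dg (k.rQ.qs g.tau) 1 = k.rQ.map (dg g.tau 1) := k.rQ.qs_dg _ _
  rw [← k.r.qs_dg] at lA lC kiz
  rw [← k.rP.qs_dg] at lA2 kiz'
  rw [← k.rQ.qs_dg] at lC2
  obtain ⟨B, hB⟩ : ∃ B, B = k.r.map g.B := ⟨_, rfl⟩
  obtain ⟨L, hL⟩ : ∃ L, L = k.r.map g.L := ⟨_, rfl⟩
  obtain ⟨U, hU⟩ : ∃ U, U = k.r.map g.U := ⟨_, rfl⟩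
  obtain ⟨T0, hT0⟩ : ∃ T0, T0 = k.r.map g.T0 := ⟨_, rfl⟩
  obtain ⟨PP, hPP⟩ : ∃ PP, PP = k.r.map (vd g.fP 1) := ⟨_, rfl⟩
  obtain ⟨P2, hP2⟩ : ∃ P2, P2 = k.rP.map (vd g.fP 1) := ⟨_, rfl⟩
  obtain ⟨QQ, hQQ⟩ : ∃ QQ, QQ = k.r.map (vd g.fQ 1) := ⟨_, rfl⟩
  obtain ⟨Q2, hQ2⟩ : ∃ Q2, Q2 = k.rQ.map (vd g.fQ 1) := ⟨_, rfl⟩
  obtain ⟨Ta, hTa⟩ : ∃ Ta, Ta = k.r.map g.T1 := ⟨_, rfl⟩
  obtain ⟨Tb, hTb⟩ : ∃ Tb, Tb = k.rP.map g.T1 := ⟨_, rfl⟩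
  obtain ⟨sa, hsa⟩ : ∃ sa, sa = k.r.map (dg g.tau 1) := ⟨_, rfl⟩
  obtain ⟨sb, hsb⟩ : ∃ sb, sb = k.rQ.map (dg g.tau 1) := ⟨_, rfl⟩
  rw [← hL, ← hU, ← hT0, ← hB] at rBd
  rw [← hTa, ← hPP] at pT
  rw [← hTb, ← hP2] at pT2
  rw [← hsa, ← hQQ] at pt
  rw [← hsb, ← hQ2] at pt2
  rw [← hPP, ← hTa, ← hB] at pP
  rw [← hP2, ← hTb, ← hB] at pP2
  rw [← hQQ, ← hsa, ← hB] at pQ
  rw [← hQ2, ← hsb, ← hB] at pQ2
  rw [← hL, ← hU, ← hTa] at lA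
  rw [← hL, ← hU, ← hTb] at lA2
  rw [← hL, ← hU, ← hsa] at lC
  rw [← hL, ← hU, ← hsb] at lC2
  rw [← hTa, ← hB] at c4
  rw [← hTb, ← hB] at c4'
  rw [← hsa, ← hB] at c5
  rw [← hTa] at HT eT1a
  rw [← hTb] at eT1b
  rw [← hsa] at Ht eta
  rw [← hsb] at etb
  rw [← hPP, ← hQQ, ← hP2, ← hQ2, ← hB] at kiz kiz'
  rw [← hPP, ← hQQ, ← hP2, ← hQ2, ← hB] at kipq
  rw [← hPP, ← hP2, ← hB] at kipp
  rw [← hQQ, ← hQ2, ← hB] at kiqq
  rw [← hB, ← hP2, ← hQ2] at un1 hfam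
  -- independences
  have i1 : I Ta (B ⊔ (P2 ⊔ Q2)) ⊥ = 0 := by
    have h1 : I Q2 PP (P2 ⊔ B) = 0 :=
      ind_of (ind_symm kipq) (by order) (by order) (by order) (by order)
    have h2 : I PP (P2 ⊔ Q2) B = 0 := ind_add kipp (ind_symm h1) rfl
    exact ind_add c4 (I_zero_mono h2 (by order) (by order)) (by rw [sup_bot_eq])
  have i2 : I sa (B ⊔ (Q2 ⊔ P2)) ⊥ = 0 := by
    have h1 : I P2 QQ (Q2 ⊔ B) = 0 :=
      ind_of kipq (by order) (by order) (by order) (by order)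
    have h2 : I QQ (Q2 ⊔ P2) B = 0 := ind_add kiqq (ind_symm h1) rfl
    exact ind_add c5 (I_zero_mono h2 (by order) (by order)) (by rw [sup_bot_eq])
  obtain ⟨T, hT⟩ : ∃ T, T = k.r.qs g.t1 - k.rP.qs g.t1 := ⟨_, rfl⟩
  obtain ⟨A, hA⟩ : ∃ A, A = k.r.qs g.Fr1 - k.rP.qs g.Fr1 := ⟨_, rfl⟩
  obtain ⟨T', hT'⟩ : ∃ T', T' = k.r.qs g.tau - k.rQ.qs g.tau := ⟨_, rfl⟩
  obtain ⟨C, hC⟩ : ∃ C, C = k.r.qs g.Fz - k.rQ.qs g.Fz := ⟨_, rfl⟩
  rw [← hT, ← hA, ← hT', ← hC] at keq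
  have dT : dg T 1 ≤ Ta ⊔ Tb := by
    have h1 := dg_sub_le (k.r.qs g.t1) (k.rP.qs g.t1) (r := 1) le_rfl
    rw [← hT, eT1a, eT1b] at h1
    exact h1
  have dA : dg A 1 ≤ L ⊔ U ⊔ Ta ⊔ Tb := by
    have h1 := dg_sub_le (k.r.qs g.Fr1) (k.rP.qs g.Fr1) (r := 1) le_rfl
    rw [← hA] at h1
    order
  have dT' : dg T' 1 ≤ sa ⊔ sb := by
    have h1 := dg_sub_le (k.r.qs g.tau) (k.rQ.qs g.tau) (r := 1) le_rfl
    rw [← hT', eta, etb] at h1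
    exact h1
  have dC : dg C 1 ≤ L ⊔ U ⊔ sa ⊔ sb := by
    have h1 := dg_sub_le (k.r.qs g.Fz) (k.rQ.qs g.Fz) (r := 1) le_rfl
    rw [← hC] at h1
    order
  have Ta_le : Ta ≤ dg T 1 ⊔ Tb := by
    have h2 : k.r.qs g.t1 = T + k.rP.qs g.t1 := by rw [hT]; ring
    have h1 := dg_add_le T (k.rP.qs g.t1) (r := 1) le_rfl
    rw [← h2, eT1a, eT1b] at h1
    exact h1
  have sa_le : sa ≤ dg T' 1 ⊔ sb := by
    have h2 : k.r.qs g.tau = T' + k.rQ.qs g.tau := by rw [hT']; ring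
    have h1 := dg_add_le T' (k.rQ.qs g.tau) (r := 1) le_rfl
    rw [← h2, eta, etb] at h1
    exact h1
  have hT1 : h (dg T 1) (B ⊔ P2 ⊔ Q2) = 1 := by
    apply le_antisymm (h_dg1 _ _)
    have h1 : I Ta (B ⊔ P2 ⊔ Q2) ⊥ = 0 := by rw [sup_assoc]; exact i1
    have h2 := I_zero_iff_h.mp h1
    rw [sup_bot_eq, h_bot, HT] at h2
    have h3 := h_mono (B := B ⊔ P2 ⊔ Q2) Ta_le
    have h4 := h_sup_le (dg T 1) Tb (B ⊔ P2 ⊔ Q2)
    have h5 : h Tb (B ⊔ P2 ⊔ Q2) = 0 := h_zero (by order)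
    linarith
  have hT1' : h (dg T' 1) (B ⊔ P2 ⊔ Q2) = 1 := by
    apply le_antisymm (h_dg1 _ _)
    have h1 : I sa (B ⊔ P2 ⊔ Q2) ⊥ = 0 := by
      have e : B ⊔ P2 ⊔ Q2 = B ⊔ (Q2 ⊔ P2) := by order
      rw [e]
      exact i2
    have h2 := I_zero_iff_h.mp h1
    rw [sup_bot_eq, h_bot, Ht] at h2
    have h3 := h_mono (B := B ⊔ P2 ⊔ Q2) sa_le
    have h4 := h_sup_le (dg T' 1) sb (B ⊔ P2 ⊔ Q2)
    have h5 : h sb (B ⊔ P2 ⊔ Q2) = 0 := h_zero (by order)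
    linarith
  have om : T * C - A * T' = 0 := by
    refine hW k.E (B ⊔ P2 ⊔ Q2) PP QQ T A T' C (k.r.qs g.b0) (k.rP.qs g.b0) hfam (by order)
      (by order) (by order) (by order) keq ?_ ?_ ?_ hT1 hT1' un1
    · exact ind_of kiz (by order) (by order) (by order) (by order)
    · exact ind_of kiz' (by order) (by order) (by order) (by order)
    · have h1 : I (QQ ⊔ Q2) (PP ⊔ P2) B = 0 := ind_symm kipq
      have h2 : I QQ (PP ⊔ P2) (Q2 ⊔ B) = 0 :=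
        ind_symm (ind_of kipq (by order) (by order) (by order) (by order))
      exact ind_symm (ind_of h2 (by order) (by order) (by order) (by order))
  -- inverses
  have HdT : H (dg T 1) = 1 := by
    apply le_antisymm (H_dg1 _)
    have h1 := h_le_H (dg T 1) (B ⊔ P2 ⊔ Q2)
    rw [hT1] at h1
    exact h1
  have HdT' : H (dg T' 1) = 1 := by
    apply le_antisymm (H_dg1 _)
    have h1 := h_le_H (dg T' 1) (B ⊔ P2 ⊔ Q2)
    rw [hT1'] at h1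
    exact h1
  obtain ⟨G, hG, dG⟩ := hR k.E T HdT
  obtain ⟨G', hG', dG'⟩ := hR k.E T' HdT'
  have f1 : A * G = C * G' := by
    have e1 : A * G = (A * T') * G * G' := by
      calc A * G = A * G * (G' * T') := by rw [hG', mul_one]
        _ = _ := by ring
    have e2 : A * T' = T * C := (sub_eq_zero.mp om).symm
    rw [e1, e2]
    calc T * C * G * G' = (G * T) * (C * G') := by ring
      _ = _ := by rw [hG, one_mul]
  have f2 : A = (A * G) * T := by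
    calc A = A * (G * T) := by rw [hG, mul_one]
      _ = _ := by ring
  -- independences of the times given `(L, U)`
  have j1 : I (Ta ⊔ Tb) (T0 ⊔ (sa ⊔ sb)) (L ⊔ U) = 0 := by
    refine ind_add (C' := T0 ⊔ (L ⊔ U)) ?_ ?_ rfl
    · have h1 : I Ta T0 (L ⊔ U) = 0 := ind_of c4 bot_le (by order) le_sup_left (by order)
      have h2 : I Tb (B ⊔ Ta) ⊥ = 0 := by
        refine ind_add c4' (C' := B) (I_zero_mono (ind_symm kipp) (by order) (by order))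
          (by rw [sup_bot_eq])
      have h3 : I Tb T0 (Ta ⊔ (L ⊔ U)) = 0 := ind_of h2 bot_le (by order) le_sup_left (by order)
      exact ind_symm (ind_add (ind_symm h1) (ind_symm h3) rfl)
    · have e : T0 ⊔ (L ⊔ U) = B := by rw [rBd]; order
      rw [e]
      exact I_zero_mono kipq (by order) (by order)
  have j2 : I (Ta ⊔ Tb) (sa ⊔ sb) (L ⊔ U) = 0 :=
    I_zero_mono j1 (by order) (by order)
  have j3 : I Ta Tb (L ⊔ U) = 0 := by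
    have h2 : I Ta (B ⊔ P2) ⊥ = 0 := I_zero_mono i1 (by order) (by order)
    exact ind_of h2 bot_le (by order) le_sup_left (by order)
  have f3 : dg (A * G) 1 ≤ L ⊔ U := by
    have h1 := dg_mul_le A G (r := 1) le_rfl
    have h2 := dg_mul_le C G' (r := 1) le_rfl
    rw [← f1] at h2
    exact le_of_markov (A := Ta ⊔ Tb) (B := sa ⊔ sb) (by order) (by order) j2
  have f4 : dg (k.r.qs g.Fr1 - (A * G) * k.r.qs g.t1) 1 ≤ L ⊔ U := by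
    have h1 := dg_sub_le (k.r.qs g.Fr1) ((A * G) * k.r.qs g.t1) (r := 1) le_rfl
    have h2 := dg_mul_le (A * G) (k.r.qs g.t1) (r := 1) le_rfl
    rw [eT1a] at h2
    have e : k.r.qs g.Fr1 - (A * G) * k.r.qs g.t1 = k.rP.qs g.Fr1 - (A * G) * k.rP.qs g.t1 := by
      have e1 : k.r.qs g.Fr1 - k.rP.qs g.Fr1 = (A * G) * (k.r.qs g.t1 - k.rP.qs g.t1) := by
        rw [← hA, ← hT]
        exact f2
      linear_combination e1
    have h3 := dg_sub_le (k.rP.qs g.Fr1) ((A * G) * k.rP.qs g.t1) (r := 1) le_rfl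
    have h4 := dg_mul_le (A * G) (k.rP.qs g.t1) (r := 1) le_rfl
    rw [eT1b] at h4
    rw [← e] at h3
    exact le_of_markov (A := Ta) (B := Tb) (by order) (by order) j3
  have eLp : ((k.r.comp g.s2).comp v.q1).map (w.p2.map s.iL ⊔ w.p1.map s.iX) = L ⊔ U := by
    rw [Pj.comp_map, Pj.comp_map, v.q1.map_sup, g.s2.map_sup, k.r.map_sup, g.eL, hL, hU]
    have h1 : g.s2.map (v.q1.map (w.p1.map s.iX)) = g.U := g.eU
    rw [h1]
  refine ⟨k.E, (k.r.comp g.s2).comp v.q1, A * G,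
    k.r.qs g.Fr1 - (A * G) * k.r.qs g.t1, ?_, ?_, ?_⟩
  · rw [Pj.comp_qs, Pj.comp_qs, Pj.comp_qs, Pj.comp_qs]
    have h1 : g.s2.qs (v.q1.qs (w.p1.qs s.F)) = g.Fr1 := rfl
    have h2 : g.s2.qs (v.q1.qs (w.p1.qs s.t)) = g.t1 := rfl
    rw [h1, h2]
    ring
  · rw [eLp]
    exact f3
  · rw [eLp]
    exact f4

end FB

end

end Pool.Agent.Helper38.NS
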