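import Pool.Agent.Helper38.NS.Wvq
import Pool.Agent.Helper96.FLT.Fr

/-! Exact entropy calculus: affinity of the slopes along lines for vector valued top coordinates, to a smaller depth,
directly from theorem W for vectors applied to the rectangle. -/

set_option autoImplicit false

namespace Pool.Agent.Helper38.NS

open Pool.Agent.Helper31.EC QS Pool.Agent.Helper96.FLT

noncomputable section

theorem fv_iL_le {S : Sp} {d N : ℕ} (s : FV S d N) : s.iL ≤ s.iX ⊔ (s.iY ⊔ s.iT) := by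
  unfold FV.iL
  apply sup_le _ le_sup_left
  rw [vd_le]
  intro i
  have e : s.a i = s.y i - s.t * s.x i := by
    unfold FV.y
    ring
  rw [e]
  apply (Kn S 1 le_rfl _).sub_mem
  · exact (dg_le_vd s.y 1 i).trans (le_sup_left.trans le_sup_right)
  · apply (Kn S 1 le_rfl _).mul_mem
    · exact (le_sup_right.trans le_sup_right : dg s.t 1 ≤ _)
    · exact (dg_le_vd s.x 1 i).trans le_sup_left

theorem fv_iY_le {S : Sp} {d N : ℕ} (s : FV S d N) : s.iY ≤ s.iL ⊔ s.iT := by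
  unfold FV.iY
  rw [vd_le]
  intro i
  unfold FV.y
  apply (Kn S 1 le_rfl _).add_mem
  · exact (dg_le_vd s.a 1 i).trans (le_sup_left.trans le_sup_left)
  · apply (Kn S 1 le_rfl _).mul_mem
    · exact (le_sup_right : dg s.t 1 ≤ _)
    · exact (dg_le_vd s.x 1 i).trans (le_sup_right.trans le_sup_left)

theorem fv_iZ_le {S : Sp} {d N : ℕ} {s : FV S d N} (hs : s.Hyp) :
    s.iZ ≤ s.iL ⊔ s.iB ⊔ s.iT := by
  unfold FV.iZ
  rw [vd_le]
  intro i
  unfold FV.z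
  apply (Kn S 1 le_rfl _).add_mem
  · exact (dg_le_vd s.b 1 i).trans (le_sup_right.trans le_sup_left)
  · apply (Kn S 1 le_rfl _).mul_mem
    · exact (le_sup_right : dg s.t 1 ≤ _)
    · exact ((dg_le_vd s.F 1 i).trans hs.hF).trans (le_sup_left.trans le_sup_left)

/-- the values at the first corner of the rectangle satisfy (U), (Q) over the base of the block -/
theorem uq_b0 {S : Sp} {d N : ℕ} {ρ : ℝ} {s : FV S d N} (hs : s.Hyp)
    (hu : UQ S s.z (s.iY ⊔ s.iT) ρ) {w : s.Star} {v : FV.Zed w 0} (g : FV.Rct v 0) :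
    UQ g.D g.b0 (g.L ⊔ g.U ⊔ g.T0) ρ := by
  obtain ⟨p, hp⟩ : ∃ p : Pj g.D S, p = (g.s1.comp v.q1).comp w.p2 := ⟨_, rfl⟩
  have hpm : ∀ x, p.map x = g.s1.map (v.q1.map (w.p2.map x)) := by
    intro x
    rw [hp, Pj.comp_map, Pj.comp_map]
  have eL : p.map s.iL = g.L := hpm _
  have eT : p.map s.iT = g.T0 := by
    have h1 := w.eT
    rw [hpm, h1]
    rfl
  have eK : p.map (s.iL ⊔ s.iB) = g.K0 := hpm _
  have h1 := hu.pull p
  have hY : p.map (s.iY ⊔ s.iT) ≤ g.L ⊔ g.U ⊔ g.T0 := by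
    have h2 := p.map_mono (fv_iY_le s)
    rw [p.map_sup, eL, eT] at h2
    rw [p.map_sup, eT]
    order
  have hZ : p.map s.iZ ≤ g.K0 ⊔ g.T0 := by
    have h2 := p.map_mono (fv_iZ_le hs)
    rw [p.map_sup, eK, eT] at h2
    exact h2
  have i1 : I (p.map s.iZ) g.L (p.map (s.iY ⊔ s.iT)) = 0 := by
    have h2 : I s.iL s.iZ (s.iY ⊔ s.iT) = 0 := by
      have h3 := fv_iL_le s
      exact ind_of hs.h1 (by order) (by order) (by order) (by order)
    have h3 := p.I_map s.iZ s.iL (s.iY ⊔ s.iT)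
    rw [ind_symm h2, eL] at h3
    exact h3
  have i2 : I (p.map s.iZ) g.U (g.L ⊔ p.map (s.iY ⊔ s.iT)) = 0 := by
    have h2 := v.q1.I_map (w.p1.map s.iX) (w.p2.map (s.iL ⊔ s.iB) ⊔ w.p1.map s.iT) ⊥
    rw [w.d1' hs, v.q1.map_bot, v.q1.map_sup] at h2
    have h3 := g.s1.I_map (v.q1.map (w.p1.map s.iX)) (v.q1.map (w.p2.map (s.iL ⊔ s.iB)) ⊔
      v.q1.map (w.p1.map s.iT)) ⊥
    rw [h2, g.s1.map_bot, g.s1.map_sup] at h3
    have h4 : I g.U (g.K0 ⊔ g.T0) ⊥ = 0 := h3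
    have h5 : g.L ≤ g.K0 := by
      rw [g.K0_eq]
      exact le_sup_left
    have h6 : p.map (s.iY ⊔ s.iT) ≤ g.L ⊔ g.T0 := by
      have h7 := p.map_mono (fv_iY_le s)
      rw [p.map_sup, eL, eT] at h7
      rw [p.map_sup, eT]
      order
    exact ind_symm (ind_of h4 bot_le (by order) le_sup_left (by order))
  have i3 := ind_add i1 i2 (by order)
  have hT : g.T0 ≤ p.map (s.iY ⊔ s.iT) := by
    rw [← eT]
    exact p.map_mono le_sup_right
  have i4 : I (p.map s.iZ) (g.L ⊔ g.U ⊔ g.T0) (p.map (s.iY ⊔ s.iT)) = 0 :=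
    ind_of (ind_symm (ind_of (ind_symm i3) le_rfl le_sup_right le_sup_left le_sup_left)) le_rfl
      le_sup_right le_sup_left (by order)
  have h2 := h1.mono hY (by
    rw [p.qs_vd]
    exact i4)
  have h3 := h2.shift (f := fun i => -(g.t0 * g.Fx0 i)) (fun i => by
    apply (Kn g.D 1 le_rfl _).neg_mem
    apply (Kn g.D 1 le_rfl _).mul_mem
    · show dg g.t0 1 ≤ _
      rw [← g.T0_eq]
      exact le_sup_right
    · exact (g.lFx0 hs i).trans (le_sup_left.trans le_sup_left))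
  have e : (fun i => p.qs (s.z i) + -(g.t0 * g.Fx0 i)) = g.b0 := by
    funext i
    have h6 : g.t0 = g.s1.qs (v.q1.qs (w.p2.qs s.t)) := by
      show g.s1.qs (v.q1.qs (w.p1.qs s.t)) = _
      rw [w.ct]
    have h7 : p.qs (s.z i) = g.s1.qs (v.q1.qs (w.p2.qs (s.b i))) +
        g.s1.qs (v.q1.qs (w.p2.qs s.t)) * g.s1.qs (v.q1.qs (w.p2.qs (s.F i))) := by
      rw [hp, Pj.comp_qs, Pj.comp_qs]
      unfold FV.z
      simp only [map_add, map_mul]
    rw [h7, h6]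
    show _ + -(_ * g.s1.qs (v.q1.qs (w.p2.qs (s.F i)))) = g.s1.qs (v.q1.qs (w.p2.qs (s.b i)))
    ring
  rw [e] at h3
  exact h3

/-- (H1) FOR VECTORS: slopes of one line are affine in the height along a second line, to depth `θ` -/
theorem H1V {S : Sp} {d N : ℕ} {ρ θ : ℝ} (hW : WVQ N ρ θ) (θ0 : 0 < θ) (θ1 : θ ≤ 1) (s : FV S d N)
    (hs : s.Hyp) (hu : UQ S s.z (s.iY ⊔ s.iT) ρ) (w : s.Star) :
    ∃ (E : Sp) (p : Pj E w.D) (φ c : Fin N → QS (dp E θ θ0)),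
      (∀ a, dQ θ θ0 θ1 (p.qs (w.p1.qs (s.F a))) =
        c a + φ a * dQ θ θ0 θ1 (p.qs (w.p1.qs s.t))) ∧
      (∀ a, dg (φ a) 1 ≤ dL θ θ0 (p.map (w.p2.map s.iL ⊔ w.p1.map s.iX))) ∧
      ∀ a, dg (c a) 1 ≤ dL θ θ0 (p.map (w.p2.map s.iL ⊔ w.p1.map s.iX)) := by
  obtain ⟨v⟩ := FV.exists_zed hs w (le_refl (0 : ℝ)) zero_le_one
  obtain ⟨g⟩ := FV.exists_rct hs v (le_refl (0 : ℝ)) zero_le_one
  have z0 : (0 : ℝ) ≤ 0 := le_rfl
  have z1 : (0 : ℝ) ≤ 1 := zero_le_one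
  have hTc : g.Tc = ⊥ := by
    unfold FV.Rct.Tc
    rw [dg_nonpos s.t le_rfl, w.p1.map_bot, v.q1.map_bot, g.s1.map_bot]
  have hK := g.K0_eq
  have hK1 := g.K1_eq
  have c1 := g.c1 hs z0 z1 z1
  have c2 := g.c2 hs z0 z1 z1
  have f4 := g.f4 hs z0 z1 z1
  rw [hTc] at f4
  have f6 := g.f6 hs z0 z1 z1
  have hal := g.h_al hs z0 z1 z0 z1
  have htau := g.h_tau hs z0 z1 z1
  rw [sub_zero] at hal htau
  have lal := g.al_le
  have lC := g.lC hs
  have lA := g.lA hs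
  have hu0 := uq_b0 hs hu g
  -- the base as a family
  obtain ⟨f, hf⟩ : ∃ f : Fin d ⊕ (Fin d ⊕ (Fin d ⊕ Unit)) → QS g.D, f =
      Sum.elim (fun i => g.s1.qs (v.q1.qs (w.p2.qs (s.a i))))
        (Sum.elim (fun i => g.s1.qs (v.q1.qs (w.p2.qs (s.x i))))
          (Sum.elim (fun i => g.s1.qs (v.q1.qs (w.p1.qs (s.x i)))) (fun _ => g.t0))) := ⟨_, rfl⟩
  have hB : vd f 1 = g.L ⊔ g.U ⊔ g.T0 := by
    rw [hf, vd_sum, vd_sum, vd_sum, vd_unit]
    have h1 : g.L = vd (fun i => g.s1.qs (v.q1.qs (w.p2.qs (s.a i)))) 1 ⊔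
        vd (fun i => g.s1.qs (v.q1.qs (w.p2.qs (s.x i)))) 1 := by
      unfold FV.Rct.L FV.iL
      rw [w.p2.map_sup, v.q1.map_sup, g.s1.map_sup, ← w.p2.qs_vd, ← w.p2.qs_vd, ← v.q1.qs_vd,
        ← v.q1.qs_vd, ← g.s1.qs_vd, ← g.s1.qs_vd]
    have h2 : g.U = vd (fun i => g.s1.qs (v.q1.qs (w.p1.qs (s.x i)))) 1 := by
      unfold FV.Rct.U FV.Zed.U FV.iX
      rw [← w.p1.qs_vd, ← v.q1.qs_vd, ← g.s1.qs_vd]
    rw [h1, h2, g.T0_eq]
    order
  have om : ∀ i, g.al * g.C i - g.A i * g.tau ∈ Id g.D θ := by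
    refine hW g.D _ inferInstance f g.T1 (dg g.tau 1) g.al g.tau g.A g.C g.b0 g.b1 ?_ ?_ ?_ ?_ ?_
      ?_ ?_ ?_ ?_ ?_ ?_
    · rw [hB]; order
    · rw [hB]; order
    · exact le_sup_left
    · rw [hB]; order
    · intro i
      rw [g.rect_eq]
      ring
    · rw [hB]
      exact ind_of c1 (by order) (by order) le_sup_left (by order)
    · rw [hB]
      exact ind_of c2 (by order) (by order) le_sup_left (by order)
    · rw [hB]
      exact ind_symm (ind_of f6 bot_le (by order) le_sup_left (by order))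
    · rw [hB]
      apply le_antisymm (h_dg_le_one _ _)
      exact hal.ge.trans (h_anti (by order))
    · rw [hB]
      apply le_antisymm (h_dg_le_one _ _)
      exact htau.ge.trans (h_anti (by order))
    · rw [hB]
      exact hu0
  obtain ⟨Φ, h1, h2, h3⟩ := exists_phi (B := g.L ⊔ g.U) (P := g.T0 ⊔ g.T1) (Q := dg g.tau 1)
    (T := g.al) (T' := g.tau) (A := g.A) (C := g.C) θ0 θ1 (by order) (by order) (by order)
    (by order) (ind_symm (ind_of f6 bot_le (by order) le_sup_left (by order)))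
    (by
      apply le_antisymm (h_dg_le_one _ _)
      exact hal.ge.trans (h_anti (by order)))
    (by
      apply le_antisymm (h_dg_le_one _ _)
      exact htau.ge.trans (h_anti (by order))) om
  obtain ⟨p, hp⟩ : ∃ p : Pj g.D w.D, p = g.s2.comp v.q1 := ⟨_, rfl⟩
  have eF : ∀ a, p.qs (w.p1.qs (s.F a)) = g.Fr1 a := by
    intro a
    rw [hp, Pj.comp_qs]
    rfl
  have et : p.qs (w.p1.qs s.t) = g.t1 := by
    rw [hp, Pj.comp_qs]
    rfl
  have eLU : p.map (w.p2.map s.iL ⊔ w.p1.map s.iX) = g.L ⊔ g.U := by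
    rw [hp, Pj.comp_map, v.q1.map_sup, g.s2.map_sup, g.eL]
    have h4 : g.s2.map (v.q1.map (w.p1.map s.iX)) = g.U := g.eU
    rw [h4]
  refine ⟨g.D, p, Φ, fun a => dQ θ θ0 θ1 (g.Fr1 a) - Φ a * dQ θ θ0 θ1 g.t1, ?_, ?_, ?_⟩
  · intro a
    rw [eF, et]
    ring
  · intro a
    rw [eLU]
    exact h3 a
  · intro a
    rw [eLU]
    beta_reduce
    have e1 : dQ θ θ0 θ1 (g.Fr1 a) - Φ a * dQ θ θ0 θ1 g.t1 =
        dQ θ θ0 θ1 (g.Fr0 a) - Φ a * dQ θ θ0 θ1 g.t0 := by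
      have h4 := h1 a
      have h5 : g.A a = g.Fr1 a - g.Fr0 a := rfl
      have h6 : g.al = g.t1 - g.t0 := rfl
      rw [h5, h6, map_sub, map_sub] at h4
      linear_combination h4
    have k1 : dg (dQ θ θ0 θ1 (g.Fr1 a) - Φ a * dQ θ θ0 θ1 g.t1) 1 ≤
        dL θ θ0 g.T1 ⊔ dL θ θ0 (g.L ⊔ g.U) := by
      have k3 : dg g.t1 1 ≤ g.T1 := by rw [g.T1_eq]
      apply (Kn (dp g.D θ θ0) 1 le_rfl _).sub_mem
      · have h4 := dQ_le (g.lFr1 hs a) θ θ0 θ1
        rw [dL_sup] at h4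
        exact h4.trans (by order)
      · apply (Kn (dp g.D θ θ0) 1 le_rfl _).mul_mem
        · exact (h3 a).trans le_sup_right
        · exact (dQ_le k3 θ θ0 θ1).trans le_sup_left
    have k2 : dg (dQ θ θ0 θ1 (g.Fr1 a) - Φ a * dQ θ θ0 θ1 g.t1) 1 ≤
        dL θ θ0 g.T0 ⊔ dL θ θ0 (g.L ⊔ g.U) := by
      have k3 : dg g.t0 1 ≤ g.T0 := by rw [g.T0_eq]
      rw [e1]
      apply (Kn (dp g.D θ θ0) 1 le_rfl _).sub_mem
      · have h4 := dQ_le (g.lFr0 hs a) θ θ0 θ1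
        rw [dL_sup] at h4
        exact h4.trans (by order)
      · apply (Kn (dp g.D θ θ0) 1 le_rfl _).mul_mem
        · exact (h3 a).trans le_sup_right
        · exact (dQ_le k3 θ θ0 θ1).trans le_sup_left
    have j1 : I g.T1 g.T0 (g.L ⊔ g.U) = 0 :=
      ind_of f4 bot_le (by order) le_sup_left (by order)
    exact le_of_markov k1 k2 (dL_I_zero θ θ0 j1)

end

end Pool.Agent.Helper38.NS
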