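import Pool.Agent.Helper38.NS.T3C
import Pool.Agent.Helper19.SP.Loop
import Pool.Agent.Helper61.EC.GK

/-! Exact entropy calculus: LEAF theorem over a flat real base, without hypotheses on tools. -/

set_option autoImplicit false

namespace Pool.Agent.Helper38.NS

open Pool.Agent.Helper31.EC QS

namespace FB

variable {S : Sp} {d : ℕ}

/-- LEAF -/
theorem leafU (s : FB S d) (hs : s.Hyp) (hq : Rl s.q ⊥) {c : ℝ} (hc : 0 < c)
    (hu : UnS s.z (s.iT ⊔ s.iY) 0 c) (h3 : s.T3) (hconn : s.Conn) :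
    ∃ (W : Sp) (r : Pj W S) (f : MvPolynomial (Fin (d + 1)) (QS W)), f ∈ PK ⊥ ∧
      f.totalDegree ≤ d + 2 ∧ r.qs s.z = MvPolynomial.eval (fun j => r.qs (s.q j)) f :=
  leaf s Pool.Agent.Helper61.EC.wec loopQ hs hq hc hu h3 hconn

/-- LEAF for classes of lines -/
theorem leafK (κ : Cls d) (s : FB S d) (hK : κ.K S s) (hs : s.Hyp) {c : ℝ} (hc : 0 < c)
    (hu : UnS s.z (s.iT ⊔ s.iY) 0 c) (hconn : s.Conn) :
    ∃ (W : Sp) (r : Pj W S) (f : MvPolynomial (Fin (d + 1)) (QS W)), f ∈ PK ⊥ ∧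
      f.totalDegree ≤ d + 2 ∧ r.qs s.z = MvPolynomial.eval (fun j => r.qs (s.q j)) f :=
  leafU s hs (κ.real s hK) hc hu (t3_of_cls κ s hs hK) hconn

end FB

end Pool.Agent.Helper38.NS
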