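import Pool.Agent.Helper38.NS.PotH
import Pool.Agent.Helper38.NS.Fam
import Pool.Agent.Helper38.NS.Wvq

/-! LOOP for vectors: the lines are exact at full depth, the vector is only known modulo `Id θ`, the primitives are
polynomials at depth `θ`, real noises at depth `θ` are small; the potential exists at depth `θ ρ`. -/

set_option autoImplicit false

namespace Pool.Agent.Helper38.NS

open Pool.Agent.Helper31.EC QS Pool.Agent.Helper19.SP

noncomputable section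

/-- the core of the loop argument for vectors, lines exact at full depth, polynomials at depth `θ` -/
theorem loop_coreR {W : Sp} {ν : Type} [Fintype ν] (A : W.L) {n : ℕ}
    (q : Fin n → QS W) (z : ν → QS W) {θ : ℝ} (θ0 : 0 < θ) (θ1 : θ ≤ 1) (hq : Rl q A)
    (hzG : I (vd z θ) A (vd q 1) = 0)
    (fA : ∃ (ι : Type) (_ : Fintype ι) (g : ι → QS W), A = vd g 1)
    (R : Sp) (p p' : Pj R W) (τ : Fin (n + 1) → QS R)
    (L L0 : ν → MvPolynomial (Fin n ⊕ (Unit ⊕ Fin n)) (QS (dp W θ θ0)))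
    (hL : ∀ i, L i ∈ PK (dL θ θ0 A)) (hL0 : ∀ i, L0 i ∈ PK (dL θ θ0 A))
    (hG : p'.map A = p.map A) (hrl : ∀ x : W.L, Rl τ (p.map x))
    (hτ : ∀ j : Fin n, dg (τ j.succ) 1 ≤
      (dg (τ 0) 1 ⊔ p'.map (vd q 1)) ⊔ (p.map (vd q 1) ⊔ p.map A))
    (zle1 : p'.map (vd z θ) ≤ p.map (vd z θ) ⊔ dg (τ 0) 1 ⊔
      (p'.map (vd q 1) ⊔ (p.map (vd q 1) ⊔ p.map A)))
    (zle2 : p.map (vd z θ) ≤ p'.map (vd z θ) ⊔ dg (τ 0) 1 ⊔
      (p'.map (vd q 1) ⊔ (p.map (vd q 1) ⊔ p.map A)))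
    (hz : ∀ i, dQ θ θ0 θ1 (p'.qs (z i)) = dQ θ θ0 θ1 (p.qs (z i)) + MvPolynomial.eval
      (pnt (fun m => dQ θ θ0 θ1 (p.qs (q m))) (dQ θ θ0 θ1 (τ 0))
        (fun m => dQ θ θ0 θ1 (p'.qs (q m)))) (MvPolynomial.map (dP θ θ0 p).qs (L i)))
    (h0 : ∀ i (x y : Fin n → QS (dp R θ θ0)) (s : QS (dp R θ θ0)),
      MvPolynomial.eval (pnt x 0 y) (MvPolynomial.map (dP θ θ0 p).qs (L i)) =
      MvPolynomial.eval (pnt x s y) (MvPolynomial.map (dP θ θ0 p).qs (L0 i)))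
    {ρ : ℝ} (ρ0 : 0 < ρ) (ρ1 : ρ ≤ 1)
    (hN : NRu (dp W θ θ0) (fun i => dQ θ θ0 θ1 (z i)) (dL θ θ0 (vd q 1)) ρ) (i : ν) :
    MvPolynomial.map (dQ ρ ρ0 ρ1) (L i) = MvPolynomial.map (dQ ρ ρ0 ρ1) (L0 i) := by
  classical
  obtain ⟨Gm, hGm⟩ : ∃ Gm, Gm = p.map A := ⟨_, rfl⟩
  obtain ⟨x, hx⟩ : ∃ x : Fin n → QS R, x = fun m => p.qs (q m) := ⟨_, rfl⟩
  obtain ⟨y, hy⟩ : ∃ y : Fin n → QS R, y = fun m => p'.qs (q m) := ⟨_, rfl⟩
  have hxv : vd x 1 = p.map (vd q 1) := by rw [← Pj.qs_vd, hx]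
  have hyv : vd y 1 = p'.map (vd q 1) := by rw [← Pj.qs_vd, hy]
  rw [← hxv, ← hyv, ← hGm] at hτ zle1 zle2
  have hGm' : p'.map A = Gm := by rw [hGm, hG]
  obtain ⟨L', hL'⟩ : ∃ L' : ν → MvPolynomial (Fin n ⊕ (Unit ⊕ Fin n)) (QS (dp R θ θ0)),
    ∀ i, L' i = MvPolynomial.map (dP θ θ0 p).qs (L i) := ⟨_, fun _ => rfl⟩
  obtain ⟨L0', hL0'⟩ : ∃ L0' : ν → MvPolynomial (Fin n ⊕ (Unit ⊕ Fin n)) (QS (dp R θ θ0)),
    ∀ i, L0' i = MvPolynomial.map (dP θ θ0 p).qs (L0 i) := ⟨_, fun _ => rfl⟩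
  have h0' : ∀ i (x y : Fin n → QS (dp R θ θ0)) (s : QS (dp R θ θ0)),
      MvPolynomial.eval (pnt x 0 y) (L' i) = MvPolynomial.eval (pnt x s y) (L0' i) := by
    intro i a b s
    rw [hL', hL0']
    exact h0 i a b s
  obtain ⟨G, hGd⟩ : ∃ G, G = dL θ θ0 Gm := ⟨_, rfl⟩
  have mL : ∀ i, L' i ∈ PK G := by
    intro i
    rw [hL', hGd, hGm, ← dP_map]
    exact map_PK _ (hL i)
  have mL0 : ∀ i, L0' i ∈ PK G := by
    intro i
    rw [hL0', hGd, hGm, ← dP_map]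
    exact map_PK _ (hL0 i)
  obtain ⟨X, hX⟩ : ∃ X, X = vd y 1 ⊔ (vd x 1 ⊔ Gm) := ⟨_, rfl⟩
  rw [← hX] at zle1 zle2
  have hxX : ∀ m, dg (x m) 1 ≤ X := by
    intro m
    rw [hX]
    exact (dg_le_vd x 1 m).trans (le_sup_left.trans le_sup_right)
  have hyX : ∀ m, dg (y m) 1 ≤ X := by
    intro m
    rw [hX]
    exact (dg_le_vd y 1 m).trans le_sup_left
  have hGX : Gm ≤ X := by
    rw [hX]
    exact le_sup_right.trans le_sup_right
  -- counts
  have cnt := loop_countsV (n := n) (X := X) (Q := vd x 1) (Q' := vd y 1) (G := Gm)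
    (T := dg (τ 0) 1) (Z := p.map (vd z θ)) (Z' := p'.map (vd z θ)) (V := vd τ 1)
    (by
      intro B
      have := h_sd_le y Finset.univ B
      rwa [sd_univ, Finset.card_univ, Fintype.card_fin] at this)
    (fun B => h_dg_le_one _ B)
    (by
      have := hrl (vd q 1 ⊔ A ⊔ vd z θ)
      unfold Rl at this
      rw [Fintype.card_fin] at this
      push_cast at this
      rw [← this, Pj.map_sup, Pj.map_sup, hxv, hGm])
    (by
      rw [vd_le]
      intro k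
      induction k using Fin.cases with
      | zero => exact le_sup_left.trans le_sup_left
      | succ j => exact hτ j)
    hX zle1 zle2
    (by
      rw [hyv, hxv, ← hGm', ← Pj.map_sup, Pj.h_map, hGm', hGm, ← Pj.map_sup, Pj.h_map])
    (by
      rw [hyv, ← hGm', Pj.I_map]
      exact hzG)
  obtain ⟨cnt1, cnt2, cnt3⟩ := cnt
  -- functions of depth `θ`
  obtain ⟨x', hx'⟩ : ∃ x' : Fin n → QS (dp R θ θ0), ∀ m, x' m = dQ θ θ0 θ1 (x m) :=
    ⟨_, fun _ => rfl⟩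
  obtain ⟨y', hy'⟩ : ∃ y' : Fin n → QS (dp R θ θ0), ∀ m, y' m = dQ θ θ0 θ1 (y m) :=
    ⟨_, fun _ => rfl⟩
  obtain ⟨t', ht'⟩ : ∃ t', t' = dQ θ θ0 θ1 (τ 0) := ⟨_, rfl⟩
  have hz' : ∀ i, dQ θ θ0 θ1 (p'.qs (z i)) = dQ θ θ0 θ1 (p.qs (z i)) +
      MvPolynomial.eval (pnt x' t' y') (L' i) := by
    intro i
    have e1 : x' = fun m => dQ θ θ0 θ1 (p.qs (q m)) := by
      funext m
      rw [hx', hx]
    have e2 : y' = fun m => dQ θ θ0 θ1 (p'.qs (q m)) := by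
      funext m
      rw [hy', hy]
    rw [hL', e1, e2, ht']
    exact hz i
  obtain ⟨X', hX'⟩ : ∃ X', X' = dL θ θ0 X := ⟨_, rfl⟩
  have hxX' : ∀ m, dg (x' m) 1 ≤ X' := fun m => by
    rw [hx', hX']
    exact dQ_le (hxX m) θ θ0 θ1
  have hyX' : ∀ m, dg (y' m) 1 ≤ X' := fun m => by
    rw [hy', hX']
    exact dQ_le (hyX m) θ θ0 θ1
  have hGX' : G ≤ X' := by
    rw [hGd, hX']
    exact dL_mono θ θ0 hGX
  -- absorption
  have habs : dQ ρ ρ0 ρ1 (MvPolynomial.eval (pnt x' t' y') (L' i)) =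
      dQ ρ ρ0 ρ1 (MvPolynomial.eval (pnt x' t' y') (L0' i)) := by
    obtain ⟨Φ, hΦ⟩ : ∃ Φ : ν → Polynomial (QS (dp R θ θ0)), ∀ i, Φ i = pev x' y' (L' i) :=
      ⟨_, fun _ => rfl⟩
    obtain ⟨m, hm⟩ : ∃ m : ℕ, ∀ i, (Φ i).natDegree < m + 1 :=
      ⟨Finset.univ.sup fun i => (Φ i).natDegree, fun i => by
        have h1 := Finset.le_sup (f := fun i => (Φ i).natDegree) (Finset.mem_univ i)
        omega⟩
    have hΦe : ∀ i s, (Φ i).coeff 0 + ∑ a : Fin m, (Φ i).coeff (a + 1) * s ^ ((a : ℕ) + 1) =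
        MvPolynomial.eval (pnt x' s y') (L' i) := by
      intro i s
      rw [← pev_eval, ← hΦ, ← pe_eval (Φ i) s m (hm i)]
      unfold pe
      refine Eq.trans ?_ (Fin.sum_univ_succ _).symm
      congr 1
      show (Φ i).coeff 0 = (Φ i).coeff 0 * s ^ 0
      rw [pow_zero, mul_one]
    have mΦ : ∀ i a, dg ((Φ i).coeff a) 1 ≤ X' := by
      intro i a
      rw [hΦ]
      exact pev_coeff _ _ _ (mL i) hGX' hxX' hyX' _
    obtain ⟨ι, _, gA, hgA⟩ := fA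
    obtain ⟨ι1, _, g, hg⟩ := exists_fam (Sum.elim y (Sum.elim x (fun a => p.qs (gA a)))) θ θ0 θ1
    obtain ⟨ι2, _, qh, hqh⟩ := exists_fam q θ θ0 θ1
    have hgX : vd g 1 = X' := by
      rw [hg, vd_sum, vd_sum, p.qs_vd, ← hgA, ← hGm, hX', hX]
    have hqm : (dP θ θ0 p').map (vd qh 1) = dL θ θ0 (vd y 1) := by
      rw [hqh, dP_map, hyv]
    have hyX2 : vd y 1 ≤ X := by rw [hX]; exact le_sup_left
    have hzv : (dP θ θ0 p').map (vd (fun i => dQ θ θ0 θ1 (z i)) 1) ≤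
        dL θ θ0 (p'.map (vd z θ)) := by
      rw [dQ_vd θ θ0 θ1 z le_rfl, dP_map, mul_one]
    rw [← hqh] at hN
    have key := absU (q := qh) (z := fun i => dQ θ θ0 θ1 (z i)) (g := g)
      (c := fun i (a : Fin m) => (Φ i).coeff (a + 1))
      ρ1 hN (dP θ θ0 p') (fun i => dQ θ θ0 θ1 (p.qs (z i)) + (Φ i).coeff 0) t'
      (by
        rw [hgX, hqm, hX']
        exact dL_mono θ θ0 hyX2)
      (fun i a => by rw [hgX]; exact mΦ i _)
      (fun i => by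
        rw [dP_qs, hz' i, ← hΦe]
        ring)
      (by
        rw [hgX, hqm]
        have h1 := dL_I_zero θ θ0 cnt3
        rw [dL_sup] at h1
        refine I_zero_mono h1 (hzv.trans le_sup_left) ?_
        have h2 : dg t' 1 ≤ dL θ θ0 (dg (τ 0) 1) := by
          rw [ht']
          exact dQ_le le_rfl θ θ0 θ1
        rw [hX']
        order)
      (by
        rw [hgX]
        apply le_antisymm (h_dg_le_one _ _)
        have h2 : Rl (fun _ : Unit => τ 0) (p.map (vd z θ) ⊔ X) := by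
          unfold Rl
          rw [vd_unit, cnt2, Fintype.card_unit]
          norm_num
        have h3 := rl_dp h2 θ θ0 θ1
        unfold Rl at h3
        rw [vd_unit, Fintype.card_unit, Nat.cast_one, ← ht', dL_sup, ← hX'] at h3
        refine h3.ge.trans (h_anti ?_)
        apply sup_le _ le_sup_right
        rw [vd_le]
        intro i
        apply (Kn (dp R θ θ0) 1 le_rfl _).add_mem
        · show dg (dQ θ θ0 θ1 (p.qs (z i))) 1 ≤ _
          rw [dQ_dg θ θ0 θ1 _ le_rfl, mul_one, p.qs_dg]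
          exact (dL_mono θ θ0 (p.map_mono (dg_le_vd z θ i))).trans le_sup_left
        · exact (mΦ i 0).trans le_sup_right)
    rw [← h0' i x' y' t', ← sub_eq_zero, ← map_sub, dQ_eq_zero, ← hΦe, ← hΦe]
    have h1 : (Φ i).coeff 0 + ∑ a : Fin m, (Φ i).coeff (a + 1) * t' ^ ((a : ℕ) + 1) -
        ((Φ i).coeff 0 + ∑ a : Fin m, (Φ i).coeff (a + 1) *
          (0 : QS (dp R θ θ0)) ^ ((a : ℕ) + 1)) =
        ∑ a : Fin m, (Φ i).coeff (a + 1) * t' ^ ((a : ℕ) + 1) := by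
      have h2 : ∑ a : Fin m, (Φ i).coeff (a + 1) * (0 : QS (dp R θ θ0)) ^ ((a : ℕ) + 1) = 0 := by
        apply Finset.sum_eq_zero
        intro a _
        rw [zero_pow (Nat.succ_ne_zero _), mul_zero]
      rw [h2]
      ring
    rw [h1]
    exact (Id _ ρ).sum_mem fun a _ => (Id _ ρ).mul_mem_right _ (key i a)
  -- the polynomials agree
  have hfin : MvPolynomial.map (dQ ρ ρ0 ρ1) (L' i) = MvPolynomial.map (dQ ρ ρ0 ρ1) (L0' i) := by
    rw [map_eval', map_eval'] at habs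
    apply mv_unique (dL ρ ρ0 G) (fun a => dQ ρ ρ0 ρ1 (pnt x' t' y' a)) _ _ ?_
      (map_dQ_PK (mL i) ρ ρ0 ρ1) (map_dQ_PK (mL0 i) ρ ρ0 ρ1) habs
    apply rl_dp
    have e0 : pnt x' t' y' = fun a => dQ θ θ0 θ1 (pnt x (τ 0) y a) := by
      funext a
      rcases a with a | a | a
      · exact hx' a
      · exact ht'
      · exact hy' a
    rw [e0, hGd]
    apply rl_dp
    apply Rl.of_ge
    have e1 : vd (pnt x (τ 0) y) 1 = vd x 1 ⊔ (dg (τ 0) 1 ⊔ vd y 1) := by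
      apply le_antisymm
      · rw [vd_le]
        rintro (m | m | m)
        · exact (dg_le_vd x 1 m).trans le_sup_left
        · exact le_sup_left.trans le_sup_right
        · exact (dg_le_vd y 1 m).trans (le_sup_right.trans le_sup_right)
      · refine sup_le ?_ (sup_le ?_ ?_)
        · rw [vd_le]
          intro m
          exact dg_le_vd (pnt x (τ 0) y) 1 (Sum.inl m)
        · exact dg_le_vd (pnt x (τ 0) y) 1 (Sum.inr (Sum.inl ()))
        · rw [vd_le]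
          intro m
          exact dg_le_vd (pnt x (τ 0) y) 1 (Sum.inr (Sum.inr m))
    rw [e1, h_chain, cnt1]
    have e2 : Helper31.EC.h (vd x 1) Gm = n := by
      rw [hxv, hGm, Pj.h_map]
      have := hq
      unfold Rl at this
      rw [Fintype.card_fin] at this
      exact this
    rw [e2]
    simp only [Fintype.card_sum, Fintype.card_fin, Fintype.card_unit]
    push_cast
    linarith
  rw [hL', hL0'] at hfin
  apply MvPolynomial.map_injective _ (dP ρ ρ0 (dP θ θ0 p)).qs_injective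
  have e3 : ∀ P : MvPolynomial (Fin n ⊕ (Unit ⊕ Fin n)) (QS (dp W θ θ0)),
      MvPolynomial.map (dP ρ ρ0 (dP θ θ0 p)).qs (MvPolynomial.map (dQ ρ ρ0 ρ1) P) =
        MvPolynomial.map (dQ ρ ρ0 ρ1) (MvPolynomial.map (dP θ θ0 p).qs P) := by
    intro P
    ext m
    rw [MvPolynomial.coeff_map, MvPolynomial.coeff_map, MvPolynomial.coeff_map,
      MvPolynomial.coeff_map, dP_qs]
  rw [e3, e3]
  exact hfin

/-- the transport along loops is trivial, lines exact at full depth, primitives at depth `θ` -/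
theorem loop_LHR {W : Sp} {ι ν : Type} [Fintype ι] [Fintype ν] (G : ι → QS W) {n : ℕ} (t : QS W)
    (q : Fin n → QS W) (z : ν → QS W) {θ : ℝ} (θ0 : 0 < θ) (θ1 : θ ≤ 1)
    (Mi u : Fin n → Fin n → QS W) (hM : ∀ j l, ∑ m, Mi j m * u l m = if j = l then 1 else 0)
    (b : Fin n → ν → QS W) (H : ν → Fin n → MvPolynomial (Fin n) (QS (dp W θ θ0)))
    (vi : Fin n → QS W) (bi : ν → QS W) (Hi : ν → MvPolynomial (Fin n) (QS (dp W θ θ0)))
    (hq : Rl q (vd G 1)) (hMi : ∀ j l, dg (Mi j l) 1 ≤ vd G 1) (hu : ∀ j l, dg (u j l) 1 ≤ vd G 1)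
    (hvi : ∀ l, dg (vi l) 1 ≤ vd G 1) (hH : ∀ a j, H a j ∈ PK (dL θ θ0 (vd G 1)))
    (hHi : ∀ a, Hi a ∈ PK (dL θ θ0 (vd G 1)))
    (h1 : Helper31.EC.h (dg t 1) (vd (fun k => q k - t * vi k) 1 ⊔ vd bi 1 ⊔ vd G 1) = 1)
    (h1' : ∀ j, Helper31.EC.h (dg t 1) (vd (fun k => q k - t * u j k) 1 ⊔ vd (b j) 1 ⊔
      vd G 1) = 1)
    (h3 : ∀ a, dQ θ θ0 θ1 (z a - bi a) =
      MvPolynomial.eval (fun j => dQ θ θ0 θ1 (q j)) (Hi a))
    (h3' : ∀ j a, dQ θ θ0 θ1 (z a - b j a) =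
      MvPolynomial.eval (fun j => dQ θ θ0 θ1 (q j)) (H a j))
    {ρ : ℝ} (ρ0 : 0 < ρ) (ρ1 : ρ ≤ 1)
    (hN : NRu (dp W θ θ0) (fun i => dQ θ θ0 θ1 (z i)) (dL θ θ0 (vd q 1)) ρ)
    (hzG : I (vd z θ) (vd G 1) (vd q 1) = 0) (c : ν) :
    MvPolynomial.map (dQ ρ ρ0 ρ1) (LH (fun a b => dQ θ θ0 θ1 (Mi a b))
      (fun a b => dQ θ θ0 θ1 (u a b)) (H c) (fun a => dQ θ θ0 θ1 (vi a)) (Hi c)) =
      MvPolynomial.map (dQ ρ ρ0 ρ1) (LH0 (fun a b => dQ θ θ0 θ1 (Mi a b))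
        (fun a b => dQ θ θ0 θ1 (u a b)) (H c)) := by
  classical
  -- directions, intercepts and primitives by types
  obtain ⟨vs, hvn, hvs⟩ : ∃ vs : Option (Fin n) → Fin n → QS W, vs none = vi ∧ ∀ j, vs (some j) = u j :=
    ⟨fun o => o.elim vi u, rfl, fun _ => rfl⟩
  obtain ⟨bs, hbn, hbs⟩ : ∃ bs : Option (Fin n) → ν → QS W, bs none = bi ∧ ∀ j, bs (some j) = b j :=
    ⟨fun o => o.elim bi b, rfl, fun _ => rfl⟩
  obtain ⟨Hs, hHn, hHs⟩ : ∃ Hs : ν → Option (Fin n) → MvPolynomial (Fin n) (QS (dp W θ θ0)),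
      (∀ a, Hs a none = Hi a) ∧ ∀ a j, Hs a (some j) = H a j :=
    ⟨fun a o => o.elim (Hi a) (H a), fun _ => rfl, fun _ _ => rfl⟩
  have kv : ∀ o l, dg (vs o l) 1 ≤ vd G 1 := by
    rintro (_ | j) l
    · rw [hvn]; exact hvi l
    · rw [hvs]; exact hu j l
  have kH : ∀ a o, Hs a o ∈ PK (dL θ θ0 (vd G 1)) := by
    rintro a (_ | j)
    · rw [hHn]; exact hHi a
    · rw [hHs]; exact hH a j
  have kt : ∀ o, Helper31.EC.h (dg t 1) (vd (fun k => q k - t * vs o k) 1 ⊔ vd (bs o) 1 ⊔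
      vd G 1) = 1 := by
    rintro (_ | j)
    · rw [hvn, hbn]; exact h1
    · rw [hvs, hbs]; exact h1' j
  have ke : ∀ o a, dQ θ θ0 θ1 (z a - bs o a) =
      MvPolynomial.eval (fun j => dQ θ θ0 θ1 (q j)) (Hs a o) := by
    rintro (_ | j) a
    · rw [hbn, hHn]; exact h3 a
    · rw [hbs, hHs]; exact h3' j a
  have kb : ∀ o a, dg (z a - bs o a) θ ≤ vd q 1 ⊔ vd G 1 := by
    intro o a
    have h4 : dg (MvPolynomial.eval (fun j => dQ θ θ0 θ1 (q j)) (Hs a o)) 1 ≤ dL θ θ0 (vd q 1 ⊔ vd G 1) :=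
      eval_mem (kH a o) _ (dL_mono θ θ0 le_sup_right)
        (fun j => dQ_le ((dg_le_vd q 1 j).trans le_sup_left) θ θ0 θ1)
    rw [← ke o a, dQ_dg θ θ0 θ1 _ le_rfl, mul_one, dL_le] at h4
    exact h4
  -- the labels
  obtain ⟨HH, hHH⟩ : ∃ HH : ν × Option (Fin n) → MvPolynomial (Fin n) (QS (dp W θ θ0)),
    ∀ a o, HH (a, o) = Hs a o := ⟨fun x => Hs x.1 x.2, fun _ _ => rfl⟩
  have hlift : ∀ x : (Σ x : ν × Option (Fin n), (HH x).support), ∃ c' : QS W,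
      dQ θ θ0 θ1 c' = (HH x.1).coeff x.2.1 ∧ dg c' 1 ≤ vd G 1 := by
    intro x
    apply exists_lift
    have h4 := kH x.1.1 x.1.2
    rw [← hHH] at h4
    exact h4 _
  choose cc hc1 hc2 using hlift
  obtain ⟨G', g1, g2, g4⟩ : ∃ G' : ι ⊕ ((Option (Fin n) × Fin n) ⊕
      (Σ x : ν × Option (Fin n), (HH x).support)) → QS W,
      (∀ a, G' (Sum.inl a) = G a) ∧ (∀ o m, G' (Sum.inr (Sum.inl (o, m))) = vs o m) ∧
      (∀ x, G' (Sum.inr (Sum.inr x)) = cc x) :=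
    ⟨Sum.elim G (Sum.elim (fun x => vs x.1 x.2) cc),
      fun _ => rfl, fun _ _ => rfl, fun _ => rfl⟩
  have hGG : vd G' 1 = vd G 1 := by
    apply le_antisymm
    · rw [vd_le]
      rintro (a | ⟨a, b⟩ | x)
      · rw [g1]
        exact dg_le_vd G 1 a
      · rw [g2]
        exact kv _ _
      · rw [g4]
        exact hc2 x
    · rw [vd_le]
      intro a
      rw [← g1 a]
      exact dg_le_vd G' 1 (Sum.inl a)
  -- frozen functions
  obtain ⟨F, f1, f2, f3⟩ : ∃ F : Option (Fin n) → ((ι ⊕ ((Option (Fin n) × Fin n) ⊕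
      (Σ x : ν × Option (Fin n), (HH x).support))) ⊕ (Fin n ⊕ ν)) → QS W,
        (∀ o a, F o (Sum.inl a) = G' a) ∧
        (∀ o m, F o (Sum.inr (Sum.inl m)) = q m - t * vs o m) ∧
        (∀ o a, F o (Sum.inr (Sum.inr a)) = bs o a) :=
    ⟨fun o => Sum.elim G' (Sum.elim (fun m => q m - t * vs o m)
      (fun a => bs o a)), fun _ _ => rfl, fun _ _ => rfl, fun _ _ => rfl⟩
  have hline : ∀ o, Helper31.EC.h (dg t 1) (vd (F o) 1) = 1 := by
    intro o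
    apply le_antisymm (h_dg_le_one _ _)
    refine (kt o).ge.trans (h_anti ?_)
    rw [vd_le]
    rintro (a | m | m)
    · rw [f1]
      refine (dg_le_vd G' 1 a).trans ?_
      rw [hGG]
      exact le_sup_right
    · rw [f2]
      exact (dg_le_vd (fun k => q k - t * vs o k) 1 m).trans (le_sup_left.trans le_sup_left)
    · rw [f3]
      exact (dg_le_vd (bs o) 1 m).trans (le_sup_right.trans le_sup_left)
  obtain ⟨w⟩ := exists_walkF F t hline (n + 1) (Fin.cases none some)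
  -- literally common data
  have cV : ∀ a o m, (w.p a).qs (vs o m) = (w.p 0).qs (vs o m) := by
    intro a o m
    exact w.com _ (fun _ => Sum.inl (Sum.inr (Sum.inl (o, m)))) (fun k => by rw [f1, g2]) a
  have cH : ∀ a b o, MvPolynomial.map (dP θ θ0 (w.p a)).qs (Hs b o) =
      MvPolynomial.map (dP θ θ0 (w.p 0)).qs (Hs b o) := by
    intro a b o
    apply map_eq_of_coeff
    intro m hm
    have hm' : m ∈ (HH (b, o)).support := by rw [hHH]; exact hm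
    have h4 := w.com _ (fun _ => Sum.inl (Sum.inr (Sum.inr ⟨(b, o), ⟨m, hm'⟩⟩)))
      (fun k => by rw [f1, g4]) a
    have h5 : dQ θ θ0 θ1 (cc ⟨(b, o), ⟨m, hm'⟩⟩) = (Hs b o).coeff m := by
      rw [hc1]
      exact congrArg (fun P => MvPolynomial.coeff m P) (hHH b o)
    rw [← h5, dP_qs, dP_qs, h4]
  have cG : ∀ a, (w.p a).map (vd G 1) = (w.p 0).map (vd G 1) := by
    intro a
    rw [← hGG, ← Pj.qs_vd, ← Pj.qs_vd]
    congr 1
    funext i
    exact w.com _ (fun _ => Sum.inl i) (fun k => by rw [f1]) a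
  -- the points
  obtain ⟨x, hx⟩ : ∃ x : Fin (n + 1 + 1) → Fin n → QS w.R, ∀ a, x a = fun m => (w.p a).qs (q m) :=
    ⟨_, fun _ => rfl⟩
  obtain ⟨x', hx'⟩ : ∃ x' : Fin (n + 1 + 1) → Fin n → QS (dp w.R θ θ0),
    ∀ a, x' a = fun m => dQ θ θ0 θ1 (x a m) := ⟨_, fun _ => rfl⟩
  obtain ⟨zz, hzz⟩ : ∃ zz : ν → Fin (n + 1 + 1) → QS (dp w.R θ θ0), ∀ b a,
    zz b a = dQ θ θ0 θ1 ((w.p a).qs (z b)) := ⟨_, fun _ _ => rfl⟩
  obtain ⟨τ', hτ'⟩ : ∃ τ' : Fin (n + 1) → QS (dp w.R θ θ0), ∀ k, τ' k = dQ θ θ0 θ1 (w.τ k) :=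
    ⟨_, fun _ => rfl⟩
  have stx : ∀ k m, x k.succ m = x k.castSucc m + w.τ k * (w.p 0).qs (vs (Fin.cases none some k) m) := by
    intro k m
    have := w.hF k (Sum.inr (Sum.inl m))
    rw [f2, map_sub, map_mul, map_sub, map_mul, cV k.castSucc, cV k.succ] at this
    rw [hx, hx, w.ht k]
    linear_combination this
  have stx' : ∀ k m, x' k.succ m = x' k.castSucc m +
      τ' k * dQ θ θ0 θ1 ((w.p 0).qs (vs (Fin.cases none some k) m)) := by
    intro k m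
    rw [hx', hx', hτ']
    beta_reduce
    rw [stx, map_add, map_mul]
  have hzeq : ∀ a b o, dQ θ θ0 θ1 ((w.p a).qs (z b)) = dQ θ θ0 θ1 ((w.p a).qs (bs o b)) +
      MvPolynomial.eval (x' a) (MvPolynomial.map (dP θ θ0 (w.p 0)).qs (Hs b o)) := by
    intro a b o
    have h4 := congrArg (dP θ θ0 (w.p a)).qs (ke o b)
    rw [dP_qs, qs_eval, map_sub, map_sub, cH a] at h4
    have h5 : (fun i => (dP θ θ0 (w.p a)).qs (dQ θ θ0 θ1 (q i))) = x' a := by
      rw [hx', hx]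
      funext m
      exact dP_qs θ θ0 θ1 (w.p a) (q m)
    rw [h5] at h4
    linear_combination h4
  have stz : ∀ b k, zz b k.succ = zz b k.castSucc +
      (MvPolynomial.eval (x' k.succ)
        (MvPolynomial.map (dP θ θ0 (w.p 0)).qs (Hs b (Fin.cases none some k))) -
      MvPolynomial.eval (x' k.castSucc)
        (MvPolynomial.map (dP θ θ0 (w.p 0)).qs (Hs b (Fin.cases none some k)))) := by
    intro b k
    have := w.hF k (Sum.inr (Sum.inr b))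
    rw [f3] at this
    have h4 := hzeq k.succ b (Fin.cases none some k)
    have h5 := hzeq k.castSucc b (Fin.cases none some k)
    rw [hzz, hzz, h4, h5, this]
    ring
  obtain ⟨Mi', hMi'⟩ : ∃ Mi' : Fin n → Fin n → QS (dp w.R θ θ0), Mi' = fun a b =>
    dQ θ θ0 θ1 ((w.p 0).qs (Mi a b)) := ⟨_, rfl⟩
  obtain ⟨u', hu'⟩ : ∃ u' : Fin n → Fin n → QS (dp w.R θ θ0), u' = fun a b =>
    dQ θ θ0 θ1 ((w.p 0).qs (u a b)) := ⟨_, rfl⟩
  obtain ⟨vi', hvi'⟩ : ∃ vi' : Fin n → QS (dp w.R θ θ0), vi' = fun a =>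
    dQ θ θ0 θ1 ((w.p 0).qs (vi a)) := ⟨_, rfl⟩
  obtain ⟨H', hH'⟩ : ∃ H' : ν → Fin n → MvPolynomial (Fin n) (QS (dp w.R θ θ0)),
    ∀ b, H' b = fun j => MvPolynomial.map (dP θ θ0 (w.p 0)).qs (H b j) := ⟨_, fun _ => rfl⟩
  obtain ⟨Hi', hHi'⟩ : ∃ Hi' : ν → MvPolynomial (Fin n) (QS (dp w.R θ θ0)),
    ∀ b, Hi' b = MvPolynomial.map (dP θ θ0 (w.p 0)).qs (Hi b) := ⟨_, fun _ => rfl⟩
  have hM0 : ∀ j l, ∑ m, (w.p 0).qs (Mi j m) * (w.p 0).qs (u l m) = if j = l then 1 else 0 := by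
    intro j l
    have := congrArg (w.p 0).qs (hM j l)
    rw [map_sum] at this
    simp only [map_mul] at this
    rw [this]
    split_ifs
    · exact map_one _
    · exact map_zero _
  have hM' : ∀ j l, ∑ m, Mi' j m * u' l m = if j = l then 1 else 0 := by
    intro j l
    have := congrArg (dQ θ θ0 θ1) (hM0 j l)
    rw [map_sum] at this
    rw [hMi', hu']
    simp only [map_mul] at this
    rw [this]
    split_ifs
    · exact map_one _
    · exact map_zero _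
  have hloop : ∀ b, (∀ j, sol Mi' (fun m => x' 0 m + τ' 0 * vi' m) (x' (Fin.last (n + 1))) j =
      τ' j.succ) ∧ zz b (Fin.last (n + 1)) = zz b 0 + MvPolynomial.eval
      (pnt (x' 0) (τ' 0) (x' (Fin.last (n + 1)))) (LH Mi' u' (H' b) vi' (Hi' b)) := by
    intro b
    refine loop_eqH Mi' u' hM' (H' b) vi' (Hi' b) x' (zz b) τ' ?_ ?_ ?_ ?_
    · intro m
      have := stx' 0 m
      rw [Fin.cases_zero, hvn] at this
      rw [hvi']
      exact this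
    · intro j m
      have := stx' j.succ m
      rw [Fin.cases_succ, hvs] at this
      rw [hu']
      exact this
    · have := stz b 0
      rw [Fin.cases_zero, hHn] at this
      rw [hHi']
      exact this
    · intro j
      have := stz b j.succ
      rw [Fin.cases_succ, hHs] at this
      rw [hH']
      exact this
  -- the solution at full depth
  have hsol : ∀ j, sol (fun a b => (w.p 0).qs (Mi a b))
      (fun m => x 0 m + w.τ 0 * (w.p 0).qs (vi m)) (x (Fin.last (n + 1))) j = w.τ j.succ := by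
    have h4 := loop_eqH (fun a b => (w.p 0).qs (Mi a b)) (fun a b => (w.p 0).qs (u a b)) hM0
      (fun _ => 0) (fun a => (w.p 0).qs (vi a)) 0 x (fun _ => 0) w.τ
      (by
        intro m
        have := stx 0 m
        rw [Fin.cases_zero, hvn] at this
        exact this)
      (by
        intro j m
        have := stx j.succ m
        rw [Fin.cases_succ, hvs] at this
        exact this)
      (by simp)
      (by intro j; simp)
    exact h4.1
  have hτle : ∀ j : Fin n, dg (w.τ j.succ) 1 ≤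
      (dg (w.τ 0) 1 ⊔ (w.p (Fin.last (n + 1))).map (vd q 1)) ⊔
        ((w.p 0).map (vd q 1) ⊔ (w.p 0).map (vd G 1)) := by
    intro j
    rw [← hsol j]
    unfold sol
    apply (Kn w.R 1 le_rfl _).sum_mem
    intro l _
    apply (Kn w.R 1 le_rfl _).mul_mem
    · show dg ((w.p 0).qs (Mi j l)) 1 ≤ _
      rw [Pj.qs_dg]
      exact ((w.p 0).map_mono (hMi j l)).trans (le_sup_right.trans le_sup_right)
    · apply (Kn w.R 1 le_rfl _).sub_mem
      · show dg (x (Fin.last (n + 1)) l) 1 ≤ _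
        rw [hx, Pj.qs_dg]
        exact ((w.p _).map_mono (dg_le_vd q 1 l)).trans (le_sup_right.trans le_sup_left)
      · apply (Kn w.R 1 le_rfl _).add_mem
        · show dg (x 0 l) 1 ≤ _
          rw [hx, Pj.qs_dg]
          exact ((w.p _).map_mono (dg_le_vd q 1 l)).trans (le_sup_left.trans le_sup_right)
        · apply (Kn w.R 1 le_rfl _).mul_mem
          · show dg (w.τ 0) 1 ≤ _
            exact le_sup_left.trans le_sup_left
          · show dg ((w.p 0).qs (vi l)) 1 ≤ _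
            rw [Pj.qs_dg]
            exact ((w.p _).map_mono (hvi l)).trans (le_sup_right.trans le_sup_right)
  -- all values are known to the first values, the times and the points
  obtain ⟨Y, hY⟩ : ∃ Y, Y = dg (w.τ 0) 1 ⊔ ((w.p (Fin.last (n + 1))).map (vd q 1) ⊔
    ((w.p 0).map (vd q 1) ⊔ (w.p 0).map (vd G 1))) := ⟨_, rfl⟩
  have hτY : ∀ k : Fin (n + 1), dg (w.τ k) 1 ≤ Y := by
    intro k
    rw [hY]
    induction k using Fin.cases with
    | zero => exact le_sup_left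
    | succ j => exact (hτle j).trans (by order)
  have hGY : ∀ k, (w.p k).map (vd G 1) ≤ Y := by
    intro k
    rw [cG, hY]
    order
  have hxY : ∀ k m, dg (x k m) 1 ≤ Y := by
    intro k
    induction k using Fin.induction with
    | zero =>
      intro m
      rw [hx, Pj.qs_dg, hY]
      exact ((w.p _).map_mono (dg_le_vd q 1 m)).trans (by order)
    | succ k ih =>
      intro m
      rw [stx]
      apply (Kn w.R 1 le_rfl _).add_mem (ih m)
      apply (Kn w.R 1 le_rfl _).mul_mem (hτY k)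
      show dg ((w.p 0).qs (vs (Fin.cases none some k) m)) 1 ≤ _
      rw [Pj.qs_dg]
      exact ((w.p 0).map_mono (kv _ _)).trans (hGY 0)
  have hqY : ∀ k, (w.p k).map (vd q 1) ≤ Y := by
    intro k
    rw [← Pj.qs_vd, vd_le]
    intro m
    have h4 := hxY k m
    rw [hx] at h4
    exact h4
  have hdY : ∀ k o a, dg ((w.p k).qs (z a - bs o a)) θ ≤ Y := by
    intro k o a
    rw [Pj.qs_dg]
    refine ((w.p k).map_mono (kb o a)).trans ?_
    rw [Pj.map_sup]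
    exact sup_le (hqY k) (hGY k)
  have hstep : ∀ (k : Fin (n + 1)) a, (w.p k.succ).qs (z a) = (w.p k.castSucc).qs (z a) +
      ((w.p k.succ).qs (z a - bs (Fin.cases none some k) a) -
        (w.p k.castSucc).qs (z a - bs (Fin.cases none some k) a)) := by
    intro k a
    have := w.hF k (Sum.inr (Sum.inr a))
    rw [f3] at this
    rw [map_sub, map_sub]
    linear_combination this
  have zle1 : ∀ k a, dg ((w.p k).qs (z a)) θ ≤ (w.p 0).map (vd z θ) ⊔ Y := by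
    intro k
    induction k using Fin.induction with
    | zero =>
      intro a
      rw [Pj.qs_dg]
      exact ((w.p 0).map_mono (dg_le_vd z θ a)).trans le_sup_left
    | succ k ih =>
      intro a
      rw [hstep]
      apply (Kn w.R θ θ1 _).add_mem (ih a)
      apply (Kn w.R θ θ1 _).sub_mem
      · exact (hdY _ _ _).trans le_sup_right
      · exact (hdY _ _ _).trans le_sup_right
  have zle2 : ∀ k a, dg ((w.p 0).qs (z a)) θ ≤ (w.p k).map (vd z θ) ⊔ Y := by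
    intro k
    induction k using Fin.induction with
    | zero =>
      intro a
      rw [Pj.qs_dg]
      exact ((w.p 0).map_mono (dg_le_vd z θ a)).trans le_sup_left
    | succ k ih =>
      intro a
      refine (ih a).trans (sup_le ?_ le_sup_right)
      rw [← Pj.qs_vd, vd_le]
      intro c
      beta_reduce
      have h4 : (w.p k.castSucc).qs (z c) = (w.p k.succ).qs (z c) -
          ((w.p k.succ).qs (z c - bs (Fin.cases none some k) c) -
            (w.p k.castSucc).qs (z c - bs (Fin.cases none some k) c)) := by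
        rw [hstep]
        ring
      rw [h4]
      apply (Kn w.R θ θ1 _).sub_mem
      · show dg ((w.p k.succ).qs (z c)) θ ≤ _
        rw [Pj.qs_dg]
        exact ((w.p k.succ).map_mono (dg_le_vd z θ c)).trans le_sup_left
      · apply (Kn w.R θ θ1 _).sub_mem
        · exact (hdY _ _ _).trans le_sup_right
        · exact (hdY _ _ _).trans le_sup_right
  have hLP0 : ∀ b, LH Mi' u' (H' b) vi' (Hi' b) = MvPolynomial.map (dP θ θ0 (w.p 0)).qs
      (LH (fun a b => dQ θ θ0 θ1 (Mi a b)) (fun a b => dQ θ θ0 θ1 (u a b)) (H b)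
        (fun a => dQ θ θ0 θ1 (vi a)) (Hi b)) := by
    intro b
    rw [map_LH, hMi', hu', hH', hvi', hHi']
    simp only [dP_qs]
  have hLP00 : ∀ b, LH0 Mi' u' (H' b) = MvPolynomial.map (dP θ θ0 (w.p 0)).qs
      (LH0 (fun a b => dQ θ θ0 θ1 (Mi a b)) (fun a b => dQ θ θ0 θ1 (u a b)) (H b)) := by
    intro b
    rw [map_LH0, hMi', hu', hH']
    simp only [dP_qs]
  have kMi : ∀ j l, dg (dQ θ θ0 θ1 (Mi j l)) 1 ≤ dL θ θ0 (vd G 1) := fun j l =>
    dQ_le (hMi j l) θ θ0 θ1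
  have ku : ∀ j l, dg (dQ θ θ0 θ1 (u j l)) 1 ≤ dL θ θ0 (vd G 1) := fun j l =>
    dQ_le (hu j l) θ θ0 θ1
  have kvi : ∀ l, dg (dQ θ θ0 θ1 (vi l)) 1 ≤ dL θ θ0 (vd G 1) := fun l =>
    dQ_le (hvi l) θ θ0 θ1
  apply loop_coreR (vd G 1) q z θ0 θ1 hq hzG ⟨ι, inferInstance, G, rfl⟩ w.R (w.p 0)
    (w.p (Fin.last (n + 1))) w.τ
    (fun b => LH (fun a b => dQ θ θ0 θ1 (Mi a b)) (fun a b => dQ θ θ0 θ1 (u a b)) (H b)
        (fun a => dQ θ θ0 θ1 (vi a)) (Hi b))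
    (fun b => LH0 (fun a b => dQ θ θ0 θ1 (Mi a b)) (fun a b => dQ θ θ0 θ1 (u a b)) (H b))
    (fun b => LH_mem kMi ku (hH b) kvi (hHi b)) (fun b => LH0_mem kMi ku (hH b)) (cG _) w.rl
    hτle _ _ _ _ ρ0 ρ1 hN c
  · rw [← Pj.qs_vd, vd_le]
    intro a
    refine (zle1 _ a).trans ?_
    rw [hY]
    order
  · rw [← Pj.qs_vd, vd_le]
    intro a
    refine (zle2 (Fin.last (n + 1)) a).trans ?_
    rw [hY]
    order
  · intro b
    beta_reduce
    rw [← hLP0]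
    have h4 := (hloop b).2
    rw [hzz, hzz, hx', hx', hx, hx, hτ'] at h4
    exact h4
  · intro b x0 y0 s0
    beta_reduce
    rw [← hLP0, ← hLP00]
    exact eval_LH_zero Mi' u' (H' b) vi' (Hi' b) x0 y0 s0

/-- LOOP for vectors: lines exact at full depth, primitives at depth `θ`, potential at depth `θ ρ` -/
theorem loopR {W : Sp} {ι ν : Type} [Fintype ι] [Fintype ν] (G : ι → QS W) {n N : ℕ} (t : QS W)
    (q : Fin n → QS W) (z : ν → QS W) {θ : ℝ} (θ0 : 0 < θ) (θ1 : θ ≤ 1) (v : Fin N → Fin n → QS W)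
    (b : Fin N → ν → QS W) (H : ν → Fin N → MvPolynomial (Fin n) (QS (dp W θ θ0))) (hN : n ≤ N)
    (hq : Rl q (vd G 1)) (hv : ∀ i j, dg (v i j) 1 ≤ vd G 1)
    (hH : ∀ a i, H a i ∈ PK (dL θ θ0 (vd G 1)))
    (hdet : IsUnit (Matrix.det (Matrix.of fun i j : Fin n => v (Fin.castLE hN i) j)))
    (h1 : ∀ i, Helper31.EC.h (dg t 1) (vd (fun k => q k - t * v i k) 1 ⊔ vd (b i) 1 ⊔
      vd G 1) = 1)
    (h3 : ∀ i a, dQ θ θ0 θ1 (z a - b i a) =
      MvPolynomial.eval (fun j => dQ θ θ0 θ1 (q j)) (H a i))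
    {ρ : ℝ} (ρ0 : 0 < ρ) (ρ1 : ρ ≤ 1)
    (hNR : NRu (dp W θ θ0) (fun i => dQ θ θ0 θ1 (z i)) (dL θ θ0 (vd q 1)) ρ)
    (hzG : I (vd z θ) (vd G 1) (vd q 1) = 0) (a : ν) :
    ∃ f : MvPolynomial (Fin n) (QS (dp (dp W θ θ0) ρ ρ0)),
      f ∈ PK (dL ρ ρ0 (dL θ θ0 (vd G 1))) ∧ f.coeff 0 = 0 ∧
      ∀ i, PotH f (fun j => dQ ρ ρ0 ρ1 (dQ θ θ0 θ1 (v i j)))
        (MvPolynomial.map (dQ ρ ρ0 ρ1) (H a i)) := by
  classical
  obtain ⟨e, he⟩ : ∃ e : Fin n → Fin N, e = Fin.castLE hN := ⟨_, rfl⟩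
  obtain ⟨M, hM⟩ : ∃ M : Matrix (Fin n) (Fin n) (QS W), M = Matrix.of fun i j => v (e i) j :=
    ⟨_, rfl⟩
  have hMd : IsUnit M.det := by rw [hM, he]; exact hdet
  have hMe : ∀ i j, M i j = v (e i) j := fun i j => by rw [hM]; rfl
  have hinv : ∀ i j, dg (M⁻¹ i j) 1 ≤ vd G 1 :=
    inv_mem M le_rfl _ (fun i j => by rw [hMe]; exact hv _ _) hMd
  obtain ⟨Mi, hMi⟩ : ∃ Mi : Fin n → Fin n → QS W, ∀ j m, Mi j m = M⁻¹ m j :=
    ⟨fun j m => M⁻¹ m j, fun _ _ => rfl⟩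
  obtain ⟨u, hu⟩ : ∃ u : Fin n → Fin n → QS W, ∀ j m, u j m = v (e j) m := ⟨_, fun _ _ => rfl⟩
  have huf : ∀ j, u j = v (e j) := fun j => funext fun m => hu j m
  have hMu : ∀ j l, ∑ m, Mi j m * u l m = if j = l then 1 else 0 := by
    intro j l
    have e1 : ∑ m, Mi j m * u l m = (M * M⁻¹) l j := by
      rw [Matrix.mul_apply]
      apply Finset.sum_congr rfl
      intro m _
      rw [hMi, hu, hMe]
      ring
    rw [e1, Matrix.mul_nonsing_inv _ hMd, Matrix.one_apply]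
    by_cases h : j = l
    · rw [if_pos h, if_pos h.symm]
    · rw [if_neg h, if_neg (fun hc => h hc.symm)]
  have mMi : ∀ j l, dg (Mi j l) 1 ≤ vd G 1 := fun j l => by rw [hMi]; exact hinv _ _
  have mu : ∀ j l, dg (u j l) 1 ≤ vd G 1 := fun j l => by rw [hu]; exact hv _ _
  have kMi : ∀ j l, dg (dQ θ θ0 θ1 (Mi j l)) 1 ≤ dL θ θ0 (vd G 1) := fun j l =>
    dQ_le (mMi j l) θ θ0 θ1
  have ku : ∀ j l, dg (dQ θ θ0 θ1 (u j l)) 1 ≤ dL θ θ0 (vd G 1) := fun j l =>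
    dQ_le (mu j l) θ θ0 θ1
  refine ⟨MvPolynomial.map (dQ ρ ρ0 ρ1) (PFH (fun a b => dQ θ θ0 θ1 (Mi a b))
    (fun a b => dQ θ θ0 θ1 (u a b)) (fun j => H a (e j))),
    map_dQ_PK (PFH_mem kMi ku (fun j => hH a _)) ρ ρ0 ρ1, ?_, fun i => ?_⟩
  · rw [MvPolynomial.coeff_map, PFH_coeff_zero, map_zero]
  have key := loop_LHR G t q z θ0 θ1 Mi u hMu (fun j => b (e j)) (fun c j => H c (e j)) (v i) (b i)
    (fun c => H c i) hq mMi mu (hv i) (fun c j => hH c _) (fun c => hH c i) (h1 i)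
    (fun j => by rw [huf]; exact h1 (e j)) (h3 i) (fun j => h3 (e j))
    ρ0 ρ1 hNR hzG a
  rw [map_LH, map_LH0] at key
  intro x s
  rw [map_PFH]
  exact PFH_eq _ _ _ (fun m => dQ ρ ρ0 ρ1 (dQ θ θ0 θ1 (v i m)))
    (MvPolynomial.map (dQ ρ ρ0 ρ1) (H a i)) key x s

/-- TWO HALVES, lines exact at full depth: if the directions and primitives of two frames of lines through the point
are independent, then the potential (of depth `θ ρ`) is free -/
theorem two_halvesR {W : Sp} {ι1 ι2 ν : Type} [Fintype ι1] [Fintype ι2] [Fintype ν] (G1 : ι1 → QS W)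
    (G2 : ι2 → QS W) {n : ℕ} (t : QS W) (q : Fin n → QS W) (z : ν → QS W) {θ : ℝ} (θ0 : 0 < θ)
    (θ1 : θ ≤ 1) (v1 v2 : Fin n → Fin n → QS W) (b1 b2 : Fin n → ν → QS W)
    (H1 H2 : ν → Fin n → MvPolynomial (Fin n) (QS (dp W θ θ0)))
    (hI : I (vd G1 1) (vd G2 1) ⊥ = 0)
    (hq : Rl q (vd G1 1 ⊔ vd G2 1)) (hv1 : ∀ i j, dg (v1 i j) 1 ≤ vd G1 1)
    (hv2 : ∀ i j, dg (v2 i j) 1 ≤ vd G2 1) (hH1 : ∀ a i, H1 a i ∈ PK (dL θ θ0 (vd G1 1)))
    (hH2 : ∀ a i, H2 a i ∈ PK (dL θ θ0 (vd G2 1)))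
    (hd1 : IsUnit (Matrix.det (Matrix.of fun i j : Fin n => v1 i j)))
    (hd2 : IsUnit (Matrix.det (Matrix.of fun i j : Fin n => v2 i j)))
    (t1 : ∀ i, Helper31.EC.h (dg t 1) (vd (fun k => q k - t * v1 i k) 1 ⊔ vd (b1 i) 1 ⊔
      (vd G1 1 ⊔ vd G2 1)) = 1)
    (t2 : ∀ i, Helper31.EC.h (dg t 1) (vd (fun k => q k - t * v2 i k) 1 ⊔ vd (b2 i) 1 ⊔
      (vd G1 1 ⊔ vd G2 1)) = 1)
    (e1 : ∀ i a, dQ θ θ0 θ1 (z a - b1 i a) =
      MvPolynomial.eval (fun j => dQ θ θ0 θ1 (q j)) (H1 a i))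
    (e2 : ∀ i a, dQ θ θ0 θ1 (z a - b2 i a) =
      MvPolynomial.eval (fun j => dQ θ θ0 θ1 (q j)) (H2 a i))
    {ρ : ℝ} (ρ0 : 0 < ρ) (ρ1 : ρ ≤ 1)
    (hNR : NRu (dp W θ θ0) (fun i => dQ θ θ0 θ1 (z i)) (dL θ θ0 (vd q 1)) ρ)
    (hzG : I (vd z θ) (vd G1 1 ⊔ vd G2 1) (vd q 1) = 0) (m : ℕ)
    (hm : ∀ a i, (H1 a i).totalDegree ≤ m) (hm2 : ∀ a i, (H2 a i).totalDegree ≤ m) (a : ν) :
    ∃ f : MvPolynomial (Fin n) (QS (dp (dp W θ θ0) ρ ρ0)), f ∈ PK ⊥ ∧ f.totalDegree ≤ m ∧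
      (∀ i, PotH f (fun j => dQ ρ ρ0 ρ1 (dQ θ θ0 θ1 (v1 i j)))
        (MvPolynomial.map (dQ ρ ρ0 ρ1) (H1 a i))) ∧
      (∀ i, PotH f (fun j => dQ ρ ρ0 ρ1 (dQ θ θ0 θ1 (v2 i j)))
        (MvPolynomial.map (dQ ρ ρ0 ρ1) (H2 a i))) := by
  classical
  obtain ⟨G, hG⟩ : ∃ G : ι1 ⊕ ι2 → QS W, G = Sum.elim G1 G2 := ⟨_, rfl⟩
  have hGd : vd G 1 = vd G1 1 ⊔ vd G2 1 := by rw [hG, vd_sum]
  rw [← hGd] at hq t1 t2 hzG
  have l1 : vd G1 1 ≤ vd G 1 := by rw [hGd]; exact le_sup_left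
  have l2 : vd G2 1 ≤ vd G 1 := by rw [hGd]; exact le_sup_right
  obtain ⟨v, hva, hvb⟩ : ∃ v : Fin (n + n) → Fin n → QS W, (∀ i, v (Fin.castAdd n i) = v1 i) ∧
      ∀ i, v (Fin.natAdd n i) = v2 i :=
    ⟨Fin.append v1 v2, fun i => Fin.append_left _ _ i, fun i => Fin.append_right _ _ i⟩
  obtain ⟨b, hba, hbb⟩ : ∃ b : Fin (n + n) → ν → QS W, (∀ i, b (Fin.castAdd n i) = b1 i) ∧
      ∀ i, b (Fin.natAdd n i) = b2 i :=
    ⟨Fin.append b1 b2, fun i => Fin.append_left _ _ i, fun i => Fin.append_right _ _ i⟩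
  obtain ⟨H, hHa, hHb⟩ : ∃ H : ν → Fin (n + n) → MvPolynomial (Fin n) (QS (dp W θ θ0)),
      (∀ a i, H a (Fin.castAdd n i) = H1 a i) ∧ ∀ a i, H a (Fin.natAdd n i) = H2 a i :=
    ⟨fun a => Fin.append (H1 a) (H2 a), fun a i => Fin.append_left _ _ i,
      fun a i => Fin.append_right _ _ i⟩
  obtain ⟨f, f1, f2, f3⟩ := loopR G t q z θ0 θ1 v b H (Nat.le_add_right n n) hq
    (fun i j => by
      induction i using Fin.addCases with
      | left i => rw [hva]; exact (hv1 i j).trans l1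
      | right i => rw [hvb]; exact (hv2 i j).trans l2)
    (fun a i => by
      induction i using Fin.addCases with
      | left i => rw [hHa]; exact PK_mono (dL_mono θ θ0 l1) (hH1 a i)
      | right i => rw [hHb]; exact PK_mono (dL_mono θ θ0 l2) (hH2 a i))
    (by
      have e : (Matrix.of fun i j : Fin n => v (Fin.castLE (Nat.le_add_right n n) i) j) =
          Matrix.of fun i j : Fin n => v1 i j := by
        ext i j
        rw [Matrix.of_apply, Matrix.of_apply, ← hva i]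
        rfl
      rw [e]
      exact hd1)
    (fun i => by
      induction i using Fin.addCases with
      | left i =>
        rw [hva, hba]
        exact t1 i
      | right i =>
        rw [hvb, hbb]
        exact t2 i)
    (fun i a => by
      induction i using Fin.addCases with
      | left i =>
        rw [hba, hHa]
        exact e1 i a
      | right i =>
        rw [hbb, hHb]
        exact e2 i a)
    ρ0 ρ1 hNR hzG a
  have p1 : ∀ i, PotH f (fun j => dQ ρ ρ0 ρ1 (dQ θ θ0 θ1 (v1 i j)))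
      (MvPolynomial.map (dQ ρ ρ0 ρ1) (H1 a i)) := by
    intro i
    have h1 := f3 (Fin.castAdd n i)
    rw [hva, hHa] at h1
    exact h1
  have p2 : ∀ i, PotH f (fun j => dQ ρ ρ0 ρ1 (dQ θ θ0 θ1 (v2 i j)))
      (MvPolynomial.map (dQ ρ ρ0 ρ1) (H2 a i)) := by
    intro i
    have h1 := f3 (Fin.natAdd n i)
    rw [hvb, hHb] at h1
    exact h1
  have dd : ∀ w : Fin n → Fin n → QS W, IsUnit (Matrix.det (Matrix.of fun i j : Fin n => w i j)) →
      IsUnit (Matrix.det (Matrix.of fun i j : Fin n =>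
        dQ ρ ρ0 ρ1 (dQ θ θ0 θ1 (w i j)))) := by
    intro w hw
    have h1 := (hw.map (dQ θ θ0 θ1)).map (dQ ρ ρ0 ρ1)
    rw [RingHom.map_det, RingHom.map_det] at h1
    exact h1
  have dk : ∀ (x : QS W) (A : W.L), dg x 1 ≤ A →
      dg (dQ ρ ρ0 ρ1 (dQ θ θ0 θ1 x)) 1 ≤ dL ρ ρ0 (dL θ θ0 A) := by
    intro x A hx
    exact dQ_le (dQ_le hx θ θ0 θ1) ρ ρ0 ρ1
  have hqR := rl_dp (rl_dp hq θ θ0 θ1) ρ ρ0 ρ1
  obtain ⟨m1, m1d⟩ := potH_known (A := dL ρ ρ0 (dL θ θ0 (vd G1 1)))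
    (B := dL ρ ρ0 (dL θ θ0 (vd G 1)))
    (dL_mono ρ ρ0 (dL_mono θ θ0 l1)) f f1 f2
    (Matrix.of fun i j : Fin n => dQ ρ ρ0 ρ1 (dQ θ θ0 θ1 (v1 i j)))
    (fun i j => dk _ _ (hv1 i j)) (dd v1 hd1)
    (fun i => MvPolynomial.map (dQ ρ ρ0 ρ1) (H1 a i)) (fun i => map_dQ_PK (hH1 a i) ρ ρ0 ρ1) m
    (fun i => (totalDegree_map_dQ _ ρ ρ0 ρ1).trans (hm a i)) p1
    (fun j => dQ ρ ρ0 ρ1 (dQ θ θ0 θ1 (q j))) hqR
  obtain ⟨m2, -⟩ := potH_known (A := dL ρ ρ0 (dL θ θ0 (vd G2 1)))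
    (B := dL ρ ρ0 (dL θ θ0 (vd G 1)))
    (dL_mono ρ ρ0 (dL_mono θ θ0 l2)) f f1 f2
    (Matrix.of fun i j : Fin n => dQ ρ ρ0 ρ1 (dQ θ θ0 θ1 (v2 i j)))
    (fun i j => dk _ _ (hv2 i j)) (dd v2 hd2)
    (fun i => MvPolynomial.map (dQ ρ ρ0 ρ1) (H2 a i)) (fun i => map_dQ_PK (hH2 a i) ρ ρ0 ρ1) m
    (fun i => (totalDegree_map_dQ _ ρ ρ0 ρ1).trans (hm2 a i)) p2
    (fun j => dQ ρ ρ0 ρ1 (dQ θ θ0 θ1 (q j))) hqR
  refine ⟨f, ?_, m1d, p1, p2⟩
  intro k
  have h1 := dL_I_zero ρ ρ0 (dL_I_zero θ θ0 hI)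
  rw [dL_bot, dL_bot] at h1
  exact le_of_markov ((m1 k).trans le_sup_left) ((m2 k).trans le_sup_left) h1

end

end Pool.Agent.Helper38.NS
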