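import Pool.Agent.Helper38.NS.AbsU
import Pool.Agent.Helper19.SP.PolyTyp
import Pool.Agent.Helper19.SP.Absorb

/-! Exact entropy calculus: real noises of vectors with deficit and full quotients are small. -/

set_option autoImplicit false

namespace Pool.Agent.Helper38.NS

open Filter Topology Pool.Agent.Helper69.RK
open Pool.Agent.Helper31.EC QS Sp

noncomputable section

variable {S : Sp}

open Classical in
/-- the indicator of an event -/
def indT (E : ∀ k, (S.F k).Ω → Prop) : TR S :=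
  ⟨fun k ω => if E k ω then 1 else 0, fun _ => 1, S.Sub_const zero_le_one,
    Eventually.of_forall fun k ω _ => by
      beta_reduce
      split_ifs
      · rw [abs_one]
      · rw [abs_zero]; exact zero_le_one⟩

open Classical in
theorem ev_indT (E : ∀ k, (S.F k).Ω → Prop) (k : ℕ) (ω : (S.F k).Ω) :
    TR.ev (indT E) k ω = if E k ω then 1 else 0 := rfl

theorem dg_indT (E : ∀ k, (S.F k).Ω → Prop) : TR.dg (indT E) 1 = ⊥ := by
  classical
  apply le_antisymm _ bot_le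
  rw [← cl_bot]
  apply TR.dg_le_of_card _ _ _ 2
  refine Eventually.of_forall fun k ω _ => ?_
  unfold nvf
  refine le_trans (Finset.card_le_card (t := {⌊(1 : ℝ) / S.dl 1 k⌋, ⌊(0 : ℝ) / S.dl 1 k⌋}) ?_)
    (Finset.card_le_two)
  intro x hx
  obtain ⟨ω', _, rfl⟩ := e3_mem_image hx
  rw [ev_indT]
  split_ifs
  · exact Finset.mem_insert_self _ _
  · exact Finset.mem_insert_of_mem (Finset.mem_singleton_self _)

/-- division by a function with a lower bound -/
theorem dg_div (t f : TR S) {r k : ℝ} (hk : k ≤ 1)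
    (hf : ∀ᶠ i in UF, ∀ ω, (S.F i).μ ω ≠ 0 → S.dl r i ≤ |TR.ev f i ω|) :
    TR.dg t (k - r) ≤ TR.dg (t * f) k ⊔ TR.dg f 1 := by
  obtain ⟨K, hK, hb⟩ := t.2
  apply VV.dg_le_dg2 _ _ _ _ _ _ (fun _ _ => True) Typ_true (fun i => 1 + K i)
    ((S.Sub_const zero_le_one).add hK)
  filter_upwards [hf, hb, hK.1] with i h1 h2 h3 ω ω' a b _ _ _ h4 h5 _
  have e1 : |TR.ev t i ω * TR.ev f i ω - TR.ev t i ω' * TR.ev f i ω'| ≤ S.dl k i := h4 0
  have e2 : |TR.ev f i ω - TR.ev f i ω'| ≤ S.dl 1 i := h5 0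
  show |TR.ev t i ω - TR.ev t i ω'| ≤ (1 + K i) * S.dl (k - r) i
  have p1 := S.dl_pos r i
  have p2 := S.dl_pos (k - r) i
  have p3 : S.dl (k - r) i * S.dl r i = S.dl k i := by rw [← S.dl_add]; congr 1; ring
  have p4 : S.dl 1 i ≤ S.dl k i := S.dl_anti hk i
  have b2 : |TR.ev t i ω'| ≤ K i := h2 ω' b
  have e3 : |TR.ev t i ω - TR.ev t i ω'| * |TR.ev f i ω| ≤ (1 + K i) * S.dl k i := by
    rw [← abs_mul]
    have e4 : (TR.ev t i ω - TR.ev t i ω') * TR.ev f i ω =
        (TR.ev t i ω * TR.ev f i ω - TR.ev t i ω' * TR.ev f i ω') -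
          TR.ev t i ω' * (TR.ev f i ω - TR.ev f i ω') := by ring
    rw [e4]
    refine (abs_sub _ _).trans ?_
    rw [abs_mul]
    have e5 : |TR.ev t i ω'| * |TR.ev f i ω - TR.ev f i ω'| ≤ K i * S.dl k i :=
      mul_le_mul b2 (e2.trans p4) (abs_nonneg _) h3
    linarith
  have e6 : |TR.ev t i ω - TR.ev t i ω'| * S.dl r i ≤ (1 + K i) * (S.dl (k - r) i * S.dl r i) := by
    rw [p3]
    exact (mul_le_mul_of_nonneg_left (h1 ω a) (abs_nonneg _)).trans e3
  rw [← mul_assoc] at e6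
  exact le_of_mul_le_mul_right e6 p1

open Classical in
/-- quotients on an event -/
def quoT (E : ∀ k, (S.F k).Ω → Prop) (f g : TR S)
    (h : ∀ k ω, E k ω → |TR.ev f k ω| ≤ |TR.ev g k ω|) : TR S :=
  ⟨fun k ω => if E k ω then TR.ev f k ω / TR.ev g k ω else 0, fun _ => 1, S.Sub_const zero_le_one,
    Eventually.of_forall fun k ω _ => by
      beta_reduce
      split_ifs with hE
      · rw [abs_div]
        exact div_le_one_of_le₀ (h k ω hE) (abs_nonneg _)
      · rw [abs_zero]; exact zero_le_one⟩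

open Classical in
theorem ev_quoT {E : ∀ k, (S.F k).Ω → Prop} {f g : TR S}
    (h : ∀ k ω, E k ω → |TR.ev f k ω| ≤ |TR.ev g k ω|) (k : ℕ) (ω : (S.F k).Ω) :
    TR.ev (quoT E f g h) k ω = if E k ω then TR.ev f k ω / TR.ev g k ω else 0 := rfl

theorem dg_quoT {E : ∀ k, (S.F k).Ω → Prop} {f g : TR S}
    (h : ∀ k ω, E k ω → |TR.ev f k ω| ≤ |TR.ev g k ω|) {r : ℝ}
    (hg : ∀ k ω, E k ω → S.dl r k ≤ |TR.ev g k ω|) :
    TR.dg (quoT E f g h) (1 - r) ≤ TR.dg f 1 ⊔ TR.dg g 1 := by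
  classical
  obtain ⟨A, hA, hcl⟩ := TR.exists_rep_dg ![indT E, f, g] 1 (TR.dg f 1 ⊔ TR.dg g 1) (by
    intro i
    fin_cases i
    · exact (dg_indT E).le.trans bot_le
    · exact le_sup_left
    · exact le_sup_right)
  rw [← hA]
  apply TR.dg_le_cl _ _ _ (fun _ _ => True) Typ_true (fun _ => 2) (S.Sub_const zero_le_two)
  refine Eventually.of_forall fun k ω ω' _ _ _ _ _ hAk => ?_
  have c0 : |TR.ev (indT E) k ω - TR.ev (indT E) k ω'| ≤ S.dl 1 k := hcl k ω ω' hAk 0
  have c1 : |TR.ev f k ω - TR.ev f k ω'| ≤ S.dl 1 k := hcl k ω ω' hAk 1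
  have c2 : |TR.ev g k ω - TR.ev g k ω'| ≤ S.dl 1 k := hcl k ω ω' hAk 2
  have hlt : S.dl 1 k < 1 := by
    unfold Sp.dl
    rw [one_mul]
    exact Real.rpow_lt_one_of_one_lt_of_neg one_lt_two (neg_lt_zero.mpr (S.F k).pos)
  rw [ev_indT, ev_indT] at c0
  rw [ev_quoT, ev_quoT]
  have p1 := S.dl_pos r k
  have p2 := S.dl_pos (1 - r) k
  have p3 : S.dl (1 - r) k * S.dl r k = S.dl 1 k := by rw [← S.dl_add]; congr 1; ring
  by_cases h1 : E k ω
  · by_cases h2 : E k ω'
    · rw [if_pos h1, if_pos h2]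
      have g1 := hg k ω h1
      have g2 := hg k ω' h2
      have n1 : TR.ev g k ω ≠ 0 := by
        intro hc
        rw [hc, abs_zero] at g1
        linarith
      have n2 : TR.ev g k ω' ≠ 0 := by
        intro hc
        rw [hc, abs_zero] at g2
        linarith
      have e1 : TR.ev f k ω / TR.ev g k ω - TR.ev f k ω' / TR.ev g k ω' =
          ((TR.ev f k ω - TR.ev f k ω') - (TR.ev f k ω' / TR.ev g k ω') * (TR.ev g k ω - TR.ev g k ω')) /
            TR.ev g k ω := by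
        field_simp
        ring
      have e2 : |TR.ev f k ω' / TR.ev g k ω'| ≤ 1 := by
        rw [abs_div]
        exact div_le_one_of_le₀ (h k ω' h2) (abs_nonneg _)
      rw [e1, abs_div, div_le_iff₀ (abs_pos.mpr n1)]
      have e3 : |(TR.ev f k ω - TR.ev f k ω') - (TR.ev f k ω' / TR.ev g k ω') *
          (TR.ev g k ω - TR.ev g k ω')| ≤ 2 * S.dl 1 k := by
        refine (abs_sub _ _).trans ?_
        rw [abs_mul]
        have e4 : |TR.ev f k ω' / TR.ev g k ω'| * |TR.ev g k ω - TR.ev g k ω'| ≤ 1 * S.dl 1 k :=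
          mul_le_mul e2 c2 (abs_nonneg _) zero_le_one
        linarith
      refine e3.trans ?_
      rw [← p3]
      have e5 := mul_le_mul_of_nonneg_left g1 (mul_nonneg zero_le_two p2.le)
      linarith
    · rw [if_pos h1, if_neg h2, sub_zero, abs_one] at c0
      exact absurd c0 (not_le.mpr hlt)
  · by_cases h2 : E k ω'
    · rw [if_neg h1, if_pos h2, zero_sub, abs_neg, abs_one] at c0
      exact absurd c0 (not_le.mpr hlt)
    · rw [if_neg h1, if_neg h2, sub_self, abs_zero]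
      positivity

theorem vd_le_iff_dg {ι : Type} [Fintype ι] (f : ι → QS S) {A : S.L} (h : ∀ i, dg (f i) 1 ≤ A) :
    vd f 1 ≤ A := (vd_le f 1 A).mpr h

/-- digits of a full noise of size `2 ^ (-y n)` -/
theorem h_dg_level {τ : QS S} {A : S.L} {y r : ℝ} (hr : Helper31.EC.h (dg τ 1) A = 1 - y) (r1 : r ≤ 1) :
    r - y ≤ Helper31.EC.h (dg τ r) A := by
  have h1 : Helper31.EC.h (dg τ 1) A ≤ Helper31.EC.h (dg τ r) A + (1 - r) := by
    have h2 := h_chain (dg τ r) (dg τ 1) A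
    have h3 : Helper31.EC.h (dg τ r ⊔ dg τ 1) A = Helper31.EC.h (dg τ 1) A := by
      rw [sup_eq_right.mpr (dg_mono τ r1)]
    have h4 : Helper31.EC.h (dg τ 1) (dg τ r ⊔ A) ≤ Helper31.EC.h (dg τ 1) (dg τ r) := h_anti le_sup_left
    have h5 : Helper31.EC.h (dg τ 1) (dg τ r) ≤ 1 - r := h_dg_dg τ r1
    linarith
  linarith

/-- REAL NOISES of vectors with deficit `ρ` and full quotients have size at most `2 ^ (-ρ n)` -/
theorem UQ.noise {ν : Type} [Fintype ν] {z1 z0 s : ν → QS S} {τ : QS S} {B : S.L} {ρ : ℝ}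
    (hu : UQ S z1 B ρ) (hρ : ρ ≤ 1) (e : ∀ i, z1 i = z0 i + τ * s i)
    (i1 : I (vd z1 1) (vd s 1) B = 0)
    (r0 : Helper31.EC.h (dg τ 1) (vd z0 1 ⊔ vd s 1 ⊔ B) = 1) : ∀ i, s i ∈ Id S ρ := by
  classical
  -- the exact level of the velocity
  by_contra hcon
  push Not at hcon
  obtain ⟨i0, hi0⟩ := hcon
  obtain ⟨R, hR⟩ : ∃ R : Set ℝ, R = {r : ℝ | r ≤ 1 ∧ ∀ i, s i ∈ Id S r} := ⟨_, rfl⟩
  have hR0 : (0 : ℝ) ∈ R := by
    rw [hR]
    exact ⟨zero_le_one, fun i => mem_Id_nonpos le_rfl⟩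
  have hRb : BddAbove R := ⟨1, fun r hr => by rw [hR] at hr; exact hr.1⟩
  obtain ⟨t, ht⟩ : ∃ t, t = sSup R := ⟨_, rfl⟩
  have ht0 : 0 ≤ t := by rw [ht]; exact le_csSup hRb hR0
  have ht1 : t ≤ 1 := by
    rw [ht]
    exact csSup_le ⟨0, hR0⟩ fun r hr => by rw [hR] at hr; exact hr.1
  have hst : ∀ i, s i ∈ Id S t := by
    intro i
    apply mem_Id_of_lt ht1
    intro u hu'
    rw [ht] at hu'
    obtain ⟨r, hr, hur⟩ := exists_lt_of_lt_csSup ⟨0, hR0⟩ hu'
    rw [hR] at hr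
    exact Id_anti hur.le (hr.2 i)
  have htρ : t < ρ := by
    by_contra hc
    exact hi0 (Id_anti (not_lt.mp hc) (hst i0))
  obtain ⟨δ, hδ⟩ : ∃ δ, δ = (ρ - t) / 4 := ⟨_, rfl⟩
  have hδ0 : 0 < δ := by rw [hδ]; linarith
  -- representatives
  obtain ⟨f, hf⟩ : ∃ f : ν → TR S, ∀ i, QS.mk (f i) = s i := ⟨fun i => QS.rep (s i), fun i => QS.mk_rep _⟩
  obtain ⟨j, hj⟩ : ∃ j, s j ∉ Id S (t + δ) := by
    by_contra hc
    push Not at hc
    have h1 : t + δ ∈ R := by
      rw [hR]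
      exact ⟨by rw [hδ]; linarith, hc⟩
    have h2 := le_csSup hRb h1
    rw [← ht] at h2
    linarith
  have hE1 : 0 < ul (S.pr (fun k ω => S.dl (t + δ) k ≤ |TR.ev (f j) k ω|)) := by
    have h1 : ¬ TR.Ag (t + δ) (f j) 0 := by
      rw [← mk_mem_Id (by rw [hδ]; linarith), hf]
      exact hj
    rw [TR.ag_iff_levels] at h1
    push Not at h1
    obtain ⟨γ, hγ, h2⟩ := h1
    have h3 := TR.pr_pos_of_not_typ h2
    refine lt_of_lt_of_le h3 (ul_mono (UB_pr _) (UB_pr _) (Eventually.of_forall fun k => ?_))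
    apply FSp.pb_mono
    intro ω _ h4
    beta_reduce at h4 ⊢
    rw [TR.ev_zero, sub_zero, not_le] at h4
    exact (S.dl_anti (by linarith : t + δ - γ ≤ t + δ) k).trans h4.le
  -- the largest coordinate
  obtain ⟨a, E, hE, hEa⟩ : ∃ (a : ν) (E : ∀ k, (S.F k).Ω → Prop), 0 < ul (S.pr E) ∧
      ∀ k ω, E k ω → S.dl (t + δ) k ≤ |TR.ev (f a) k ω| ∧ ∀ i, |TR.ev (f i) k ω| ≤ |TR.ev (f a) k ω| := by
    obtain ⟨en⟩ : Nonempty (ν ≃ Fin (Fintype.card ν)) := ⟨Fintype.equivFin ν⟩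
    obtain ⟨n, _, hn2⟩ := Sp.exists_pr_pos hE1 (Fintype.card ν)
      (fun n k ω => ∃ a : ν, (en a : ℕ) = n ∧ S.dl (t + δ) k ≤ |TR.ev (f a) k ω| ∧
        ∀ i, |TR.ev (f i) k ω| ≤ |TR.ev (f a) k ω|)
      (Eventually.of_forall fun k ω _ h => by
        obtain ⟨a, _, ha⟩ := Finset.exists_max_image Finset.univ (fun i => |TR.ev (f i) k ω|)
          ⟨j, Finset.mem_univ j⟩
        exact ⟨en a, (en a).2.le, a, rfl, h.trans (ha j (Finset.mem_univ j)),
          fun i => ha i (Finset.mem_univ i)⟩)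
    by_cases hn3 : n < Fintype.card ν
    · refine ⟨en.symm ⟨n, hn3⟩, _, hn2, fun k ω h => ?_⟩
      obtain ⟨a, ha, h1⟩ := h
      have h2 : a = en.symm ⟨n, hn3⟩ := by
        rw [Equiv.eq_symm_apply]
        exact Fin.ext ha
      rw [← h2]
      exact h1
    · exfalso
      have h3 : Typ (S := S) (fun k ω => ¬ ∃ a : ν, (en a : ℕ) = n ∧ S.dl (t + δ) k ≤ |TR.ev (f a) k ω| ∧
          ∀ i, |TR.ev (f i) k ω| ≤ |TR.ev (f a) k ω|) := by
        apply Typ_true.mono
        refine Eventually.of_forall fun k ω _ _ hc => ?_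
        obtain ⟨a, ha, _⟩ := hc
        exact hn3 (ha ▸ (en a).2)
      exact Sp.not_typ_of_pr hn2 h3
  -- the direction
  obtain ⟨l, hl⟩ : ∃ l, l = 1 - (t + δ) := ⟨_, rfl⟩
  have hl0 : 0 ≤ l := by rw [hl, hδ]; linarith
  have hl1 : l ≤ 1 := by rw [hl]; linarith
  obtain ⟨u, hu'⟩ : ∃ u : ν → TR S, ∀ i, u i = quoT E (f i) (f a) (fun k ω h => (hEa k ω h).2 i) :=
    ⟨_, fun _ => rfl⟩
  have hud : ∀ i, dg (QS.mk (u i)) l ≤ vd s 1 := by
    intro i
    rw [dg_mk _ hl1, hu', hl]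
    refine (dg_quoT _ fun k ω h => (hEa k ω h).1).trans ?_
    rw [← dg_mk _ le_rfl, ← dg_mk _ le_rfl, hf, hf]
    exact sup_le (dg_le_vd s 1 i) (dg_le_vd s 1 a)
  have hw0 : ∀ i, ∃ w : QS S, QS.mk (u i) - w ∈ Id S l ∧ dg w 1 = dg (QS.mk (u i)) l := fun i =>
    Pool.Agent.Helper96.FLT.exists_rd _ hl0 hl1
  choose w0 hw1 hw2 using hw0
  obtain ⟨w, hw⟩ : ∃ w : ν → QS S, ∀ i, w i = if i = a then 1 else w0 i := ⟨_, fun _ => rfl⟩
  have hwa : w a = 1 := by rw [hw, if_pos rfl]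
  have hwd : ∀ i, dg (w i) 1 ≤ vd s 1 := by
    intro i
    rw [hw]
    split_ifs
    · exact (Kn S 1 le_rfl _).one_mem
    · rw [hw2]
      exact hud i
  -- the velocity is a multiple of the direction
  have hsw : ∀ i, QS.rest E hE (s i - s a * w i) ∈ Id (S.rest E) (1 - δ) := by
    intro i
    by_cases hia : i = a
    · rw [hia, hwa, mul_one, sub_self, map_zero]
      exact (Id _ _).zero_mem
    · have e1 : s i - s a * w i = (s i - s a * QS.mk (u i)) + s a * (QS.mk (u i) - w0 i) := by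
        rw [hw, if_neg hia]
        ring
      rw [e1, map_add]
      apply (Id _ _).add_mem
      · have e2 : QS.rest E hE (s i - s a * QS.mk (u i)) = 0 := by
          rw [← hf i, ← hf a, ← map_mul, ← map_sub, QS.rest_mk, ← map_zero QS.mk]
          apply QS.mk_eq.mpr
          apply Ag_of_pt
          filter_upwards [rest_pos hE] with k hk ω hω
          have h1 := (hk ω hω).2
          have h2 := (hEa k ω h1).1
          have h3 : TR.ev (f a) k ω ≠ 0 := by
            intro hc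
            rw [hc, abs_zero] at h2
            linarith [S.dl_pos (t + δ) k]
          have h4 : TR.ev (TR.rest E (f i - f a * u i)) k ω = 0 := by
            show TR.ev (f i) k ω - TR.ev (f a) k ω * TR.ev (u i) k ω = 0
            rw [hu', ev_quoT, if_pos h1, mul_div_cancel₀ _ h3, sub_self]
          rw [h4, TR.ev_zero, sub_self, abs_zero]
          exact ((S.rest E).dl_pos 1 k).le
        rw [e2]
        exact (Id _ _).zero_mem
      · apply rest_mem_Id E hE (by linarith)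
        have h1 := Pool.Agent.Helper96.FLT.mul_mem_Id (hst a) (hw1 i)
        rwa [show t + l = 1 - δ by rw [hl]; ring] at h1
  -- minors
  obtain ⟨k, hk⟩ : ∃ k, k = 1 - δ := ⟨_, rfl⟩
  have hk1 : k ≤ 1 := by rw [hk]; linarith
  have hk0 : 0 ≤ k := by rw [hk, hδ]; linarith
  obtain ⟨m, hm⟩ : ∃ m : ν → QS S, ∀ i, m i = z1 i * w a - z1 a * w i := ⟨_, fun _ => rfl⟩
  have hm' : ∀ i, m i = z1 i - z1 a * w i := fun i => by rw [hm, hwa, mul_one]
  have hQ : Helper31.EC.h (vd m k) (B ⊔ vd s 1) = (Fintype.card ν - 1) * k := by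
    have h1 := hu.Q S (Pj.id S) (vd s 1) w a k hk0 hk1
      (by
        rw [Pj.id_map, Pj.id_map]
        exact I_zero_mono i1 ((vd_mono z1 hk1).trans le_sup_left) le_sup_left)
      (fun i => by rw [Pj.id_map]; exact (hwd i).trans le_sup_right)
      (by rw [hwa]; exact isUnit_one)
    rw [Pj.id_map] at h1
    have h2 : (fun i => (Pj.id S).qs (z1 i) * w a - (Pj.id S).qs (z1 a) * w i) = m := by
      funext i
      rw [Pj.id_qs, Pj.id_qs, hm]
    rw [h2] at h1
    exact h1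
  have hcard : 1 ≤ Fintype.card ν := Fintype.card_pos_iff.mpr ⟨a⟩
  have hQE : Helper31.EC.h (restL E hE (vd m k)) (restL E hE (B ⊔ vd s 1)) =
      (Fintype.card ν - 1) * k := by
    apply Sp.h_rest_max E hE hQ
    intro E' hE'
    have h1 : vd m k = (Finset.univ.erase a).sup fun i => dg (m i) k := by
      unfold vd
      rw [← Finset.insert_erase (Finset.mem_univ a), Finset.sup_insert, Finset.erase_insert
        (Finset.notMem_erase a _)]
      have h2 : m a = 0 := by rw [hm]; ring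
      rw [h2, dg_of_mem_Id ((Id S k).zero_mem) le_rfl hk1, bot_sup_eq]
    rw [h1, Sp.restL_finsup]
    refine (h_finsup_le _ _ _).trans ?_
    have h3 : ∀ i ∈ Finset.univ.erase a, Helper31.EC.h (restL E' hE' (dg (m i) k))
        (restL E' hE' (B ⊔ vd s 1)) ≤ k := by
      intro i _
      rw [← QS.rest_dg]
      exact (h_le_H _ _).trans (H_dg_le _ hk0)
    refine (Finset.sum_le_sum h3).trans (le_of_eq ?_)
    rw [Finset.sum_const, Finset.card_erase_of_mem (Finset.mem_univ a), Finset.card_univ,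
      nsmul_eq_mul, Nat.cast_sub hcard, Nat.cast_one]
  have hU : Helper31.EC.h (restL E hE (vd z1 k)) (restL E hE B) ≤ (Fintype.card ν - ρ) * k := by
    have h1 := hu.U S (Pj.id S) E hE k hk0 hk1
    rw [Pj.id_map, Pj.id_map] at h1
    exact h1
  -- the count
  have hmz : vd m k ≤ vd z1 k ⊔ (B ⊔ vd s 1) := by
    rw [vd_le]
    intro i
    rw [hm']
    apply (Kn S k hk1 _).sub_mem
    · exact (dg_le_vd z1 k i).trans le_sup_left
    · apply (Kn S k hk1 _).mul_mem
      · exact (dg_le_vd z1 k a).trans le_sup_left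
      · exact ((dg_mono (w i) hk1).trans (hwd i)).trans (by order)
  obtain ⟨A, hA⟩ : ∃ A, A = restL E hE (vd z0 1 ⊔ vd s 1 ⊔ B) := ⟨_, rfl⟩
  have hmA : restL E hE (vd m k) ⊔ restL E hE (B ⊔ vd s 1) ≤ A := by
    apply sup_le
    · rw [← QS.rest_vd, vd_le]
      intro i
      have h1 : QS.rest E hE (m i) - QS.rest E hE (z0 i - z0 a * w i) ∈ Id (S.rest E) k := by
        rw [← map_sub]
        have h2 : m i - (z0 i - z0 a * w i) = τ * (s i - s a * w i) := by
          rw [hm', e i, e a]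
          ring
        rw [h2, map_mul, hk]
        exact (Id _ _).mul_mem_left _ (hsw i)
      rw [dg_eq_of_sub_mem h1 le_rfl hk1, hA, QS.rest_dg]
      apply restL_mono
      apply (Kn S k hk1 _).sub_mem
      · exact ((dg_mono (z0 i) hk1).trans (dg_le_vd z0 1 i)).trans (by order)
      · apply (Kn S k hk1 _).mul_mem
        · exact ((dg_mono (z0 a) hk1).trans (dg_le_vd z0 1 a)).trans (by order)
        · exact ((dg_mono (w i) hk1).trans (hwd i)).trans (by order)
    · rw [hA]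
      exact restL_mono E hE (by order)
  have hreal : Helper31.EC.h (dg (QS.rest E hE τ) 1) A = 1 := by
    have h1 : Rl (fun _ : Unit => τ) (vd z0 1 ⊔ vd s 1 ⊔ B) := by
      unfold Rl
      rw [vd_unit, r0, Fintype.card_unit]
      norm_num
    have h2 := h1.rest E hE
    rw [← hA] at h2
    unfold Rl at h2
    rw [vd_unit, Fintype.card_unit] at h2
    rw [h2]
    norm_num
  have hkr : 0 ≤ k - (t + δ) := by rw [hk, hδ]; linarith
  have hlev := (Pool.Agent.Helper96.FLT.h_dg_of_full hreal hkr (by linarith : k - (t + δ) ≤ 1)).1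
  obtain ⟨T, hT⟩ : ∃ T : TR S, QS.mk T = τ := ⟨QS.rep τ, QS.mk_rep τ⟩
  have hdiv : dg (QS.rest E hE τ) (k - (t + δ)) ≤
      dg (QS.rest E hE (τ * s a)) k ⊔ dg (QS.rest E hE (s a)) 1 := by
    have h1 := dg_div (TR.rest E T) (TR.rest E (f a)) (r := t + δ) hk1 (by
      filter_upwards [rest_pos hE] with k hk ω hω
      exact (hEa k ω (hk ω hω).2).1)
    rw [← map_mul, ← dg_mk _ hk1, ← dg_mk _ le_rfl, ← dg_mk _ (by linarith : k - (t + δ) ≤ 1),
      ← QS.rest_mk E hE, ← QS.rest_mk E hE, ← QS.rest_mk E hE, map_mul, hT, hf] at h1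
    exact h1
  have hz1a : dg (QS.rest E hE (τ * s a)) k ≤ restL E hE (vd z1 k) ⊔ A := by
    have h1 : τ * s a = z1 a - z0 a := by rw [e a]; ring
    rw [h1, QS.rest_dg, hA, ← restL_sup]
    apply restL_mono
    apply (Kn S k hk1 _).sub_mem
    · exact (dg_le_vd z1 k a).trans le_sup_left
    · exact ((dg_mono (z0 a) hk1).trans (dg_le_vd z0 1 a)).trans (by order)
  have hsaA : dg (QS.rest E hE (s a)) 1 ≤ A := by
    rw [QS.rest_dg, hA]
    exact restL_mono E hE ((dg_le_vd s 1 a).trans (by order))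
  have c1 : k - (t + δ) ≤ Helper31.EC.h (restL E hE (vd z1 k)) A := by
    rw [← hlev]
    have h1 : dg (QS.rest E hE τ) (k - (t + δ)) ≤ restL E hE (vd z1 k) ⊔ A :=
      hdiv.trans (sup_le hz1a (hsaA.trans le_sup_right))
    have h2 := h_mono (B := A) h1
    rw [h_sup_right_of_le le_rfl] at h2
    exact h2
  have c2 : Helper31.EC.h (restL E hE (vd m k) ⊔ restL E hE (vd z1 k)) (restL E hE (B ⊔ vd s 1)) =
      Helper31.EC.h (restL E hE (vd m k)) (restL E hE (B ⊔ vd s 1)) +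
      Helper31.EC.h (restL E hE (vd z1 k)) (restL E hE (vd m k) ⊔ restL E hE (B ⊔ vd s 1)) :=
    h_chain _ _ _
  have c3 : Helper31.EC.h (restL E hE (vd m k) ⊔ restL E hE (vd z1 k)) (restL E hE (B ⊔ vd s 1)) =
      Helper31.EC.h (restL E hE (vd z1 k)) (restL E hE (B ⊔ vd s 1)) := by
    apply h_congr_left
    · have h1 := restL_mono E hE hmz
      rw [restL_sup] at h1
      order
    · order
  have c4 : Helper31.EC.h (restL E hE (vd z1 k)) (restL E hE (B ⊔ vd s 1)) ≤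
      Helper31.EC.h (restL E hE (vd z1 k)) (restL E hE B) := h_anti (restL_mono E hE le_sup_left)
  have c5 : Helper31.EC.h (restL E hE (vd z1 k)) A ≤
      Helper31.EC.h (restL E hE (vd z1 k)) (restL E hE (vd m k) ⊔ restL E hE (B ⊔ vd s 1)) :=
    h_anti hmA
  rw [hQE] at c2
  have c6 : ρ * k ≤ t + δ := by nlinarith
  rw [hk] at c6
  nlinarith

/-- real noises of vectors with deficit and full quotients -/
theorem UQ.nru {W : Sp} {ν : Type} [Fintype ν] {z : ν → QS W} {B : W.L} {ρ : ℝ} (hρ : ρ ≤ 1)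
    (hu : UQ W z B ρ) : NRu W z B ρ := by
  intro D P z0 τ s h1 h2 h3
  refine (hu.pull P).noise hρ h1 ?_ h3
  rw [P.qs_vd]
  exact h2

end

end Pool.Agent.Helper38.NS
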