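import Pool.Agent.Helper38.NS.Noise
import Pool.Agent.Helper38.NS.UQi

/-! Exact entropy calculus: small real noises of vectors with deficit and full quotients at all levels. -/

set_option autoImplicit false

namespace Pool.Agent.Helper38.NS

open Filter Topology Pool.Agent.Helper69.RK
open Pool.Agent.Helper31.EC QS Sp

noncomputable section

variable {S : Sp}

/-- REAL NOISES of size `2 ^ (-y n)` of vectors with deficit `ρ` and full quotients: the velocity has size at most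
`2 ^ (-ρ (1 - y) n)` -/
theorem UQi.noiseI {ν : Type} [Fintype ν] {z1 z0 s : ν → QS S} {τ : QS S} {B : S.L} {ρ y : ℝ}
    (hu : UQi S z1 B ρ) (hρ : ρ ≤ 1) (hy0 : 0 ≤ y) (hy1 : y ≤ 1) (e : ∀ i, z1 i = z0 i + τ * s i)
    (i1 : I (vd z1 1) (vd s 1) B = 0) (hτ : τ ∈ Id S y)
    (r0 : Helper31.EC.h (dg τ 1) (vd z0 1 ⊔ vd s 1 ⊔ B) = 1 - y) : ∀ i, s i ∈ Id S (ρ * (1 - y)) := by
  classical
  obtain ⟨ρ', hρ'⟩ : ∃ ρ', ρ' = ρ * (1 - y) := ⟨_, rfl⟩
  rw [← hρ']
  have hρy : ρ' ≤ 1 - y := by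
    rw [hρ']
    calc ρ * (1 - y) ≤ 1 * (1 - y) := mul_le_mul_of_nonneg_right hρ (by linarith)
      _ = 1 - y := one_mul _
  -- the exact level of the velocity
  by_contra hcon
  push Not at hcon
  obtain ⟨i0, hi0⟩ := hcon
  obtain ⟨R, hR⟩ : ∃ R : Set ℝ, R = {r : ℝ | r ≤ 1 ∧ ∀ i, s i ∈ Id S r} := ⟨_, rfl⟩
  have hR0 : (0 : ℝ) ∈ R := by
    rw [hR]
    exact ⟨zero_le_one, fun i => mem_Id_nonpos le_rfl⟩
  have hRb : BddAbove R := ⟨1, fun r hr => by rw [hR] at hr; exact hr.1⟩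
  obtain ⟨t, ht⟩ : ∃ t, t = sSup R := ⟨_, rfl⟩
  have ht0 : 0 ≤ t := by rw [ht]; exact le_csSup hRb hR0
  have ht1 : t ≤ 1 := by
    rw [ht]
    exact csSup_le ⟨0, hR0⟩ fun r hr => by rw [hR] at hr; exact hr.1
  have hst : ∀ i, s i ∈ Id S t := by
    intro i
    apply mem_Id_of_lt ht1
    intro u hu'
    rw [ht] at hu'
    obtain ⟨r, hr, hur⟩ := exists_lt_of_lt_csSup ⟨0, hR0⟩ hu'
    rw [hR] at hr
    exact Id_anti hur.le (hr.2 i)
  have htρ : t < ρ' := by
    by_contra hc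
    exact hi0 (Id_anti (not_lt.mp hc) (hst i0))
  obtain ⟨δ, hδ⟩ : ∃ δ, δ = (ρ' - t) / 4 := ⟨_, rfl⟩
  have hδ0 : 0 < δ := by rw [hδ]; linarith
  -- representatives
  obtain ⟨f, hf⟩ : ∃ f : ν → TR S, ∀ i, QS.mk (f i) = s i := ⟨fun i => QS.rep (s i), fun i => QS.mk_rep _⟩
  obtain ⟨j, hj⟩ : ∃ j, s j ∉ Id S (t + δ) := by
    by_contra hc
    push Not at hc
    have h1 : t + δ ∈ R := by
      rw [hR]
      exact ⟨by rw [hδ]; linarith, hc⟩
    have h2 := le_csSup hRb h1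
    rw [← ht] at h2
    linarith
  have hE1 : 0 < ul (S.pr (fun k ω => S.dl (t + δ) k ≤ |TR.ev (f j) k ω|)) := by
    have h1 : ¬ TR.Ag (t + δ) (f j) 0 := by
      rw [← mk_mem_Id (by rw [hδ]; linarith), hf]
      exact hj
    rw [TR.ag_iff_levels] at h1
    push Not at h1
    obtain ⟨γ, hγ, h2⟩ := h1
    have h3 := TR.pr_pos_of_not_typ h2
    refine lt_of_lt_of_le h3 (ul_mono (UB_pr _) (UB_pr _) (Eventually.of_forall fun k => ?_))
    apply FSp.pb_mono
    intro ω _ h4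
    beta_reduce at h4 ⊢
    rw [TR.ev_zero, sub_zero, not_le] at h4
    exact (S.dl_anti (by linarith : t + δ - γ ≤ t + δ) k).trans h4.le
  -- the largest coordinate
  obtain ⟨a, E, hE, hEa⟩ : ∃ (a : ν) (E : ∀ k, (S.F k).Ω → Prop), 0 < ul (S.pr E) ∧
      ∀ k ω, E k ω → S.dl (t + δ) k ≤ |TR.ev (f a) k ω| ∧ ∀ i, |TR.ev (f i) k ω| ≤ |TR.ev (f a) k ω| := by
    obtain ⟨en⟩ : Nonempty (ν ≃ Fin (Fintype.card ν)) := ⟨Fintype.equivFin ν⟩
    obtain ⟨n, _, hn2⟩ := Sp.exists_pr_pos hE1 (Fintype.card ν)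
      (fun n k ω => ∃ a : ν, (en a : ℕ) = n ∧ S.dl (t + δ) k ≤ |TR.ev (f a) k ω| ∧
        ∀ i, |TR.ev (f i) k ω| ≤ |TR.ev (f a) k ω|)
      (Eventually.of_forall fun k ω _ h => by
        obtain ⟨a, _, ha⟩ := Finset.exists_max_image Finset.univ (fun i => |TR.ev (f i) k ω|)
          ⟨j, Finset.mem_univ j⟩
        exact ⟨en a, (en a).2.le, a, rfl, h.trans (ha j (Finset.mem_univ j)),
          fun i => ha i (Finset.mem_univ i)⟩)
    by_cases hn3 : n < Fintype.card ν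
    · refine ⟨en.symm ⟨n, hn3⟩, _, hn2, fun k ω h => ?_⟩
      obtain ⟨a, ha, h1⟩ := h
      have h2 : a = en.symm ⟨n, hn3⟩ := by
        rw [Equiv.eq_symm_apply]
        exact Fin.ext ha
      rw [← h2]
      exact h1
    · exfalso
      have h3 : Typ (S := S) (fun k ω => ¬ ∃ a : ν, (en a : ℕ) = n ∧ S.dl (t + δ) k ≤ |TR.ev (f a) k ω| ∧
          ∀ i, |TR.ev (f i) k ω| ≤ |TR.ev (f a) k ω|) := by
        apply Typ_true.mono
        refine Eventually.of_forall fun k ω _ _ hc => ?_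
        obtain ⟨a, ha, _⟩ := hc
        exact hn3 (ha ▸ (en a).2)
      exact Sp.not_typ_of_pr hn2 h3
  -- the direction
  obtain ⟨l, hl⟩ : ∃ l, l = 1 - (t + δ) := ⟨_, rfl⟩
  have hl0 : 0 ≤ l := by rw [hl, hδ]; linarith
  have hl1 : l ≤ 1 := by rw [hl]; linarith
  obtain ⟨u, hu'⟩ : ∃ u : ν → TR S, ∀ i, u i = quoT E (f i) (f a) (fun k ω h => (hEa k ω h).2 i) :=
    ⟨_, fun _ => rfl⟩
  have hud : ∀ i, dg (QS.mk (u i)) l ≤ vd s 1 := by
    intro i
    rw [dg_mk _ hl1, hu', hl]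
    refine (dg_quoT _ fun k ω h => (hEa k ω h).1).trans ?_
    rw [← dg_mk _ le_rfl, ← dg_mk _ le_rfl, hf, hf]
    exact sup_le (dg_le_vd s 1 i) (dg_le_vd s 1 a)
  have hw0 : ∀ i, ∃ w : QS S, QS.mk (u i) - w ∈ Id S l ∧ dg w 1 = dg (QS.mk (u i)) l := fun i =>
    Pool.Agent.Helper96.FLT.exists_rd _ hl0 hl1
  choose w0 hw1 hw2 using hw0
  obtain ⟨w, hw⟩ : ∃ w : ν → QS S, ∀ i, w i = if i = a then 1 else w0 i := ⟨_, fun _ => rfl⟩
  have hwa : w a = 1 := by rw [hw, if_pos rfl]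
  have hwd : ∀ i, dg (w i) 1 ≤ vd s 1 := by
    intro i
    rw [hw]
    split_ifs
    · exact (Kn S 1 le_rfl _).one_mem
    · rw [hw2]
      exact hud i
  -- the velocity is a multiple of the direction
  have hsw : ∀ i, QS.rest E hE (s i - s a * w i) ∈ Id (S.rest E) (1 - δ) := by
    intro i
    by_cases hia : i = a
    · rw [hia, hwa, mul_one, sub_self, map_zero]
      exact (Id _ _).zero_mem
    · have e1 : s i - s a * w i = (s i - s a * QS.mk (u i)) + s a * (QS.mk (u i) - w0 i) := by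
        rw [hw, if_neg hia]
        ring
      rw [e1, map_add]
      apply (Id _ _).add_mem
      · have e2 : QS.rest E hE (s i - s a * QS.mk (u i)) = 0 := by
          rw [← hf i, ← hf a, ← map_mul, ← map_sub, QS.rest_mk, ← map_zero QS.mk]
          apply QS.mk_eq.mpr
          apply Ag_of_pt
          filter_upwards [rest_pos hE] with k hk ω hω
          have h1 := (hk ω hω).2
          have h2 := (hEa k ω h1).1
          have h3 : TR.ev (f a) k ω ≠ 0 := by
            intro hc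
            rw [hc, abs_zero] at h2
            linarith [S.dl_pos (t + δ) k]
          have h4 : TR.ev (TR.rest E (f i - f a * u i)) k ω = 0 := by
            show TR.ev (f i) k ω - TR.ev (f a) k ω * TR.ev (u i) k ω = 0
            rw [hu', ev_quoT, if_pos h1, mul_div_cancel₀ _ h3, sub_self]
          rw [h4, TR.ev_zero, sub_self, abs_zero]
          exact ((S.rest E).dl_pos 1 k).le
        rw [e2]
        exact (Id _ _).zero_mem
      · apply rest_mem_Id E hE (by linarith)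
        have h1 := Pool.Agent.Helper96.FLT.mul_mem_Id (hst a) (hw1 i)
        rwa [show t + l = 1 - δ by rw [hl]; ring] at h1
  -- minors
  obtain ⟨k, hk⟩ : ∃ k, k = 1 - δ := ⟨_, rfl⟩
  have hk1 : k ≤ 1 := by rw [hk]; linarith
  have hyk : y ≤ k := by rw [hk, hδ]; linarith
  have hk0 : 0 ≤ k := hy0.trans hyk
  obtain ⟨m, hm⟩ : ∃ m : ν → QS S, ∀ i, m i = z1 i * w a - z1 a * w i := ⟨_, fun _ => rfl⟩
  have hm' : ∀ i, m i = z1 i - z1 a * w i := fun i => by rw [hm, hwa, mul_one]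
  obtain ⟨C, hC⟩ : ∃ C, C = B ⊔ vd s 1 ⊔ vd z1 y := ⟨_, rfl⟩
  have hQ : Helper31.EC.h (vd m k) C = (Fintype.card ν - 1) * (k - y) := by
    have h1 := hu.Qi S (Pj.id S) (vd s 1) w a y k hy0 hyk hk1
      (by
        rw [Pj.id_map, Pj.id_map]
        exact I_zero_mono i1 ((vd_mono z1 hk1).trans le_sup_left) le_sup_left)
      (fun i => by rw [Pj.id_map]; exact (hwd i).trans le_sup_right)
      (by rw [hwa]; exact isUnit_one)
    rw [Pj.id_map, Pj.id_map, ← hC] at h1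
    have h2 : (fun i => (Pj.id S).qs (z1 i) * w a - (Pj.id S).qs (z1 a) * w i) = m := by
      funext i
      rw [Pj.id_qs, Pj.id_qs, hm]
    rw [h2] at h1
    exact h1
  have hcard : 1 ≤ Fintype.card ν := Fintype.card_pos_iff.mpr ⟨a⟩
  have hmy : vd m y ≤ C := by
    rw [vd_le]
    intro i
    rw [hm']
    have c1 : vd z1 y ≤ C := by rw [hC]; exact le_sup_right
    have c2 : vd s 1 ≤ C := by rw [hC]; exact le_sup_right.trans le_sup_left
    apply (Kn S y hy1 _).sub_mem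
    · exact (dg_le_vd z1 y i).trans c1
    · apply (Kn S y hy1 _).mul_mem
      · exact (dg_le_vd z1 y a).trans c1
      · exact ((dg_mono (w i) hy1).trans (hwd i)).trans c2
  have hQE : Helper31.EC.h (restL E hE (vd m k)) (restL E hE C) =
      (Fintype.card ν - 1) * (k - y) := by
    apply Sp.h_rest_max E hE hQ
    intro E' hE'
    have h1 : vd m k = (Finset.univ.erase a).sup fun i => dg (m i) k := by
      unfold vd
      rw [← Finset.insert_erase (Finset.mem_univ a), Finset.sup_insert, Finset.erase_insert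
        (Finset.notMem_erase a _)]
      have h2 : m a = 0 := by rw [hm]; ring
      rw [h2, dg_of_mem_Id ((Id S k).zero_mem) le_rfl hk1, bot_sup_eq]
    rw [h1, Sp.restL_finsup]
    refine (h_finsup_le _ _ _).trans ?_
    have h3 : ∀ i ∈ Finset.univ.erase a, Helper31.EC.h (restL E' hE' (dg (m i) k))
        (restL E' hE' C) ≤ k - y := by
      intro i _
      rw [← QS.rest_dg]
      have h4 : dg (QS.rest E' hE' (m i)) y ≤ restL E' hE' C := by
        rw [QS.rest_dg]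
        exact restL_mono E' hE' ((dg_le_vd m y i).trans hmy)
      exact (h_anti h4).trans (h_dg_dg _ hyk)
    refine (Finset.sum_le_sum h3).trans (le_of_eq ?_)
    rw [Finset.sum_const, Finset.card_erase_of_mem (Finset.mem_univ a), Finset.card_univ,
      nsmul_eq_mul, Nat.cast_sub hcard, Nat.cast_one]
  have hU : Helper31.EC.h (restL E hE (vd z1 k)) (restL E hE (B ⊔ vd z1 y)) ≤
      (Fintype.card ν - ρ) * (k - y) := by
    have h1 := hu.Ui S (Pj.id S) E hE y k hy0 hyk hk1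
    rw [Pj.id_map, Pj.id_map] at h1
    exact h1
  -- the count
  have hsC : vd s 1 ≤ C := by rw [hC]; exact le_sup_right.trans le_sup_left
  have hmz : vd m k ≤ vd z1 k ⊔ C := by
    rw [vd_le]
    intro i
    rw [hm']
    apply (Kn S k hk1 _).sub_mem
    · exact (dg_le_vd z1 k i).trans le_sup_left
    · apply (Kn S k hk1 _).mul_mem
      · exact (dg_le_vd z1 k a).trans le_sup_left
      · exact ((dg_mono (w i) hk1).trans (hwd i)).trans (by order)
  obtain ⟨A, hA⟩ : ∃ A, A = restL E hE (vd z0 1 ⊔ vd s 1 ⊔ B) := ⟨_, rfl⟩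
  have hzy : vd z1 y ≤ vd z0 1 := by
    rw [vd_le]
    intro i
    have h1 : z1 i - z0 i ∈ Id S y := by
      rw [e i, add_sub_cancel_left]
      exact (Id S y).mul_mem_right _ hτ
    rw [dg_eq_of_sub_mem h1 le_rfl hy1]
    exact (dg_mono (z0 i) hy1).trans (dg_le_vd z0 1 i)
  have hmA : restL E hE (vd m k) ⊔ restL E hE C ≤ A := by
    apply sup_le
    · rw [← QS.rest_vd, vd_le]
      intro i
      have h1 : QS.rest E hE (m i) - QS.rest E hE (z0 i - z0 a * w i) ∈ Id (S.rest E) k := by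
        rw [← map_sub]
        have h2 : m i - (z0 i - z0 a * w i) = τ * (s i - s a * w i) := by
          rw [hm', e i, e a]
          ring
        rw [h2, map_mul, hk]
        exact (Id _ _).mul_mem_left _ (hsw i)
      rw [dg_eq_of_sub_mem h1 le_rfl hk1, hA, QS.rest_dg]
      apply restL_mono
      apply (Kn S k hk1 _).sub_mem
      · exact ((dg_mono (z0 i) hk1).trans (dg_le_vd z0 1 i)).trans (by order)
      · apply (Kn S k hk1 _).mul_mem
        · exact ((dg_mono (z0 a) hk1).trans (dg_le_vd z0 1 a)).trans (by order)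
        · exact ((dg_mono (w i) hk1).trans (hwd i)).trans (by order)
    · rw [hA, hC]
      exact restL_mono E hE (by order)
  have hreal : Helper31.EC.h (dg (QS.rest E hE τ) 1) A = 1 - y := by
    rw [QS.rest_dg, hA]
    apply Sp.h_rest_max E hE r0
    intro E' hE'
    rw [← QS.rest_dg]
    exact Pool.Agent.Helper96.FLT.h_dg_of_mem hy1 (rest_mem_Id E' hE' hy1 hτ) _
  have hkr : 0 ≤ k - (t + δ) := by rw [hk, hδ]; linarith
  have hlev := h_dg_level hreal (by linarith : k - (t + δ) ≤ 1)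
  obtain ⟨T, hT⟩ : ∃ T : TR S, QS.mk T = τ := ⟨QS.rep τ, QS.mk_rep τ⟩
  have hdiv : dg (QS.rest E hE τ) (k - (t + δ)) ≤
      dg (QS.rest E hE (τ * s a)) k ⊔ dg (QS.rest E hE (s a)) 1 := by
    have h1 := dg_div (TR.rest E T) (TR.rest E (f a)) (r := t + δ) hk1 (by
      filter_upwards [rest_pos hE] with k hk ω hω
      exact (hEa k ω (hk ω hω).2).1)
    rw [← map_mul, ← dg_mk _ hk1, ← dg_mk _ le_rfl, ← dg_mk _ (by linarith : k - (t + δ) ≤ 1),
      ← QS.rest_mk E hE, ← QS.rest_mk E hE, ← QS.rest_mk E hE, map_mul, hT, hf] at h1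
    exact h1
  have hz1a : dg (QS.rest E hE (τ * s a)) k ≤ restL E hE (vd z1 k) ⊔ A := by
    have h1 : τ * s a = z1 a - z0 a := by rw [e a]; ring
    rw [h1, QS.rest_dg, hA, ← restL_sup]
    apply restL_mono
    apply (Kn S k hk1 _).sub_mem
    · exact (dg_le_vd z1 k a).trans le_sup_left
    · exact ((dg_mono (z0 a) hk1).trans (dg_le_vd z0 1 a)).trans (by order)
  have hsaA : dg (QS.rest E hE (s a)) 1 ≤ A := by
    rw [QS.rest_dg, hA]
    exact restL_mono E hE ((dg_le_vd s 1 a).trans (by order))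
  have c1 : k - (t + δ) - y ≤ Helper31.EC.h (restL E hE (vd z1 k)) A := by
    refine hlev.trans ?_
    have h1 : dg (QS.rest E hE τ) (k - (t + δ)) ≤ restL E hE (vd z1 k) ⊔ A :=
      hdiv.trans (sup_le hz1a (hsaA.trans le_sup_right))
    have h2 := h_mono (B := A) h1
    rw [h_sup_right_of_le le_rfl] at h2
    exact h2
  have c2 : Helper31.EC.h (restL E hE (vd m k) ⊔ restL E hE (vd z1 k)) (restL E hE C) =
      Helper31.EC.h (restL E hE (vd m k)) (restL E hE C) +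
      Helper31.EC.h (restL E hE (vd z1 k)) (restL E hE (vd m k) ⊔ restL E hE C) :=
    h_chain _ _ _
  have c3 : Helper31.EC.h (restL E hE (vd m k) ⊔ restL E hE (vd z1 k)) (restL E hE C) =
      Helper31.EC.h (restL E hE (vd z1 k)) (restL E hE C) := by
    apply h_congr_left
    · have h1 := restL_mono E hE hmz
      rw [restL_sup] at h1
      order
    · order
  have c4 : Helper31.EC.h (restL E hE (vd z1 k)) (restL E hE C) ≤
      Helper31.EC.h (restL E hE (vd z1 k)) (restL E hE (B ⊔ vd z1 y)) :=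
    h_anti (restL_mono E hE (by rw [hC]; order))
  have c5 : Helper31.EC.h (restL E hE (vd z1 k)) A ≤
      Helper31.EC.h (restL E hE (vd z1 k)) (restL E hE (vd m k) ⊔ restL E hE C) :=
    h_anti hmA
  rw [hQE] at c2
  have c6 : ρ * (k - y) ≤ t + δ := by linarith
  have c7 : ρ * (k - y) = ρ' - ρ * δ := by
    rw [hk, hρ']
    ring
  have c8 : ρ * δ ≤ δ := by
    calc ρ * δ ≤ 1 * δ := mul_le_mul_of_nonneg_right hρ hδ0.le
      _ = δ := one_mul δ
  rw [c7] at c6
  have c9 : ρ' = t + 4 * δ := by rw [hδ]; ring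
  linarith

/-- the same up to an error `2 ^ (-κ n)` -/
theorem UQi.noiseK {ν : Type} [Fintype ν] {z1 z0 s : ν → QS S} {τ : QS S} {B : S.L} {ρ y κ : ℝ}
    (hu : UQi S z1 B ρ) (hρ : ρ ≤ 1) (h0 : 0 < κ) (h1 : κ ≤ 1) (hy0 : 0 ≤ y) (hy1 : y ≤ κ)
    (e : ∀ i, z1 i - (z0 i + τ * s i) ∈ Id S κ) (i1 : I (vd z1 κ) (vd s κ) B = 0) (hτ : τ ∈ Id S y)
    (r0 : κ - y ≤ Helper31.EC.h (dg τ κ) (vd z0 κ ⊔ vd s κ ⊔ B)) : ∀ i, s i ∈ Id S (ρ * (κ - y)) := by
  intro i
  have e0 : κ * (y / κ) = y := by field_simp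
  have e1 : y / κ ≤ 1 := by rwa [div_le_one h0]
  have a1 := (hu.dp κ h0 h1).noiseI (z0 := fun i => dQ κ h0 h1 (z0 i)) (s := fun i => dQ κ h0 h1 (s i))
    (τ := dQ κ h0 h1 τ) hρ (div_nonneg hy0 h0.le) e1 ?_ ?_ ?_ ?_ i
  · rw [dQ_mem κ h0 h1] at a1
    · refine Id_anti (le_of_eq ?_) a1
      have e2 : κ * (ρ * (1 - y / κ)) = ρ * (κ - κ * (y / κ)) := by ring
      rw [e2, e0]
    · have b1 : (0 : ℝ) ≤ y / κ := div_nonneg hy0 h0.le
      calc ρ * (1 - y / κ) ≤ 1 * (1 - y / κ) := mul_le_mul_of_nonneg_right hρ (by linarith)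
        _ ≤ 1 := by linarith
  · intro j
    beta_reduce
    rw [← sub_eq_zero, ← map_mul, ← map_add, ← map_sub, dQ_eq_zero]
    exact e j
  · rw [dQ_vd κ h0 h1 z1 le_rfl, dQ_vd κ h0 h1 s le_rfl, mul_one]
    exact dL_I_zero κ h0 i1
  · rw [dQ_mem κ h0 h1 e1, e0]
    exact hτ
  · apply le_antisymm
    · have b1 : dQ κ h0 h1 τ ∈ Id (Helper38.NS.dp S κ h0) (y / κ) := by
        rw [dQ_mem κ h0 h1 e1, e0]
        exact hτ
      exact Pool.Agent.Helper96.FLT.h_dg_of_mem e1 b1 _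
    · rw [dQ_vd κ h0 h1 z0 le_rfl, dQ_vd κ h0 h1 s le_rfl, mul_one, dQ_dg κ h0 h1 τ le_rfl, mul_one,
        ← dL_sup, ← dL_sup, dL_h, le_div_iff₀ h0]
      refine le_trans (le_of_eq ?_) r0
      rw [sub_mul, one_mul, mul_comm (y / κ), e0]

end

end Pool.Agent.Helper38.NS
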