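import Pool.Agent.Helper38.NS.LoopU
import Pool.Agent.Helper38.NS.LeafA
import Pool.Agent.Helper19.CL.PotH

/-! Potentials with primitives: they are determined by the primitives along a frame; two independent frames. -/

set_option autoImplicit false

namespace Pool.Agent.Helper38.NS

open Pool.Agent.Helper31.EC QS Pool.Agent.Helper19.SP

noncomputable section

theorem totalDegree_map_dQ {W : Sp} {σ : Type} (P : MvPolynomial σ (QS W)) (κ : ℝ) (h0 : 0 < κ)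
    (h1 : κ ≤ 1) : (MvPolynomial.map (dQ κ h0 h1) P).totalDegree ≤ P.totalDegree :=
  totalDegree_map_le _ _

/-- TWO HALVES: if the directions and primitives of two frames of lines through the point are independent, then the
potential is free -/
theorem two_halves {W : Sp} {ι1 ι2 ν : Type} [Fintype ι1] [Fintype ι2] [Fintype ν] (G1 : ι1 → QS W)
    (G2 : ι2 → QS W) {n : ℕ} (t : QS W) (q : Fin n → QS W) (z : ν → QS W)
    (v1 v2 : Fin n → Fin n → QS W) (H1 H2 : ν → Fin n → MvPolynomial (Fin n) (QS W))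
    (hI : I (vd G1 1) (vd G2 1) ⊥ = 0)
    (hq : Rl q (vd G1 1 ⊔ vd G2 1)) (hv1 : ∀ i j, dg (v1 i j) 1 ≤ vd G1 1)
    (hv2 : ∀ i j, dg (v2 i j) 1 ≤ vd G2 1) (hH1 : ∀ a i, H1 a i ∈ PK (vd G1 1))
    (hH2 : ∀ a i, H2 a i ∈ PK (vd G2 1))
    (hd1 : IsUnit (Matrix.det (Matrix.of fun i j : Fin n => v1 i j)))
    (hd2 : IsUnit (Matrix.det (Matrix.of fun i j : Fin n => v2 i j)))
    (t1 : ∀ i, Helper31.EC.h (dg t 1) (vd (fun k => q k - t * v1 i k) 1 ⊔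
      vd (fun a => z a - MvPolynomial.eval q (H1 a i)) 1 ⊔ (vd G1 1 ⊔ vd G2 1)) = 1)
    (t2 : ∀ i, Helper31.EC.h (dg t 1) (vd (fun k => q k - t * v2 i k) 1 ⊔
      vd (fun a => z a - MvPolynomial.eval q (H2 a i)) 1 ⊔ (vd G1 1 ⊔ vd G2 1)) = 1)
    {ρ : ℝ} (ρ0 : 0 < ρ) (ρ1 : ρ ≤ 1) (hNR : NRu W z (vd q 1) ρ)
    (hzG : I (vd z 1) (vd G1 1 ⊔ vd G2 1) (vd q 1) = 0) (m : ℕ)
    (hm : ∀ a i, (H1 a i).totalDegree ≤ m) (hm2 : ∀ a i, (H2 a i).totalDegree ≤ m) (a : ν) :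
    ∃ f : MvPolynomial (Fin n) (QS (dp W ρ ρ0)), f ∈ PK ⊥ ∧ f.totalDegree ≤ m ∧
      (∀ i, PotH f (fun j => dQ ρ ρ0 ρ1 (v1 i j)) (MvPolynomial.map (dQ ρ ρ0 ρ1) (H1 a i))) ∧
      (∀ i, PotH f (fun j => dQ ρ ρ0 ρ1 (v2 i j)) (MvPolynomial.map (dQ ρ ρ0 ρ1) (H2 a i))) := by
  classical
  obtain ⟨G, hG⟩ : ∃ G : ι1 ⊕ ι2 → QS W, G = Sum.elim G1 G2 := ⟨_, rfl⟩
  have hGd : vd G 1 = vd G1 1 ⊔ vd G2 1 := by rw [hG, vd_sum]
  rw [← hGd] at hq t1 t2 hzG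
  have l1 : vd G1 1 ≤ vd G 1 := by rw [hGd]; exact le_sup_left
  have l2 : vd G2 1 ≤ vd G 1 := by rw [hGd]; exact le_sup_right
  obtain ⟨v, hva, hvb⟩ : ∃ v : Fin (n + n) → Fin n → QS W, (∀ i, v (Fin.castAdd n i) = v1 i) ∧
      ∀ i, v (Fin.natAdd n i) = v2 i :=
    ⟨Fin.append v1 v2, fun i => Fin.append_left _ _ i, fun i => Fin.append_right _ _ i⟩
  obtain ⟨H, hHa, hHb⟩ : ∃ H : ν → Fin (n + n) → MvPolynomial (Fin n) (QS W),
      (∀ a i, H a (Fin.castAdd n i) = H1 a i) ∧ ∀ a i, H a (Fin.natAdd n i) = H2 a i :=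
    ⟨fun a => Fin.append (H1 a) (H2 a), fun a i => Fin.append_left _ _ i,
      fun a i => Fin.append_right _ _ i⟩
  obtain ⟨f, f1, f2, f3⟩ := loopHU G t q z v H (Nat.le_add_right n n) hq
    (fun i j => by
      induction i using Fin.addCases with
      | left i => rw [hva]; exact (hv1 i j).trans l1
      | right i => rw [hvb]; exact (hv2 i j).trans l2)
    (fun a i => by
      induction i using Fin.addCases with
      | left i => rw [hHa]; exact PK_mono l1 (hH1 a i)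
      | right i => rw [hHb]; exact PK_mono l2 (hH2 a i))
    (by
      have e : (Matrix.of fun i j : Fin n => v (Fin.castLE (Nat.le_add_right n n) i) j) =
          Matrix.of fun i j : Fin n => v1 i j := by
        ext i j
        rw [Matrix.of_apply, Matrix.of_apply, ← hva i]
        rfl
      rw [e]
      exact hd1)
    (fun i => by
      induction i using Fin.addCases with
      | left i =>
        simp only [hva, hHa]
        exact t1 i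
      | right i =>
        simp only [hvb, hHb]
        exact t2 i)
    ρ0 ρ1 hNR hzG a
  have p1 : ∀ i, PotH f (fun j => dQ ρ ρ0 ρ1 (v1 i j)) (MvPolynomial.map (dQ ρ ρ0 ρ1) (H1 a i)) := by
    intro i x s
    have h1 := f3 (Fin.castAdd n i) x s
    rw [hva, hHa] at h1
    exact h1
  have p2 : ∀ i, PotH f (fun j => dQ ρ ρ0 ρ1 (v2 i j)) (MvPolynomial.map (dQ ρ ρ0 ρ1) (H2 a i)) := by
    intro i x s
    have h1 := f3 (Fin.natAdd n i) x s
    rw [hvb, hHb] at h1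
    exact h1
  have dd : ∀ w : Fin n → Fin n → QS W, IsUnit (Matrix.det (Matrix.of fun i j : Fin n => w i j)) →
      IsUnit (Matrix.det (Matrix.of fun i j : Fin n => dQ ρ ρ0 ρ1 (w i j))) := by
    intro w hw
    have h1 := hw.map (dQ ρ ρ0 ρ1)
    rw [RingHom.map_det] at h1
    exact h1
  have dk : ∀ (x : QS W) (A : W.L), dg x 1 ≤ A → dg (dQ ρ ρ0 ρ1 x) 1 ≤ dL ρ ρ0 A := by
    intro x A hx
    rw [dQ_dg ρ ρ0 ρ1 _ le_rfl, mul_one]
    exact dL_mono ρ ρ0 ((dg_mono x ρ1).trans hx)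
  have hqR := rl_dp hq ρ ρ0 ρ1
  obtain ⟨m1, m1d⟩ := potH_known (A := dL ρ ρ0 (vd G1 1)) (B := dL ρ ρ0 (vd G 1))
    (dL_mono ρ ρ0 l1) f f1 f2 (Matrix.of fun i j : Fin n => dQ ρ ρ0 ρ1 (v1 i j))
    (fun i j => dk _ _ (hv1 i j)) (dd v1 hd1)
    (fun i => MvPolynomial.map (dQ ρ ρ0 ρ1) (H1 a i)) (fun i => map_dQ_PK (hH1 a i) ρ ρ0 ρ1) m
    (fun i => (totalDegree_map_dQ _ ρ ρ0 ρ1).trans (hm a i)) p1
    (fun j => dQ ρ ρ0 ρ1 (q j)) hqR
  obtain ⟨m2, -⟩ := potH_known (A := dL ρ ρ0 (vd G2 1)) (B := dL ρ ρ0 (vd G 1))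
    (dL_mono ρ ρ0 l2) f f1 f2 (Matrix.of fun i j : Fin n => dQ ρ ρ0 ρ1 (v2 i j))
    (fun i j => dk _ _ (hv2 i j)) (dd v2 hd2)
    (fun i => MvPolynomial.map (dQ ρ ρ0 ρ1) (H2 a i)) (fun i => map_dQ_PK (hH2 a i) ρ ρ0 ρ1) m
    (fun i => (totalDegree_map_dQ _ ρ ρ0 ρ1).trans (hm2 a i)) p2
    (fun j => dQ ρ ρ0 ρ1 (q j)) hqR
  refine ⟨f, ?_, m1d, p1, p2⟩
  intro k
  have h1 := dL_I_zero ρ ρ0 hI
  rw [dL_bot] at h1
  exact le_of_markov ((m1 k).trans le_sup_left) ((m2 k).trans le_sup_left) h1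

end

end Pool.Agent.Helper38.NS
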