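import Pool.Agent.Helper38.NS.Blk

/-! Exact entropy calculus: lines over a flat base with a scalar top coordinate; stars, Z-shapes and rectangles
(all produced by copies), and the independences of the rectangle. -/

set_option autoImplicit false

namespace Pool.Agent.Helper38.NS

open Pool.Agent.Helper31.EC QS

noncomputable section

/-- lines over a flat base: height `t`, base line `(a, x)`, top coordinate `b + t F` -/
structure FB (S : Sp) (d : ℕ) where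
  t : QS S
  a : Fin d → QS S
  x : Fin d → QS S
  b : QS S
  F : QS S

namespace FB

variable {S : Sp} {d : ℕ}

/-- base point -/
def y (s : FB S d) (i : Fin d) : QS S := s.a i + s.t * s.x i

/-- top coordinate -/
def z (s : FB S d) : QS S := s.b + s.t * s.F

def iL (s : FB S d) : S.L := vd s.a 1 ⊔ vd s.x 1
def iX (s : FB S d) : S.L := vd s.x 1
def iT (s : FB S d) : S.L := dg s.t 1
def iY (s : FB S d) : S.L := vd s.y 1
def iZ (s : FB S d) : S.L := dg s.z 1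
def iB (s : FB S d) : S.L := dg s.b 1

/-- hypotheses: heights are free, slopes are functions of the base line, directions are independent of the point -/
structure Hyp (s : FB S d) : Prop where
  ht : h s.iT (s.iL ⊔ s.iB) = 1
  hF : dg s.F 1 ≤ s.iL
  h1 : I s.iX (s.iY ⊔ s.iZ) s.iT = 0

theorem H_dg1 (f : QS S) : H (dg f 1) ≤ 1 := H_dg_le f zero_le_one

theorem h_dg1 (f : QS S) (A : S.L) : h (dg f 1) A ≤ 1 := (h_le_H _ _).trans (H_dg1 f)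

theorem Hyp.s0 {s : FB S d} (hs : s.Hyp) : I s.iT (s.iL ⊔ s.iB) ⊥ = 0 := by
  refine ind_of_h ?_
  rw [sup_bot_eq, hs.ht]
  exact h_dg1 _ _

theorem Hyp.s1 {s : FB S d} (hs : s.Hyp) : I s.iX (s.iT ⊔ (s.iY ⊔ s.iZ)) ⊥ = 0 := by
  refine ind_add (C' := s.iT) (ind_symm ?_) hs.h1 (by rw [sup_bot_eq])
  have h1 : s.iX ≤ s.iL := le_sup_right
  exact ind_of hs.s0 le_rfl bot_le le_sup_left (by order)

/-- two lines through one point -/
structure Star (s : FB S d) where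
  D : Sp
  p1 : Pj D S
  p2 : Pj D S
  cy : ∀ i, p1.qs (s.y i) = p2.qs (s.y i)
  cz : p1.qs s.z = p2.qs s.z
  ct : p1.qs s.t = p2.qs s.t
  ci : ∀ x y, I (p1.map x) (p2.map y) (p1.map (s.iT ⊔ (s.iY ⊔ s.iZ))) = 0

theorem exists_star (s : FB S d) : Nonempty s.Star := by
  obtain ⟨D, p1, p2, c, i, -⟩ := exists_copyS
    (Sum.elim (fun _ : Unit => s.t) (Sum.elim s.y (fun _ : Unit => s.z)))
  rw [vd_sum, vd_sum, vd_unit, vd_unit] at i
  exact ⟨⟨D, p1, p2, fun j => c (Sum.inr (Sum.inl j)), c (Sum.inr (Sum.inr ())),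
    c (Sum.inl ()), i⟩⟩

namespace Star

variable {s : FB S d} (w : s.Star)

theorem eT : w.p2.map s.iT = w.p1.map s.iT := by
  unfold iT
  rw [← w.p1.qs_dg, ← w.p2.qs_dg, w.ct]

theorem eY : w.p2.map s.iY = w.p1.map s.iY := by
  unfold iY
  rw [← w.p1.qs_vd, ← w.p2.qs_vd]
  exact (vd_congr w.cy 1).symm

theorem eZ : w.p2.map s.iZ = w.p1.map s.iZ := by
  unfold iZ
  rw [← w.p1.qs_dg, ← w.p2.qs_dg, w.cz]

/-- the direction of the second line is independent of the first line and the height -/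
theorem d1 (hs : s.Hyp) : I (w.p2.map s.iX) (w.p1.map (s.iL ⊔ s.iB) ⊔ w.p1.map s.iT) ⊥ = 0 := by
  have h1 := w.p2.I_map s.iX (s.iT ⊔ (s.iY ⊔ s.iZ)) ⊥
  rw [hs.s1, w.p2.map_bot, w.p2.map_sup, w.p2.map_sup, w.eT, w.eY, w.eZ, ← w.p1.map_sup,
    ← w.p1.map_sup] at h1
  have h2 := ind_add h1 (ind_symm (w.ci (s.iL ⊔ s.iB ⊔ s.iT) s.iX)) (by rw [sup_bot_eq])
  rw [w.p1.map_sup (s.iL ⊔ s.iB)] at h2
  exact ind_of h2 le_rfl bot_le le_sup_left (by order)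

theorem d1' (hs : s.Hyp) : I (w.p1.map s.iX) (w.p2.map (s.iL ⊔ s.iB) ⊔ w.p1.map s.iT) ⊥ = 0 := by
  have h1 := w.p1.I_map s.iX (s.iT ⊔ (s.iY ⊔ s.iZ)) ⊥
  rw [hs.s1, w.p1.map_bot] at h1
  have h2 := ind_add h1 (w.ci s.iX (s.iL ⊔ s.iB ⊔ s.iT)) (by rw [sup_bot_eq])
  rw [w.p2.map_sup (s.iL ⊔ s.iB), w.eT] at h2
  exact ind_of h2 le_rfl bot_le le_sup_left (by order)

/-- the height is independent of the first line and the direction of the second one -/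
theorem d2 (hs : s.Hyp) : I (w.p1.map s.iT) (w.p1.map (s.iL ⊔ s.iB) ⊔ w.p2.map s.iX) ⊥ = 0 := by
  have h1 := w.p1.I_map s.iT (s.iL ⊔ s.iB) ⊥
  rw [hs.s0, w.p1.map_bot] at h1
  refine ind_add h1 (C' := w.p1.map (s.iL ⊔ s.iB)) (ind_symm ?_) (by rw [sup_bot_eq])
  exact ind_of (w.d1 hs) bot_le (by order) le_sup_left (by order)

theorem d2' (hs : s.Hyp) : I (w.p1.map s.iT) (w.p2.map (s.iL ⊔ s.iB) ⊔ w.p1.map s.iX) ⊥ = 0 := by
  have h1 := w.p2.I_map s.iT (s.iL ⊔ s.iB) ⊥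
  rw [hs.s0, w.p2.map_bot, w.eT] at h1
  refine ind_add h1 (C' := w.p2.map (s.iL ⊔ s.iB)) (ind_symm ?_) (by rw [sup_bot_eq])
  exact ind_of (w.d1' hs) bot_le (by order) le_sup_left (by order)

end Star

/-- Z-shape: two stars with the same first line and the same direction of the second line -/
structure Zed {s : FB S d} (w : s.Star) where
  D : Sp
  q1 : Pj D w.D
  q2 : Pj D w.D
  ca : ∀ i, q1.qs (w.p1.qs (s.a i)) = q2.qs (w.p1.qs (s.a i))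
  cu : ∀ i, q1.qs (w.p1.qs (s.x i)) = q2.qs (w.p1.qs (s.x i))
  cb : q1.qs (w.p1.qs s.b) = q2.qs (w.p1.qs s.b)
  cF : q1.qs (w.p1.qs s.F) = q2.qs (w.p1.qs s.F)
  cx : ∀ i, q1.qs (w.p2.qs (s.x i)) = q2.qs (w.p2.qs (s.x i))
  ci : ∀ x y, I (q1.map x) (q2.map y)
    (q1.map (w.p1.map (s.iL ⊔ s.iB) ⊔ w.p2.map s.iX)) = 0

theorem exists_zed {s : FB S d} (hs : s.Hyp) (w : s.Star) : Nonempty (Zed w) := by
  obtain ⟨D, q1, q2, c, i, -⟩ := exists_copyS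
    (Sum.elim (fun i => w.p1.qs (s.a i)) (Sum.elim (fun i => w.p1.qs (s.x i))
      (Sum.elim (fun _ : Unit => w.p1.qs s.b) (Sum.elim (fun _ : Unit => w.p1.qs s.F)
        (fun i => w.p2.qs (s.x i))))))
  refine ⟨⟨D, q1, q2, fun j => c (Sum.inl j), fun j => c (Sum.inr (Sum.inl j)),
    c (Sum.inr (Sum.inr (Sum.inl ()))), c (Sum.inr (Sum.inr (Sum.inr (Sum.inl ())))),
    fun j => c (Sum.inr (Sum.inr (Sum.inr (Sum.inr j)))), ?_⟩⟩
  rw [vd_sum, vd_sum, vd_sum, vd_sum, vd_unit, vd_unit, w.p1.qs_vd, w.p1.qs_vd, w.p2.qs_vd,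
    w.p1.qs_dg, w.p1.qs_dg] at i
  have h1 : w.p1.map (dg s.F 1) ≤ w.p1.map s.iL := w.p1.map_mono hs.hF
  have h2 : w.p1.map (vd s.a 1) ⊔ (w.p1.map (vd s.x 1) ⊔ (w.p1.map (dg s.b 1) ⊔
      (w.p1.map (dg s.F 1) ⊔ w.p2.map (vd s.x 1)))) =
      w.p1.map (s.iL ⊔ s.iB) ⊔ w.p2.map s.iX := by
    unfold iX iB
    have h3 : w.p1.map s.iL = w.p1.map (vd s.a 1) ⊔ w.p1.map (vd s.x 1) := by
      unfold iL
      rw [w.p1.map_sup]
    rw [w.p1.map_sup]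
    order
  rw [h2] at i
  exact i

namespace Zed

variable {s : FB S d} {w : s.Star} (v : Zed w)

/-- informations of the Z-shape: first height, second height -/
def T0 : v.D.L := v.q1.map (w.p1.map s.iT)
def T0' : v.D.L := v.q2.map (w.p1.map s.iT)
/-- direction of the common line -/
def U : v.D.L := v.q1.map (w.p1.map s.iX)
/-- the common line -/
def R : v.D.L := v.q1.map (w.p1.map (s.iL ⊔ s.iB))
/-- the two parallel lines -/
def K : v.D.L := v.q1.map (w.p2.map (s.iL ⊔ s.iB))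
def K' : v.D.L := v.q2.map (w.p2.map (s.iL ⊔ s.iB))
def X : v.D.L := v.q1.map (w.p2.map s.iX)
/-- difference of the heights -/
def tau : QS v.D := v.q2.qs (w.p1.qs s.t) - v.q1.qs (w.p1.qs s.t)

theorem eU : v.q2.map (w.p1.map s.iX) = v.U := by
  unfold U iX
  rw [← w.p1.qs_vd, ← v.q1.qs_vd, ← v.q2.qs_vd]
  exact (vd_congr v.cu 1).symm

theorem eX : v.q2.map (w.p2.map s.iX) = v.X := by
  unfold X iX
  rw [← w.p2.qs_vd, ← v.q1.qs_vd, ← v.q2.qs_vd]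
  exact (vd_congr v.cx 1).symm

theorem eR : v.q2.map (w.p1.map (s.iL ⊔ s.iB)) = v.R := by
  have h1 : v.q2.map (w.p1.map (vd s.a 1)) = v.q1.map (w.p1.map (vd s.a 1)) := by
    rw [← w.p1.qs_vd, ← v.q1.qs_vd, ← v.q2.qs_vd]
    exact (vd_congr v.ca 1).symm
  have h2 : v.q2.map (w.p1.map (vd s.x 1)) = v.q1.map (w.p1.map (vd s.x 1)) := by
    rw [← w.p1.qs_vd, ← v.q1.qs_vd, ← v.q2.qs_vd]
    exact (vd_congr v.cu 1).symm
  have h3 : v.q2.map (w.p1.map (dg s.b 1)) = v.q1.map (w.p1.map (dg s.b 1)) := by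
    rw [← w.p1.qs_dg, ← v.q1.qs_dg, ← v.q2.qs_dg, v.cb]
  unfold R iL iB
  rw [w.p1.map_sup, w.p1.map_sup, v.q2.map_sup, v.q2.map_sup, h1, h2, h3, ← v.q1.map_sup,
    ← v.q1.map_sup]

/-- the first height is independent of the second star -/
theorem e1 (hs : s.Hyp) (y : w.D.L) : I v.T0 (v.R ⊔ v.X ⊔ v.q2.map y) ⊥ = 0 := by
  have h1 := v.q1.I_map (w.p1.map s.iT) (w.p1.map (s.iL ⊔ s.iB) ⊔ w.p2.map s.iX) ⊥
  rw [w.d2 hs, v.q1.map_bot] at h1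
  have h2 := ind_add h1 (v.ci (w.p1.map s.iT) y) (by rw [sup_bot_eq])
  rw [v.q1.map_sup] at h2
  exact h2

theorem e1' (hs : s.Hyp) (y : w.D.L) : I v.T0' (v.R ⊔ v.X ⊔ v.q1.map y) ⊥ = 0 := by
  have h1 := v.q2.I_map (w.p1.map s.iT) (w.p1.map (s.iL ⊔ s.iB) ⊔ w.p2.map s.iX) ⊥
  rw [w.d2 hs, v.q2.map_bot, v.q2.map_sup, v.eR, v.eX] at h1
  have h3 := ind_symm (v.ci y (w.p1.map s.iT))
  rw [v.q1.map_sup] at h3
  exact ind_add h1 h3 (by rw [sup_bot_eq]; rfl)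

/-- heights are independent of the second line and the direction of the first one -/
theorem e3 (hs : s.Hyp) : I v.T0' (v.K' ⊔ v.U) ⊥ = 0 := by
  have h1 := v.q2.I_map (w.p1.map s.iT) (w.p2.map (s.iL ⊔ s.iB) ⊔ w.p1.map s.iX) ⊥
  rw [w.d2' hs, v.q2.map_bot, v.q2.map_sup, v.eU] at h1
  exact h1

theorem e3' (hs : s.Hyp) : I v.T0 (v.K ⊔ v.U) ⊥ = 0 := by
  have h1 := v.q1.I_map (w.p1.map s.iT) (w.p2.map (s.iL ⊔ s.iB) ⊔ w.p1.map s.iX) ⊥
  rw [w.d2' hs, v.q1.map_bot, v.q1.map_sup] at h1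
  exact h1

theorem HT (hs : s.Hyp) : H s.iT = 1 := by
  apply le_antisymm (H_dg1 s.t)
  have h1 := h_le_H s.iT (s.iL ⊔ s.iB)
  rw [hs.ht] at h1
  exact h1

theorem HT0 (hs : s.Hyp) : H v.T0 = 1 := by
  unfold T0
  rw [v.q1.H_map, w.p1.H_map, HT hs]

theorem HT0' (hs : s.Hyp) : H v.T0' = 1 := by
  unfold T0'
  rw [v.q2.H_map, w.p1.H_map, HT hs]

theorem T0_eq : v.T0 = dg (v.q1.qs (w.p1.qs s.t)) 1 := by
  unfold T0 iT
  rw [← w.p1.qs_dg, ← v.q1.qs_dg]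

theorem T0'_eq : v.T0' = dg (v.q2.qs (w.p1.qs s.t)) 1 := by
  unfold T0' iT
  rw [← w.p1.qs_dg, ← v.q2.qs_dg]

theorem tau_le : dg v.tau 1 ≤ v.T0 ⊔ v.T0' := by
  rw [v.T0_eq, v.T0'_eq]
  unfold tau
  refine (dg_sub_le _ _ le_rfl).trans ?_
  order

theorem T0'_le : v.T0' ≤ v.T0 ⊔ dg v.tau 1 := by
  rw [v.T0_eq, v.T0'_eq]
  have h1 : v.q2.qs (w.p1.qs s.t) = v.q1.qs (w.p1.qs s.t) + v.tau := by
    unfold tau
    ring
  conv_lhs => rw [h1]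
  exact dg_add_le _ _ le_rfl

theorem T0_le : v.T0 ≤ v.T0' ⊔ dg v.tau 1 := by
  rw [v.T0_eq, v.T0'_eq]
  have h1 : v.q1.qs (w.p1.qs s.t) = v.q2.qs (w.p1.qs s.t) - v.tau := by
    unfold tau
    ring
  conv_lhs => rw [h1]
  exact dg_sub_le _ _ le_rfl

/-- the first height is independent of the second line, the direction `u` and `tau` -/
theorem e4 (hs : s.Hyp) : I v.T0 (v.K' ⊔ v.U ⊔ dg v.tau 1) ⊥ = 0 := by
  have h1 := v.e3 hs
  have h2 := v.e1 hs (w.p2.map (s.iL ⊔ s.iB) ⊔ w.p1.map s.iX ⊔ w.p1.map s.iT)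
  rw [v.q2.map_sup, v.q2.map_sup, v.eU] at h2
  have h3 : I v.T0 (v.K' ⊔ v.U ⊔ v.T0') ⊥ = 0 :=
    ind_of h2 le_rfl bot_le le_sup_left (by unfold K' T0'; order)
  have h4 := I_zero_iff_h.mp h3
  have h5 := I_zero_iff_h.mp h1
  rw [sup_bot_eq, h_bot, v.HT0 hs] at h4
  rw [sup_bot_eq, h_bot, v.HT0' hs] at h5
  have a1 := v.tau_le
  have a2 := v.T0'_le
  have h6 : v.T0' ⊔ v.T0 ⊔ (v.K' ⊔ v.U) = dg v.tau 1 ⊔ v.T0 ⊔ (v.K' ⊔ v.U) := by order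
  have h7 : h (v.T0' ⊔ v.T0) (v.K' ⊔ v.U) = h (dg v.tau 1 ⊔ v.T0) (v.K' ⊔ v.U) := by
    unfold h
    rw [h6]
  rw [h_chain, h_chain, h5] at h7
  have h8 : v.T0' ⊔ (v.K' ⊔ v.U) = v.K' ⊔ v.U ⊔ v.T0' := sup_comm _ _
  rw [h8, h4] at h7
  have h9 := h_dg1 v.tau (v.K' ⊔ v.U)
  refine ind_of_h ?_
  rw [h_bot, sup_bot_eq, v.HT0 hs]
  have h10 : dg v.tau 1 ⊔ (v.K' ⊔ v.U) = v.K' ⊔ v.U ⊔ dg v.tau 1 := sup_comm _ _
  rw [h10] at h7
  linarith

/-- `tau` is independent of the first star -/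
theorem e5 (hs : s.Hyp) : I (dg v.tau 1) (v.K ⊔ v.U ⊔ v.T0) ⊥ = 0 := by
  have h2 := v.e1' hs (w.p2.map (s.iL ⊔ s.iB) ⊔ w.p1.map s.iX ⊔ w.p1.map s.iT)
  rw [v.q1.map_sup, v.q1.map_sup] at h2
  have h3 : I v.T0' (v.K ⊔ v.U ⊔ v.T0) ⊥ = 0 :=
    ind_of h2 le_rfl bot_le le_sup_left (by unfold K U T0; order)
  have h4 := I_zero_iff_h.mp h3
  rw [sup_bot_eq, h_bot, v.HT0' hs] at h4
  refine ind_of_h ?_
  rw [h_bot, sup_bot_eq]
  have a1 := v.T0'_le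
  have h5 : h v.T0' (v.K ⊔ v.U ⊔ v.T0) ≤ h (dg v.tau 1) (v.K ⊔ v.U ⊔ v.T0) := by
    have h6 := h_mono (B := v.K ⊔ v.U ⊔ v.T0) a1
    have h7 := h_sup_le v.T0 (dg v.tau 1) (v.K ⊔ v.U ⊔ v.T0)
    have h8 : h v.T0 (v.K ⊔ v.U ⊔ v.T0) = 0 := h_zero (by order)
    linarith
  have h6 := H_dg1 v.tau
  linarith

/-- coordinates of the second line -/
theorem za (i : Fin d) : v.q1.qs (w.p2.qs (s.a i)) = v.q2.qs (w.p2.qs (s.a i)) -
    v.tau * (v.q1.qs (w.p1.qs (s.x i)) - v.q2.qs (w.p2.qs (s.x i))) := by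
  have h1 := congrArg v.q1.qs (w.cy i)
  have h2 := congrArg v.q2.qs (w.cy i)
  unfold y at h1 h2
  simp only [map_add, map_mul] at h1 h2
  have h3 := congrArg v.q1.qs w.ct
  have h4 := congrArg v.q2.qs w.ct
  have c1 := v.ca i
  have c2 := v.cu i
  have c3 := v.cx i
  rw [← h3] at h1
  rw [← h4, ← c1, ← c2] at h2
  rw [c3] at h1
  unfold tau
  linear_combination h2 - h1

/-- the top coordinate of the first line -/
theorem zb : v.q1.qs (w.p2.qs s.b) = v.q2.qs (w.p2.qs s.b) +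
    (v.q1.qs (w.p1.qs s.t) + v.tau) * v.q2.qs (w.p2.qs s.F) - v.tau * v.q1.qs (w.p1.qs s.F) -
    v.q1.qs (w.p1.qs s.t) * v.q1.qs (w.p2.qs s.F) := by
  have h1 := congrArg v.q1.qs w.cz
  have h2 := congrArg v.q2.qs w.cz
  unfold z at h1 h2
  simp only [map_add, map_mul] at h1 h2
  have h3 := congrArg v.q1.qs w.ct
  have h4 := congrArg v.q2.qs w.ct
  rw [← h3] at h1
  rw [← h4, ← v.cb, ← v.cF] at h2
  unfold tau
  linear_combination h2 - h1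

end Zed

end FB

end

end Pool.Agent.Helper38.NS
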