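import Pool.Agent.Helper38.NS.Rect

/-! Exact entropy calculus: the rectangle as a block of absorbed noise. -/

set_option autoImplicit false

namespace Pool.Agent.Helper38.NS

open Pool.Agent.Helper31.EC QS

noncomputable section

theorem vd3 {S : Sp} (f g l : QS S) (r : ℝ) : vd ![f, g, l] r = dg f r ⊔ dg g r ⊔ dg l r := by
  apply le_antisymm
  · rw [vd_le]
    intro i
    fin_cases i
    · exact le_sup_left.trans le_sup_left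
    · exact le_sup_right.trans le_sup_left
    · exact le_sup_right
  · refine sup_le (sup_le ?_ ?_) ?_
    · exact dg_le_vd ![f, g, l] r 0
    · exact dg_le_vd ![f, g, l] r 1
    · exact dg_le_vd ![f, g, l] r 2

theorem dg_neg_le {S : Sp} (f : QS S) : dg (-f) 1 ≤ dg f 1 :=
  (Kn S 1 le_rfl (dg f 1)).neg_mem (mem_Kn.mpr le_rfl)

namespace FB

variable {S : Sp} {d : ℕ}

namespace Star

variable {s : FB S d} (w : s.Star)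

/-- the first base line from the second one, the height and the direction -/
theorem la : w.p1.map s.iL ≤ w.p2.map s.iL ⊔ w.p1.map s.iX ⊔ w.p1.map s.iT := by
  unfold iL iX iT
  rw [w.p1.map_sup, w.p2.map_sup, ← w.p1.qs_vd, ← w.p1.qs_vd, ← w.p2.qs_vd, ← w.p2.qs_vd,
    ← w.p1.qs_dg]
  refine sup_le ?_ (by order)
  rw [vd_le]
  intro i
  have h1 := w.cy i
  unfold y at h1
  simp only [map_add, map_mul] at h1
  rw [← w.ct] at h1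
  have h2 : w.p1.qs (s.a i) = w.p2.qs (s.a i) + w.p1.qs s.t * w.p2.qs (s.x i) -
      w.p1.qs s.t * w.p1.qs (s.x i) := by linear_combination h1
  rw [h2]
  refine (dg_sub_le _ _ le_rfl).trans ?_
  have a1 := dg_add_le (w.p2.qs (s.a i)) (w.p1.qs s.t * w.p2.qs (s.x i)) (r := 1) le_rfl
  have a2 := dg_mul_le (w.p1.qs s.t) (w.p2.qs (s.x i)) (r := 1) le_rfl
  have a3 := dg_mul_le (w.p1.qs s.t) (w.p1.qs (s.x i)) (r := 1) le_rfl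
  have a4 := dg_le_vd (fun i => w.p2.qs (s.a i)) 1 i
  have a5 := dg_le_vd (fun i => w.p2.qs (s.x i)) 1 i
  have a6 := dg_le_vd (fun i => w.p1.qs (s.x i)) 1 i
  beta_reduce at a4 a5 a6
  order

theorem lF (hs : s.Hyp) :
    dg (w.p1.qs s.F) 1 ≤ w.p2.map s.iL ⊔ w.p1.map s.iX ⊔ w.p1.map s.iT := by
  rw [w.p1.qs_dg]
  exact (w.p1.map_mono hs.hF).trans w.la

theorem lF2 (hs : s.Hyp) : dg (w.p2.qs s.F) 1 ≤ w.p2.map s.iL := by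
  rw [w.p2.qs_dg]
  exact w.p2.map_mono hs.hF

end Star

/-- rectangle: two Z-shapes with the same second parallel line, the same `u`, the same `tau` -/
structure Rct {s : FB S d} {w : s.Star} (v : Zed w) where
  D : Sp
  s1 : Pj D v.D
  s2 : Pj D v.D
  ca : ∀ i, s1.qs (v.q2.qs (w.p2.qs (s.a i))) = s2.qs (v.q2.qs (w.p2.qs (s.a i)))
  cx : ∀ i, s1.qs (v.q2.qs (w.p2.qs (s.x i))) = s2.qs (v.q2.qs (w.p2.qs (s.x i)))
  cb : s1.qs (v.q2.qs (w.p2.qs s.b)) = s2.qs (v.q2.qs (w.p2.qs s.b))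
  cF : s1.qs (v.q2.qs (w.p2.qs s.F)) = s2.qs (v.q2.qs (w.p2.qs s.F))
  cu : ∀ i, s1.qs (v.q1.qs (w.p1.qs (s.x i))) = s2.qs (v.q1.qs (w.p1.qs (s.x i)))
  ct : s1.qs v.tau = s2.qs v.tau
  ci : ∀ x y, I (s1.map x) (s2.map y) (s1.map (v.K' ⊔ v.U ⊔ dg v.tau 1)) = 0

theorem exists_rct {s : FB S d} (hs : s.Hyp) {w : s.Star} (v : Zed w) : Nonempty (Rct v) := by
  obtain ⟨D, s1, s2, c, i, -⟩ := exists_copyS
    (Sum.elim (fun i => v.q2.qs (w.p2.qs (s.a i))) (Sum.elim (fun i => v.q2.qs (w.p2.qs (s.x i)))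
      (Sum.elim (fun _ : Unit => v.q2.qs (w.p2.qs s.b))
        (Sum.elim (fun _ : Unit => v.q2.qs (w.p2.qs s.F))
          (Sum.elim (fun i => v.q1.qs (w.p1.qs (s.x i))) (fun _ : Unit => v.tau))))))
  refine ⟨⟨D, s1, s2, fun j => c (Sum.inl j), fun j => c (Sum.inr (Sum.inl j)),
    c (Sum.inr (Sum.inr (Sum.inl ()))), c (Sum.inr (Sum.inr (Sum.inr (Sum.inl ())))),
    fun j => c (Sum.inr (Sum.inr (Sum.inr (Sum.inr (Sum.inl j))))),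
    c (Sum.inr (Sum.inr (Sum.inr (Sum.inr (Sum.inr ()))))), ?_⟩⟩
  rw [vd_sum, vd_sum, vd_sum, vd_sum, vd_sum, vd_unit, vd_unit, vd_unit, v.q2.qs_vd, v.q2.qs_vd,
    v.q1.qs_vd, v.q2.qs_dg, v.q2.qs_dg, w.p2.qs_vd, w.p2.qs_vd, w.p1.qs_vd, w.p2.qs_dg,
    w.p2.qs_dg] at i
  have h1 : v.q2.map (w.p2.map (dg s.F 1)) ≤ v.q2.map (w.p2.map s.iL) :=
    v.q2.map_mono (w.p2.map_mono hs.hF)
  have h3 : v.q2.map (w.p2.map s.iL) =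
      v.q2.map (w.p2.map (vd s.a 1)) ⊔ v.q2.map (w.p2.map (vd s.x 1)) := by
    unfold iL
    rw [w.p2.map_sup, v.q2.map_sup]
  have h4 : v.K' = v.q2.map (w.p2.map s.iL) ⊔ v.q2.map (w.p2.map (dg s.b 1)) := by
    unfold Zed.K' iB
    rw [w.p2.map_sup, v.q2.map_sup]
  have h5 : v.U = v.q1.map (w.p1.map (vd s.x 1)) := rfl
  have h2 : v.q2.map (w.p2.map (vd s.a 1)) ⊔ (v.q2.map (w.p2.map (vd s.x 1)) ⊔
      (v.q2.map (w.p2.map (dg s.b 1)) ⊔ (v.q2.map (w.p2.map (dg s.F 1)) ⊔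
      (v.q1.map (w.p1.map (vd s.x 1)) ⊔ dg v.tau 1)))) = v.K' ⊔ v.U ⊔ dg v.tau 1 := by
    rw [h4, h5]
    order
  rw [h2] at i
  exact i

namespace Rct

variable {s : FB S d} {w : s.Star} {v : Zed w} (g : Rct v)

def T0 : g.D.L := g.s1.map v.T0
def T1 : g.D.L := g.s2.map v.T0
def U : g.D.L := g.s1.map v.U
def K0 : g.D.L := g.s1.map v.K
def K1 : g.D.L := g.s2.map v.K
def L : g.D.L := g.s1.map (v.q1.map (w.p2.map s.iL))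
def tau : QS g.D := g.s1.qs v.tau
def V3 : g.D.L := g.s1.map (v.K' ⊔ v.U ⊔ dg v.tau 1)

theorem eU : g.s2.map v.U = g.U := by
  unfold U Zed.U iX
  rw [← w.p1.qs_vd, ← v.q1.qs_vd, ← g.s1.qs_vd, ← g.s2.qs_vd]
  exact (vd_congr g.cu 1).symm

theorem etau : g.s2.map (dg v.tau 1) = dg g.tau 1 := by
  unfold tau
  rw [g.ct, g.s2.qs_dg]

theorem etau1 : g.s1.map (dg v.tau 1) = dg g.tau 1 := by
  unfold tau
  rw [g.s1.qs_dg]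

theorem ax (i : Fin d) : g.s1.qs (v.q1.qs (w.p2.qs (s.x i))) =
    g.s2.qs (v.q1.qs (w.p2.qs (s.x i))) := by
  rw [v.cx i, g.cx i]

theorem aa (i : Fin d) : g.s1.qs (v.q1.qs (w.p2.qs (s.a i))) =
    g.s2.qs (v.q1.qs (w.p2.qs (s.a i))) := by
  rw [v.za i]
  simp only [map_sub, map_mul]
  rw [g.ca i, g.cx i, g.cu i, g.ct]

theorem eL : g.s2.map (v.q1.map (w.p2.map s.iL)) = g.L := by
  unfold L iL
  rw [w.p2.map_sup, v.q1.map_sup, g.s1.map_sup, g.s2.map_sup]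
  rw [← w.p2.qs_vd, ← w.p2.qs_vd, ← v.q1.qs_vd, ← v.q1.qs_vd, ← g.s1.qs_vd, ← g.s1.qs_vd,
    ← g.s2.qs_vd, ← g.s2.qs_vd]
  rw [vd_congr g.aa 1, vd_congr g.ax 1]

theorem K0_eq : g.K0 = g.L ⊔ dg (g.s1.qs (v.q1.qs (w.p2.qs s.b))) 1 := by
  unfold K0 Zed.K L iB
  rw [w.p2.map_sup, v.q1.map_sup, g.s1.map_sup, ← w.p2.qs_dg, ← v.q1.qs_dg, ← g.s1.qs_dg]

theorem K1_eq : g.K1 = g.L ⊔ dg (g.s2.qs (v.q1.qs (w.p2.qs s.b))) 1 := by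
  have h := g.eL
  unfold K1 Zed.K iB
  rw [w.p2.map_sup, v.q1.map_sup, g.s2.map_sup, ← w.p2.qs_dg, ← v.q1.qs_dg, ← g.s2.qs_dg, h]

theorem V3_eq : g.V3 = g.s1.map v.K' ⊔ g.U ⊔ dg g.tau 1 := by
  unfold V3 U
  rw [g.s1.map_sup, g.s1.map_sup, g.etau1]

theorem f1 (hs : s.Hyp) (y : v.D.L) : I g.T0 (g.V3 ⊔ g.s2.map y) ⊥ = 0 := by
  have h1 := g.s1.I_map v.T0 (v.K' ⊔ v.U ⊔ dg v.tau 1) ⊥
  rw [v.e4 hs, g.s1.map_bot] at h1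
  exact ind_add h1 (g.ci v.T0 y) (by rw [sup_bot_eq]; rfl)

theorem f1' (hs : s.Hyp) (x : v.D.L) : I g.T1 (g.V3 ⊔ g.s1.map x) ⊥ = 0 := by
  have h1 := g.s2.I_map v.T0 (v.K' ⊔ v.U ⊔ dg v.tau 1) ⊥
  rw [v.e4 hs, g.s2.map_bot] at h1
  have h2 : g.s2.map (v.K' ⊔ v.U ⊔ dg v.tau 1) = g.V3 := by
    rw [g.V3_eq, g.s2.map_sup, g.s2.map_sup, g.eU, g.etau]
    have h3 : g.s2.map v.K' = g.s1.map v.K' := by
      unfold Zed.K' iL iB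
      rw [w.p2.map_sup, w.p2.map_sup, v.q2.map_sup, v.q2.map_sup, g.s1.map_sup, g.s1.map_sup,
        g.s2.map_sup, g.s2.map_sup]
      rw [← w.p2.qs_vd, ← w.p2.qs_vd, ← w.p2.qs_dg, ← v.q2.qs_vd, ← v.q2.qs_vd, ← v.q2.qs_dg,
        ← g.s1.qs_vd, ← g.s1.qs_vd, ← g.s1.qs_dg, ← g.s2.qs_vd, ← g.s2.qs_vd, ← g.s2.qs_dg]
      rw [vd_congr g.ca 1, vd_congr g.cx 1, g.cb]
    rw [h3]
  rw [h2] at h1
  exact ind_add h1 (ind_symm (g.ci x v.T0)) (by rw [sup_bot_eq]; rfl)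

theorem f2 (hs : s.Hyp) : I (dg g.tau 1) (g.K0 ⊔ g.U ⊔ g.T0) ⊥ = 0 := by
  have h1 := g.s1.I_map (dg v.tau 1) (v.K ⊔ v.U ⊔ v.T0) ⊥
  rw [v.e5 hs, g.s1.map_bot, g.s1.map_sup, g.s1.map_sup, g.etau1] at h1
  exact h1

theorem f2' (hs : s.Hyp) : I (dg g.tau 1) (g.K1 ⊔ g.U ⊔ g.T1) ⊥ = 0 := by
  have h1 := g.s2.I_map (dg v.tau 1) (v.K ⊔ v.U ⊔ v.T0) ⊥
  rw [v.e5 hs, g.s2.map_bot, g.s2.map_sup, g.s2.map_sup, g.etau, g.eU] at h1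
  exact h1

theorem f3 (hs : s.Hyp) : I g.T1 (g.K1 ⊔ g.U) ⊥ = 0 := by
  have h1 := g.s2.I_map v.T0 (v.K ⊔ v.U) ⊥
  rw [v.e3' hs, g.s2.map_bot, g.s2.map_sup, g.eU] at h1
  exact h1

/-- `T1` is independent of the first Z-shape -/
theorem f4 (hs : s.Hyp) : I g.T1 (g.K0 ⊔ g.U ⊔ g.T0 ⊔ dg g.tau 1) ⊥ = 0 := by
  have h1 := g.f1' hs (v.K ⊔ v.U ⊔ v.T0 ⊔ dg v.tau 1)
  rw [g.s1.map_sup, g.s1.map_sup, g.s1.map_sup, g.etau1] at h1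
  exact ind_of h1 le_rfl bot_le le_sup_left (by unfold K0 U T0; order)

theorem f4' (hs : s.Hyp) : I g.T0 (g.K1 ⊔ g.U ⊔ g.T1 ⊔ dg g.tau 1) ⊥ = 0 := by
  have h1 := g.f1 hs (v.K ⊔ v.U ⊔ v.T0 ⊔ dg v.tau 1)
  rw [g.s2.map_sup, g.s2.map_sup, g.s2.map_sup, g.etau, g.eU] at h1
  exact ind_of h1 le_rfl bot_le le_sup_left (by unfold K1 T1; order)

/-- the base of the block -/
def B : g.D.L := g.L ⊔ g.U ⊔ g.T0

theorem c1 (hs : s.Hyp) :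
    I (dg (g.s1.qs (v.q1.qs (w.p2.qs s.b))) 1) (dg g.tau 1 ⊔ g.T1) g.B = 0 := by
  have hK := g.K0_eq
  have hB : g.B = g.L ⊔ g.U ⊔ g.T0 := rfl
  refine ind_add (C' := dg g.tau 1 ⊔ g.B) (ind_symm ?_) (ind_symm ?_) rfl
  · exact ind_of (g.f2 hs) bot_le (by order) le_sup_left (by order)
  · exact ind_of (g.f4 hs) bot_le (by order) le_sup_left (by order)

theorem c2 (hs : s.Hyp) :
    I (dg (g.s2.qs (v.q1.qs (w.p2.qs s.b))) 1) (dg g.tau 1 ⊔ g.T1) g.B = 0 := by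
  have hK := g.K1_eq
  have hB : g.B = g.L ⊔ g.U ⊔ g.T0 := rfl
  have h1 : I (dg (g.s2.qs (v.q1.qs (w.p2.qs s.b))) 1) g.T1 (g.L ⊔ g.U) = 0 :=
    ind_symm (ind_of (g.f3 hs) bot_le (by order) le_sup_left (by order))
  have h2 : I (dg (g.s2.qs (v.q1.qs (w.p2.qs s.b))) 1) (dg g.tau 1) (g.T1 ⊔ (g.L ⊔ g.U)) = 0 :=
    ind_symm (ind_of (g.f2' hs) bot_le (by order) le_sup_left (by order))
  have h3 : I (dg (g.s2.qs (v.q1.qs (w.p2.qs s.b))) 1) g.T0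
      (g.T1 ⊔ dg g.tau 1 ⊔ (g.L ⊔ g.U)) = 0 :=
    ind_symm (ind_of (g.f4' hs) bot_le (by order) le_sup_left (by order))
  have h4 := ind_add (ind_add h1 h2 rfl) h3 rfl
  exact ind_of h4 (by order) (by order) le_sup_left (by order)

theorem c3 (hs : s.Hyp) : I g.T1 (dg g.tau 1) g.B = 0 := by
  have hK := g.K0_eq
  have hB : g.B = g.L ⊔ g.U ⊔ g.T0 := rfl
  exact ind_of (g.f4 hs) bot_le (by order) le_sup_left (by order)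

theorem c4 (hs : s.Hyp) : I g.T1 g.B ⊥ = 0 := by
  have hK := g.K0_eq
  have hB : g.B = g.L ⊔ g.U ⊔ g.T0 := rfl
  exact ind_of (g.f4 hs) le_rfl bot_le le_sup_left (by order)

theorem c5 (hs : s.Hyp) : I (dg g.tau 1) g.B ⊥ = 0 := by
  have hK := g.K0_eq
  have hB : g.B = g.L ⊔ g.U ⊔ g.T0 := rfl
  exact ind_of (g.f2 hs) le_rfl bot_le le_sup_left (by order)

theorem HT1 (hs : s.Hyp) : H g.T1 = 1 := by
  unfold T1
  rw [g.s2.H_map, v.HT0 hs]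

/-- heights as functions -/
def t0 : QS g.D := g.s1.qs (v.q1.qs (w.p1.qs s.t))
def t1 : QS g.D := g.s2.qs (v.q1.qs (w.p1.qs s.t))
def Fr0 : QS g.D := g.s1.qs (v.q1.qs (w.p1.qs s.F))
def Fr1 : QS g.D := g.s2.qs (v.q1.qs (w.p1.qs s.F))
def Fx0 : QS g.D := g.s1.qs (v.q1.qs (w.p2.qs s.F))
def Fx1 : QS g.D := g.s2.qs (v.q1.qs (w.p2.qs s.F))
def Fz : QS g.D := g.s1.qs (v.q2.qs (w.p2.qs s.F))
def b0 : QS g.D := g.s1.qs (v.q1.qs (w.p2.qs s.b))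
def b1 : QS g.D := g.s2.qs (v.q1.qs (w.p2.qs s.b))

theorem T0_eq : g.T0 = dg g.t0 1 := by
  unfold T0 t0
  rw [v.T0_eq, ← g.s1.qs_dg]

theorem T1_eq : g.T1 = dg g.t1 1 := by
  unfold T1 t1
  rw [v.T0_eq, ← g.s2.qs_dg]

theorem lFr0 (hs : s.Hyp) : dg g.Fr0 1 ≤ g.L ⊔ g.U ⊔ g.T0 := by
  have h1 := g.s1.map_mono (v.q1.map_mono (w.lF hs))
  rw [v.q1.map_sup, v.q1.map_sup, g.s1.map_sup, g.s1.map_sup] at h1
  unfold Fr0
  rw [g.s1.qs_dg, v.q1.qs_dg]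
  exact h1

theorem lFr1 (hs : s.Hyp) : dg g.Fr1 1 ≤ g.L ⊔ g.U ⊔ g.T1 := by
  have h1 := g.s2.map_mono (v.q1.map_mono (w.lF hs))
  rw [v.q1.map_sup, v.q1.map_sup, g.s2.map_sup, g.s2.map_sup, g.eL] at h1
  have h2 : g.s2.map (v.q1.map (w.p1.map s.iX)) = g.U := g.eU
  rw [h2] at h1
  unfold Fr1
  rw [g.s2.qs_dg, v.q1.qs_dg]
  exact h1

theorem lFx0 (hs : s.Hyp) : dg g.Fx0 1 ≤ g.L := by
  have h1 := g.s1.map_mono (v.q1.map_mono (w.lF2 hs))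
  unfold Fx0
  rw [g.s1.qs_dg, v.q1.qs_dg]
  exact h1

theorem lFx1 (hs : s.Hyp) : dg g.Fx1 1 ≤ g.L := by
  have h1 := g.s2.map_mono (v.q1.map_mono (w.lF2 hs))
  rw [g.eL] at h1
  unfold Fx1
  rw [g.s2.qs_dg, v.q1.qs_dg]
  exact h1

theorem lFz (hs : s.Hyp) : dg g.Fz 1 ≤ g.L ⊔ g.U ⊔ dg g.tau 1 := by
  have h1 := g.s1.map_mono (v.q2.map_mono (w.lF2 hs))
  have h2 : g.s1.map (v.q2.map (w.p2.map s.iL)) ≤ g.L ⊔ g.U ⊔ dg g.tau 1 := by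
    have e1 : g.s1.map (v.q2.map (w.p2.map (vd s.x 1))) ≤ g.L := by
      have e2 : v.q2.map (w.p2.map (vd s.x 1)) = v.q1.map (w.p2.map (vd s.x 1)) := v.eX
      rw [e2]
      unfold L iL
      exact g.s1.map_mono (v.q1.map_mono (w.p2.map_mono le_sup_right))
    have e3 : g.s1.map (v.q2.map (w.p2.map (vd s.a 1))) ≤ g.L ⊔ g.U ⊔ dg g.tau 1 := by
      rw [← w.p2.qs_vd, ← v.q2.qs_vd, ← g.s1.qs_vd, vd_le]
      intro i
      have a0 := congrArg g.s1.qs (v.za i)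
      simp only [map_sub, map_mul] at a0
      have a1 : g.s1.qs (v.q2.qs (w.p2.qs (s.a i))) = g.s1.qs (v.q1.qs (w.p2.qs (s.a i))) +
          g.tau * (g.s1.qs (v.q1.qs (w.p1.qs (s.x i))) - g.s1.qs (v.q2.qs (w.p2.qs (s.x i)))) := by
        unfold tau
        linear_combination -a0
      rw [a1]
      have b1 := dg_add_le (g.s1.qs (v.q1.qs (w.p2.qs (s.a i)))) (g.tau *
        (g.s1.qs (v.q1.qs (w.p1.qs (s.x i))) - g.s1.qs (v.q2.qs (w.p2.qs (s.x i))))) (r := 1) le_rfl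
      have b2 := dg_mul_le g.tau (g.s1.qs (v.q1.qs (w.p1.qs (s.x i))) -
        g.s1.qs (v.q2.qs (w.p2.qs (s.x i)))) (r := 1) le_rfl
      have b3 := dg_sub_le (g.s1.qs (v.q1.qs (w.p1.qs (s.x i))))
        (g.s1.qs (v.q2.qs (w.p2.qs (s.x i)))) (r := 1) le_rfl
      have b4 : dg (g.s1.qs (v.q2.qs (w.p2.qs (s.x i)))) 1 ≤ g.L := by
        refine le_trans ?_ e1
        rw [← w.p2.qs_vd, ← v.q2.qs_vd, ← g.s1.qs_vd]
        exact dg_le_vd (fun i => g.s1.qs (v.q2.qs (w.p2.qs (s.x i)))) 1 i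
      have b5 : dg (g.s1.qs (v.q1.qs (w.p1.qs (s.x i)))) 1 ≤ g.U := by
        unfold U Zed.U iX
        rw [← w.p1.qs_vd, ← v.q1.qs_vd, ← g.s1.qs_vd]
        exact dg_le_vd (fun i => g.s1.qs (v.q1.qs (w.p1.qs (s.x i)))) 1 i
      have b6 : dg (g.s1.qs (v.q1.qs (w.p2.qs (s.a i)))) 1 ≤ g.L := by
        unfold L iL
        refine le_trans ?_ (g.s1.map_mono (v.q1.map_mono (w.p2.map_mono le_sup_left)))
        rw [← w.p2.qs_vd, ← v.q1.qs_vd, ← g.s1.qs_vd]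
        exact dg_le_vd (fun i => g.s1.qs (v.q1.qs (w.p2.qs (s.a i)))) 1 i
      order
    have e4 : g.s1.map (v.q2.map (w.p2.map s.iL)) = g.s1.map (v.q2.map (w.p2.map (vd s.a 1))) ⊔
        g.s1.map (v.q2.map (w.p2.map (vd s.x 1))) := by
      unfold iL
      rw [w.p2.map_sup, v.q2.map_sup, g.s1.map_sup]
    rw [e4]
    order
  unfold Fz
  rw [g.s1.qs_dg, v.q2.qs_dg]
  exact h1.trans h2

/-- the identity of the rectangle -/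
theorem rect_eq : g.b1 = g.b0 + (g.t1 * g.Fz - g.Fr1 * g.tau) + (-(g.t1 * g.Fx1)) +
    (g.tau * g.Fr0 - g.t0 * g.Fz + g.t0 * g.Fx0) := by
  have h1 := congrArg g.s1.qs v.zb
  have h2 := congrArg g.s2.qs v.zb
  simp only [map_sub, map_mul, map_add] at h1 h2
  rw [← g.cb, ← g.cF, ← g.ct] at h2
  unfold b1 b0 t1 t0 Fz Fr1 Fr0 Fx1 Fx0 tau
  linear_combination h2 - h1

/-- the block of the rectangle -/
def fB : (Fin d ⊕ Fin d ⊕ Fin d ⊕ Fin 3) → QS g.D :=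
  Sum.elim (fun i => g.s1.qs (v.q1.qs (w.p2.qs (s.a i))))
    (Sum.elim (fun i => g.s1.qs (v.q1.qs (w.p2.qs (s.x i))))
      (Sum.elim (fun i => g.s1.qs (v.q1.qs (w.p1.qs (s.x i)))) ![g.t0, g.Fr0, g.Fx0]))

theorem vd_fB (hs : s.Hyp) : vd g.fB 1 = g.B := by
  unfold fB
  rw [vd_sum, vd_sum, vd_sum, vd3]
  have h1 : g.L = vd (fun i => g.s1.qs (v.q1.qs (w.p2.qs (s.a i)))) 1 ⊔
      vd (fun i => g.s1.qs (v.q1.qs (w.p2.qs (s.x i)))) 1 := by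
    unfold L iL
    rw [w.p2.map_sup, v.q1.map_sup, g.s1.map_sup, ← w.p2.qs_vd, ← w.p2.qs_vd, ← v.q1.qs_vd,
      ← v.q1.qs_vd, ← g.s1.qs_vd, ← g.s1.qs_vd]
  have h2 : g.U = vd (fun i => g.s1.qs (v.q1.qs (w.p1.qs (s.x i)))) 1 := by
    unfold U Zed.U iX
    rw [← w.p1.qs_vd, ← v.q1.qs_vd, ← g.s1.qs_vd]
  have hB : g.B = g.L ⊔ g.U ⊔ g.T0 := rfl
  have a0 := g.T0_eq
  have a1 := g.lFr0 hs
  have a2 := g.lFx0 hs
  rw [← h2, ← a0]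
  order

def fP : Fin 3 → QS g.D := ![g.t1, g.Fr1, -(g.t1 * g.Fx1)]
def fQ : Fin 3 → QS g.D := ![g.tau, g.Fz, g.tau * g.Fr0 - g.t0 * g.Fz + g.t0 * g.Fx0]

theorem vd_fP1 : g.T1 ≤ vd g.fP 1 := by
  unfold fP
  rw [vd3, g.T1_eq]
  order

theorem vd_fP2 (hs : s.Hyp) : vd g.fP 1 ≤ g.T1 ⊔ g.B := by
  unfold fP
  rw [vd3]
  have hB : g.B = g.L ⊔ g.U ⊔ g.T0 := rfl
  have a0 := g.T1_eq
  have a1 := g.lFr1 hs
  have a2 := g.lFx1 hs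
  have a3 := dg_neg_le (g.t1 * g.Fx1)
  have a4 := dg_mul_le g.t1 g.Fx1 (r := 1) le_rfl
  order

theorem vd_fQ1 : dg g.tau 1 ≤ vd g.fQ 1 := by
  unfold fQ
  rw [vd3]
  order

theorem vd_fQ2 (hs : s.Hyp) : vd g.fQ 1 ≤ dg g.tau 1 ⊔ g.B := by
  unfold fQ
  rw [vd3]
  have hB : g.B = g.L ⊔ g.U ⊔ g.T0 := rfl
  have a0 := g.T0_eq
  have a1 := g.lFr0 hs
  have a2 := g.lFx0 hs
  have a3 := g.lFz hs
  have b1 := dg_add_le (g.tau * g.Fr0 - g.t0 * g.Fz) (g.t0 * g.Fx0) (r := 1) le_rfl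
  have b2 := dg_sub_le (g.tau * g.Fr0) (g.t0 * g.Fz) (r := 1) le_rfl
  have b3 := dg_mul_le g.tau g.Fr0 (r := 1) le_rfl
  have b4 := dg_mul_le g.t0 g.Fz (r := 1) le_rfl
  have b5 := dg_mul_le g.t0 g.Fx0 (r := 1) le_rfl
  order

def blk (hs : s.Hyp) : Blk g.D (Fin d ⊕ Fin d ⊕ Fin d ⊕ Fin 3) where
  fB := g.fB
  fP := g.fP
  fQ := g.fQ
  z := g.b0
  z3 := g.b1
  eq := g.rect_eq
  iz := by
    have a1 := g.vd_fP2 hs
    have a2 := g.vd_fQ2 hs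
    rw [g.vd_fB hs]
    exact I_zero_mono (g.c1 hs) (by unfold b0; order) (by order)
  iz3 := by
    have a1 := g.vd_fP2 hs
    have a2 := g.vd_fQ2 hs
    rw [g.vd_fB hs]
    exact I_zero_mono (g.c2 hs) (by unfold b1; order) (by order)
  ipq := by
    rw [g.vd_fB hs]
    exact I_zero_mono (g.c3 hs) (g.vd_fP2 hs) (g.vd_fQ2 hs)

end Rct

end FB

end

end Pool.Agent.Helper38.NS
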