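import Pool.Agent.Helper38.NS.Deg
import Mathlib.LinearAlgebra.Matrix.SchurComplement

/-! Exact entropy calculus: classes of lines closed under extensions and events; linear algebra for general
position. -/

set_option autoImplicit false

namespace Pool.Agent.Helper38.NS

open Pool.Agent.Helper31.EC QS Sp

noncomputable section

/-- a bordered matrix with invertible Schur complement -/
theorem schur {R : Type*} [CommRing R] {k : ℕ} (N : Matrix (Fin k) (Fin k) R) (hN : IsUnit N.det)
    (c r : Fin k → R) (v : R) (l : Fin k → R) (hl : ∀ i, ∑ j, N i j * l j = c i)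
    (hρ : IsUnit (v - ∑ j, l j * r j)) (M : Matrix (Fin (k + 1)) (Fin (k + 1)) R)
    (h1 : ∀ i j : Fin k, M i.castSucc j.castSucc = N i j)
    (h2 : ∀ i : Fin k, M i.castSucc (Fin.last k) = c i)
    (h3 : ∀ j : Fin k, M (Fin.last k) j.castSucc = r j) (h4 : M (Fin.last k) (Fin.last k) = v) :
    IsUnit M.det := by
  classical
  have := Matrix.invertibleOfIsUnitDet N hN
  have e1 : M.submatrix (finSumFinEquiv : Fin k ⊕ Fin 1 ≃ Fin (k + 1)) finSumFinEquiv =
      Matrix.fromBlocks N (Matrix.of fun i _ => c i) (Matrix.of fun _ j => r j)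
        (Matrix.of fun _ _ => v) := by
    ext i j
    rcases i with i | i
    · rcases j with j | j
      · exact h1 i j
      · have hj : j = 0 := Subsingleton.elim _ _
        subst hj
        exact h2 i
    · have hi : i = 0 := Subsingleton.elim _ _
      subst hi
      rcases j with j | j
      · exact h3 j
      · have hj : j = 0 := Subsingleton.elim _ _
        subst hj
        exact h4
  rw [← Matrix.det_submatrix_equiv_self (finSumFinEquiv : Fin k ⊕ Fin 1 ≃ Fin (k + 1)) M, e1,
    Matrix.det_fromBlocks₁₁]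
  apply hN.mul
  have e2 : ((Matrix.of fun (_ _ : Fin 1) => v) - (Matrix.of fun (_ : Fin 1) j => r j) * ⅟N *
      (Matrix.of fun i (_ : Fin 1) => c i)).det = v - ∑ j, l j * r j := by
    have e3 : ⅟N * (Matrix.of fun i (_ : Fin 1) => c i) = Matrix.of fun i (_ : Fin 1) => l i := by
      have e4 : (Matrix.of fun i (_ : Fin 1) => c i) = N * (Matrix.of fun i (_ : Fin 1) => l i) := by
        ext i j
        rw [Matrix.mul_apply]
        exact (hl i).symm
      rw [e4, ← Matrix.mul_assoc, invOf_mul_self, Matrix.one_mul]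
    rw [Matrix.mul_assoc, e3, Matrix.det_unique, Matrix.sub_apply, Matrix.mul_apply]
    show v - ∑ j, r j * l j = _
    congr 1
    exact Finset.sum_congr rfl fun j _ => mul_comm _ _
  rw [e2]
  exact hρ

/-- determinants modulo an ideal -/
theorem det_mod {R : Type*} [CommRing R] {k : ℕ} (J : Ideal R) (B L B' : Matrix (Fin k) (Fin k) R)
    (h : ∀ i j, B' i j - ∑ l, B i l * L l j ∈ J) {g : R} (hg : g * B'.det = 1) :
    (g * L.det) * B.det - 1 ∈ J := by
  classical
  have h1 : (Ideal.Quotient.mk J) B'.det = (Ideal.Quotient.mk J) (B * L).det := by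
    rw [RingHom.map_det, RingHom.map_det]
    congr 1
    ext i j
    rw [RingHom.mapMatrix_apply, RingHom.mapMatrix_apply, Matrix.map_apply, Matrix.map_apply,
      Ideal.Quotient.eq, Matrix.mul_apply]
    exact h i j
  rw [Matrix.det_mul, Ideal.Quotient.eq] at h1
  have h2 := J.mul_mem_left g h1
  have h3 : g * (B'.det - B.det * L.det) = -((g * L.det) * B.det - 1) := by
    rw [mul_sub, hg]
    ring
  rw [h3] at h2
  exact J.neg_mem_iff.mp h2

namespace FB

/-- image of line data under a ring homomorphism -/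
def map {S T : Sp} {d : ℕ} (φ : QS S →+* QS T) (s : FB S d) : FB T d :=
  ⟨φ s.t, fun i => φ (s.a i), fun i => φ (s.x i), φ s.b, φ s.F⟩

variable {S T : Sp} {d : ℕ}

theorem map_q (φ : QS S →+* QS T) (s : FB S d) (j : Fin (d + 1)) : (s.map φ).q j = φ (s.q j) := by
  induction j using Fin.cases with
  | zero => rfl
  | succ j =>
    show φ (s.a j) + φ s.t * φ (s.x j) = φ (s.a j + s.t * s.x j)
    rw [map_add, map_mul]

theorem map_v (φ : QS S →+* QS T) (s : FB S d) (j : Fin (d + 1)) : (s.map φ).v j = φ (s.v j) := by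
  induction j using Fin.cases with
  | zero => exact (map_one φ).symm
  | succ j => rfl

theorem map_comp {R : Sp} (ψ : QS T →+* QS R) (φ : QS S →+* QS T) (s : FB S d) :
    (s.map φ).map ψ = s.map (ψ.comp φ) := rfl

/-- intercepts of the base line -/
def av (s : FB S d) : Fin (d + 1) → QS S := Fin.cons 0 s.a

theorem q_av (s : FB S d) (j : Fin (d + 1)) : s.q j = s.av j + s.t * s.v j := by
  induction j using Fin.cases with
  | zero =>
    show s.t = 0 + s.t * 1
    ring
  | succ j => rfl

theorem av_le (s : FB S d) (j : Fin (d + 1)) : dg (s.av j) 1 ≤ s.iL := by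
  induction j using Fin.cases with
  | zero => exact (Kn S 1 le_rfl _).zero_mem
  | succ j => exact (dg_le_vd s.a 1 j).trans le_sup_left

theorem v_le (s : FB S d) (j : Fin (d + 1)) : dg (s.v j) 1 ≤ s.iX := by
  induction j using Fin.cases with
  | zero => exact (Kn S 1 le_rfl _).one_mem
  | succ j => exact dg_le_vd s.x 1 j

end FB

/-- classes of line data which are closed under extensions and events, with real points, and in which no
information is common to point and line -/
structure Cls (d : ℕ) where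
  K : ∀ T : Sp, FB T d → Prop
  pull : ∀ {T S : Sp} (p : Pj T S) (s : FB S d), K S s → K T (s.map p.qs)
  rest : ∀ {S : Sp} (s : FB S d) (E : ∀ k, (S.F k).Ω → Prop) (hE : 0 < ul (S.pr E)),
    K S s → K (S.rest E) (s.map (QS.rest E hE))
  real : ∀ {S : Sp} (s : FB S d), K S s → Rl s.q ⊥
  conn : ∀ {S : Sp} (s : FB S d), K S s → ∀ (g : QS S) (r : ℝ), 0 ≤ r → r ≤ 1 →
    dg g r ≤ vd s.q 1 → dg g r ≤ s.iL → dg g r = ⊥

/-- admissible maps -/
structure Hm {d : ℕ} (κ : Cls d) (S T : Sp) where
  φ : QS S →+* QS T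
  m : S.L → T.L
  deq : ∀ f r, dg (φ f) r = m (dg f r)
  msup : ∀ x y, m (x ⊔ y) = m x ⊔ m y
  mbot : m ⊥ = ⊥
  mind : ∀ x y z, I x y z = 0 → I (m x) (m y) (m z) = 0
  idl : ∀ r, r ≤ 1 → ∀ f, f ∈ Id S r → φ f ∈ Id T r
  cls : ∀ s, κ.K S s → κ.K T (s.map φ)

namespace Hm

variable {d : ℕ} {κ : Cls d} {S T R : Sp}

def pull {T S : Sp} (p : Pj T S) : Hm κ S T where
  φ := p.qs
  m := p.map
  deq := p.qs_dg
  msup := p.map_sup
  mbot := p.map_bot
  mind x y z h := by rw [p.I_map]; exact h
  idl r hr f hf := (p.qs_mem_Id hr).mpr hf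
  cls s h := κ.pull p s h

def rest (S : Sp) (E : ∀ k, (S.F k).Ω → Prop) (hE : 0 < ul (S.pr E)) : Hm κ S (S.rest E) where
  φ := QS.rest E hE
  m := restL E hE
  deq := QS.rest_dg E hE
  msup := restL_sup E hE
  mbot := restL_bot E hE
  mind _ _ _ h := I_rest_zero E hE h
  idl _ hr _ hf := rest_mem_Id E hE hr hf
  cls s h := κ.rest s E hE h

def comp (b : Hm κ T R) (a : Hm κ S T) : Hm κ S R where
  φ := b.φ.comp a.φ
  m x := b.m (a.m x)
  deq f r := by
    show dg (b.φ (a.φ f)) r = _
    rw [b.deq, a.deq]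
  msup x y := by rw [a.msup, b.msup]
  mbot := by rw [a.mbot, b.mbot]
  mind x y z h := b.mind _ _ _ (a.mind _ _ _ h)
  idl r hr f hf := b.idl r hr _ (a.idl r hr f hf)
  cls s h := b.cls _ (a.cls s h)

variable (a : Hm κ S T)

theorem mono {x y : S.L} (h : x ≤ y) : a.m x ≤ a.m y := by
  have h1 := a.msup x y
  rw [sup_eq_right.mpr h] at h1
  rw [h1]
  exact le_sup_left

theorem mfin {ι : Type} (s : Finset ι) (f : ι → S.L) : a.m (s.sup f) = s.sup fun i => a.m (f i) := by
  classical
  induction s using Finset.induction_on with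
  | empty => simp [a.mbot]
  | insert i s hi ih => rw [Finset.sup_insert, Finset.sup_insert, a.msup, ih]

theorem mvd {ι : Type} [Fintype ι] (f : ι → QS S) (r : ℝ) :
    vd (fun i => a.φ (f i)) r = a.m (vd f r) := by
  unfold vd
  rw [a.mfin]
  congr 1
  funext i
  exact a.deq _ _

theorem iX_map (s : FB S d) : (s.map a.φ).iX = a.m s.iX := a.mvd s.x 1

theorem iL_map (s : FB S d) : (s.map a.φ).iL = a.m s.iL := by
  unfold FB.iL
  rw [a.msup, ← a.mvd, ← a.mvd]
  rfl

end Hm

/-- independence of the directions of the first `k` lines -/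
def Ind {d : ℕ} {T : Sp} (w : ℕ → FB T d) (k : ℕ) : Prop :=
  ∀ i < k, I (w i).iX ((Finset.range i).sup fun j => (w j).iX) ⊥ = 0

theorem Ind.map {d : ℕ} {κ : Cls d} {S T : Sp} (a : Hm κ S T) {w : ℕ → FB S d} {k : ℕ}
    (h : Ind w k) : Ind (fun i => (w i).map a.φ) k := by
  intro i hi
  have h1 := a.mind _ _ _ (h i hi)
  rw [a.mbot, a.mfin] at h1
  rw [a.iX_map]
  have h2 : ((Finset.range i).sup fun j => ((w j).map a.φ).iX) =
      (Finset.range i).sup fun j => a.m (w j).iX := by
    congr 1
    funext j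
    exact a.iX_map _
  rw [h2]
  exact h1

end

end Pool.Agent.Helper38.NS
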