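import Pool.Agent.Helper38.NS.T3A

/-! Exact entropy calculus: directions which are degenerate on an event of positive probability produce a common
information of point and line. -/

set_option autoImplicit false

namespace Pool.Agent.Helper38.NS

open Pool.Agent.Helper31.EC QS Sp

noncomputable section

/-- nondegeneracy of the first `k` directions on some admissible image -/
def NDeg {d : ℕ} (κ : Cls d) (k : ℕ) : Prop :=
  ∀ (T : Sp) (w : ℕ → FB T d), (∀ i < k, κ.K T (w i)) → Ind w k →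
    ∃ (T' : Sp) (a : Hm κ T T') (e : Fin k → Fin (d + 1)), Function.Injective e ∧
      IsUnit (Matrix.det (Matrix.of fun i j : Fin k => a.φ ((w i).v (e j))))

/-- a real point has no free affine relation -/
theorem real_no_rel {T : Sp} {d k : ℕ} (q : Fin (d + 1) → QS T) (hq : Rl q ⊥) (m0 : Fin (d + 1))
    (e : Fin k → Fin (d + 1)) (hm : ∀ l, e l ≠ m0) (c : Fin k → QS T) {δ : ℝ} (hδ : 0 < δ)
    (hδ1 : δ ≤ 1) (hc : ∀ l, dg (c l) δ = ⊥) (hg : dg (q m0 - ∑ l, c l * q (e l)) δ = ⊥) :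
    False := by
  classical
  obtain ⟨Z, hZ⟩ : ∃ Z, Z = sd q (Finset.univ.erase m0) := ⟨_, rfl⟩
  have h1 : dg (q m0) δ ≤ Z := by
    have e1 : q m0 = (q m0 - ∑ l, c l * q (e l)) + ∑ l, c l * q (e l) := by ring
    have h2 : q m0 ∈ Kn T δ hδ1 Z := by
      rw [e1]
      apply (Kn T δ hδ1 Z).add_mem
      · rw [mem_Kn, hg]
        exact bot_le
      · apply (Kn T δ hδ1 Z).sum_mem
        intro l _
        apply (Kn T δ hδ1 Z).mul_mem
        · rw [mem_Kn, hc]
          exact bot_le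
        · rw [mem_Kn, hZ]
          exact (dg_mono _ hδ1).trans
            (dg_le_sd q (Finset.mem_erase.mpr ⟨hm l, Finset.mem_univ _⟩))
    exact h2
  have h2 := hq.sub (s := {m0}) (t := Finset.univ.erase m0) (by simp)
  have h3 : sd q {m0} = dg (q m0) 1 := by
    unfold sd
    rw [Finset.sup_singleton]
  rw [h3, ← hZ, sup_bot_eq, Finset.card_singleton, Nat.cast_one] at h2
  have h4 := h_triangle (dg (q m0) 1) (dg (q m0) δ) Z
  have h5 : Helper31.EC.h (dg (q m0) δ) Z = 0 := h_zero h1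
  have h6 : Helper31.EC.h (dg (q m0) 1) (dg (q m0) δ ⊔ Z) ≤
      Helper31.EC.h (dg (q m0) 1) (dg (q m0) δ) := h_anti le_sup_left
  have h7 := h_dg_dg (q m0) hδ1
  linarith

theorem copies_contra {d : ℕ} (κ : Cls d) {k : ℕ} (hk : k < d + 1) (ih : NDeg κ k) {T : Sp}
    (w : ℕ → FB T d) (hK : κ.K T (w k)) (hI : Ind w (k + 1)) (e : Fin k → Fin (d + 1))
    (hN : IsUnit (Matrix.det (Matrix.of fun i j : Fin k => (w i).v (e j))))
    (l : Fin (d + 1) → Fin k → QS T)
    (hl : ∀ (i : Fin k) m, ∑ j, (w i).v (e j) * l m j = (w i).v m) {δ : ℝ} (hδ : 0 < δ)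
    (hδ1 : δ ≤ 1) (hρ : ∀ m, (w k).v m - ∑ j, l m j * (w k).v (e j) ∈ Id T δ) : False := by
  classical
  obtain ⟨f, hf⟩ : ∃ f : Fin k × Fin d → QS T, ∀ a, f a = (w a.1).x a.2 := ⟨_, fun _ => rfl⟩
  have hfv : vd f 1 = (Finset.range k).sup fun j => (w j).iX := by
    apply le_antisymm
    · rw [vd_le]
      intro a
      rw [hf]
      exact (dg_le_vd (w a.1).x 1 a.2).trans (Finset.le_sup (f := fun j => (w j).iX)
        (Finset.mem_range.mpr a.1.isLt))
    · apply Finset.sup_le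
      intro j hj
      unfold FB.iX
      rw [vd_le]
      intro m
      have h1 := dg_le_vd f 1 (⟨j, Finset.mem_range.mp hj⟩, m)
      rw [hf] at h1
      exact h1
  obtain ⟨X, hX⟩ : ∃ X, X = (w k).iX := ⟨_, rfl⟩
  have hXf : I X (vd f 1) ⊥ = 0 := by
    rw [hfv, hX]
    exact hI k (Nat.lt_succ_self k)
  obtain ⟨C⟩ := exists_CQ f k
  obtain ⟨w3, hw3⟩ : ∃ w3 : ℕ → FB C.W d, ∀ j, w3 j = (w k).map (C.p (Fin.ofNat (k + 1) j)).qs :=
    ⟨_, fun _ => rfl⟩
  have hK3 : ∀ i, κ.K C.W (w3 i) := by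
    intro i
    rw [hw3]
    exact κ.pull _ _ hK
  have hX3 : ∀ j, (w3 j).iX = (C.p (Fin.ofNat (k + 1) j)).map X := by
    intro j
    rw [hw3, hX]
    exact (Hm.pull (κ := κ) (C.p (Fin.ofNat (k + 1) j))).iX_map (w k)
  have hval : ∀ j, j < k → ((Fin.ofNat (k + 1) j : Fin (k + 1)) : ℕ) = j := by
    intro j hj
    exact Nat.mod_eq_of_lt (by omega)
  have hinj : ∀ i ≤ k, Set.InjOn (fun j => (Fin.ofNat (k + 1) j : Fin (k + 1))) (Finset.range i) := by
    intro i hi a ha b hb hab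
    have ha' := Finset.mem_range.mp ha
    have hb' := Finset.mem_range.mp hb
    have h1 := congrArg Fin.val hab
    beta_reduce at h1
    rw [hval a (by omega), hval b (by omega)] at h1
    exact h1
  have hsup : ∀ i, ((Finset.range i).sup fun j => (w3 j).iX) =
      ((Finset.range i).image fun j => (Fin.ofNat (k + 1) j : Fin (k + 1))).sup
        fun j => (C.p j).map X := by
    intro i
    rw [Finset.sup_image]
    congr 1
    funext j
    exact hX3 j
  have hXv : ∀ j, I ((C.p j).map X) C.v ⊥ = 0 := by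
    intro j
    have h1 := (C.p j).I_map X (vd f 1) ⊥
    rw [hXf, C.p_v, (C.p j).map_bot] at h1
    exact h1
  have hI3 : Ind w3 k := by
    intro i hi
    rw [hX3 i, hsup i]
    have h1 := C.I_sup (s := {(Fin.ofNat (k + 1) i : Fin (k + 1))})
      (t := (Finset.range i).image fun j => (Fin.ofNat (k + 1) j : Fin (k + 1)))
      (by
        rw [Finset.disjoint_singleton_left, Finset.mem_image]
        rintro ⟨j, hj, hji⟩
        have hj' := Finset.mem_range.mp hj
        have h2 := congrArg Fin.val hji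
        rw [hval j (by omega), hval i hi] at h2
        omega) (fun _ => X)
    rw [Finset.sup_singleton] at h1
    have h3 := ind_add (hXv (Fin.ofNat (k + 1) i)) h1 (by rw [sup_bot_eq])
    exact I_zero_mono h3 le_sup_left (le_sup_right.trans le_sup_left)
  have hcv : I ((Finset.range k).sup fun j => (w3 j).iX) C.v ⊥ = 0 := by
    refine ind_of_h ?_
    rw [sup_bot_eq, h_bot]
    have h1 : Helper31.EC.h ((Finset.range k).sup fun j => (w3 j).iX) C.v =
        ∑ j ∈ Finset.range k, H (w3 j).iX := by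
      rw [hsup k, C.h_sup, Finset.sum_image (hinj k le_rfl)]
      apply Finset.sum_congr rfl
      intro j _
      rw [hX3, Pj.H_map, ← h_bot X]
      exact h_of_ind' hXf bot_le (by rw [sup_bot_eq])
    rw [h1]
    exact H_finsup_le _ _
  obtain ⟨T4, a, e2, -, hdet2⟩ := ih C.W w3 (fun i _ => hK3 i) hI3
  obtain ⟨θ, hθ⟩ : ∃ θ : Fin (k + 1) → (QS T →+* QS T4), ∀ j f, θ j f = a.φ ((C.p j).qs f) :=
    ⟨fun j => a.φ.comp (C.p j).qs, fun _ _ => rfl⟩
  have hθv : ∀ j m, a.φ ((w3 j).v m) = θ (Fin.ofNat (k + 1) j) ((w k).v m) := by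
    intro j m
    rw [hw3, FB.map_v, hθ]
  have hcom : ∀ (j : Fin (k + 1)) (i : Fin k) m, θ j ((w i).v m) = θ 0 ((w i).v m) := by
    intro j i m
    induction m using Fin.cases with
    | zero => rw [FB.v_zero, map_one, map_one]
    | succ m =>
      rw [FB.v_succ, hθ, hθ]
      have h1 := C.com j 0 (i, m)
      rw [hf] at h1
      rw [h1]
  -- the coefficients are common
  obtain ⟨l4, hl4⟩ : ∃ l4 : Fin (d + 1) → Fin k → QS T4, ∀ m j, l4 m j = θ 0 (l m j) :=
    ⟨_, fun _ _ => rfl⟩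
  have hN4 : IsUnit (Matrix.det (Matrix.of fun i j : Fin k => θ 0 ((w i).v (e j)))) := by
    have h1 := hN.map (θ 0)
    rw [RingHom.map_det] at h1
    exact h1
  have hlc : ∀ (j : Fin (k + 1)) m n, θ j (l m n) = l4 m n := by
    intro j m n
    rw [hl4, ← sub_eq_zero, ← Ideal.mem_bot]
    refine mulVec_mem_ideal ⊥ (Matrix.of fun i j : Fin k => θ 0 ((w i).v (e j)))
      (fun n => θ j (l m n) - θ 0 (l m n)) hN4 (fun i => ?_) n
    rw [Ideal.mem_bot]
    have h1 : ∀ j', ∑ n, θ 0 ((w i).v (e n)) * θ j' (l m n) = θ 0 ((w i).v m) := by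
      intro j'
      rw [← hcom j' i m, ← hl i m, map_sum]
      exact Finset.sum_congr rfl fun n _ => by rw [map_mul, hcom j' i (e n)]
    show ∑ n, θ 0 ((w i).v (e n)) * (θ j (l m n) - θ 0 (l m n)) = 0
    have h2 : ∀ n, θ 0 ((w i).v (e n)) * (θ j (l m n) - θ 0 (l m n)) =
        θ 0 ((w i).v (e n)) * θ j (l m n) - θ 0 ((w i).v (e n)) * θ 0 (l m n) := fun n => by ring
    rw [Finset.sum_congr rfl fun n _ => h2 n, Finset.sum_sub_distrib, h1 j, h1 0, sub_self]
  have hR : ∀ (j : Fin (k + 1)) m, θ j ((w k).v m) - ∑ n, θ j ((w k).v (e n)) * l4 m n ∈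
      Id T4 δ := by
    intro j m
    have h1 := a.idl δ hδ1 _ (((C.p j).qs_mem_Id hδ1).mpr (hρ m))
    rw [← hθ j, map_sub, map_sum] at h1
    have h2 : ∀ n, θ j (l m n * (w k).v (e n)) = θ j ((w k).v (e n)) * l4 m n := by
      intro n
      rw [map_mul, hlc]
      ring
    rw [Finset.sum_congr rfl fun n _ => h2 n] at h1
    exact h1
  obtain ⟨B, hB⟩ : ∃ B : Matrix (Fin k) (Fin k) (QS T4), B = Matrix.of fun (j : Fin k) n =>
    θ (Fin.ofNat (k + 1) j) ((w k).v (e n)) := ⟨_, rfl⟩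
  have hBu : IsUnit B.det := by
    obtain ⟨g, hg⟩ := hdet2.exists_left_inv
    refine isUnit_of_mod hδ (det_mod (Id T4 δ) B (Matrix.of fun n m => l4 (e2 m) n) _
      (fun i j => ?_) hg)
    show a.φ ((w3 i).v (e2 j)) - ∑ n, B i n * l4 (e2 j) n ∈ Id T4 δ
    rw [hθv, hB]
    exact hR _ _
  obtain ⟨Y, hY⟩ : ∃ Y, Y = (Finset.range k).sup fun j => (w3 j).iX := ⟨_, rfl⟩
  rw [← hY] at hcv
  have hvY : ∀ (j : Fin k) m, dg (θ (Fin.ofNat (k + 1) j) ((w k).v m)) δ ≤ a.m Y := by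
    intro j m
    refine (dg_mono _ hδ1).trans ?_
    rw [← hθv, a.deq]
    apply a.mono
    refine (FB.v_le _ _).trans ?_
    rw [hY]
    exact Finset.le_sup (f := fun j => (w3 j).iX) (Finset.mem_range.mpr j.isLt)
  have hd1 : ∀ m n, dg (l4 m n) δ ≤ a.m Y := by
    intro m n
    have h1 : ∀ n, l4 m n - ∑ j, B⁻¹ n j * θ (Fin.ofNat (k + 1) (j : ℕ)) ((w k).v m) ∈
        Id T4 δ := by
      apply mulVec_mem_ideal (Id T4 δ) B _ hBu
      intro i
      show ∑ n, B i n * (l4 m n - ∑ j, B⁻¹ n j * θ (Fin.ofNat (k + 1) (j : ℕ)) ((w k).v m)) ∈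
        Id T4 δ
      have h2 : ∑ n, B i n * (l4 m n -
          ∑ j, B⁻¹ n j * θ (Fin.ofNat (k + 1) (j : ℕ)) ((w k).v m)) =
          -(θ (Fin.ofNat (k + 1) (i : ℕ)) ((w k).v m) -
            ∑ n, θ (Fin.ofNat (k + 1) (i : ℕ)) ((w k).v (e n)) * l4 m n) := by
        have h3 : ∑ n, B i n * ∑ j, B⁻¹ n j * θ (Fin.ofNat (k + 1) (j : ℕ)) ((w k).v m) =
            θ (Fin.ofNat (k + 1) (i : ℕ)) ((w k).v m) := by
          have h4 : ∀ n, B i n * ∑ j, B⁻¹ n j * θ (Fin.ofNat (k + 1) (j : ℕ)) ((w k).v m) =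
              ∑ j, (B i n * B⁻¹ n j) * θ (Fin.ofNat (k + 1) (j : ℕ)) ((w k).v m) := by
            intro n
            rw [Finset.mul_sum]
            exact Finset.sum_congr rfl fun j _ => by ring
          rw [Finset.sum_congr rfl fun n _ => h4 n, Finset.sum_comm]
          have h5 : ∀ j, ∑ n, (B i n * B⁻¹ n j) * θ (Fin.ofNat (k + 1) (j : ℕ)) ((w k).v m) =
              if i = j then θ (Fin.ofNat (k + 1) (j : ℕ)) ((w k).v m) else 0 := by
            intro j
            rw [← Finset.sum_mul]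
            have h6 : ∑ n, B i n * B⁻¹ n j = (B * B⁻¹) i j := (Matrix.mul_apply).symm
            rw [h6, Matrix.mul_nonsing_inv _ hBu, Matrix.one_apply, ite_mul, one_mul, zero_mul]
          rw [Finset.sum_congr rfl fun j _ => h5 j, Finset.sum_ite_eq, if_pos (Finset.mem_univ _)]
        have h7 : ∀ n, B i n * (l4 m n -
            ∑ j, B⁻¹ n j * θ (Fin.ofNat (k + 1) (j : ℕ)) ((w k).v m)) =
            B i n * l4 m n - B i n * ∑ j, B⁻¹ n j * θ (Fin.ofNat (k + 1) (j : ℕ)) ((w k).v m) :=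
          fun n => by ring
        rw [Finset.sum_congr rfl fun n _ => h7 n, Finset.sum_sub_distrib, h3]
        have h8 : ∑ n, B i n * l4 m n =
            ∑ n, θ (Fin.ofNat (k + 1) (i : ℕ)) ((w k).v (e n)) * l4 m n := by
          rw [hB]
          rfl
        rw [h8]
        ring
      rw [h2]
      exact (Id T4 δ).neg_mem (hR _ m)
    rw [dg_eq_of_sub_mem (h1 n) le_rfl hδ1]
    apply (Kn T4 δ hδ1 _).sum_mem
    intro j _
    apply (Kn T4 δ hδ1 _).mul_mem
    · refine inv_mem B hδ1 _ (fun i j => ?_) hBu n j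
      rw [hB]
      exact hvY i (e j)
    · exact hvY j m
  have hlk : ∀ m n, dg (l m n) 1 ≤ vd f 1 := by
    intro m n
    obtain ⟨N, hNd⟩ : ∃ N : Matrix (Fin k) (Fin k) (QS T), N = Matrix.of fun i j : Fin k =>
      (w i).v (e j) := ⟨_, rfl⟩
    rw [← hNd] at hN
    have hvf : ∀ (i : Fin k) m, dg ((w i).v m) 1 ≤ vd f 1 := by
      intro i m
      refine (FB.v_le _ _).trans ?_
      rw [hfv]
      exact Finset.le_sup (f := fun j => (w j).iX) (Finset.mem_range.mpr i.isLt)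
    have h1 : l m = (N⁻¹).mulVec (fun i => (w i).v m) := by
      have h2 : (fun i : Fin k => (w i).v m) = N.mulVec (l m) := by
        funext i
        rw [← hl i m, hNd]
        rfl
      rw [h2, Matrix.mulVec_mulVec, Matrix.nonsing_inv_mul _ hN, Matrix.one_mulVec]
    have h2 : l m n = ∑ i : Fin k, N⁻¹ n i * (w i).v m := by
      rw [h1]
      rfl
    rw [h2]
    apply (Kn T 1 le_rfl _).sum_mem
    intro i _
    apply (Kn T 1 le_rfl _).mul_mem
    · refine inv_mem N le_rfl _ (fun i j => ?_) hN n i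
      rw [hNd]
      exact hvf i (e j)
    · exact hvf i m
  have hd2 : ∀ m n, dg (l4 m n) δ ≤ a.m C.v := by
    intro m n
    have h1 : (C.p 0).map (dg (l m n) 1) ≤ C.v := by
      have h2 : C.v = (C.p 0).map (vd f 1) := rfl
      rw [h2]
      exact (C.p 0).map_mono (hlk m n)
    have h3 := a.mono h1
    have h4 : dg (l4 m n) 1 = a.m ((C.p 0).map (dg (l m n) 1)) := by
      rw [hl4, hθ, a.deq, (C.p 0).qs_dg]
    rw [← h4] at h3
    exact (dg_mono _ hδ1).trans h3
  have hfree : ∀ m n, dg (l4 m n) δ = ⊥ := by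
    intro m n
    have h1 := a.mind _ _ _ hcv
    rw [a.mbot] at h1
    exact le_antisymm (le_of_markov ((hd1 m n).trans le_sup_left) ((hd2 m n).trans le_sup_left) h1)
      bot_le
  obtain ⟨m0, hm0⟩ : ∃ m0, ∀ n, e n ≠ m0 := by
    by_contra hcon
    push Not at hcon
    have h1 := Fintype.card_le_of_surjective e hcon
    rw [Fintype.card_fin, Fintype.card_fin] at h1
    omega
  obtain ⟨w5, hw5⟩ : ∃ w5, w5 = (w k).map (θ 0) := ⟨_, rfl⟩
  have hK5 : κ.K T4 w5 := by
    have h1 := a.cls _ (κ.pull (C.p 0) (w k) hK)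
    rw [FB.map_comp] at h1
    have h2 : θ 0 = a.φ.comp (C.p 0).qs := RingHom.ext fun f => hθ 0 f
    rw [hw5, h2]
    exact h1
  have hv5 : ∀ m, w5.v m = θ 0 ((w k).v m) := by
    intro m
    rw [hw5, FB.map_v]
  obtain ⟨g, hg⟩ : ∃ g, g = w5.q m0 - ∑ n, l4 m0 n * w5.q (e n) := ⟨_, rfl⟩
  have g1 : dg g δ ≤ vd w5.q 1 := by
    have h1 : g ∈ Kn T4 δ hδ1 (vd w5.q 1) := by
      rw [hg]
      apply (Kn T4 δ hδ1 _).sub_mem
      · exact (dg_mono _ hδ1).trans (dg_le_vd w5.q 1 m0)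
      · apply (Kn T4 δ hδ1 _).sum_mem
        intro n _
        apply (Kn T4 δ hδ1 _).mul_mem
        · rw [mem_Kn, hfree]
          exact bot_le
        · exact (dg_mono _ hδ1).trans (dg_le_vd w5.q 1 (e n))
    exact h1
  have g2 : dg g δ ≤ w5.iL := by
    have h1 : g - (w5.av m0 - ∑ n, l4 m0 n * w5.av (e n)) ∈ Id T4 δ := by
      have h2 : g - (w5.av m0 - ∑ n, l4 m0 n * w5.av (e n)) =
          w5.t * (w5.v m0 - ∑ n, w5.v (e n) * l4 m0 n) := by
        have h3 : ∀ n, l4 m0 n * w5.q (e n) = l4 m0 n * w5.av (e n) +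
            w5.t * (w5.v (e n) * l4 m0 n) := by
          intro n
          rw [FB.q_av]
          ring
        rw [hg, Finset.sum_congr rfl fun n _ => h3 n, Finset.sum_add_distrib, ← Finset.mul_sum,
          FB.q_av]
        ring
      rw [h2]
      apply (Id T4 δ).mul_mem_left
      rw [hv5]
      have h3 : ∑ n, w5.v (e n) * l4 m0 n = ∑ n, θ 0 ((w k).v (e n)) * l4 m0 n :=
        Finset.sum_congr rfl fun n _ => by rw [hv5]
      rw [h3]
      exact hR 0 m0
    rw [dg_eq_of_sub_mem h1 le_rfl hδ1]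
    apply (Kn T4 δ hδ1 _).sub_mem
    · exact (dg_mono _ hδ1).trans (w5.av_le m0)
    · apply (Kn T4 δ hδ1 _).sum_mem
      intro n _
      apply (Kn T4 δ hδ1 _).mul_mem
      · rw [mem_Kn, hfree]
        exact bot_le
      · exact (dg_mono _ hδ1).trans (w5.av_le (e n))
  have g3 := κ.conn w5 hK5 g δ hδ.le hδ1 g1 g2
  rw [hg] at g3
  exact real_no_rel w5.q (κ.real w5 hK5) m0 e hm0 (l4 m0) hδ hδ1 (hfree m0) g3

end

end Pool.Agent.Helper38.NS
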