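import Pool.Agent.Helper38.NS.Dep
import Pool.Agent.Helper96.FLT.Rd

/-! Exact entropy calculus: extensions of spaces with changed depth come from extensions of the space. -/

set_option autoImplicit false

namespace Pool.Agent.Helper38.NS

open Filter Topology Pool.Agent.Helper69.RK
open Pool.Agent.Helper31.EC QS Sp

noncomputable section

variable {S T' : Sp} {κ : ℝ} {h0 : 0 < κ}

theorem uI_map (p : Pj T' (dp S κ h0)) (x : S.L) :
    (uI p).map (p.map (dL κ h0 x)) = dL κ h0 ((uP p).map x) := by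
  induction x using cl_ind
  rfl

theorem uI_qs (h1 : κ ≤ 1) (p : Pj T' (dp S κ h0)) (f : QS S) :
    (uI p).qs (p.qs (dQ κ h0 h1 f)) = dQ κ h0 h1 ((uP p).qs f) := by
  obtain ⟨f, rfl⟩ := mk_surj f
  rfl

theorem uS_VB (p : Pj T' (dp S κ h0)) {A : ∀ k, Setoid (T'.F k).Ω} (hA : T'.VB A) :
    (uS p).VB A := by
  obtain ⟨C, hC⟩ := hA
  refine ⟨C * κ, ?_⟩
  filter_upwards [hC] with k hk ω hω
  have h2 : C * κ * ((uS p).F k).n = C * (T'.F k).n := by
    show C * κ * ((T'.F k).n / κ) = _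
    field_simp
  rw [h2]
  exact hk ω hω

theorem uI_surj (p : Pj T' (dp S κ h0)) (X : T'.L) :
    ∃ Y : (uS p).L, dL κ h0 Y = (uI p).map X := by
  induction X using cl_ind with | _ A
  exact ⟨cl ⟨A.1, uS_VB p A.2⟩, rfl⟩

/-- lifting of functions, known to the same informations -/
theorem uI_lift (h1 : κ ≤ 1) (p : Pj T' (dp S κ h0)) (w : QS T') :
    ∃ v : QS (uS p), dQ κ h0 h1 v = (uI p).qs w ∧ dL κ h0 (dg v 1) = (uI p).map (dg w 1) := by
  obtain ⟨v0, hv0⟩ := dQ_surj κ h0 h1 ((uI p).qs w)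
  obtain ⟨v, hv, hd⟩ := Pool.Agent.Helper96.FLT.exists_rd v0 h0.le h1
  refine ⟨v, ?_, ?_⟩
  · rw [← hv0, ← sub_eq_zero, ← map_sub, dQ_eq_zero]
    have h2 := (Id (uS p) κ).neg_mem hv
    rw [neg_sub] at h2
    exact h2
  · rw [hd, ← (uI p).qs_dg, ← hv0, dQ_dg κ h0 h1 v0 le_rfl, mul_one]

theorem isUnit_dQ {S : Sp} {κ : ℝ} (h0 : 0 < κ) (h1 : κ ≤ 1) {f : QS S}
    (h : IsUnit (dQ κ h0 h1 f)) : IsUnit f := by
  obtain ⟨g, hg⟩ := h.exists_left_inv
  obtain ⟨g, rfl⟩ := dQ_surj κ h0 h1 g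
  apply isUnit_of_mod h0 (g := g)
  rw [← dQ_eq_zero κ h0 h1, map_sub, map_mul, hg, map_one, sub_self]

/-- informations on events -/
theorem H_undo (p : Pj T' (dp S κ h0)) (E : ∀ k, (T'.F k).Ω → Prop) (hE : 0 < ul (T'.pr E))
    (x : S.L) : H (restL E hE (p.map (dL κ h0 x))) =
      H (restL (S := uS p) E hE ((uP p).map x)) / κ := by
  induction x using cl_ind with | _ A
  show ul ((T'.rest E).rt (p.pb A.1) (T'.rest E).tr) =
    ul (((uS p).rest E).rt (p.pb A.1) ((uS p).rest E).tr) / κ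
  have h1 : (fun k => κ⁻¹ * ((uS p).rest E).rt (p.pb A.1) ((uS p).rest E).tr k) =
      (T'.rest E).rt (p.pb A.1) (T'.rest E).tr := by
    funext k
    show κ⁻¹ * (((T'.F k).rest (E k)).e (p.pb A.1 k) ((T'.rest E).tr k ⊓ ((T'.F k).rest (E k)).Z) /
      ((T'.F k).n / κ)) = ((T'.F k).rest (E k)).e (p.pb A.1 k) ((T'.rest E).tr k ⊓
        ((T'.F k).rest (E k)).Z) / (T'.F k).n
    have := (T'.F k).pos
    field_simp
  have h2 := ul_const_mul κ⁻¹ (UB_rt (restI (S := uS p) E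
    ⟨p.pb A.1, uS_VB p (p.vb_pb.mpr (chg_VB _ _ _ A.2))⟩) ((uS p).rest E).tr)
  exact (congrArg ul h1).symm.trans (h2.trans (div_eq_inv_mul _ _).symm)

theorem h_undo (p : Pj T' (dp S κ h0)) (E : ∀ k, (T'.F k).Ω → Prop) (hE : 0 < ul (T'.pr E))
    (x y : S.L) : Helper31.EC.h (restL E hE (p.map (dL κ h0 x))) (restL E hE (p.map (dL κ h0 y))) =
      Helper31.EC.h (restL (S := uS p) E hE ((uP p).map x)) (restL (S := uS p) E hE ((uP p).map y)) / κ := by
  unfold Helper31.EC.h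
  rw [← restL_sup, ← restL_sup, ← Pj.map_sup, ← Pj.map_sup, ← dL_sup, H_undo, H_undo, sub_div]

end

end Pool.Agent.Helper38.NS
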