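import Pool.Agent.Helper50.VR.Ur
import Pool.Agent.Helper70.FW.Res

/-! Exact entropy calculus: the structure `UR` on events. -/

set_option autoImplicit false

namespace Pool.Agent.Helper50.VR

open Filter Topology Pool.Agent.Helper69.RK
open Pool.Agent.Helper31.EC QS Sp Pool.Agent.Helper38.NS Pool.Agent.Helper70.FW Pool.Agent.Helper46.LIN

noncomputable section

variable {S : Sp} {ν : Type} [Fintype ν] {z : ν → QS S} {B : S.L} {ρ r : ℝ}

/-- property UR on events -/
theorem UR.rest (hu : UR S z B ρ r) (r1 : r ≤ 1) (E : ∀ k, (S.F k).Ω → Prop) (hE : 0 < ul (S.pr E)) :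
    UR (S.rest E) (fun i => QS.rest E hE (z i)) (restL E hE B) ρ r where
  U := by
    intro T p E2 hE2 k h0 h1
    have h2 := hu.U (lift p) (liftP p) (lE p E2) (lE_pos p E2 hE hE2) k h0 h1
    rw [QS.rest_vd, l_h p E2 hE hE2]
    exact h2
  Q := by
    intro T p X w a k h0 h1 h2 h3 h4
    classical
    have hD := gD_pos p hE
    obtain ⟨X', x1, x2⟩ := exists_unrest hD ((gJ p).map X)
    have hw := fun i => exists_glueQ hD ((gJ p).qs (w i)) (if i = a then 1 else 0)
    choose w' w1 w2 using hw
    obtain ⟨v, hv⟩ := h4.exists_left_inv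
    obtain ⟨v', v1, v2⟩ := exists_glueQ hD ((gJ p).qs v) 1
    have k1 : I ((liftP p).map (vd z k)) X' ((liftP p).map B) = 0 := by
      refine I_of_parts hD ?_ ?_
      · rw [← (gR p).I_map, gR_map p hE, gR_map p hE, x1, gR_gJ, ← QS.rest_vd]
        exact h2
      · intro hD'
        rw [x2 hD']
        exact I_zero_of_le_right bot_le
    have k2 : ∀ i, dg (w' i) 1 ≤ (liftP p).map B ⊔ X' := by
      intro i
      refine le_of_parts hD ?_ ?_
      · rw [← QS.rest_dg, w1 i, ← (gR p).map_le, restL_sup, (gR p).map_sup, gR_map p hE, x1, gR_gJ, ← Pj.qs_dg,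
          gR_gJ_qs]
        exact h3 i
      · intro hD'
        rw [← QS.rest_dg, w2 i hD']
        refine le_trans ?_ bot_le
        split_ifs
        · rw [map_one]
          exact (Kn _ 1 le_rfl _).one_mem
        · rw [map_zero]
          exact (Kn _ 1 le_rfl _).zero_mem
    have k3 : IsUnit (w' a) := by
      refine IsUnit.of_mul_eq_one v' (eq_of_parts hD ?_ ?_)
      · rw [map_mul, w1 a, v1, map_one, ← map_mul, mul_comm, hv, map_one]
      · intro hD'
        rw [map_mul, w2 a hD', v2 hD', if_pos rfl, map_one, mul_one]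
    have k4 := hu.Q (lift p) (liftP p) X' w' a k h0 h1 k1 k2 k3
    have k5 : Helper31.EC.h (restL (gD p) hD (vd (fun i => (liftP p).qs (z i) * w' a - (liftP p).qs (z a) * w' i) k))
        (restL (gD p) hD ((liftP p).map B ⊔ X')) = (Fintype.card ν - 1) * k := by
      refine Sp.h_rest_max (gD p) hD k4 ?_
      intro E' hE'
      have e1 : restL E' hE' (vd (fun i => (liftP p).qs (z i) * w' a - (liftP p).qs (z a) * w' i) k) =
          vd (fun i => QS.rest E' hE' ((liftP p).qs (z i)) * QS.rest E' hE' (w' a) -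
            QS.rest E' hE' ((liftP p).qs (z a)) * QS.rest E' hE' (w' i)) k := by
        rw [← QS.rest_vd]
        congr 1
        funext i
        rw [map_sub, map_mul, map_mul]
      rw [e1]
      have e5 := quot_card (fun i => QS.rest E' hE' ((liftP p).qs (z i))) (fun i => QS.rest E' hE' (w' i)) a
        (j := 0) (k := k) (Y := restL E' hE' ((liftP p).map B ⊔ X')) h0 (h1.trans r1)
        (by rw [vd_zero_level]; exact bot_le) (fun i => by
          rw [QS.rest_dg]
          exact restL_mono E' hE' (k2 i))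
      rw [sub_zero] at e5
      exact e5
    have e2 : (gR p).map (restL (gD p) hD (vd (fun i => (liftP p).qs (z i) * w' a - (liftP p).qs (z a) * w' i) k)) =
        vd (fun i => p.qs (QS.rest E hE (z i)) * w a - p.qs (QS.rest E hE (z a)) * w i) k := by
      rw [← QS.rest_vd, ← (gR p).qs_vd]
      congr 1
      funext i
      rw [map_sub, map_mul, map_mul, map_sub, map_mul, map_mul, gR_qs p hE, gR_qs p hE, w1, w1, gR_gJ_qs, gR_gJ_qs]
    have e3 : (gR p).map (restL (gD p) hD ((liftP p).map B ⊔ X')) = p.map (restL E hE B) ⊔ X := by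
      rw [restL_sup, (gR p).map_sup, gR_map p hE, x1, gR_gJ]
    rw [← (gR p).h_map, e2, e3] at k5
    exact k5

end

end Pool.Agent.Helper50.VR
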